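import Pool.Agent.NTR.Nets
import Pool.Agent.NTN.Maj

set_option autoImplicit false

/-!
# Networks whose nodes are the elements of a finite type
-/

namespace Pool.Agent.NLP

open Pool.Agent.TeleNeg Pool.Agent.NTR Pool.Agent.NTN Relation

/-- Joined by a closed contact, in one of the two directions. -/
def LinkedIn {V ι : Type} (C : Set (V × V × Option ι)) (x : ι → Bool) (a b : V) : Prop :=
  ∃ l : Option ι, ((a, b, l) ∈ C ∨ (b, a, l) ∈ C) ∧ ∀ e ∈ l, x e = true

/-- Joined by a closed contact. -/
def StepIn {V ι : Type} (C : Set (V × V × Option ι)) (x : ι → Bool) (a b : V) : Prop :=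
  ∃ l : Option ι, (a, b, l) ∈ C ∧ ∀ e ∈ l, x e = true

theorem val_iff {ι : Type} {S : ℕ} (N : Net ι S) (x : ι → Bool) :
    N.val x = true ↔ ReflTransGen (N.Linked x) N.src N.tgt := by
  simp only [Net.val, decide_eq_true_eq]
  rfl

theorem dval_iff {ι : Type} {S : ℕ} (N : Net ι S) (x : ι → Bool) :
    N.dval x = true ↔ ReflTransGen (N.Step x) N.src N.tgt := by
  simp only [Net.dval, decide_eq_true_eq]
  rfl

/-- A network whose nodes are the elements of a finite type. -/
theorem exists_net {V ι : Type} [Fintype V] (C : Set (V × V × Option ι)) (s t : V) {S : ℕ}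
    (hS : Fintype.card V ≤ S) :
    ∃ M : Net ι S, (∀ x, M.val x = true ↔ ReflTransGen (LinkedIn C x) s t) ∧
      ∀ x, M.dval x = true ↔ ReflTransGen (StepIn C x) s t := by
  classical
  let e := Fintype.equivFin V
  let M : Net ι (Fintype.card V) :=
    { contacts := {c | (e.symm c.1, e.symm c.2.1, c.2.2) ∈ C}
      src := e s
      tgt := e t }
  have hL : ∀ (x : ι → Bool) p q, M.Linked x p q ↔
      ∃ a b, p = e a ∧ q = e b ∧ LinkedIn C x a b := by
    intro x p q
    constructor
    · rintro ⟨l, h1, h2⟩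
      exact ⟨e.symm p, e.symm q, (e.apply_symm_apply p).symm, (e.apply_symm_apply q).symm,
        l, h1, h2⟩
    · rintro ⟨a, b, rfl, rfl, l, h1, h2⟩
      refine ⟨l, ?_, h2⟩
      show (e.symm (e a), e.symm (e b), l) ∈ C ∨ (e.symm (e b), e.symm (e a), l) ∈ C
      rwa [e.symm_apply_apply, e.symm_apply_apply]
  have hD : ∀ (x : ι → Bool) p q, M.Step x p q ↔
      ∃ a b, p = e a ∧ q = e b ∧ StepIn C x a b := by
    intro x p q
    constructor
    · rintro ⟨l, h1, h2⟩
      exact ⟨e.symm p, e.symm q, (e.apply_symm_apply p).symm, (e.apply_symm_apply q).symm,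
        l, h1, h2⟩
    · rintro ⟨a, b, rfl, rfl, l, h1, h2⟩
      refine ⟨l, ?_, h2⟩
      show (e.symm (e a), e.symm (e b), l) ∈ C
      rwa [e.symm_apply_apply, e.symm_apply_apply]
  refine ⟨padNet hS M, fun x => ?_, fun x => ?_⟩
  · rw [padNet_val, val_iff]
    exact lift_iff e e.injective (hL x) s t
  · rw [padNet_dval, dval_iff]
    exact lift_iff e e.injective (hD x) s t


end Pool.Agent.NLP
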