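import Pool.Agent.NLP.Defs
import Pool.Agent.NLP.ExNet

set_option autoImplicit false

/-!
# The lifted pebbling formula is recognised by a small directed network

The network guesses the vectors layer by layer; a node is a position `(i, t)` together with the
vectors of the layers `i - 1` and `i`.
-/

namespace Pool.Agent.NLP

open Finset Pool.Agent.XL Pool.Agent.NTR Pool.Agent.NTN Pool.Agent.TeleNeg Relation

/-- The nodes of the network: source, target, and a position together with the vectors of the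
previous layer and of the present layer. -/
private abbrev DN (w ℓ h : ℕ) : Type :=
  Option (Option (Fin ℓ × Fin (w + 1) × (Fin w → Fin h → ZMod 2) × (Fin w → Fin h → ZMod 2)))

/-- A position. -/
private abbrev dst {w ℓ h : ℕ} (i : Fin ℓ) (t : Fin (w + 1)) (U V : Fin w → Fin h → ZMod 2) :
    DN w ℓ h := some (some (i, t, U, V))

/-- The contacts of the network. -/
private def dC {w ℓ : ℕ} (h : ℕ) (nb : Fin w → Fin 16 → Fin w) (v : Fin w) :
    Set (DN w ℓ h × DN w ℓ h × Option (Bv (Option (Fin ℓ × Fin w)) h)) :=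
  {c | (∃ (i : Fin ℓ) (U V : Fin w → Fin h → ZMod 2), i.1 = 0 ∧ c = (none, dst i 0 U V, none)) ∨
    (∃ (i : Fin ℓ) (t : Fin w) (U V : Fin w → Fin h → ZMod 2),
      c = (dst i t.castSucc U V, dst i t.succ U V,
        some (some (i, t), fun d => if hd : d.1 < 16 then U (nb t ⟨d.1, hd⟩) else V t))) ∨
    (∃ (i i' : Fin ℓ) (U V V' : Fin w → Fin h → ZMod 2), i'.1 = i.1 + 1 ∧
      c = (dst i (Fin.last w) U V, dst i' 0 V V', none)) ∨
    ∃ (i : Fin ℓ) (U V : Fin w → Fin h → ZMod 2), i.1 = ℓ - 1 ∧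
      c = (dst i (Fin.last w) U V, some none, some (none, fun _ => V v))}

private theorem zmod_one {a : ZMod 2} (ha : a ≠ 0) : a = 1 := by
  revert ha; revert a; decide

section pos

variable {w ℓ h : ℕ} (nb : Fin w → Fin 16 → Fin w) (v₀ : Fin ℓ × Fin w)
  (W : Fin ℓ × Fin w → Fin h → ZMod 2)

/-- The vectors of the layer before `i` (the layer `0` for `i = 0`). -/
private def prevW (i : Fin ℓ) : Fin w → Fin h → ZMod 2 :=
  fun j => W (⟨i.1 - 1, lt_of_le_of_lt (Nat.sub_le _ _) i.2⟩, j)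

private theorem pos_step (i : Fin ℓ) (t : Fin w) :
    StepIn (dC h nb v₀.2) (posIn (pebSy nb v₀) W)
      (dst i t.castSucc (prevW W i) (fun j => W (i, j)))
      (dst i t.succ (prevW W i) (fun j => W (i, j))) := by
  refine ⟨_, Or.inr (Or.inl ⟨i, t, _, _, rfl⟩), ?_⟩
  intro e he
  obtain rfl := Option.mem_some_iff.1 he
  simp only [posIn, decide_eq_true_eq]
  funext d
  simp only [pebSy, prevW]
  by_cases hd : d.1 < 16
  · simp [hd]
  · simp [hd]

private theorem pos_row (i : Fin ℓ) (t : Fin (w + 1)) :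
    ReflTransGen (StepIn (dC h nb v₀.2) (posIn (pebSy nb v₀) W))
      (dst i 0 (prevW W i) (fun j => W (i, j)))
      (dst i t (prevW W i) (fun j => W (i, j))) := by
  induction t using Fin.induction with
  | zero => exact ReflTransGen.refl
  | succ t ih => exact ReflTransGen.tail ih (pos_step nb v₀ W i t)

private theorem pos_reach (n : ℕ) (hn : n < ℓ) :
    ReflTransGen (StepIn (dC h nb v₀.2) (posIn (pebSy nb v₀) W)) none
      (dst ⟨n, hn⟩ (Fin.last w) (prevW W ⟨n, hn⟩) (fun j => W (⟨n, hn⟩, j))) := by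
  induction n with
  | zero =>
    refine ReflTransGen.head ?_ (pos_row nb v₀ W ⟨0, hn⟩ (Fin.last w))
    exact ⟨none, Or.inl ⟨⟨0, hn⟩, _, _, rfl, rfl⟩, by simp⟩
  | succ n ih =>
    refine ReflTransGen.trans (ReflTransGen.tail (ih (by omega)) ?_)
      (pos_row nb v₀ W ⟨n + 1, hn⟩ (Fin.last w))
    have hn' : n < ℓ := by omega
    exact ⟨none, Or.inr (Or.inr (Or.inl ⟨⟨n, hn'⟩, ⟨n + 1, hn⟩, prevW W ⟨n, hn'⟩,
      fun j => W (⟨n, hn'⟩, j), fun j => W (⟨n + 1, hn⟩, j), rfl, rfl⟩)), by simp⟩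

private theorem pos_acc (hv : v₀.1.1 = ℓ - 1) :
    ReflTransGen (StepIn (dC h nb v₀.2) (posIn (pebSy nb v₀) W)) none (some none) := by
  have hl : ℓ - 1 < ℓ := by have := v₀.1.2; omega
  refine ReflTransGen.tail (pos_reach nb v₀ W (ℓ - 1) hl) ?_
  refine ⟨_, Or.inr (Or.inr (Or.inr ⟨⟨ℓ - 1, hl⟩, _, _, rfl, rfl⟩)), ?_⟩
  intro e he
  obtain rfl := Option.mem_some_iff.1 he
  simp only [posIn, decide_eq_true_eq]
  funext d
  simp only [pebSy]
  congr 1
  exact Prod.ext (Fin.ext hv) rfl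

end pos

section neg

variable {w ℓ h : ℕ} (nb : Fin w → Fin 16 → Fin w) (v₀ : Fin ℓ × Fin w)
  (x : Fin ℓ × Fin w → Fin h → ZMod 2)

/-- The invariant on a negative input. -/
private def Inv : DN w ℓ h → Prop
  | none => True
  | some none => False
  | some (some (i, t, U, V)) =>
      (i.1 ≠ 0 → ∀ j, dt (U j) (x (⟨i.1 - 1, lt_of_le_of_lt (Nat.sub_le _ _) i.2⟩, j)) = 1) ∧
        ∀ j : Fin w, j.1 < t.1 → dt (V j) (x (i, j)) = 1

private theorem inv_step (hv : v₀.1.1 = ℓ - 1) {a b : DN w ℓ h}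
    (hs : StepIn (dC h nb v₀.2) (negI (pebSy nb v₀) x) a b) (ha : Inv x a) : Inv x b := by
  obtain ⟨l, hl, hx⟩ := hs
  rcases hl with ⟨i, U, V, hi, he⟩ | ⟨i, t, U, V, he⟩ | ⟨i, i', U, V, V', hi, he⟩ |
    ⟨i, U, V, hi, he⟩
  · simp only [Prod.mk.injEq] at he
    obtain ⟨rfl, rfl, rfl⟩ := he
    refine ⟨fun h0 => absurd hi h0, fun j hj => absurd hj (by simp)⟩
  · simp only [Prod.mk.injEq] at he
    obtain ⟨rfl, rfl, rfl⟩ := he
    have h1 := hx _ rfl
    simp only [negI, decide_eq_true_eq, pebSy] at h1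
    refine ⟨ha.1, fun j hj => ?_⟩
    rcases Nat.lt_succ_iff_lt_or_eq.1 (by simpa using hj : j.1 < t.1 + 1) with hj' | hj'
    · exact ha.2 j (by simpa using hj')
    · have hjt : j = t := Fin.ext hj'
      subst hjt
      refine zmod_one fun h0 => h1 ⟨fun hi c hc => ?_, ?_⟩
      · simp only [hc, dif_pos]
        exact ha.1 hi _
      · simpa using h0
  · simp only [Prod.mk.injEq] at he
    obtain ⟨rfl, rfl, rfl⟩ := he
    refine ⟨fun _ j => ?_, fun j hj => absurd hj (by simp)⟩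
    have h2 := ha.2 j (by simp)
    have h3 : (⟨i'.1 - 1, lt_of_le_of_lt (Nat.sub_le _ _) i'.2⟩ : Fin ℓ) = i :=
      Fin.ext (by simp [hi])
    rw [h3]
    exact h2
  · simp only [Prod.mk.injEq] at he
    obtain ⟨rfl, rfl, rfl⟩ := he
    have h1 := hx _ rfl
    simp only [negI, decide_eq_true_eq, pebSy] at h1
    have h2 := ha.2 v₀.2 (by simp)
    have h3 : (i, v₀.2) = v₀ := Prod.ext (Fin.ext (by rw [hi, hv])) rfl
    rw [h3] at h2
    exact h1 h2

end neg

theorem exists_dnet {w ℓ h : ℕ} (nb : Fin w → Fin 16 → Fin w) (v₀ : Fin ℓ × Fin w)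
    (hv : v₀.1.1 = ℓ - 1) :
    ∃ N : Net (Bv (Option (Fin ℓ × Fin w)) h) (ℓ * (w + 1) * 2 ^ (2 * w * h) + 2),
      (∀ W, N.dval (posIn (pebSy nb v₀) W) = true) ∧
        ∀ x, N.dval (negI (pebSy nb v₀) x) = false := by
  have hc : Fintype.card (DN w ℓ h) ≤ ℓ * (w + 1) * 2 ^ (2 * w * h) + 2 := by
    have : 2 * w * h = h * w + h * w := by ring
    rw [this, pow_add]
    simp only [Fintype.card_option, Fintype.card_prod, Fintype.card_fin, Fintype.card_fun,
      ZMod.card, pow_mul, ← mul_assoc]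
    exact le_rfl
  obtain ⟨N, -, hN⟩ := exists_net (dC h nb v₀.2 : Set (DN w ℓ h × DN w ℓ h × _)) none (some none) hc
  refine ⟨N, fun W => (hN _).2 (pos_acc nb v₀ W hv), fun x => ?_⟩
  by_contra hne
  have h1 := (hN _).1 (by simpa using hne)
  have h2 : ∀ b : DN w ℓ h, ReflTransGen (StepIn (dC h nb v₀.2) (negI (pebSy nb v₀) x)) none b →
      Inv x b := by
    intro b hb
    induction hb with
    | refl => trivial
    | tail _ hs ih => exact inv_step nb v₀ x hv hs ih
  exact h2 _ h1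

end Pool.Agent.NLP
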