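import Pool.Agent.NLP.Defs

set_option autoImplicit false

/-! # The functional of a function of sets -/

namespace Pool.Agent.NLP

open Finset Pool.Agent.XL
open scoped BigOperators

/-- the indicator of a set -/
def ind {V : Type} [DecidableEq V] (S : Finset V) (j : V) : ZMod 2 := if j ∈ S then 1 else 0

open Classical in
/-- the functional of a function of sets -/
noncomputable def moeb {V : Type} [Fintype V] (lam : Finset V → ℚ) (z : V → ZMod 2) : ℚ :=
  ∑ S : Finset V with (univ.filter fun j => z j = 1) ⊆ S,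
    (-1) ^ (S.card - (univ.filter fun j => z j = 1).card) * lam S

private theorem zmod_cases (a : ZMod 2) : a = 0 ∨ a = 1 := by
  revert a
  decide

open Classical in
/-- the vectors are the sets -/
private noncomputable def suppE (V : Type) [Fintype V] : (V → ZMod 2) ≃ Finset V where
  toFun z := univ.filter fun j => z j = 1
  invFun S j := if j ∈ S then 1 else 0
  left_inv z := by
    funext j
    rcases zmod_cases (z j) with h | h
    · simp [h]
    · simp [h]
  right_inv S := by
    ext j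
    simp

open Classical in
private theorem alt {V : Type} [Fintype V] (P S : Finset V) :
    (∑ Z : Finset V, if P ⊆ Z ∧ Z ⊆ S then (-1 : ℚ) ^ (S.card - Z.card) else 0) =
      if S = P then 1 else 0 := by
  rw [← sum_filter]
  by_cases h : P ⊆ S
  · have h1 : (∑ Z : Finset V with P ⊆ Z ∧ Z ⊆ S, (-1 : ℚ) ^ (S.card - Z.card)) =
        ∑ W ∈ (S \ P).powerset, (-1 : ℚ) ^ W.card := by
      refine sum_bij' (fun Z _ => S \ Z) (fun W _ => S \ W) ?_ ?_ ?_ ?_ ?_
      · intro Z hZ
        rw [mem_filter] at hZ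
        rw [mem_powerset]
        exact sdiff_subset_sdiff subset_rfl hZ.2.1
      · intro W hW
        rw [mem_powerset] at hW
        rw [mem_filter]
        refine ⟨mem_univ _, fun j hj => ?_, sdiff_subset⟩
        rw [mem_sdiff]
        exact ⟨h hj, fun hjW => (mem_sdiff.1 (hW hjW)).2 hj⟩
      · intro Z hZ
        rw [mem_filter] at hZ
        exact Finset.sdiff_sdiff_eq_self hZ.2.2
      · intro W hW
        rw [mem_powerset] at hW
        exact Finset.sdiff_sdiff_eq_self (hW.trans sdiff_subset)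
      · intro Z hZ
        rw [mem_filter] at hZ
        rw [card_sdiff_of_subset hZ.2.2]
    rw [h1]
    have h2 := sum_powerset_neg_one_pow_card (x := S \ P)
    have h3 : (∑ W ∈ (S \ P).powerset, (-1 : ℚ) ^ W.card) =
        ((∑ W ∈ (S \ P).powerset, (-1 : ℤ) ^ W.card : ℤ) : ℚ) := by push_cast; rfl
    rw [h3, h2]
    by_cases h4 : S = P
    · simp [h4]
    · have h5 : S \ P ≠ ∅ := fun h6 => h4 (subset_antisymm (sdiff_eq_empty_iff_subset.1 h6) h)
      simp [h4, h5]
  · have h1 : S ≠ P := fun h2 => h (h2 ▸ subset_rfl)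
    rw [if_neg h1]
    refine sum_eq_zero fun Z hZ => ?_
    rw [mem_filter] at hZ
    exact absurd (hZ.2.1.trans hZ.2.2) h

open Classical in
theorem moeb_sum {V : Type} [Fintype V] (lam : Finset V → ℚ) (P : Finset V) :
    ∑ z with (∀ j ∈ P, z j = (1 : ZMod 2)), moeb lam z = lam P := by
  have h1 : (∑ z with (∀ j ∈ P, z j = (1 : ZMod 2)), moeb lam z) =
      ∑ z : V → ZMod 2, (fun Z : Finset V => if P ⊆ Z then
        ∑ S : Finset V with Z ⊆ S, (-1) ^ (S.card - Z.card) * lam S else 0) (suppE V z) := by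
    rw [sum_filter]
    refine sum_congr rfl fun z _ => ?_
    have h2 : (∀ j ∈ P, z j = (1 : ZMod 2)) ↔ P ⊆ suppE V z := by
      constructor
      · intro h j hj
        exact mem_filter.2 ⟨mem_univ _, h j hj⟩
      · intro h j hj
        exact (mem_filter.1 (h hj)).2
    by_cases h3 : P ⊆ suppE V z
    · rw [if_pos (h2.2 h3)]
      simp only [h3, if_true]
      rfl
    · rw [if_neg (fun h => h3 (h2.1 h))]
      simp only [h3, if_false]
  rw [h1, (suppE V).sum_comp (fun Z : Finset V => if P ⊆ Z then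
    ∑ S : Finset V with Z ⊆ S, (-1) ^ (S.card - Z.card) * lam S else 0)]
  have h2 : ∀ Z : Finset V, (if P ⊆ Z then
      ∑ S : Finset V with Z ⊆ S, (-1) ^ (S.card - Z.card) * lam S else 0) =
      ∑ S : Finset V, (if P ⊆ Z ∧ Z ⊆ S then (-1 : ℚ) ^ (S.card - Z.card) else 0) * lam S := by
    intro Z
    by_cases h3 : P ⊆ Z
    · rw [if_pos h3, sum_filter]
      refine sum_congr rfl fun S _ => ?_
      by_cases h4 : Z ⊆ S
      · rw [if_pos h4, if_pos ⟨h3, h4⟩]
      · rw [if_neg h4, if_neg (fun h => h4 h.2), zero_mul]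
    · rw [if_neg h3]
      refine (sum_eq_zero fun S _ => ?_).symm
      rw [if_neg (fun h => h3 h.1), zero_mul]
  simp only [h2]
  rw [sum_comm]
  simp only [← sum_mul, alt]
  rw [sum_eq_single P]
  · rw [if_pos rfl, one_mul]
  · intro S _ hS
    rw [if_neg hS, zero_mul]
  · intro h
    exact absurd (mem_univ _) h

open Classical in
private theorem prod_chi {V : Type} (z : V → ZMod 2) (A : Finset V) :
    ∏ j ∈ A, chi ℚ (z j) =
      ∑ B ∈ A.powerset, if ∀ j ∈ B, z j = 1 then (-2 : ℚ) ^ B.card else 0 := by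
  have h1 : ∀ j, chi ℚ (z j) = 1 + if z j = 1 then (-2 : ℚ) else 0 := by
    intro j
    rcases zmod_cases (z j) with h | h
    · rw [h, chi_zero]
      simp
    · rw [h, chi_of_ne ℚ one_ne_zero]
      norm_num
  simp only [h1]
  rw [prod_one_add]
  refine sum_congr rfl fun B _ => ?_
  rw [prod_ite_zero, prod_const]

open Classical in
/-- the Fourier coefficients of the functional, restricted to `P = 1`, `u = 0` -/
theorem moeb_fourier {V : Type} [Fintype V] (lam : Finset V → ℚ) (P : Finset V) (u : V)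
    (A : Finset V) (hl : ∀ B ⊆ A, lam (B ∪ P) = lam (insert u (B ∪ P))) :
    ∑ z with ((∀ j ∈ P, z j = (1 : ZMod 2)) ∧ z u = 0), moeb lam z * ∏ j ∈ A, chi ℚ (z j) = 0 := by
  simp only [prod_chi, mul_sum]
  rw [sum_comm]
  refine sum_eq_zero fun B hB => ?_
  have h1 : ∀ z : V → ZMod 2, (∀ j ∈ B ∪ P, z j = 1) ↔ (∀ j ∈ P, z j = 1) ∧ ∀ j ∈ B, z j = 1 := by
    intro z
    constructor
    · intro h
      exact ⟨fun j hj => h j (mem_union_right _ hj), fun j hj => h j (mem_union_left _ hj)⟩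
    · rintro ⟨h, h'⟩ j hj
      rcases mem_union.1 hj with hj | hj
      · exact h' j hj
      · exact h j hj
  have h2 : ∀ z : V → ZMod 2, (∀ j ∈ insert u (B ∪ P), z j = 1) ↔
      z u = 1 ∧ ∀ j ∈ B ∪ P, z j = 1 := by
    intro z
    simp only [mem_insert, forall_eq_or_imp]
  have h3 := moeb_sum lam (B ∪ P)
  have h4 := moeb_sum lam (insert u (B ∪ P))
  rw [sum_filter] at h3 h4 ⊢
  have h5 : (∑ z : V → ZMod 2, if (∀ j ∈ P, z j = 1) ∧ z u = 0 then
      moeb lam z * (if ∀ j ∈ B, z j = 1 then (-2 : ℚ) ^ B.card else 0) else 0) =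
      ((∑ z : V → ZMod 2, if (∀ j ∈ B ∪ P, z j = 1) then moeb lam z else 0) -
        ∑ z : V → ZMod 2, if (∀ j ∈ insert u (B ∪ P), z j = 1) then moeb lam z else 0) *
        (-2 : ℚ) ^ B.card := by
    rw [← sum_sub_distrib, sum_mul]
    refine sum_congr rfl fun z _ => ?_
    by_cases hP : ∀ j ∈ P, z j = 1
    · by_cases hBz : ∀ j ∈ B, z j = 1
      · have hBP : ∀ j ∈ B ∪ P, z j = 1 := (h1 z).2 ⟨hP, hBz⟩
        rcases zmod_cases (z u) with hu | hu
        · have hn : ¬ ∀ j ∈ insert u (B ∪ P), z j = 1 := fun h => by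
            have h6 := ((h2 z).1 h).1
            rw [hu] at h6
            exact zero_ne_one h6
          rw [if_pos ⟨hP, hu⟩, if_pos hBz, if_pos hBP, if_neg hn, sub_zero]
        · have hn : ∀ j ∈ insert u (B ∪ P), z j = 1 := (h2 z).2 ⟨hu, hBP⟩
          have hn' : ¬ ((∀ j ∈ P, z j = 1) ∧ z u = 0) := fun h => by
            have h6 := h.2
            rw [hu] at h6
            exact one_ne_zero h6
          rw [if_neg hn', if_pos hBP, if_pos hn, sub_self, zero_mul]
      · have hBP : ¬ ∀ j ∈ B ∪ P, z j = 1 := fun h => hBz ((h1 z).1 h).2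
        have hn : ¬ ∀ j ∈ insert u (B ∪ P), z j = 1 := fun h => hBP ((h2 z).1 h).2
        rw [if_neg hBz, mul_zero, ite_self, if_neg hBP, if_neg hn, sub_zero, zero_mul]
    · have hBP : ¬ ∀ j ∈ B ∪ P, z j = 1 := fun h => hP ((h1 z).1 h).1
      have hn : ¬ ∀ j ∈ insert u (B ∪ P), z j = 1 := fun h => hBP ((h2 z).1 h).2
      have hn' : ¬ ((∀ j ∈ P, z j = 1) ∧ z u = 0) := fun h => hP h.1
      rw [if_neg hn', if_neg hBP, if_neg hn, sub_zero, zero_mul]
  rw [mem_powerset] at hB
  rw [h3, h4, hl B hB, sub_self, zero_mul] at h5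
  convert h5

open Classical in
theorem moeb_fourier' {V : Type} [Fintype V] (lam : Finset V → ℚ) (u : V)
    (A : Finset V) (hl : ∀ B ⊆ A, lam (insert u B) = 0) :
    ∑ z with z u = (1 : ZMod 2), moeb lam z * ∏ j ∈ A, chi ℚ (z j) = 0 := by
  simp only [prod_chi, mul_sum]
  rw [sum_comm]
  refine sum_eq_zero fun B hB => ?_
  have h2 : ∀ z : V → ZMod 2, (∀ j ∈ insert u B, z j = 1) ↔ z u = 1 ∧ ∀ j ∈ B, z j = 1 := by
    intro z
    simp only [mem_insert, forall_eq_or_imp]
  have h4 := moeb_sum lam (insert u B)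
  rw [sum_filter] at h4 ⊢
  have h5 : (∑ z : V → ZMod 2, if z u = 1 then
      moeb lam z * (if ∀ j ∈ B, z j = 1 then (-2 : ℚ) ^ B.card else 0) else 0) =
      (∑ z : V → ZMod 2, if (∀ j ∈ insert u B, z j = 1) then moeb lam z else 0) *
        (-2 : ℚ) ^ B.card := by
    rw [sum_mul]
    refine sum_congr rfl fun z _ => ?_
    by_cases hu : z u = 1
    · by_cases hBz : ∀ j ∈ B, z j = 1
      · rw [if_pos hu, if_pos hBz, if_pos ((h2 z).2 ⟨hu, hBz⟩)]
      · rw [if_neg hBz, mul_zero, ite_self, if_neg (fun h => hBz ((h2 z).1 h).2), zero_mul]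
    · rw [if_neg hu, if_neg (fun h => hu ((h2 z).1 h).1), zero_mul]
  rw [mem_powerset] at hB
  rw [h4, hl B hB, zero_mul] at h5
  convert h5

end Pool.Agent.NLP
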