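import Pool.Agent.NLP.Peb
import Pool.Agent.NLP.Moeb

set_option autoImplicit false

/-!
# The functional of the pebbling formula
-/

namespace Pool.Agent.NLP

open Finset Pool.Agent.XL
open scoped BigOperators

/-- a configuration as a set of pairs of numbers and nodes -/
def emb {ℓ w : ℕ} (S : Finset (Fin ℓ × Fin w)) : Finset (ℕ × Fin w) :=
  S.map ⟨fun u => (u.1.1, u.2), fun a b h => by
    have h1 := congrArg Prod.fst h
    have h2 := congrArg Prod.snd h
    exact Prod.ext (Fin.ext h1) h2⟩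

theorem mem_emb {ℓ w : ℕ} {S : Finset (Fin ℓ × Fin w)} {u : ℕ × Fin w} :
    u ∈ emb S ↔ ∃ h : u.1 < ℓ, ((⟨u.1, h⟩ : Fin ℓ), u.2) ∈ S := by
  unfold emb
  rw [Finset.mem_map]
  constructor
  · rintro ⟨v, hv, rfl⟩
    exact ⟨v.1.2, hv⟩
  · rintro ⟨h, hu⟩
    exact ⟨_, hu, rfl⟩

theorem emb_lt {ℓ w : ℕ} {S : Finset (Fin ℓ × Fin w)} {u : ℕ × Fin w} (h : u ∈ emb S) :
    u.1 < ℓ := (mem_emb.1 h).1

theorem mem_emb' {ℓ w : ℕ} {S : Finset (Fin ℓ × Fin w)} {u : Fin ℓ × Fin w} :
    (u.1.1, u.2) ∈ emb S ↔ u ∈ S := by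
  rw [mem_emb]
  constructor
  · rintro ⟨h, hu⟩
    exact hu
  · intro hu
    exact ⟨u.1.2, hu⟩

/-- the configuration can be reached with less than `K` pebbles -/
def Reach {w : ℕ} (nb : Fin w → Fin 16 → Fin w) (ℓ K : ℕ) (S : Finset (Fin ℓ × Fin w)) : Prop :=
  ∃ (T : ℕ) (C : ℕ → Finset (ℕ × Fin w)), C 0 = ∅ ∧ (∀ n < T, Stp nb 0 (C n) (C (n + 1))) ∧
    (∀ n ≤ T, (C n).card < K) ∧ (∀ n ≤ T, ∀ u ∈ C n, u.1 < ℓ) ∧ C T = emb S

theorem Reach.step {w : ℕ} {nb : Fin w → Fin 16 → Fin w} {ℓ K : ℕ}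
    {S S' : Finset (Fin ℓ × Fin w)} (h : Reach nb ℓ K S) (hs : Stp nb 0 (emb S) (emb S'))
    (hc : S'.card < K) : Reach nb ℓ K S' := by
  obtain ⟨T, C, h0, h1, h2, h3, h4⟩ := h
  have hC : ∀ n, n ≤ T → (fun n => if n ≤ T then C n else emb S') n = C n := fun n hn => if_pos hn
  have hC' : (fun n => if n ≤ T then C n else emb S') (T + 1) = emb S' := if_neg (by omega)
  refine ⟨T + 1, fun n => if n ≤ T then C n else emb S', ?_, fun n hn => ?_, fun n hn => ?_,
    fun n hn => ?_, hC'⟩
  · rw [hC 0 (Nat.zero_le _), h0]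
  · rcases Nat.lt_succ_iff_lt_or_eq.1 hn with h5 | rfl
    · rw [hC n h5.le, hC (n + 1) h5]
      exact h1 n h5
    · rw [hC n le_rfl, hC', h4]
      exact hs
  · rcases Nat.lt_or_ge T n with h5 | h5
    · obtain rfl : n = T + 1 := by omega
      rw [hC']
      unfold emb
      rw [Finset.card_map]
      exact hc
    · rw [hC n h5]
      exact h2 n h5
  · rcases Nat.lt_or_ge T n with h5 | h5
    · obtain rfl : n = T + 1 := by omega
      rw [hC']
      exact fun u hu => emb_lt hu
    · rw [hC n h5]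
      exact h3 n h5

theorem Reach.empty {w : ℕ} {nb : Fin w → Fin 16 → Fin w} {ℓ K : ℕ} (hK : 0 < K) :
    Reach nb ℓ K ∅ := by
  refine ⟨0, fun _ => ∅, rfl, fun n hn => absurd hn (Nat.not_lt_zero _), fun n _ => ?_,
    fun n _ u hu => ?_, ?_⟩
  · rw [Finset.card_empty]
    exact hK
  · exact absurd hu (Finset.notMem_empty _)
  · unfold emb
    rw [Finset.map_empty]

open Classical in
theorem moeb_sum_univ {V : Type} [Fintype V] (lam : Finset V → ℚ) :
    ∑ z : V → ZMod 2, moeb lam z = lam ∅ := by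
  have h1 := moeb_sum lam ∅
  refine Eq.trans (Finset.sum_congr ?_ fun _ _ => rfl) h1
  exact (Finset.filter_true_of_mem fun z _ j hj => absurd hj (Finset.notMem_empty _)).symm

theorem moeb_sum_i {V : Type} [Fintype V] [dec : DecidableEq V] (lam : Finset V → ℚ) :
    ∑ z : V → ZMod 2, moeb lam z = lam ∅ := by
  have h0 : dec = fun a b => Classical.propDecidable (a = b) := Subsingleton.elim _ _
  subst h0
  exact moeb_sum_univ lam

open Classical in
theorem moeb_fourier_i {V : Type} [Fintype V] [dec : DecidableEq V] (lam : Finset V → ℚ)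
    (P : Finset V) (u : V) (A : Finset V)
    (hl : ∀ B ⊆ A, lam (B ∪ P) = lam (insert u (B ∪ P))) (Q : (V → ZMod 2) → Prop)
    (hQ : ∀ z, Q z ↔ (∀ j ∈ P, z j = (1 : ZMod 2)) ∧ z u = 0) :
    ∑ z with Q z, moeb lam z * ∏ j ∈ A, chi ℚ (z j) = 0 := by
  have h0 : dec = fun a b => Classical.propDecidable (a = b) := Subsingleton.elim _ _
  subst h0
  rw [← moeb_fourier lam P u A hl]
  refine Finset.sum_congr ?_ fun _ _ => rfl
  ext z
  rw [Finset.mem_filter, Finset.mem_filter, hQ]

open Classical in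
theorem moeb_fourier_i' {V : Type} [Fintype V] [dec : DecidableEq V] (lam : Finset V → ℚ)
    (u : V) (A : Finset V) (hl : ∀ B ⊆ A, lam (insert u B) = 0) (Q : (V → ZMod 2) → Prop)
    (hQ : ∀ z, Q z ↔ z u = (1 : ZMod 2)) :
    ∑ z with Q z, moeb lam z * ∏ j ∈ A, chi ℚ (z j) = 0 := by
  have h0 : dec = fun a b => Classical.propDecidable (a = b) := Subsingleton.elim _ _
  subst h0
  rw [← moeb_fourier' lam u A hl]
  refine Finset.sum_congr ?_ fun _ _ => rfl
  ext z
  rw [Finset.mem_filter, Finset.mem_filter, hQ]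

theorem exists_dual {w θ k ℓ D : ℕ} {nb : Fin w → Fin 16 → Fin w} (hnb : Expands nb (4 * θ))
    (hk : 4 ≤ k) (hθ : 1 ≤ θ) (hl : ℓ = 8 * θ * 2 ^ (k - 4)) (v₀ : Fin ℓ × Fin w)
    (hv : v₀.1.1 = ℓ - 1) (hD : D + 17 ≤ k * θ) : ∃ μ, Dual (pebSy nb v₀) D μ := by
  classical
  -- the number of pebbles
  have hK : 0 < k * θ := by omega
  have hcase : ∀ S : Finset (Fin ℓ × Fin w), v₀ ∈ S → ¬ Reach nb ℓ (k * θ) S := by
    rintro S hS ⟨T, C, h0, h1, h2, h3, h4⟩
    have h5 := peb hnb hk T C h0 h1 h2 (by rw [← hl]; exact h3) v₀.2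
    apply h5
    rw [h4, ← hl, ← hv]
    exact mem_emb'.2 hS
  obtain ⟨lam, hlam⟩ : ∃ lam : Finset (Fin ℓ × Fin w) → ℚ, lam = fun S =>
    if Reach nb ℓ (k * θ) S then 1 else 0 := ⟨_, rfl⟩
  have hlam1 : ∀ S, Reach nb ℓ (k * θ) S → lam S = 1 := by
    intro S hS
    rw [hlam]
    exact if_pos hS
  have hlam0 : ∀ S, ¬ Reach nb ℓ (k * θ) S → lam S = 0 := by
    intro S hS
    rw [hlam]
    exact if_neg hS
  refine ⟨moeb lam, ?_, ?_⟩
  · rw [moeb_sum_i, hlam1 ∅ (Reach.empty hK)]
  · rintro (_ | u) A hA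
    · exact moeb_fourier_i' lam v₀ A (fun B _ => hlam0 _ (hcase _ (Finset.mem_insert_self _ _)))
        _ fun z => Iff.rfl
    · -- the predecessors
      obtain ⟨P, hP⟩ : ∃ P : Finset (Fin ℓ × Fin w), P = if u.1.1 ≠ 0 then
        univ.image (fun c : Fin 16 =>
          ((⟨u.1.1 - 1, lt_of_le_of_lt (Nat.sub_le _ _) u.1.2⟩ : Fin ℓ), nb u.2 c)) else ∅ :=
        ⟨_, rfl⟩
      have hPc : P.card ≤ 16 := by
        rw [hP]
        split_ifs
        · exact Finset.card_image_le.trans (by rw [Finset.card_univ, Fintype.card_fin])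
        · simp
      have hPu : u.1.1 ≠ 0 → ∀ c : Fin 16,
          ((⟨u.1.1 - 1, lt_of_le_of_lt (Nat.sub_le _ _) u.1.2⟩ : Fin ℓ), nb u.2 c) ∈ P := by
        intro h c
        rw [hP, if_pos h]
        exact Finset.mem_image_of_mem _ (Finset.mem_univ c)
      have hbad : ∀ z : Fin ℓ × Fin w → ZMod 2,
          (pebSy nb v₀).bad (some u) (fun c => z ((pebSy nb v₀).vars (some u) c)) ↔
            (∀ j ∈ P, z j = 1) ∧ z u = 0 := by
        intro z
        constructor
        · rintro ⟨h1, h2⟩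
          refine ⟨fun j hj => ?_, h2⟩
          rw [hP] at hj
          split_ifs at hj with h3
          · obtain ⟨c, -, rfl⟩ := Finset.mem_image.1 hj
            have h4 := h1 h3 (Fin.castLT c (by omega)) (by exact c.2)
            have h5 : (pebSy nb v₀).vars (some u) (Fin.castLT c (by omega)) =
                ((⟨u.1.1 - 1, lt_of_le_of_lt (Nat.sub_le _ _) u.1.2⟩ : Fin ℓ), nb u.2 c) := by
              unfold pebSy
              exact dif_pos c.2
            beta_reduce at h4
            rw [h5] at h4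
            exact h4
          · exact absurd hj (Finset.notMem_empty _)
        · rintro ⟨h1, h2⟩
          refine ⟨fun h3 c hc => ?_, h2⟩
          have h5 : (pebSy nb v₀).vars (some u) c =
              ((⟨u.1.1 - 1, lt_of_le_of_lt (Nat.sub_le _ _) u.1.2⟩ : Fin ℓ),
                nb u.2 ⟨c.1, hc⟩) := by
            unfold pebSy
            exact dif_pos hc
          beta_reduce
          rw [h5]
          exact h1 _ (hPu h3 _)
      refine moeb_fourier_i lam P u A ?_ _ hbad
      · intro B hB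
        have hBc : (B ∪ P).card < k * θ ∧ (insert u (B ∪ P)).card < k * θ := by
          have h2 := Finset.card_le_card hB
          have h3 := Finset.card_union_le B P
          have h4 := Finset.card_insert_le u (B ∪ P)
          omega
        have hst : ∀ C C' : Finset (Fin ℓ × Fin w), P ⊆ C → (∀ v, v ≠ u → (v ∈ C ↔ v ∈ C')) →
            Stp nb 0 (emb C) (emb C') := by
          intro C C' hPC hCC
          refine Or.inr ⟨(u.1.1, u.2), fun v hv => ?_, fun hu c => ?_⟩
          · rw [mem_emb, mem_emb]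
            constructor
            · rintro ⟨h, h'⟩
              refine ⟨h, (hCC _ ?_).1 h'⟩
              intro h2
              apply hv
              rw [← h2]
            · rintro ⟨h, h'⟩
              refine ⟨h, (hCC _ ?_).2 h'⟩
              intro h2
              apply hv
              rw [← h2]
          · exact mem_emb'.2 (hPC (hPu (Nat.pos_iff_ne_zero.1 hu) c))
        have hins : ∀ v, v ≠ u → (v ∈ B ∪ P ↔ v ∈ insert u (B ∪ P)) := by
          intro v hv
          rw [Finset.mem_insert]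
          constructor
          · exact Or.inr
          · rintro (h | h)
            · exact absurd h hv
            · exact h
        have hiff : Reach nb ℓ (k * θ) (B ∪ P) ↔ Reach nb ℓ (k * θ) (insert u (B ∪ P)) := by
          constructor
          · intro h
            exact h.step (hst _ _ Finset.subset_union_right hins) hBc.2
          · intro h
            exact h.step (hst _ _ (Finset.subset_union_right.trans (Finset.subset_insert _ _))
              fun v hv => (hins v hv).symm) hBc.1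
        by_cases h : Reach nb ℓ (k * θ) (B ∪ P)
        · rw [hlam1 _ h, hlam1 _ (hiff.1 h)]
        · rw [hlam0 _ h, hlam0 _ fun h' => h (hiff.2 h')]

end Pool.Agent.NLP
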