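import Pool.Agent.NLP.Defs
import Pool.Agent.XL.Rank

set_option autoImplicit false

/-!
# NLP/LitRank: the measure of a variable of a block
-/

namespace Pool.Agent.NLP

open Finset Pool.Agent.XL

theorem one_add_chi (a : ZMod 2) : 1 + chi ℚ a = if a = 0 then 2 else 0 := by
  unfold chi
  split_ifs <;> norm_num

/-- Fourier inversion. -/
theorem inversion {V : Type} [Fintype V] [DecidableEq V] (Q : (V → ZMod 2) → ℚ)
    (z : V → ZMod 2) :
    ∑ A : Finset V, (∑ y, Q y * ∏ j ∈ A, chi ℚ (y j)) * ∏ j ∈ A, chi ℚ (z j) =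
      2 ^ Fintype.card V * Q z := by
  have h1 : ∀ A : Finset V, (∑ y, Q y * ∏ j ∈ A, chi ℚ (y j)) * ∏ j ∈ A, chi ℚ (z j) =
      ∑ y, Q y * ∏ j ∈ A, chi ℚ (y j + z j) := by
    intro A
    rw [Finset.sum_mul]
    refine Finset.sum_congr rfl fun y _ => ?_
    rw [mul_assoc, ← Finset.prod_mul_distrib]
    refine congrArg _ (Finset.prod_congr rfl fun j _ => ?_)
    rw [chi_add]
  simp only [h1]
  rw [Finset.sum_comm]
  have h2 : ∀ y : V → ZMod 2, ∑ A : Finset V, Q y * ∏ j ∈ A, chi ℚ (y j + z j) =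
      if y = z then 2 ^ Fintype.card V * Q z else 0 := by
    intro y
    rw [← Finset.mul_sum]
    have h3 : ∑ A : Finset V, ∏ j ∈ A, chi ℚ (y j + z j) = ∏ j, (1 + chi ℚ (y j + z j)) := by
      rw [Finset.prod_one_add, Finset.powerset_univ]
    rw [h3]
    split_ifs with h
    · rw [h]
      have h4 : ∀ j, 1 + chi ℚ (z j + z j) = 2 := by
        intro j
        rw [zmod_add_self, one_add_chi, if_pos rfl]
      rw [Finset.prod_congr rfl fun j _ => h4 j, Finset.prod_const, Finset.card_univ]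
      ring
    · obtain ⟨j, hj⟩ := Function.ne_iff.1 h
      rw [Finset.prod_eq_zero (Finset.mem_univ j), mul_zero]
      rw [one_add_chi, if_neg]
      intro h0
      have h5 : ∀ a b : ZMod 2, a + b = 0 → a = b := by decide
      exact hj (h5 _ _ h0)
  rw [Finset.sum_congr rfl fun y _ => h2 y, Finset.sum_ite_eq', if_pos (Finset.mem_univ _)]

theorem chi_sum' {V : Type} (s : Finset V) (z : V → ZMod 2) :
    chi ℚ (∑ j ∈ s, z j) = ∏ j ∈ s, chi ℚ (z j) := by
  classical
  induction s using Finset.induction_on with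
  | empty =>
    rw [Finset.sum_empty, Finset.prod_empty]
    unfold chi
    rw [if_pos rfl]
  | insert a s ha ih => rw [Finset.sum_insert ha, Finset.prod_insert ha, chi_add, ih]

theorem chi_compl {V : Type} [Fintype V] [DecidableEq V] (z : V → ZMod 2) (A : Finset V) :
    chi ℚ (∑ j, z j) * ∏ j ∈ A, chi ℚ (z j) = ∏ j ∈ Aᶜ, chi ℚ (z j) := by
  rw [chi_sum', ← Finset.prod_mul_prod_compl A]
  have h1 : (∏ j ∈ A, chi ℚ (z j)) * ∏ j ∈ A, chi ℚ (z j) = 1 := by
    rw [← Finset.prod_mul_distrib]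
    exact Finset.prod_eq_one fun j _ => chi_mul_self ℚ _
  linear_combination (∏ j ∈ Aᶜ, chi ℚ (z j)) * h1

/-- The product of a functional which is concentrated on a set with no small Fourier
coefficients. -/
theorem lift_eq {V : Type} [Fintype V] [DecidableEq V] {D : ℕ} (Q : (V → ZMod 2) → ℚ)
    (hQ : ∀ A : Finset V, A.card < D → ∑ y, Q y * ∏ j ∈ A, chi ℚ (y j) = 0)
    (z : V → ZMod 2) :
    chi ℚ (∑ j, z j) * Q z = ∑ A : Finset V with D ≤ A.card,
      ((2 ^ Fintype.card V)⁻¹ * ∑ y, Q y * ∏ j ∈ A, chi ℚ (y j)) * ∏ j ∈ Aᶜ, chi ℚ (z j) := by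
  have h1 := inversion Q z
  have h2 : (2 : ℚ) ^ Fintype.card V ≠ 0 := pow_ne_zero _ two_ne_zero
  have h3 : Q z = (2 ^ Fintype.card V)⁻¹ *
      ∑ A : Finset V, (∑ y, Q y * ∏ j ∈ A, chi ℚ (y j)) * ∏ j ∈ A, chi ℚ (z j) := by
    rw [h1, ← mul_assoc, inv_mul_cancel₀ h2, one_mul]
  rw [h3, Finset.mul_sum, Finset.mul_sum, Finset.sum_filter]
  refine Finset.sum_congr rfl fun A _ => ?_
  split_ifs with hA
  · rw [← chi_compl z A]
    ring
  · rw [hQ A (by omega)]
    ring

/-- The functions which span the columns. -/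
noncomputable def gen {V : Type} [Fintype V] [DecidableEq V] {h : ℕ} (D : ℕ)
    (P : Pos V h → Bool) : Finset (Pos V h → ℚ) := by
  classical
  exact (Finset.powersetCard D (univ : Finset V)).biUnion fun A =>
    (univ : Finset ({j // j ∉ A} → Fin h → ZMod 2)).image fun U =>
      fun W : Pos V h => if P W = true ∧ ∀ j : {j // j ∉ A}, W.1 j = U j then 1 else 0

theorem card_gen {V : Type} [Fintype V] [DecidableEq V] {h D : ℕ} (P : Pos V h → Bool) :
    (gen D P).card ≤ (Fintype.card V).choose D * 2 ^ (h * (Fintype.card V - D)) := by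
  classical
  unfold gen
  refine (Finset.card_biUnion_le_card_mul _ _ (2 ^ (h * (Fintype.card V - D))) ?_).trans
    (le_of_eq (by rw [Finset.card_powersetCard, Finset.card_univ]))
  intro A hA
  rw [Finset.mem_powersetCard] at hA
  refine Finset.card_image_le.trans (le_of_eq ?_)
  rw [Finset.card_univ, Fintype.card_fun, Fintype.card_fun, ZMod.card, Fintype.card_fin,
    ← pow_mul]
  have h2 : Fintype.card {j // j ∉ A} = Fintype.card V - D := by
    rw [Fintype.card_subtype_compl, Fintype.card_coe, hA.2]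
  rw [h2]

theorem term_mem {V : Type} [Fintype V] [DecidableEq V] {h D : ℕ} (P : Pos V h → Bool)
    (x : V → Fin h → ZMod 2) (A : Finset V) (hA : D ≤ A.card) :
    (fun W : Pos V h => if P W = true then ∏ j ∈ Aᶜ, chi ℚ (dt (W.1 j) (x j)) else 0) ∈
      Submodule.span ℚ ((gen D P : Finset (Pos V h → ℚ)) : Set (Pos V h → ℚ)) := by
  classical
  obtain ⟨B, hB, hBc⟩ := Finset.exists_subset_card_eq hA
  have key : (fun W : Pos V h => if P W = true then ∏ j ∈ Aᶜ, chi ℚ (dt (W.1 j) (x j)) else 0) =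
      ∑ U : {j // j ∉ B} → Fin h → ZMod 2,
        (∏ j ∈ Aᶜ, chi ℚ (dt (if hj : j ∉ B then U ⟨j, hj⟩ else 0) (x j))) •
          (fun W : Pos V h => (if P W = true ∧ ∀ j : {j // j ∉ B}, W.1 j = U j then 1 else 0 : ℚ)) := by
    funext W
    rw [Finset.sum_apply, Finset.sum_eq_single (fun j : {j // j ∉ B} => W.1 j)]
    · simp only [Pi.smul_apply, smul_eq_mul, implies_true, and_true]
      by_cases hP : P W = true
      · rw [if_pos hP, if_pos hP, mul_one]
        refine Finset.prod_congr rfl fun j hj => ?_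
        have hj' : j ∉ B := fun h1 => (Finset.mem_compl.1 hj) (hB h1)
        rw [dif_pos hj']
      · rw [if_neg hP, if_neg hP, mul_zero]
    · intro U _ hU
      simp only [Pi.smul_apply, smul_eq_mul]
      rw [if_neg, mul_zero]
      rintro ⟨-, hcon⟩
      apply hU
      funext j
      exact (hcon j).symm
    · intro hcon
      exact absurd (Finset.mem_univ _) hcon
  rw [key]
  refine Submodule.sum_mem _ fun U _ => Submodule.smul_mem _ _ (Submodule.subset_span ?_)
  unfold gen
  rw [Finset.mem_coe, Finset.mem_biUnion]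
  refine ⟨B, Finset.mem_powersetCard.2 ⟨Finset.subset_univ _, hBc⟩, ?_⟩
  rw [Finset.mem_image]
  exact ⟨U, Finset.mem_univ _, rfl⟩

/-- **The measure of a variable.** -/
theorem rk_var {V M : Type} [Fintype V] [DecidableEq V] {h D : ℕ} {Y : Sy V M}
    {μ : (V → ZMod 2) → ℚ} (hμ : Dual Y D μ) (_hD : D ≤ Fintype.card V) (p : Bv M h) :
    rkB Y μ (fun u => u p) ≤
      ((Fintype.card V).choose D * 2 ^ (h * (Fintype.card V - D)) : ℕ) := by
  classical
  have hμ2 := hμ.2 p.1
  have hcard : ((gen D (fun W : Pos V h => posIn Y W.1 p)).card : ℤ) ≤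
      ((Fintype.card V).choose D * 2 ^ (h * (Fintype.card V - D)) : ℕ) := by
    exact_mod_cast card_gen (D := D) (fun W : Pos V h => posIn Y W.1 p)
  refine le_trans ?_ hcard
  unfold rkB
  refine rk_le_of _ _ _ (gen D (fun W : Pos V h => posIn Y W.1 p)) fun x hx => ?_
  have hbad : Y.bad p.1 fun c => dt (p.2 c) (x (Y.vars p.1 c)) := by
    have h1 : ¬ ¬ Y.bad p.1 fun c => dt (p.2 c) (x (Y.vars p.1 c)) := by
      simpa only [negI, decide_eq_false_iff_not] using hx
    exact not_not.1 h1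
  obtain ⟨Q, hQ⟩ : ∃ Q : (V → ZMod 2) → ℚ, ∀ z, Q z =
      if Y.bad p.1 (fun c => z (Y.vars p.1 c)) then μ z else 0 := ⟨_, fun z => rfl⟩
  have hQ0 : ∀ A : Finset V, A.card < D → ∑ y, Q y * ∏ j ∈ A, chi ℚ (y j) = 0 := by
    intro A hA
    rw [← hμ2 A hA, Finset.sum_filter]
    refine Finset.sum_congr rfl fun y _ => ?_
    rw [hQ]
    split_ifs
    · rfl
    · rw [zero_mul]
  have key : (fun W : Pos V h => if posIn Y W.1 p = true then mtx μ x W.1 else 0) =
      ∑ A : Finset V with D ≤ A.card,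
        ((2 ^ Fintype.card V)⁻¹ * ∑ y, Q y * ∏ j ∈ A, chi ℚ (y j)) •
          (fun W : Pos V h => if posIn Y W.1 p = true then
            ∏ j ∈ Aᶜ, chi ℚ (dt (W.1 j) (x j)) else 0) := by
    funext W
    rw [Finset.sum_apply]
    simp only [Pi.smul_apply, smul_eq_mul]
    by_cases hW : posIn Y W.1 p = true
    · simp only [if_pos hW]
      rw [← lift_eq Q hQ0 (fun j => dt (W.1 j) (x j)), mtx, hQ, if_pos]
      have h1 : (fun c => W.1 (Y.vars p.1 c)) = p.2 := by
        simpa only [posIn, decide_eq_true_eq] using hW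
      have h2 : (fun c => dt (W.1 (Y.vars p.1 c)) (x (Y.vars p.1 c))) =
          fun c => dt (p.2 c) (x (Y.vars p.1 c)) := by
        funext c
        rw [← h1]
      rw [h2]
      exact hbad
    · simp only [if_neg hW, mul_zero, Finset.sum_const_zero]
  rw [key]
  refine Submodule.sum_mem _ fun A hA => Submodule.smul_mem _ _ ?_
  exact term_mem _ x A (Finset.mem_filter.1 hA).2

end Pool.Agent.NLP
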