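import Pool.Agent.NLP.Defs
import Pool.Agent.XL.RankF
import Pool.Agent.XL.CompClass

set_option autoImplicit false

/-!
# The rank measure of functions of any variables
-/

namespace Pool.Agent.NLP

open Finset Pool.Agent.XL Pool.Agent.NTR Pool.Agent.NTN Pool.Agent.TeleNeg
open scoped BigOperators

section gens

variable {α β : Type} [Fintype α] (A : β → α → ℚ)

theorem exists_gens (P : Submodule ℚ (α → ℚ)) :
    ∃ G : Finset (α → ℚ), G.card ≤ Module.finrank ℚ P ∧
      Submodule.span ℚ (G : Set (α → ℚ)) = P := by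
  classical
  set b := Module.finBasis ℚ P with hb
  refine ⟨univ.image fun i => (b i : α → ℚ), ?_, ?_⟩
  · refine Finset.card_image_le.trans ?_
    rw [Finset.card_univ, Fintype.card_fin]
  · rw [Finset.coe_image, Finset.coe_univ, Set.image_univ]
    have h1 : (Set.range fun i => (b i : α → ℚ)) = P.subtype '' Set.range b := by
      rw [← Set.range_comp]
      rfl
    rw [h1, ← Submodule.map_span, b.span_eq, Submodule.map_subtype_top]

/-- The columns of a submatrix, rows multiplied by numbers. -/
theorem lit_gens (p : α → Bool) (q : β → Bool) (c : α → ℚ) (hc : ∀ W, p W = false → c W = 0) :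
    ∃ G : Finset (α → ℚ), (G.card : ℤ) ≤ rk A p q ∧
      ∀ x, q x = false → (fun W => c W * A x W) ∈ Submodule.span ℚ (G : Set (α → ℚ)) := by
  classical
  set V := rkSp A p q with hV
  set D : (α → ℚ) →ₗ[ℚ] (α → ℚ) := LinearMap.mulLeft ℚ c with hD
  obtain ⟨G, hG1, hG2⟩ := exists_gens (V.map D)
  refine ⟨G, ?_, fun x hx => ?_⟩
  · set E := Submodule.span ℚ
      (Set.range fun W : {W // p W = false} => (Pi.single W.1 1 : α → ℚ)) with hE
    have h1 : E ≤ V ⊓ LinearMap.ker D := by
      rw [hE, Submodule.span_le]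
      rintro v ⟨W, rfl⟩
      refine ⟨Submodule.subset_span (Or.inr ⟨W.1, W.2, rfl⟩), ?_⟩
      show (Pi.single W.1 1 : α → ℚ) ∈ LinearMap.ker D
      rw [LinearMap.mem_ker, hD, LinearMap.mulLeft_apply]
      funext V'
      by_cases h : V' = W.1
      · subst h
        rw [Pi.mul_apply, hc _ W.2, zero_mul, Pi.zero_apply]
      · rw [Pi.mul_apply, Pi.single_eq_of_ne h, mul_zero, Pi.zero_apply]
    have h2 : Module.finrank ℚ E ≤ Module.finrank ℚ (LinearMap.ker (D.domRestrict V)) := by
      have h3 : (LinearMap.ker (D.domRestrict V)).map V.subtype = V ⊓ LinearMap.ker D := by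
        rw [LinearMap.ker_domRestrict, Submodule.map_comap_subtype]
      rw [← Submodule.finrank_map_subtype_eq V (LinearMap.ker (D.domRestrict V)), h3]
      exact Submodule.finrank_mono h1
    have h3 := LinearMap.finrank_range_add_finrank_ker (D.domRestrict V)
    rw [LinearMap.range_domRestrict] at h3
    rw [hE, finrank_coord] at h2
    unfold rk
    rw [← hV]
    have h4 : G.card + (univ.filter fun W => p W = false).card ≤ Module.finrank ℚ V := by omega
    have h5 : (G.card : ℤ) + (univ.filter fun W => p W = false).card ≤ Module.finrank ℚ V := by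
      exact_mod_cast h4
    linarith
  · rw [hG2]
    refine ⟨A x, Submodule.subset_span (Or.inl ⟨x, hx, rfl⟩), ?_⟩
    rfl

end gens

section meas

variable {α β : Type} [Fintype α] (A : β → α → ℚ) {ι : Type} (pos : α → ι → Bool)
  (neg : β → ι → Bool)

/-- the measure of a function -/
noncomputable def ms (G : (ι → Bool) → Bool) : ℤ :=
  rk A (fun W => G (pos W)) (fun x => G (neg x))

theorem ms_and (G G' : (ι → Bool) → Bool) :
    ms A pos neg (fun u => G u && G' u) ≤ ms A pos neg G + ms A pos neg G' :=
  rk_and _ _ _ _ _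

theorem ms_or (G G' : (ι → Bool) → Bool) :
    ms A pos neg (fun u => G u || G' u) ≤ ms A pos neg G + ms A pos neg G' :=
  rk_or _ _ _ _ _

theorem ms_const (c : Bool) : ms A pos neg (fun _ => c) = 0 := rk_const _ c

theorem ms_decomp {K : ℤ} (hK : 0 ≤ K) (hlit : ∀ i, ms A pos neg (fun u => u i) ≤ K) {S : ℕ}
    {G : (ι → Bool) → Bool} (hG : Decomp ℚ S G) : ms A pos neg G ≤ S * K := by
  classical
  obtain ⟨label, u, v, hu, hv, h1⟩ := hG
  set c : Fin S → α → ℚ := fun i W => if G (pos W) = true then u i (pos W) else 0 with hc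
  have key : ∀ i : Fin S, ∃ Gs : Finset (α → ℚ), (Gs.card : ℤ) ≤ K ∧
      ∀ x, G (neg x) = false → v i (neg x) ≠ 0 →
        (fun W => c i W * A x W) ∈ Submodule.span ℚ (Gs : Set (α → ℚ)) := by
    intro i
    rcases hl : label i with _ | e
    · refine ⟨∅, by simpa using hK, fun x hx hne => ?_⟩
      obtain ⟨e, he, -⟩ := hv i _ hx hne
      rw [hl] at he
      exact absurd he (by simp)
    · obtain ⟨Gs, g1, g2⟩ := lit_gens A (fun W => pos W e) (fun x => neg x e) (c i) (by
        intro W hW
        rw [hc]
        by_cases hG1 : G (pos W) = true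
        · simp only [if_pos hG1]
          by_contra hne
          have h2 := hu i _ hG1 hne e (by rw [hl]; rfl)
          rw [hW] at h2
          exact absurd h2 (by simp)
        · simp only [if_neg hG1])
      refine ⟨Gs, g1.trans (hlit e), fun x hx hne => ?_⟩
      obtain ⟨e', he', hn⟩ := hv i _ hx hne
      rw [hl] at he'
      have h3 : e = e' := Option.some.inj he'
      subst h3
      exact g2 x hn
  choose Gs g1 g2 using key
  have h2 : ms A pos neg G ≤ ((univ.biUnion Gs).card : ℤ) := by
    unfold ms
    refine rk_le_of _ _ _ _ fun x hx => ?_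
    have h3 : (fun W => if G (pos W) = true then A x W else 0) =
        ∑ i, v i (neg x) • fun W => c i W * A x W := by
      funext W
      rw [Finset.sum_apply]
      simp only [Pi.smul_apply, smul_eq_mul, hc]
      by_cases hG1 : G (pos W) = true
      · simp only [if_pos hG1]
        have h4 : ∀ i, v i (neg x) * (u i (pos W) * A x W) = (u i (pos W) * v i (neg x)) * A x W :=
          fun i => by ring
        simp only [h4]
        rw [← Finset.sum_mul, h1 _ _ hG1 hx, one_mul]
      · simp only [if_neg hG1, zero_mul, mul_zero, Finset.sum_const_zero]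
    rw [h3]
    refine Submodule.sum_mem _ fun i _ => ?_
    by_cases hne : v i (neg x) = 0
    · rw [hne, zero_smul]
      exact Submodule.zero_mem _
    · refine Submodule.smul_mem _ _ (Submodule.span_mono ?_ (g2 i x hx hne))
      intro w hw
      rw [Finset.mem_coe, Finset.mem_biUnion]
      exact ⟨i, Finset.mem_univ _, hw⟩
  have h3 : ((univ.biUnion Gs).card : ℤ) ≤ ∑ i : Fin S, ((Gs i).card : ℤ) := by
    have := Finset.card_biUnion_le (s := univ) (t := Gs)
    exact_mod_cast this
  have h4 : ∑ i : Fin S, ((Gs i).card : ℤ) ≤ ∑ _i : Fin S, K := Finset.sum_le_sum fun i _ => g1 i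
  rw [Finset.sum_const, Finset.card_univ, Fintype.card_fin, nsmul_eq_mul] at h4
  exact h2.trans (h3.trans h4)

theorem ms_comp {K : ℤ} (hK : 0 ≤ K) (hlit : ∀ i, ms A pos neg (fun u => u i) ≤ K) {S : ℕ}
    (P : CompCirc ι S) : ms A pos neg P.val ≤ S * K := by
  unfold ms CompCirc.val
  refine rk_comp A P.gates P.out (fun i W => Sum.elim (pos W) id (P.init i))
    (fun i x => Sum.elim (neg x) id (P.init i)) K fun i => ?_
  cases hi : P.init i with
  | inl v => exact hlit v
  | inr c => exact (le_of_eq (rk_const A c)).trans hK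

theorem ms_orSet {C : Gen.MonoClass} {q : ℕ} {T : ℤ} (hT : 0 ≤ T)
    (hC : ∀ G, C.mem ι G → ms A pos neg G ≤ T) {H : (ι → Bool) → Bool}
    (hH : H ∈ orSet C ι q) : ms A pos neg H ≤ q * T := by
  classical
  obtain ⟨Gs, h1, h2, h3⟩ := hH
  have key : ∀ (L : List ((ι → Bool) → Bool)), (∀ G ∈ L, C.mem ι G) →
      ∀ H : (ι → Bool) → Bool, (∀ u, H u = true ↔ ∃ G ∈ L, G u = true) →
      ms A pos neg H ≤ (L.length : ℤ) * T := by
    intro L
    induction L with
    | nil =>
      intro _ H hH
      have : H = fun _ => false := by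
        funext u
        have := hH u
        simpa using this
      rw [this, ms_const]
      simp
    | cons G L ih =>
      intro hL H hH
      have h4 : H = fun u => G u || decide (∃ G ∈ L, G u = true) := by
        funext u
        rw [Bool.eq_iff_iff, hH u, Bool.or_eq_true, decide_eq_true_eq]
        constructor
        · rintro ⟨G', hG', hu⟩
          rcases List.mem_cons.1 hG' with rfl | hG'
          · exact Or.inl hu
          · exact Or.inr ⟨G', hG', hu⟩
        · rintro (hu | ⟨G', hG', hu⟩)
          · exact ⟨G, List.mem_cons_self, hu⟩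
          · exact ⟨G', List.mem_cons_of_mem _ hG', hu⟩
      have h5 := ih (fun G' hG' => hL G' (List.mem_cons_of_mem _ hG'))
        (fun u => decide (∃ G ∈ L, G u = true)) (fun u => by rw [decide_eq_true_eq])
      have h6 := ms_or A pos neg G (fun u => decide (∃ G ∈ L, G u = true))
      have h7 := hC G (hL G List.mem_cons_self)
      rw [h4]
      rw [List.length_cons]
      push_cast
      linarith
  have h4 := key Gs h2 H h3
  have h5 : (Gs.length : ℤ) ≤ q := by exact_mod_cast h1
  exact h4.trans (mul_le_mul_of_nonneg_right h5 hT)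

theorem ms_amplify [Fintype ι] {N₀ : ℤ} (L : List ((ι → Bool) → Bool)) (θ : ℕ)
    {g : (ι → Bool) → Bool} (hg : ∀ u, g u = true ↔ θ ≤ L.countP fun H => H u)
    (hN : 0 ≤ N₀) (hL : ∀ H ∈ L, ms A pos neg H ≤ N₀) (i j : ℕ)
    (hi : 2 * L.length + 1 ≤ 4 * 2 ^ i) (hj : 3 * Fintype.card ι ≤ 2 ^ j) :
    ms A pos neg g ≤ 5 ^ (2 * i + j + 2) * N₀ := by
  classical
  refine amplify (P := fun n G => ms A pos neg G ≤ 5 ^ n * N₀) ?_ L θ hg ?_ ?_ ?_
    (Fintype.card ι) i j ?_ hi hj
  · intro n f g k h1 h2 h3
    have h4 := ms_or A pos neg (fun u => f u && g u) (fun u => k u && (f u || g u))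
    have h5 := ms_and A pos neg f g
    have h6 := ms_and A pos neg k (fun u => f u || g u)
    have h7 := ms_or A pos neg f g
    have h8 : ms A pos neg (fun u => maj3 (f u) (g u) (k u)) ≤ 5 * (5 ^ n * N₀) := by
      have h9 : (fun u => maj3 (f u) (g u) (k u)) =
          fun u => (f u && g u) || (k u && (f u || g u)) := rfl
      rw [h9]
      linarith
    refine h8.trans (le_of_eq ?_)
    ring
  · intro H hH
    rw [pow_zero, one_mul]
    exact hL H hH
  · rw [ms_const]
    positivity
  · rw [ms_const]
    positivity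
  · rw [Fintype.card_fun, Fintype.card_bool]

end meas

/-- The functions computed by a monotone switching network with `S` nodes or by a monotone
comparator circuit with `S` wires. -/
def lClass (S : ℕ) : Gen.MonoClass where
  mem ι f := (∃ N : Net ι S, ∀ x, N.val x = f x) ∨ ∃ P : CompCirc ι S, ∀ x, P.val x = f x
  mono := by
    rintro ι f (h | h)
    · exact (Gen.netClass S).mono ι f h
    · exact (compClass S).mono ι f h
  subst := by
    rintro ι κ f φ (h | h)
    · exact Or.inl ((Gen.netClass S).subst ι κ f φ h)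
    · exact Or.inr ((compClass S).subst ι κ f φ h)

theorem ms_lClass {α β : Type} [Fintype α] (A : β → α → ℚ) {ι : Type} [Fintype ι]
    (pos : α → ι → Bool) (neg : β → ι → Bool) {K : ℤ} (hK : 0 ≤ K)
    (hlit : ∀ i, ms A pos neg (fun u => u i) ≤ K) {S : ℕ} {G : (ι → Bool) → Bool}
    (hG : (lClass S).mem ι G) :
    ms A pos neg G ≤ (S * S * (Fintype.card ι + 1) : ℕ) * K := by
  rcases hG with ⟨N, hN⟩ | ⟨P, hP⟩
  · have h1 := decomp_of_net ℚ N
    rw [show N.val = G from funext hN] at h1
    exact ms_decomp A pos neg hK hlit h1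
  · have h1 := ms_comp A pos neg hK hlit P
    rw [show P.val = G from funext hP] at h1
    refine h1.trans (mul_le_mul_of_nonneg_right ?_ hK)
    have hS : 1 ≤ S := Nat.succ_le_of_lt (Nat.lt_of_le_of_lt (Nat.zero_le _) P.out.isLt)
    have h2 : S ≤ S * S * (Fintype.card ι + 1) := by
      calc S = S * 1 * 1 := by ring
        _ ≤ S * S * (Fintype.card ι + 1) :=
          Nat.mul_le_mul (Nat.mul_le_mul_left _ hS) (by omega)
    exact_mod_cast h2

end Pool.Agent.NLP
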