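import Pool.Agent.NLP.Defs
set_option autoImplicit false
namespace Pool.Agent.NLP

/-- the number of unknowns -/
def vq (q : ℕ) : ℕ := 8 * 2 ^ q * 2 ^ (q - 4) * (8000 * 2 ^ q)
/-- the number of variables of a block -/
def cq (q : ℕ) : ℕ := (vq q + 1) * 2 ^ (17 * (6 * q + 24))
/-- the exponent of the size -/
def sq (q : ℕ) : ℕ := q * (q + 4) * 2 ^ (q - 4)

private theorem vq_eq (q : ℕ) (hq : 8 ≤ q) : vq q = 4000 * 2 ^ (3 * q) := by
  obtain ⟨p, rfl⟩ : ∃ p, q = p + 4 := ⟨q - 4, by omega⟩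
  rw [vq, show p + 4 - 4 = p by omega, show 3 * (p + 4) = p + p + p + 12 by ring]
  rw [pow_add, pow_add, pow_add, pow_add]
  norm_num
  ring

private theorem vq_lt (q : ℕ) (hq : 8 ≤ q) : vq q + 1 ≤ 2 ^ (3 * q + 12) := by
  rw [vq_eq q hq, pow_add]
  have h1 : 1 ≤ 2 ^ (3 * q) := Nat.one_le_two_pow
  norm_num
  omega

theorem vq_le (q : ℕ) (hq : 8 ≤ q) : vq q ≤ 2 ^ (3 * q + 12) := by
  have := vq_lt q hq
  omega

theorem cq_le (q : ℕ) (hq : 8 ≤ q) : cq q ≤ 2 ^ (105 * q + 420) := by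
  rw [cq, show 105 * q + 420 = (3 * q + 12) + 17 * (6 * q + 24) by ring, pow_add]
  exact Nat.mul_le_mul_right _ (vq_lt q hq)

private theorem sq_num (q : ℕ) (hq : 8 ≤ q) : 10 * (105 * q + 420) + 40 ≤ 9 * sq q := by
  have h1 : 2 ^ 4 ≤ 2 ^ (q - 4) := Nat.pow_le_pow_right (by norm_num) (by omega)
  have h2 : q * (q + 4) * 16 ≤ sq q := Nat.mul_le_mul_left _ (by simpa using h1)
  nlinarith

private theorem sq_eq (q : ℕ) (hq : 8 ≤ q) :
    (3 * q + 12) * (q * 2 ^ (q - 1)) = 24 * sq q := by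
  obtain ⟨p, rfl⟩ : ∃ p, q = p + 4 := ⟨q - 4, by omega⟩
  rw [sq, show p + 4 - 4 = p by omega, show p + 4 - 1 = p + 3 by omega, pow_add]
  ring

private theorem D_le (q : ℕ) (hq : 8 ≤ q) : q * 2 ^ (q - 1) ≤ vq q := by
  rw [vq_eq q hq]
  have h1 : q ≤ 2 ^ q := Nat.lt_two_pow_self.le
  have h2 : 2 ^ (q - 1) ≤ 2 ^ q := Nat.pow_le_pow_right (by norm_num) (by omega)
  have h3 : 2 ^ (3 * q) = 2 ^ q * 2 ^ q * 2 ^ q := by rw [← pow_add, ← pow_add]; congr 1; ring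
  have h4 : 1 ≤ 2 ^ q := Nat.one_le_two_pow
  rw [h3]
  calc q * 2 ^ (q - 1) ≤ 2 ^ q * 2 ^ q := Nat.mul_le_mul h1 h2
    _ ≤ 4000 * (2 ^ q * 2 ^ q * 2 ^ q) := by nlinarith [Nat.mul_le_mul h4 h4]

/-- `2 ^ (h v) ≤ 2 (2 ^ h - 1) ^ v` if `2 v ≤ 2 ^ h` -/
private theorem full_pow (h v : ℕ) (hv : 2 * v ≤ 2 ^ h) :
    2 ^ (h * v) ≤ 2 * (2 ^ h - 1) ^ v := by
  have h0 : (1 : ℕ) ≤ 2 ^ h := Nat.one_le_two_pow
  have hR : (2 : ℝ) ^ (h * v) ≤ 2 * ((2 : ℝ) ^ h - 1) ^ v := by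
    have hp : (0 : ℝ) < 2 ^ h := by positivity
    have h1 : (-2 : ℝ) ≤ -(1 / 2 ^ h) := by
      have : 1 / (2 : ℝ) ^ h ≤ 1 := by
        rw [div_le_one hp]
        exact_mod_cast h0
      linarith
    have h2 := one_add_mul_le_pow h1 v
    have h3 : (v : ℝ) * (1 / 2 ^ h) ≤ 1 / 2 := by
      rw [mul_one_div, div_le_iff₀ hp]
      have : (2 : ℝ) * v ≤ 2 ^ h := by exact_mod_cast hv
      linarith
    have h4 : (1 / 2 : ℝ) ≤ (1 + -(1 / 2 ^ h)) ^ v := by linarith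
    have h5 : ((2 : ℝ) ^ h - 1) ^ v = 2 ^ (h * v) * (1 + -(1 / 2 ^ h)) ^ v := by
      rw [pow_mul, ← mul_pow]
      congr 1
      field_simp
      ring
    rw [h5]
    have h6 : (0 : ℝ) < 2 ^ (h * v) := by positivity
    nlinarith
  have h7 : ((2 ^ (h * v) : ℕ) : ℝ) ≤ ((2 * (2 ^ h - 1) ^ v : ℕ) : ℝ) := by
    push_cast [Nat.cast_sub h0]
    exact hR
  exact_mod_cast h7

theorem num_lower {q i j : ℕ} (hq : 8 ≤ q) (hi : 2 * 2 ^ i ≤ 2 * (3 * cq q * 4 ^ sq q) + 1)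
    (hj : 2 ^ j ≤ 6 * cq q) :
    5 ^ (2 * i + j + 2) * (2 * 2 ^ sq q * (2 ^ sq q * 2 ^ sq q * (cq q + 1) *
      ((vq q).choose (q * 2 ^ (q - 1)) *
        2 ^ ((6 * q + 24) * (vq q - q * 2 ^ (q - 1)))))) < (2 ^ (6 * q + 24) - 1) ^ vq q := by
  set L : ℕ := 105 * q + 420 with hL
  set D : ℕ := q * 2 ^ (q - 1) with hD
  have hc : cq q ≤ 2 ^ L := cq_le q hq
  have hv := vq_lt q hq
  have hDv := D_le q hq
  have hs := sq_num q hq
  have hsD := sq_eq q hq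
  -- the exponents `i`, `j`
  have hi1 : 2 ^ i ≤ 3 * cq q * 4 ^ sq q := by omega
  have hi2 : 2 ^ i ≤ 2 ^ (L + 2 + 2 * sq q) := by
    refine hi1.trans ?_
    rw [pow_add, pow_add, pow_mul]
    refine Nat.mul_le_mul ?_ (by norm_num)
    calc 3 * cq q ≤ 3 * 2 ^ L := Nat.mul_le_mul_left _ hc
      _ ≤ 2 ^ L * 2 ^ 2 := by norm_num; omega
  have hi3 : i ≤ L + 2 + 2 * sq q := (Nat.pow_le_pow_iff_right (by norm_num)).1 hi2
  have hj2 : 2 ^ j ≤ 2 ^ (L + 3) := by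
    refine hj.trans ?_
    rw [pow_add]
    norm_num
    omega
  have hj3 : j ≤ L + 3 := (Nat.pow_le_pow_iff_right (by norm_num)).1 hj2
  have h5 : 5 ^ (2 * i + j + 2) ≤ 2 ^ (9 * L + 12 * sq q + 27) := by
    calc 5 ^ (2 * i + j + 2) ≤ 8 ^ (2 * i + j + 2) := Nat.pow_le_pow_left (by norm_num) _
      _ = 2 ^ (3 * (2 * i + j + 2)) := by rw [pow_mul]; norm_num
      _ ≤ 2 ^ (9 * L + 12 * sq q + 27) := Nat.pow_le_pow_right (by norm_num) (by omega)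
  have hc1 : cq q + 1 ≤ 2 ^ (L + 1) := by
    rw [pow_succ]
    have : 1 ≤ 2 ^ L := Nat.one_le_two_pow
    omega
  have hch : (vq q).choose D ≤ 2 ^ (24 * sq q) := by
    rw [← hsD, pow_mul]
    exact (Nat.choose_le_pow _ _).trans (Nat.pow_le_pow_left (by omega) _)
  have hexp : (6 * q + 24) * (vq q - D) + 48 * sq q = (6 * q + 24) * vq q := by
    have h1 : (6 * q + 24) * D = 48 * sq q := by
      have h2 : (6 * q + 24) * D = 2 * ((3 * q + 12) * D) := by ring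
      rw [h2, hsD]
      ring
    rw [← h1, ← mul_add, Nat.sub_add_cancel hDv]
  have hfull := full_pow (6 * q + 24) (vq q) (by
    calc 2 * vq q ≤ 2 * 2 ^ (3 * q + 12) := Nat.mul_le_mul_left _ (by omega)
      _ = 2 ^ (3 * q + 13) := (pow_succ' 2 (3 * q + 12)).symm
      _ ≤ 2 ^ (6 * q + 24) := Nat.pow_le_pow_right (by norm_num) (by omega))
  have hmain : 5 ^ (2 * i + j + 2) * (2 * 2 ^ sq q * (2 ^ sq q * 2 ^ sq q * (cq q + 1) *
      ((vq q).choose D * 2 ^ ((6 * q + 24) * (vq q - D))))) ≤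
      2 ^ (9 * L + 12 * sq q + 27) * (2 * 2 ^ sq q * (2 ^ sq q * 2 ^ sq q * 2 ^ (L + 1) *
      (2 ^ (24 * sq q) * 2 ^ ((6 * q + 24) * (vq q - D))))) := by
    gcongr
  have hpow : 2 ^ (9 * L + 12 * sq q + 27) * (2 * 2 ^ sq q * (2 ^ sq q * 2 ^ sq q * 2 ^ (L + 1) *
      (2 ^ (24 * sq q) * 2 ^ ((6 * q + 24) * (vq q - D))))) =
      2 ^ (10 * L + 39 * sq q + 29 + (6 * q + 24) * (vq q - D)) := by
    have e : 10 * L + 39 * sq q + 29 + (6 * q + 24) * (vq q - D) =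
        (9 * L + 12 * sq q + 27) + (1 + sq q + (sq q + sq q + (L + 1) +
          (24 * sq q + (6 * q + 24) * (vq q - D)))) := by ring
    rw [e]
    simp only [pow_add, pow_one]
  rw [hpow] at hmain
  refine lt_of_le_of_lt hmain ?_
  have h8 : 2 * 2 ^ (10 * L + 39 * sq q + 29 + (6 * q + 24) * (vq q - D)) <
      2 ^ ((6 * q + 24) * vq q) := by
    rw [← pow_succ']
    refine Nat.pow_lt_pow_right (by norm_num) ?_
    omega
  omega

theorem exists_q {n : ℕ} (hn : 3072 ≤ Nat.log 2 n) :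
    ∃ q, 8 ≤ q ∧ (q + 4) * 2 ^ q ≤ Nat.log 2 n ∧
      ∀ S : ℕ, S ^ 64 ≤ n ^ Nat.log 2 (Nat.log 2 n) → S ≤ 2 ^ sq q := by
  set L := Nat.log 2 n with hL
  have hex : ∃ q, L < (q + 1 + 4) * 2 ^ (q + 1) := ⟨L, by
    have h1 : L < 2 ^ L := Nat.lt_two_pow_self
    have h2 : 2 ^ L ≤ 2 ^ (L + 1) := Nat.pow_le_pow_right (by norm_num) (by omega)
    nlinarith⟩
  classical
  let q := Nat.find hex
  have hq1 : L < (q + 1 + 4) * 2 ^ (q + 1) := Nat.find_spec hex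
  have hmono : ∀ a b : ℕ, a ≤ b → (a + 4) * 2 ^ a ≤ (b + 4) * 2 ^ b := fun a b hab =>
    Nat.mul_le_mul (by omega) (Nat.pow_le_pow_right (by norm_num) hab)
  have hq8 : 8 ≤ q := by
    by_contra h
    push Not at h
    have h1 := hmono (q + 1) 8 (by omega)
    norm_num at h1
    omega
  have hq2 : (q + 4) * 2 ^ q ≤ L := by
    have h1 := Nat.find_min hex (m := q - 1) (by
      show q - 1 < q
      omega)
    push Not at h1
    rwa [show q - 1 + 1 = q by omega] at h1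
  refine ⟨q, hq8, hq2, fun S hS => ?_⟩
  set lam := Nat.log 2 L with hlam
  have hL0 : L ≠ 0 := by omega
  have h1 : 2 ^ lam ≤ L := Nat.pow_log_le_self 2 hL0
  have h2 : q + 5 ≤ 2 ^ (q - 4) := by
    obtain ⟨p, hp⟩ : ∃ p, q = p + 8 := ⟨q - 8, by omega⟩
    rw [hp, show p + 8 - 4 = p + 4 by omega, pow_add]
    have : p + 1 ≤ 2 ^ p := Nat.lt_two_pow_self
    omega
  have h3 : 2 ^ lam < 2 ^ (q - 4 + (q + 1)) := by
    rw [pow_add]
    refine h1.trans_lt (hq1.trans_le (Nat.mul_le_mul_right _ ?_))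
    omega
  have h4 : lam < q - 4 + (q + 1) := (Nat.pow_lt_pow_iff_right (by norm_num)).1 h3
  have h5 : (L + 1) * lam ≤ 64 * sq q := by
    have h6 : L + 1 ≤ (q + 5) * 2 ^ (q + 1) := by
      have : (q + 1 + 4) * 2 ^ (q + 1) = (q + 5) * 2 ^ (q + 1) := by ring
      omega
    have h7 : lam ≤ 2 * q - 4 := by omega
    have h8 : 64 * sq q = 4 * (q * (q + 4)) * 2 ^ q := by
      obtain ⟨p, hp⟩ : ∃ p, q = p + 4 := ⟨q - 4, by omega⟩
      rw [sq, hp, show p + 4 - 4 = p by omega, pow_add]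
      ring
    rw [h8]
    calc (L + 1) * lam ≤ (q + 5) * 2 ^ (q + 1) * (2 * q - 4) := Nat.mul_le_mul h6 h7
      _ = ((q + 5) * (2 * (2 * q - 4))) * 2 ^ q := by rw [pow_succ]; ring
      _ ≤ 4 * (q * (q + 4)) * 2 ^ q := by
        refine Nat.mul_le_mul_right _ ?_
        obtain ⟨p, hp⟩ : ∃ p, q = p + 2 := ⟨q - 2, by omega⟩
        rw [hp, show 2 * (p + 2) - 4 = 2 * p by omega]
        nlinarith
  have hn0 : n ≠ 0 := by
    rintro rfl
    simp at hL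
    omega
  have h9 : n < 2 ^ (L + 1) := Nat.lt_pow_succ_log_self (by norm_num) n
  have h10 : S ^ 64 ≤ (2 ^ sq q) ^ 64 := by
    calc S ^ 64 ≤ n ^ lam := hS
      _ ≤ (2 ^ (L + 1)) ^ lam := Nat.pow_le_pow_left h9.le _
      _ = 2 ^ ((L + 1) * lam) := by rw [← pow_mul]
      _ ≤ 2 ^ (64 * sq q) := Nat.pow_le_pow_right (by norm_num) h5
      _ = (2 ^ sq q) ^ 64 := by rw [← pow_mul, mul_comm]
  exact (Nat.pow_le_pow_iff_left (by norm_num)).1 h10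

theorem num_size {n q r : ℕ} (hn : 2 ≤ n) (hq : 8 ≤ q) (h1 : (q + 4) * 2 ^ q ≤ Nat.log 2 n)
    (hr : r ≤ n) : r * (8 * 2 ^ q * 2 ^ (q - 4) * (8000 * 2 ^ q + 1) *
      2 ^ (2 * (8000 * 2 ^ q) * (6 * q + 24)) + 2) + 2 ≤ n ^ 100000 := by
  have hn0 : n ≠ 0 := by omega
  have h2 : 2 ^ Nat.log 2 n ≤ n := Nat.pow_log_le_self 2 hn0
  have h3 : 2 ^ ((q + 4) * 2 ^ q) ≤ n := (Nat.pow_le_pow_right (by norm_num) h1).trans h2
  have h4 : 2 ^ (2 * (8000 * 2 ^ q) * (6 * q + 24)) ≤ n ^ 96000 := by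
    rw [show 2 * (8000 * 2 ^ q) * (6 * q + 24) = (q + 4) * 2 ^ q * 96000 by ring, pow_mul]
    exact Nat.pow_le_pow_left h3 _
  have h5 : 8 * 2 ^ q * 2 ^ (q - 4) * (8000 * 2 ^ q + 1) ≤ n := by
    refine le_trans ?_ h3
    have h6 : 8000 * 2 ^ q + 1 ≤ 2 ^ (q + 13) := by
      rw [pow_add]
      have : 1 ≤ 2 ^ q := Nat.one_le_two_pow
      norm_num
      omega
    calc 8 * 2 ^ q * 2 ^ (q - 4) * (8000 * 2 ^ q + 1)
        ≤ 8 * 2 ^ q * 2 ^ (q - 4) * 2 ^ (q + 13) := Nat.mul_le_mul_left _ h6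
      _ = 2 ^ (3 + q + (q - 4) + (q + 13)) := by
        simp only [pow_add]
        norm_num
      _ ≤ 2 ^ ((q + 4) * 2 ^ q) := by
        refine Nat.pow_le_pow_right (by norm_num) ?_
        have h7 : 2 ^ 3 ≤ 2 ^ q := Nat.pow_le_pow_right (by norm_num) (by omega)
        have h8 : (q + 4) * 2 ^ 3 ≤ (q + 4) * 2 ^ q := Nat.mul_le_mul_left _ h7
        omega
  have h6 : r * (8 * 2 ^ q * 2 ^ (q - 4) * (8000 * 2 ^ q + 1) *
      2 ^ (2 * (8000 * 2 ^ q) * (6 * q + 24)) + 2) + 2 ≤ n * (n * n ^ 96000 + 2) + 2 := by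
    gcongr
  have h7 : n * (n * n ^ 96000 + 2) + 2 ≤ n ^ 96005 := by
    have e1 : n * (n * n ^ 96000 + 2) + 2 = n ^ 96002 + (2 * n + 2) := by
      rw [show 96002 = 96000 + 1 + 1 by norm_num, pow_succ, pow_succ]
      ring
    rw [e1]
    have e2 : 2 * n + 2 ≤ n ^ 3 := by nlinarith [mul_le_mul hn hn (by omega) (by omega), sq_nonneg n]
    have e3 : n ^ 3 ≤ n ^ 96002 := Nat.pow_le_pow_right (by omega) (by norm_num)
    have e4 : n ^ 96005 = n ^ 96002 * n ^ 3 := by rw [← pow_add]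
    rw [e4]
    have e5 : 2 ≤ n ^ 3 := by omega
    calc n ^ 96002 + (2 * n + 2) ≤ n ^ 96002 + n ^ 96002 := by omega
      _ = n ^ 96002 * 2 := by ring
      _ ≤ n ^ 96002 * n ^ 3 := Nat.mul_le_mul_left _ e5
  exact (h6.trans h7).trans (Nat.pow_le_pow_right (by omega) (by norm_num))

end Pool.Agent.NLP
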