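import Pool.Agent.NLP.Defs
import Pool.Agent.XL.Rank

set_option autoImplicit false

/-!
# The measure of a function which separates the positive from the negative inputs
-/

namespace Pool.Agent.NLP

open Finset Pool.Agent.XL Pool.Agent.XL.RankAux
open scoped BigOperators

namespace TopAux

/-- The sum of a character. -/
theorem sum_dt {h : ℕ} (U : Fin h → ZMod 2) :
    ∑ y : Fin h → ZMod 2, chi ℚ (dt U y) = if U = 0 then (2 : ℚ) ^ h else 0 := by
  have h1 : ∀ y : Fin h → ZMod 2, chi ℚ (dt U y) = ∏ t, chi ℚ (U t * y t) := by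
    intro y
    rw [dt, chi_sum]
  rw [sum_congr rfl fun y _ => h1 y]
  have h2 : ∑ y : Fin h → ZMod 2, ∏ t, chi ℚ (U t * y t) =
      ∏ t, ∑ a : ZMod 2, chi ℚ (U t * a) := by
    rw [Finset.prod_univ_sum, Fintype.piFinset_univ]
  rw [h2]
  simp only [sum_zmod]
  by_cases hU : U = 0
  · rw [if_pos hU]
    have h4 : ∀ t : Fin h, (if U t = 0 then (2 : ℚ) else 0) = 2 := by
      intro t
      rw [hU]
      exact if_pos rfl
    simp only [h4, prod_const, card_univ, Fintype.card_fin]
  · rw [if_neg hU]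
    obtain ⟨t, ht⟩ := Function.ne_iff.1 hU
    exact prod_eq_zero (mem_univ t) (if_neg ht)

theorem dt_add {h : ℕ} (a b y : Fin h → ZMod 2) : dt (a + b) y = dt a y + dt b y := by
  unfold dt
  rw [← sum_add_distrib]
  exact sum_congr rfl fun t _ => by rw [Pi.add_apply, add_mul]

/-- The indicator of an equation in `F_2`. -/
theorem ind_eq (z a : ZMod 2) : (if a = z then (1 : ℚ) else 0) = (1 + chi ℚ (z + a)) / 2 := by
  have h : ∀ z a : ZMod 2, (z + a = 0 ↔ a = z) := by decide
  unfold chi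
  by_cases h1 : a = z
  · rw [if_pos h1, if_pos ((h z a).2 h1)]
    norm_num
  · rw [if_neg h1, if_neg (fun h2 => h1 ((h z a).1 h2))]
    norm_num

theorem add_self' {h : ℕ} (a b : Fin h → ZMod 2) : a + b = 0 ↔ a = b := by
  have h1 : ∀ x y : ZMod 2, x + y = 0 ↔ x = y := by decide
  constructor
  · intro h
    funext t
    exact (h1 _ _).1 (congrFun h t)
  · intro h
    funext t
    exact (h1 _ _).2 (congrFun h t)

/-- The sum over one vector. -/
theorem one_sum {h : ℕ} (W V : Fin h → ZMod 2) (hV : V ≠ 0) (z : ZMod 2) :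
    ∑ y : Fin h → ZMod 2, (if dt W y = z then (1 : ℚ) else 0) *
      (chi ℚ (dt W y) * chi ℚ (dt V y)) = if W = V then (2 : ℚ) ^ h / 2 else 0 := by
  have h1 : ∀ y : Fin h → ZMod 2, (if dt W y = z then (1 : ℚ) else 0) *
      (chi ℚ (dt W y) * chi ℚ (dt V y)) =
      1 / 2 * chi ℚ (dt (W + V) y) + chi ℚ z / 2 * chi ℚ (dt V y) := by
    intro y
    rw [ind_eq, chi_add, dt_add, chi_add]
    have h2 := chi_mul_self ℚ (dt W y)
    linear_combination (chi ℚ z * chi ℚ (dt V y) / 2) * h2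
  rw [sum_congr rfl fun y _ => h1 y, sum_add_distrib, ← mul_sum, ← mul_sum, sum_dt, sum_dt,
    if_neg hV, mul_zero, add_zero]
  by_cases h3 : W = V
  · rw [if_pos h3, if_pos ((add_self' W V).2 h3)]
    ring
  · rw [if_neg h3, if_neg (fun h4 => h3 ((add_self' W V).1 h4)), mul_zero]

/-- The matrix times the characters is a multiple of the identity. -/
theorem mtx_mul {V : Type} [Fintype V] [DecidableEq V] {h : ℕ} (μ : (V → ZMod 2) → ℚ) (hμ : ∑ z, μ z = 1)
    (W T : V → Fin h → ZMod 2) (hT : ∀ j, T j ≠ 0) :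
    ∑ x : V → Fin h → ZMod 2, mtx μ x W * chi ℚ (∑ j, dt (T j) (x j)) =
      if W = T then ((2 : ℚ) ^ h / 2) ^ Fintype.card V else 0 := by
  classical
  have h1 : ∀ x : V → Fin h → ZMod 2, mtx μ x W * chi ℚ (∑ j, dt (T j) (x j)) =
      ∑ z : V → ZMod 2, μ z * ∏ j, ((if dt (W j) (x j) = z j then (1 : ℚ) else 0) *
        (chi ℚ (dt (W j) (x j)) * chi ℚ (dt (T j) (x j)))) := by
    intro x
    rw [Finset.sum_eq_single fun j => dt (W j) (x j)]
    · unfold mtx
      simp only [if_true, one_mul]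
      rw [Finset.prod_mul_distrib, ← chi_sum, ← chi_sum]
      ring
    · intro z _ hz
      obtain ⟨j, hj⟩ := Function.ne_iff.1 hz
      rw [Finset.prod_eq_zero (mem_univ j), mul_zero]
      rw [if_neg (fun h2 => hj h2.symm), zero_mul]
    · intro h2
      exact absurd (mem_univ _) h2
  rw [sum_congr rfl fun x _ => h1 x, sum_comm]
  have h2 : ∀ z : V → ZMod 2, ∑ x : V → Fin h → ZMod 2,
      μ z * ∏ j, ((if dt (W j) (x j) = z j then (1 : ℚ) else 0) *
        (chi ℚ (dt (W j) (x j)) * chi ℚ (dt (T j) (x j)))) =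
      μ z * if W = T then ((2 : ℚ) ^ h / 2) ^ Fintype.card V else 0 := by
    intro z
    rw [← mul_sum]
    congr 1
    have h3 : ∑ x : V → Fin h → ZMod 2, ∏ j, ((if dt (W j) (x j) = z j then (1 : ℚ) else 0) *
        (chi ℚ (dt (W j) (x j)) * chi ℚ (dt (T j) (x j)))) =
        ∏ j, ∑ y : Fin h → ZMod 2, ((if dt (W j) y = z j then (1 : ℚ) else 0) *
          (chi ℚ (dt (W j) y) * chi ℚ (dt (T j) y))) := by
      rw [Finset.prod_univ_sum, Fintype.piFinset_univ]
    rw [h3, prod_congr rfl fun j _ => one_sum (W j) (T j) (hT j) (z j)]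
    by_cases h4 : W = T
    · rw [if_pos h4]
      have h5 : ∀ j, (if W j = T j then (2 : ℚ) ^ h / 2 else 0) = (2 : ℚ) ^ h / 2 := by
        intro j
        rw [if_pos (congrFun h4 j)]
      simp only [h5, prod_const, card_univ]
    · rw [if_neg h4]
      obtain ⟨j, hj⟩ := Function.ne_iff.1 h4
      exact prod_eq_zero (mem_univ j) (if_neg hj)
  rw [sum_congr rfl fun z _ => h2 z, ← sum_mul, hμ, one_mul]

theorem card_Pos {V : Type} [Fintype V] {h : ℕ} [Fintype (Pos V h)] :
    Fintype.card (Pos V h) = (2 ^ h - 1) ^ Fintype.card V := by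
  classical
  let e : Pos V h ≃ (V → {a : Fin h → ZMod 2 // a ≠ 0}) :=
    { toFun := fun W j => ⟨W.1 j, W.2 j⟩
      invFun := fun f => ⟨fun j => (f j).1, fun j => (f j).2⟩
      left_inv := fun W => rfl
      right_inv := fun f => rfl }
  rw [Fintype.card_congr e, Fintype.card_fun]
  congr 1
  rw [Fintype.card_subtype_compl, Fintype.card_subtype_eq, Fintype.card_fun, ZMod.card,
    Fintype.card_fin]

end TopAux

open TopAux

theorem rk_top {V M : Type} [Fintype V] [DecidableEq V] {h D : ℕ} {Y : Sy V M}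
    {μ : (V → ZMod 2) → ℚ} (hμ : Dual Y D μ) (g : (Bv M h → Bool) → Bool)
    (h1 : ∀ W, g (posIn Y W) = true) (h2 : ∀ x, g (negI Y x) = false) :
    (((2 ^ h - 1) ^ Fintype.card V : ℕ) : ℤ) ≤ rkB Y μ g := by
  classical
  have hμ1 : ∑ z, μ z = 1 := hμ.1
  set A : (V → Fin h → ZMod 2) → Pos V h → ℚ := fun x W => mtx μ x W.1 with hA
  have hc : ((2 : ℚ) ^ h / 2) ^ Fintype.card V ≠ 0 := by positivity
  have htop : rkSp A (fun W => g (posIn Y W.1)) (fun x => g (negI Y x)) = ⊤ := by
    set P := rkSp A (fun W => g (posIn Y W.1)) (fun x => g (negI Y x)) with hP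
    have hcol : ∀ x, A x ∈ P := fun x => Submodule.subset_span (Or.inl ⟨x, h2 x, rfl⟩)
    have hsingle : ∀ T : Pos V h, (Pi.single T (1 : ℚ) : Pos V h → ℚ) ∈ P := by
      intro T
      have e1 : (((2 : ℚ) ^ h / 2) ^ Fintype.card V) • (Pi.single T (1 : ℚ) : Pos V h → ℚ) =
          ∑ x : V → Fin h → ZMod 2, chi ℚ (∑ j, dt (T.1 j) (x j)) • A x := by
        funext W
        rw [Finset.sum_apply]
        simp only [Pi.smul_apply, smul_eq_mul, hA, mul_comm (chi ℚ _)]
        rw [mtx_mul μ hμ1 W.1 T.1 T.2]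
        by_cases hWT : W = T
        · subst hWT; simp
        · rw [Pi.single_eq_of_ne hWT, if_neg (fun hh => hWT (Subtype.ext hh)), mul_zero]
      have e3 : (((2 : ℚ) ^ h / 2) ^ Fintype.card V) • (Pi.single T (1 : ℚ) : Pos V h → ℚ) ∈ P := by
        rw [e1]
        exact Submodule.sum_mem _ fun x _ => Submodule.smul_mem _ _ (hcol x)
      exact (Submodule.smul_mem_iff _ hc).1 e3
    rw [eq_top_iff, ← (Pi.basisFun ℚ (Pos V h)).span_eq, Submodule.span_le]
    rintro v ⟨T, rfl⟩
    have := hsingle T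
    simpa using this
  unfold rkB rk
  rw [htop, finrank_top, Module.finrank_fintype_fun_eq_card, card_Pos]
  have h3 : (univ.filter fun W : Pos V h => g (posIn Y W.1) = false) = ∅ := by
    apply Finset.filter_eq_empty_iff.2
    intro W _
    rw [h1 W.1]
    simp
  rw [h3]
  simp

end Pool.Agent.NLP
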