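import Pool.Agent.NLP.Graph
import Pool.Agent.NLP.DualP
import Pool.Agent.NLP.LitRank
import Pool.Agent.NLP.Top
import Pool.Agent.NLP.Meas
import Pool.Agent.NLP.DNet
import Pool.Agent.NLP.Num

set_option autoImplicit false

/-!
# The block: a directed network whose function is not a threshold of few queries
-/

namespace Pool.Agent.NLP

open Finset Pool.Agent.XL Pool.Agent.NTR Pool.Agent.NTN Pool.Agent.TeleNeg
open scoped BigOperators

theorem orSet_le {K : Gen.MonoClass} {β : Type} {q q' : ℕ} (h : q ≤ q') :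
    orSet K β q ⊆ orSet K β q' := by
  rintro H ⟨Gs, h1, h2, h3⟩
  exact ⟨Gs, h1.trans h, h2, h3⟩

theorem block_gen {w ℓ θ k h D s Q : ℕ} {nb : Fin w → Fin 16 → Fin w}
    (hnb : Expands nb (4 * θ)) (hk : 4 ≤ k) (hθ : 1 ≤ θ) (hl : ℓ = 8 * θ * 2 ^ (k - 4))
    (hw : 0 < w) (hD : D + 17 ≤ k * θ) (hDv : D ≤ ℓ * w) :
    ∃ N : Net (Bv (Option (Fin ℓ × Fin w)) h) (ℓ * (w + 1) * 2 ^ (2 * w * h) + 2),
      (∃ Y Z, N.dval Y = true ∧ N.dval Z = false) ∧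
      ∀ (L : List ((Bv (Option (Fin ℓ × Fin w)) h → Bool) → Bool)) (a i j : ℕ),
        2 * L.length + 1 ≤ 4 * 2 ^ i →
        3 * Fintype.card (Bv (Option (Fin ℓ × Fin w)) h) ≤ 2 ^ j →
        (∀ H ∈ L, ∃ S, S ≤ s ∧ H ∈ orSet (lClass S) (Bv (Option (Fin ℓ × Fin w)) h) Q) →
        (∀ u, N.dval u = true ↔ a ≤ L.countP fun H => H u) →
        (2 ^ h - 1) ^ (ℓ * w) ≤ 5 ^ (2 * i + j + 2) * (Q * (s * s *
          (Fintype.card (Bv (Option (Fin ℓ × Fin w)) h) + 1) *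
            ((ℓ * w).choose D * 2 ^ (h * (ℓ * w - D))))) := by
  classical
  have hl1 : 0 < ℓ := by
    rw [hl]
    positivity
  set v₀ : Fin ℓ × Fin w := (⟨ℓ - 1, by omega⟩, ⟨0, hw⟩) with hv₀
  have hv : v₀.1.1 = ℓ - 1 := rfl
  obtain ⟨μ, hμ⟩ := exists_dual hnb hk hθ hl v₀ hv hD
  obtain ⟨N, hN1, hN2⟩ := exists_dnet (h := h) nb v₀ hv
  have hcard : Fintype.card (Fin ℓ × Fin w) = ℓ * w := by
    rw [Fintype.card_prod, Fintype.card_fin, Fintype.card_fin]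
  refine ⟨N, ⟨_, _, hN1 0, hN2 0⟩, fun L a i j hi hj hL hg => ?_⟩
  have hlit : ∀ p, ms (fun (x : Fin ℓ × Fin w → Fin h → ZMod 2) (W : Pos (Fin ℓ × Fin w) h) =>
      mtx μ x W.1) (fun W => posIn (pebSy nb v₀) W.1) (fun x => negI (pebSy nb v₀) x)
      (fun u => u p) ≤ (((ℓ * w).choose D * 2 ^ (h * (ℓ * w - D)) : ℕ) : ℤ) := by
    intro p
    have h1 := rk_var hμ (h := h) (by rw [hcard]; exact hDv) p
    rw [hcard] at h1
    exact h1
  obtain ⟨K, hK⟩ : ∃ K : ℕ, K = (ℓ * w).choose D * 2 ^ (h * (ℓ * w - D)) := ⟨_, rfl⟩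
  rw [← hK] at hlit ⊢
  obtain ⟨cd, hcd⟩ : ∃ cd, cd = Fintype.card (Bv (Option (Fin ℓ × Fin w)) h) := ⟨_, rfl⟩
  have hL2 : ∀ H ∈ L, ms (fun (x : Fin ℓ × Fin w → Fin h → ZMod 2)
      (W : Pos (Fin ℓ × Fin w) h) => mtx μ x W.1) (fun W => posIn (pebSy nb v₀) W.1)
      (fun x => negI (pebSy nb v₀) x) H ≤ ((Q * (s * s * (cd + 1) * K) : ℕ) : ℤ) := by
    intro H hH
    obtain ⟨S, hS, hH2⟩ := hL H hH
    have h2 := ms_orSet (fun (x : Fin ℓ × Fin w → Fin h → ZMod 2)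
      (W : Pos (Fin ℓ × Fin w) h) => mtx μ x W.1) (fun W => posIn (pebSy nb v₀) W.1)
      (fun x => negI (pebSy nb v₀) x) (C := lClass S) (q := Q)
      (T := ((s * s * (cd + 1) * K : ℕ) : ℤ)) (by positivity) (fun G hG => by
        refine (ms_lClass _ _ _ (K := (K : ℤ)) (by positivity) hlit hG).trans ?_
        rw [← hcd]
        have h3 : S * S * (cd + 1) * K ≤ s * s * (cd + 1) * K :=
          Nat.mul_le_mul_right _ (Nat.mul_le_mul_right _ (Nat.mul_le_mul hS hS))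
        exact_mod_cast h3) hH2
    refine h2.trans (le_of_eq ?_)
    push_cast
    ring
  have h4 := ms_amplify (fun (x : Fin ℓ × Fin w → Fin h → ZMod 2)
      (W : Pos (Fin ℓ × Fin w) h) => mtx μ x W.1) (fun W => posIn (pebSy nb v₀) W.1)
      (fun x => negI (pebSy nb v₀) x) L a (g := N.dval) hg (by positivity) hL2 i j hi hj
  have h5 := rk_top hμ N.dval hN1 hN2
  rw [hcard] at h5
  have h6 : (((2 ^ h - 1) ^ (ℓ * w) : ℕ) : ℤ) ≤
      ((5 ^ (2 * i + j + 2) * (Q * (s * s * (cd + 1) * K)) : ℕ) : ℤ) := by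
    refine h5.trans (h4.trans (le_of_eq ?_))
    push_cast
    ring
  rw [← hcd]
  exact_mod_cast h6

/-- the number of nodes of the directed network of a block -/
def bq (q : ℕ) : ℕ := 8 * 2 ^ q * 2 ^ (q - 4) * (8000 * 2 ^ q + 1) *
  2 ^ (2 * (8000 * 2 ^ q) * (6 * q + 24)) + 2

/-- the disjunctions of at most `2 * 2 ^ sq q` queries of size at most `2 ^ sq q` -/
def smallOr (q : ℕ) (β : Type) : Set ((β → Bool) → Bool) :=
  {H | ∃ S, S ≤ 2 ^ sq q ∧ H ∈ orSet (lClass S) β (2 * 2 ^ sq q)}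

/-- **The block.** -/
theorem exists_block {q : ℕ} (hq : 8 ≤ q) : ∃ (β : Type) (_ : Fintype β) (N : Net β (bq q)),
    Fintype.card β = cq q ∧ (∃ Y Z, N.dval Y = true ∧ N.dval Z = false) ∧
    ∀ (L : List ((β → Bool) → Bool)) (a : ℕ), L.length = 3 * cq q * 4 ^ sq q →
      (∀ H ∈ L, H ∈ smallOr q β) → ¬ ∀ u, N.dval u = true ↔ a ≤ L.countP fun H => H u := by
  classical
  obtain ⟨nb, hnb⟩ := exists_graph (θ := 2 ^ q) Nat.one_le_two_pow
  have hpow : 2 ^ q = 2 * 2 ^ (q - 1) := by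
    rw [← pow_succ', show q - 1 + 1 = q by omega]
  have h7 : 2 ^ 7 ≤ 2 ^ (q - 1) := Nat.pow_le_pow_right (by norm_num) (by omega)
  have hD : q * 2 ^ (q - 1) + 17 ≤ q * 2 ^ q := by
    rw [hpow]
    nlinarith
  have hDv : q * 2 ^ (q - 1) ≤ 8 * 2 ^ q * 2 ^ (q - 4) * (8000 * 2 ^ q) := by
    have h1 : q < 2 ^ q := Nat.lt_two_pow_self
    have h2 : 2 ^ (q - 1) ≤ 2 ^ q := Nat.pow_le_pow_right (by norm_num) (by omega)
    have h3 : 1 ≤ 2 ^ (q - 4) := Nat.one_le_two_pow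
    calc q * 2 ^ (q - 1) ≤ 2 ^ q * 2 ^ q := Nat.mul_le_mul h1.le h2
      _ ≤ 8 * 2 ^ q * 2 ^ (q - 4) * (8000 * 2 ^ q) := by
        refine Nat.mul_le_mul ?_ (by omega)
        calc 2 ^ q ≤ 8 * 2 ^ q * 1 := by omega
          _ ≤ 8 * 2 ^ q * 2 ^ (q - 4) := Nat.mul_le_mul_left _ h3
  have hw : 0 < 8000 * 2 ^ q := by positivity
  have hcard : Fintype.card (Bv (Option (Fin (8 * 2 ^ q * 2 ^ (q - 4)) × Fin (8000 * 2 ^ q)))
      (6 * q + 24)) = cq q := by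
    rw [Fintype.card_prod, Fintype.card_option, Fintype.card_prod, Fintype.card_fin,
      Fintype.card_fin, Fintype.card_fun, Fintype.card_fun, ZMod.card, Fintype.card_fin,
      Fintype.card_fin, ← pow_mul, cq, vq, mul_comm (6 * q + 24) 17]
  obtain ⟨N, hN1, hN2⟩ := block_gen (h := 6 * q + 24) (s := 2 ^ sq q) (Q := 2 * 2 ^ sq q) hnb
    (by omega) Nat.one_le_two_pow rfl hw hD hDv
  refine ⟨_, inferInstance, N, hcard, hN1, fun L a hL hLS hg => ?_⟩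
  rw [hcard] at hN2
  have hc1 : 1 ≤ cq q := Nat.mul_pos (Nat.succ_pos _) (Nat.pow_pos (by norm_num))
  have hk1 : 1 ≤ 3 * cq q * 4 ^ sq q := by
    have : 1 ≤ 4 ^ sq q := Nat.one_le_pow _ _ (by norm_num)
    nlinarith
  obtain ⟨i, j, e1, e2, e3, e4⟩ := exists_levels hk1 hc1
  have h8 := hN2 L a i j (by rw [hL]; exact e1) e2 hLS hg
  have h9 := num_lower hq e3 e4
  unfold vq at h9
  exact absurd (lt_of_le_of_lt h8 h9) (lt_irrefl _)

end Pool.Agent.NLP
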