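import Pool.Agent.NLP.Graph
import Pool.Agent.NLP.DualP
import Pool.Agent.NLP.LitRank
import Pool.Agent.NLP.Top
import Pool.Agent.NLP.Meas
import Pool.Agent.NLP.DNet
import Pool.Agent.NLP.Num
import Pool.Agent.NLP.BlockT

set_option autoImplicit false

/-!
# The block: small monotone devices below a directed network accept few positive inputs
-/

namespace Pool.Agent.NLP

open Finset Pool.Agent.XL Pool.Agent.NTR Pool.Agent.NTN Pool.Agent.TeleNeg
open scoped BigOperators

open TopAux in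
/-- **One-sided form of `rk_top`**: a function which accepts no negative input accepts at most
`rkB` positive inputs. -/
theorem few_top {V M : Type} [Fintype V] [DecidableEq V] {h D : ℕ} {Y : Sy V M}
    {μ : (V → ZMod 2) → ℚ} (hμ : Dual Y D μ) (g : (Bv M h → Bool) → Bool)
    (h2 : ∀ x, g (negI Y x) = false) [Fintype (Pos V h)] :
    ((univ.filter fun W : Pos V h => g (posIn Y W.1) = true).card : ℤ) ≤ rkB Y μ g := by
  classical
  have hμ1 : ∑ z, μ z = 1 := hμ.1
  set A : (V → Fin h → ZMod 2) → Pos V h → ℚ := fun x W => mtx μ x W.1 with hA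
  have hc : ((2 : ℚ) ^ h / 2) ^ Fintype.card V ≠ 0 := by positivity
  have htop : rkSp A (fun W => g (posIn Y W.1)) (fun x => g (negI Y x)) = ⊤ := by
    set P := rkSp A (fun W => g (posIn Y W.1)) (fun x => g (negI Y x)) with hP
    have hcol : ∀ x, A x ∈ P := fun x => Submodule.subset_span (Or.inl ⟨x, h2 x, rfl⟩)
    have hsingle : ∀ T : Pos V h, (Pi.single T (1 : ℚ) : Pos V h → ℚ) ∈ P := by
      intro T
      have e1 : (((2 : ℚ) ^ h / 2) ^ Fintype.card V) • (Pi.single T (1 : ℚ) : Pos V h → ℚ) =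
          ∑ x : V → Fin h → ZMod 2, chi ℚ (∑ j, dt (T.1 j) (x j)) • A x := by
        funext W
        rw [Finset.sum_apply]
        simp only [Pi.smul_apply, smul_eq_mul, hA, mul_comm (chi ℚ _)]
        rw [mtx_mul μ hμ1 W.1 T.1 T.2]
        by_cases hWT : W = T
        · subst hWT; simp
        · rw [Pi.single_eq_of_ne hWT, if_neg (fun hh => hWT (Subtype.ext hh)), mul_zero]
      have e3 : (((2 : ℚ) ^ h / 2) ^ Fintype.card V) • (Pi.single T (1 : ℚ) : Pos V h → ℚ) ∈ P := by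
        rw [e1]
        exact Submodule.sum_mem _ fun x _ => Submodule.smul_mem _ _ (hcol x)
      exact (Submodule.smul_mem_iff _ hc).1 e3
    rw [eq_top_iff, ← (Pi.basisFun ℚ (Pos V h)).span_eq, Submodule.span_le]
    rintro v ⟨T, rfl⟩
    have := hsingle T
    simpa using this
  have e0 : rkB Y μ g = (Fintype.card (Pos V h) : ℤ) -
      (univ.filter fun W : Pos V h => g (posIn Y W.1) = false).card := by
    unfold rkB rk
    rw [htop, finrank_top, Module.finrank_fintype_fun_eq_card]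
    congr 3
    ext W
    simp
  rw [e0]
  have h3 : (univ.filter fun W : Pos V h => g (posIn Y W.1) = true).card +
      (univ.filter fun W : Pos V h => g (posIn Y W.1) = false).card = Fintype.card (Pos V h) := by
    have h4 := Finset.card_filter_add_card_filter_not (s := (univ : Finset (Pos V h)))
      (fun W => g (posIn Y W.1) = true)
    simp only [Bool.not_eq_true] at h4
    rw [← Finset.card_univ]
    exact h4
  have h5 : ((univ.filter fun W : Pos V h => g (posIn Y W.1) = true).card : ℤ) +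
      (univ.filter fun W : Pos V h => g (posIn Y W.1) = false).card = Fintype.card (Pos V h) := by
    exact_mod_cast h3
  linarith

theorem posIn_injective {w ℓ h : ℕ} (nb : Fin w → Fin 16 → Fin w) (v₀ : Fin ℓ × Fin w) :
    Function.Injective fun W : Pos (Fin ℓ × Fin w) h => posIn (pebSy nb v₀) W.1 := by
  intro W W' hWW
  refine Subtype.ext (funext fun u => ?_)
  have h1 := congrFun hWW (some u, fun c => W.1 ((pebSy nb v₀).vars (some u) c))
  have h2 : posIn (pebSy nb v₀) W.1 (some u, fun c => W.1 ((pebSy nb v₀).vars (some u) c)) =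
      true := by
    unfold posIn
    exact decide_eq_true rfl
  have h3 : posIn (pebSy nb v₀) W'.1 (some u, fun c => W.1 ((pebSy nb v₀).vars (some u) c)) =
      true := h1.symm.trans h2
  unfold posIn at h3
  rw [decide_eq_true_eq] at h3
  have h4 := congrFun h3 16
  have h5 : (pebSy nb v₀).vars (some u) 16 = u := by
    unfold pebSy
    simp
  simp only [h5] at h4
  exact h4.symm

/-- A small device below the directed network of the block accepts few of the positive inputs. -/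
theorem block_few {w ℓ θ k h D s : ℕ} {nb : Fin w → Fin 16 → Fin w}
    (hnb : Expands nb (4 * θ)) (hk : 4 ≤ k) (hθ : 1 ≤ θ) (hl : ℓ = 8 * θ * 2 ^ (k - 4))
    (hw : 0 < w) (hD : D + 17 ≤ k * θ) (hDv : D ≤ ℓ * w) :
    ∃ (N : Net (Bv (Option (Fin ℓ × Fin w)) h) (ℓ * (w + 1) * 2 ^ (2 * w * h) + 2))
      (R : Finset (Bv (Option (Fin ℓ × Fin w)) h → Bool)),
      R.card = (2 ^ h - 1) ^ (ℓ * w) ∧ (∀ u ∈ R, N.dval u = true) ∧
      ∀ S ≤ s, ∀ G, (lClass S).mem _ G → (∀ u, G u = true → N.dval u = true) →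
        (R.filter fun u => G u = true).card ≤ s * s *
          (Fintype.card (Bv (Option (Fin ℓ × Fin w)) h) + 1) *
            ((ℓ * w).choose D * 2 ^ (h * (ℓ * w - D))) := by
  classical
  have hl1 : 0 < ℓ := by
    rw [hl]
    positivity
  set v₀ : Fin ℓ × Fin w := (⟨ℓ - 1, by omega⟩, ⟨0, hw⟩) with hv₀
  have hv : v₀.1.1 = ℓ - 1 := rfl
  obtain ⟨μ, hμ⟩ := exists_dual hnb hk hθ hl v₀ hv hD
  obtain ⟨N, hN1, hN2⟩ := exists_dnet (h := h) nb v₀ hv
  have hcard : Fintype.card (Fin ℓ × Fin w) = ℓ * w := by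
    rw [Fintype.card_prod, Fintype.card_fin, Fintype.card_fin]
  refine ⟨N, (univ : Finset (Pos (Fin ℓ × Fin w) h)).map ⟨_, posIn_injective nb v₀⟩, ?_, ?_, ?_⟩
  · rw [Finset.card_map, Finset.card_univ, TopAux.card_Pos, hcard]
  · intro u hu
    obtain ⟨W, -, rfl⟩ := Finset.mem_map.1 hu
    exact hN1 W.1
  intro S hS G hG hle
  have hneg : ∀ x, G (negI (pebSy nb v₀) x) = false := by
    intro x
    by_contra hcon
    have h3 := hle _ (by simpa using hcon)
    rw [hN2 x] at h3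
    exact absurd h3 (by simp)
  have hlit : ∀ p, ms (fun (x : Fin ℓ × Fin w → Fin h → ZMod 2) (W : Pos (Fin ℓ × Fin w) h) =>
      mtx μ x W.1) (fun W => posIn (pebSy nb v₀) W.1) (fun x => negI (pebSy nb v₀) x)
      (fun u => u p) ≤ (((ℓ * w).choose D * 2 ^ (h * (ℓ * w - D)) : ℕ) : ℤ) := by
    intro p
    have h1 := rk_var hμ (h := h) (by rw [hcard]; exact hDv) p
    rw [hcard] at h1
    exact h1
  have h1 := few_top hμ G hneg
  have h2 := ms_lClass (fun (x : Fin ℓ × Fin w → Fin h → ZMod 2)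
    (W : Pos (Fin ℓ × Fin w) h) => mtx μ x W.1) (fun W => posIn (pebSy nb v₀) W.1)
    (fun x => negI (pebSy nb v₀) x)
    (K := (((ℓ * w).choose D * 2 ^ (h * (ℓ * w - D)) : ℕ) : ℤ)) (by positivity) hlit hG
  have h3 := h1.trans h2
  rw [Finset.filter_map, Finset.card_map]
  have h4 : (univ.filter ((fun u => G u = true) ∘ ⇑(⟨_, posIn_injective nb v₀⟩ :
      Pos (Fin ℓ × Fin w) h ↪ (Bv (Option (Fin ℓ × Fin w)) h → Bool)))).card ≤
      S * S * (Fintype.card (Bv (Option (Fin ℓ × Fin w)) h) + 1) *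
        ((ℓ * w).choose D * 2 ^ (h * (ℓ * w - D))) := by
    exact_mod_cast h3
  refine h4.trans ?_
  exact Nat.mul_le_mul_right _ (Nat.mul_le_mul_right _ (Nat.mul_le_mul hS hS))

/-- **The block, one-sided form.** -/
theorem exists_few {q : ℕ} (hq : 8 ≤ q) : ∃ (β : Type) (_ : Fintype β) (N : Net β (bq q))
    (R : Finset (β → Bool)), Fintype.card β = cq q ∧ R.Nonempty ∧ (∀ u ∈ R, N.dval u = true) ∧
    ∀ S ≤ 2 ^ sq q, ∀ G : (β → Bool) → Bool, (lClass S).mem β G →
      (∀ u, G u = true → N.dval u = true) →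
      2 ^ (8 * sq q) * (R.filter fun u => G u = true).card ≤ R.card := by
  classical
  obtain ⟨nb, hnb⟩ := exists_graph (θ := 2 ^ q) Nat.one_le_two_pow
  have hpow : 2 ^ q = 2 * 2 ^ (q - 1) := by
    rw [← pow_succ', show q - 1 + 1 = q by omega]
  have h7 : 2 ^ 7 ≤ 2 ^ (q - 1) := Nat.pow_le_pow_right (by norm_num) (by omega)
  have hD : q * 2 ^ (q - 1) + 17 ≤ q * 2 ^ q := by
    rw [hpow]
    nlinarith
  have hDv : q * 2 ^ (q - 1) ≤ 8 * 2 ^ q * 2 ^ (q - 4) * (8000 * 2 ^ q) := by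
    have h1 : q < 2 ^ q := Nat.lt_two_pow_self
    have h2 : 2 ^ (q - 1) ≤ 2 ^ q := Nat.pow_le_pow_right (by norm_num) (by omega)
    have h3 : 1 ≤ 2 ^ (q - 4) := Nat.one_le_two_pow
    calc q * 2 ^ (q - 1) ≤ 2 ^ q * 2 ^ q := Nat.mul_le_mul h1.le h2
      _ ≤ 8 * 2 ^ q * 2 ^ (q - 4) * (8000 * 2 ^ q) := by
        refine Nat.mul_le_mul ?_ (by omega)
        calc 2 ^ q ≤ 8 * 2 ^ q * 1 := by omega
          _ ≤ 8 * 2 ^ q * 2 ^ (q - 4) := Nat.mul_le_mul_left _ h3
  have hw : 0 < 8000 * 2 ^ q := by positivity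
  have hcard : Fintype.card (Bv (Option (Fin (8 * 2 ^ q * 2 ^ (q - 4)) × Fin (8000 * 2 ^ q)))
      (6 * q + 24)) = cq q := by
    rw [Fintype.card_prod, Fintype.card_option, Fintype.card_prod, Fintype.card_fin,
      Fintype.card_fin, Fintype.card_fun, Fintype.card_fun, ZMod.card, Fintype.card_fin,
      Fintype.card_fin, ← pow_mul, cq, vq, mul_comm (6 * q + 24) 17]
  obtain ⟨N, R, hR1, hR2, hR3⟩ := block_few (h := 6 * q + 24) (s := 2 ^ sq q) hnb
    (by omega) Nat.one_le_two_pow rfl hw hD hDv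
  refine ⟨_, inferInstance, N, R, hcard, ?_, hR2, fun S hS G hG hle => ?_⟩
  · rw [← Finset.card_pos, hR1]
    refine Nat.pow_pos ?_
    have : 2 ^ 1 ≤ 2 ^ (6 * q + 24) := Nat.pow_le_pow_right (by norm_num) (by omega)
    omega
  have h1 := hR3 S hS G hG hle
  rw [hcard] at h1
  have hc1 : 1 ≤ cq q := Nat.mul_pos (Nat.succ_pos _) (Nat.pow_pos (by norm_num))
  have hk1 : 1 ≤ 3 * cq q * 4 ^ sq q := by
    have : 1 ≤ 4 ^ sq q := Nat.one_le_pow _ _ (by norm_num)
    nlinarith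
  obtain ⟨i, j, e1, e2, e3, e4⟩ := exists_levels hk1 hc1
  have h9 := num_lower hq e3 e4
  have h10 : 4 ^ sq q ≤ 2 ^ i := by
    have h11 : 3 * 4 ^ sq q ≤ 3 * cq q * 4 ^ sq q := by
      calc 3 * 4 ^ sq q = 3 * 1 * 4 ^ sq q := by ring
        _ ≤ 3 * cq q * 4 ^ sq q := Nat.mul_le_mul_right _ (Nat.mul_le_mul_left _ hc1)
    omega
  have h12 : 2 ^ (8 * sq q) ≤ 5 ^ (2 * i + j + 2) := by
    calc 2 ^ (8 * sq q) = (4 ^ sq q) ^ 4 := by
          rw [show (4 : ℕ) = 2 ^ 2 by norm_num, ← pow_mul, ← pow_mul]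
          congr 1
          ring
      _ ≤ (2 ^ i) ^ 4 := Nat.pow_le_pow_left h10 4
      _ = 4 ^ (2 * i) := by
          rw [show (4 : ℕ) = 2 ^ 2 by norm_num, ← pow_mul, ← pow_mul]
          congr 1
          ring
      _ ≤ 5 ^ (2 * i) := Nat.pow_le_pow_left (by norm_num) _
      _ ≤ 5 ^ (2 * i + j + 2) := Nat.pow_le_pow_right (by norm_num) (by omega)
  rw [hR1]
  unfold vq at h9
  set X := 2 ^ sq q * 2 ^ sq q * (cq q + 1) *
    ((8 * 2 ^ q * 2 ^ (q - 4) * (8000 * 2 ^ q)).choose (q * 2 ^ (q - 1)) *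
      2 ^ ((6 * q + 24) * (8 * 2 ^ q * 2 ^ (q - 4) * (8000 * 2 ^ q) - q * 2 ^ (q - 1)))) with hX
  calc 2 ^ (8 * sq q) * (R.filter fun u => G u = true).card ≤ 2 ^ (8 * sq q) * X :=
        Nat.mul_le_mul_left _ h1
    _ ≤ 5 ^ (2 * i + j + 2) * (2 * 2 ^ sq q * X) := by
        refine Nat.mul_le_mul h12 ?_
        refine Nat.le_mul_of_pos_left _ ?_
        positivity
    _ ≤ _ := h9.le

end Pool.Agent.NLP
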