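import Pool.Agent.NLP.Defs
set_option autoImplicit false

/-!
# The numbers of the block with a free depth

`θ = 2 ^ q`, depth `k`, `w = 8000 * 2 ^ q`, `ℓ = 8 * 2 ^ q * 2 ^ (k - 4)`, `D = k * 2 ^ (q - 1)`,
`h = 6 * k + 24`, size `2 ^ s` with `s = k * (k + 4) * 2 ^ (q - 4)`.
-/

namespace Pool.Agent.NLP

/-- the number of unknowns -/
def vk (q k : ℕ) : ℕ := 8 * 2 ^ q * 2 ^ (k - 4) * (8000 * 2 ^ q)
/-- the number of variables of a block -/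
def ck (q k : ℕ) : ℕ := (vk q k + 1) * 2 ^ (17 * (6 * k + 24))
/-- the exponent of the size -/
def sk (q k : ℕ) : ℕ := k * (k + 4) * 2 ^ (q - 4)
/-- the number of nodes of the directed network of a block -/
def bk (q k : ℕ) : ℕ :=
  8 * 2 ^ q * 2 ^ (k - 4) * (8000 * 2 ^ q + 1) * 2 ^ (2 * (8000 * 2 ^ q) * (6 * k + 24)) + 2

private theorem vk_eq (q k : ℕ) (hk : 4 ≤ k) : vk q k = 4000 * 2 ^ (2 * q + k) := by
  obtain ⟨p, rfl⟩ : ∃ p, k = p + 4 := ⟨k - 4, by omega⟩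
  rw [vk, show p + 4 - 4 = p by omega, show 2 * q + (p + 4) = q + q + p + 4 by ring]
  rw [pow_add, pow_add, pow_add]
  norm_num
  ring

private theorem vk_lt (q k : ℕ) (hk : 4 ≤ k) (hqk : q ≤ k) : vk q k + 1 ≤ 2 ^ (3 * k + 12) := by
  rw [vk_eq q k hk, pow_add 2 (3 * k) 12]
  have h1 : 1 ≤ 2 ^ (3 * k) := Nat.one_le_two_pow
  have h2 : 2 ^ (2 * q + k) ≤ 2 ^ (3 * k) := Nat.pow_le_pow_right (by norm_num) (by omega)
  norm_num
  omega

theorem ck_le (q k : ℕ) (hk : 4 ≤ k) (hqk : q ≤ k) : ck q k ≤ 2 ^ (105 * k + 420) := by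
  rw [ck, show 105 * k + 420 = (3 * k + 12) + 17 * (6 * k + 24) by ring, pow_add]
  exact Nat.mul_le_mul_right _ (vk_lt q k hk hqk)

theorem one_le_ck (q k : ℕ) : 1 ≤ ck q k :=
  Nat.mul_pos (Nat.succ_pos _) (Nat.pow_pos (by norm_num))

theorem le_sk (q k : ℕ) : k ≤ sk q k := by
  unfold sk
  have h1 : 1 ≤ 2 ^ (q - 4) := Nat.one_le_two_pow
  calc k = k * 1 * 1 := by ring
    _ ≤ k * (k + 4) * 2 ^ (q - 4) := by gcongr; omega

private theorem sk_num (q k : ℕ) (hk : 128 ≤ k) : 10 * (105 * k + 420) + 40 ≤ 9 * sk q k := by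
  have h1 : 1 ≤ 2 ^ (q - 4) := Nat.one_le_two_pow
  have h2 : k * (k + 4) * 1 ≤ sk q k := Nat.mul_le_mul_left _ h1
  nlinarith

private theorem sk_eq (q k : ℕ) (hq : 4 ≤ q) :
    (3 * k + 12) * (k * 2 ^ (q - 1)) = 24 * sk q k := by
  obtain ⟨p, rfl⟩ : ∃ p, q = p + 4 := ⟨q - 4, by omega⟩
  rw [sk, show p + 4 - 4 = p by omega, show p + 4 - 1 = p + 3 by omega, pow_add]
  ring

theorem D_le_vk (q k : ℕ) (hk : 4 ≤ k) : k * 2 ^ (q - 1) ≤ vk q k := by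
  rw [vk_eq q k hk]
  have h1 : k ≤ 2 ^ k := Nat.lt_two_pow_self.le
  have h2 : 2 ^ (q - 1) ≤ 2 ^ (2 * q) := Nat.pow_le_pow_right (by norm_num) (by omega)
  rw [pow_add]
  calc k * 2 ^ (q - 1) ≤ 2 ^ k * 2 ^ (2 * q) := Nat.mul_le_mul h1 h2
    _ = 1 * (2 ^ (2 * q) * 2 ^ k) := by ring
    _ ≤ 4000 * (2 ^ (2 * q) * 2 ^ k) := Nat.mul_le_mul_right _ (by norm_num)

/-- `2 ^ (h v) ≤ 2 (2 ^ h - 1) ^ v` if `2 v ≤ 2 ^ h` -/
private theorem full_powK (h v : ℕ) (hv : 2 * v ≤ 2 ^ h) :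
    2 ^ (h * v) ≤ 2 * (2 ^ h - 1) ^ v := by
  have h0 : (1 : ℕ) ≤ 2 ^ h := Nat.one_le_two_pow
  have hR : (2 : ℝ) ^ (h * v) ≤ 2 * ((2 : ℝ) ^ h - 1) ^ v := by
    have hp : (0 : ℝ) < 2 ^ h := by positivity
    have h1 : (-2 : ℝ) ≤ -(1 / 2 ^ h) := by
      have : 1 / (2 : ℝ) ^ h ≤ 1 := by
        rw [div_le_one hp]
        exact_mod_cast h0
      linarith
    have h2 := one_add_mul_le_pow h1 v
    have h3 : (v : ℝ) * (1 / 2 ^ h) ≤ 1 / 2 := by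
      rw [mul_one_div, div_le_iff₀ hp]
      have : (2 : ℝ) * v ≤ 2 ^ h := by exact_mod_cast hv
      linarith
    have h4 : (1 / 2 : ℝ) ≤ (1 + -(1 / 2 ^ h)) ^ v := by linarith
    have h5 : ((2 : ℝ) ^ h - 1) ^ v = 2 ^ (h * v) * (1 + -(1 / 2 ^ h)) ^ v := by
      rw [pow_mul, ← mul_pow]
      congr 1
      field_simp
      ring
    rw [h5]
    have h6 : (0 : ℝ) < 2 ^ (h * v) := by positivity
    nlinarith
  have h7 : ((2 ^ (h * v) : ℕ) : ℝ) ≤ ((2 * (2 ^ h - 1) ^ v : ℕ) : ℝ) := by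
    push_cast [Nat.cast_sub h0]
    exact hR
  exact_mod_cast h7

theorem num_lowerK {q k i j : ℕ} (hq : 4 ≤ q) (hk : 128 ≤ k) (hqk : q ≤ k)
    (hi : 2 * 2 ^ i ≤ 2 * (3 * ck q k * 4 ^ sk q k) + 1) (hj : 2 ^ j ≤ 6 * ck q k) :
    5 ^ (2 * i + j + 2) * (2 * 2 ^ sk q k * (2 ^ sk q k * 2 ^ sk q k * (ck q k + 1) *
      ((vk q k).choose (k * 2 ^ (q - 1)) *
        2 ^ ((6 * k + 24) * (vk q k - k * 2 ^ (q - 1)))))) < (2 ^ (6 * k + 24) - 1) ^ vk q k := by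
  set L : ℕ := 105 * k + 420 with hL
  set D : ℕ := k * 2 ^ (q - 1) with hD
  have hc : ck q k ≤ 2 ^ L := ck_le q k (by omega) hqk
  have hv := vk_lt q k (by omega) hqk
  have hDv := D_le_vk q k (by omega)
  have hs := sk_num q k hk
  have hsD := sk_eq q k hq
  -- the exponents `i`, `j`
  have hi1 : 2 ^ i ≤ 3 * ck q k * 4 ^ sk q k := by omega
  have hi2 : 2 ^ i ≤ 2 ^ (L + 2 + 2 * sk q k) := by
    refine hi1.trans ?_
    rw [pow_add, pow_add, pow_mul]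
    refine Nat.mul_le_mul ?_ (by norm_num)
    calc 3 * ck q k ≤ 3 * 2 ^ L := Nat.mul_le_mul_left _ hc
      _ ≤ 2 ^ L * 2 ^ 2 := by norm_num; omega
  have hi3 : i ≤ L + 2 + 2 * sk q k := (Nat.pow_le_pow_iff_right (by norm_num)).1 hi2
  have hj2 : 2 ^ j ≤ 2 ^ (L + 3) := by
    refine hj.trans ?_
    rw [pow_add]
    norm_num
    omega
  have hj3 : j ≤ L + 3 := (Nat.pow_le_pow_iff_right (by norm_num)).1 hj2
  have h5 : 5 ^ (2 * i + j + 2) ≤ 2 ^ (9 * L + 12 * sk q k + 27) := by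
    calc 5 ^ (2 * i + j + 2) ≤ 8 ^ (2 * i + j + 2) := Nat.pow_le_pow_left (by norm_num) _
      _ = 2 ^ (3 * (2 * i + j + 2)) := by rw [pow_mul]; norm_num
      _ ≤ 2 ^ (9 * L + 12 * sk q k + 27) := Nat.pow_le_pow_right (by norm_num) (by omega)
  have hc1 : ck q k + 1 ≤ 2 ^ (L + 1) := by
    rw [pow_succ]
    have : 1 ≤ 2 ^ L := Nat.one_le_two_pow
    omega
  have hch : (vk q k).choose D ≤ 2 ^ (24 * sk q k) := by
    rw [← hsD, pow_mul]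
    exact (Nat.choose_le_pow _ _).trans (Nat.pow_le_pow_left (by omega) _)
  have hexp : (6 * k + 24) * (vk q k - D) + 48 * sk q k = (6 * k + 24) * vk q k := by
    have h1 : (6 * k + 24) * D = 48 * sk q k := by
      have h2 : (6 * k + 24) * D = 2 * ((3 * k + 12) * D) := by ring
      rw [h2, hsD]
      ring
    rw [← h1, ← mul_add, Nat.sub_add_cancel hDv]
  have hfull := full_powK (6 * k + 24) (vk q k) (by
    calc 2 * vk q k ≤ 2 * 2 ^ (3 * k + 12) := Nat.mul_le_mul_left _ (by omega)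
      _ = 2 ^ (3 * k + 13) := (pow_succ' 2 (3 * k + 12)).symm
      _ ≤ 2 ^ (6 * k + 24) := Nat.pow_le_pow_right (by norm_num) (by omega))
  have hmain : 5 ^ (2 * i + j + 2) * (2 * 2 ^ sk q k * (2 ^ sk q k * 2 ^ sk q k * (ck q k + 1) *
      ((vk q k).choose D * 2 ^ ((6 * k + 24) * (vk q k - D))))) ≤
      2 ^ (9 * L + 12 * sk q k + 27) * (2 * 2 ^ sk q k * (2 ^ sk q k * 2 ^ sk q k * 2 ^ (L + 1) *
      (2 ^ (24 * sk q k) * 2 ^ ((6 * k + 24) * (vk q k - D))))) := by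
    gcongr
  have hpow : 2 ^ (9 * L + 12 * sk q k + 27) * (2 * 2 ^ sk q k * (2 ^ sk q k * 2 ^ sk q k *
      2 ^ (L + 1) * (2 ^ (24 * sk q k) * 2 ^ ((6 * k + 24) * (vk q k - D))))) =
      2 ^ (10 * L + 39 * sk q k + 29 + (6 * k + 24) * (vk q k - D)) := by
    have e : 10 * L + 39 * sk q k + 29 + (6 * k + 24) * (vk q k - D) =
        (9 * L + 12 * sk q k + 27) + (1 + sk q k + (sk q k + sk q k + (L + 1) +
          (24 * sk q k + (6 * k + 24) * (vk q k - D)))) := by ring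
    rw [e]
    simp only [pow_add, pow_one]
  rw [hpow] at hmain
  refine lt_of_le_of_lt hmain ?_
  have h8 : 2 * 2 ^ (10 * L + 39 * sk q k + 29 + (6 * k + 24) * (vk q k - D)) <
      2 ^ ((6 * k + 24) * vk q k) := by
    rw [← pow_succ']
    refine Nat.pow_lt_pow_right (by norm_num) ?_
    omega
  omega

/-- The width for a given depth. -/
theorem exists_qK {L k : ℕ} (hL : 16 * (k + 4) ≤ L) (hlog : Nat.log 2 L ≤ k) :
    ∃ q, 4 ≤ q ∧ q ≤ k ∧ (k + 4) * 2 ^ q ≤ L ∧ k * (L + 1) ≤ 32 * sk q k := by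
  obtain ⟨q, hq⟩ : ∃ q, q = Nat.log 2 (L / (k + 4)) := ⟨_, rfl⟩
  have h16 : 16 ≤ L / (k + 4) := (Nat.le_div_iff_mul_le (by omega)).2 hL
  have h0 : L / (k + 4) ≠ 0 := by omega
  have h1 : 2 ^ q ≤ L / (k + 4) := by
    rw [hq]
    exact Nat.pow_log_le_self 2 h0
  have h2 : L / (k + 4) < 2 ^ (q + 1) := by
    rw [hq]
    exact Nat.lt_pow_succ_log_self (by norm_num) _
  have h4 : 4 ≤ q := by
    rw [hq]
    exact (Nat.le_log_iff_pow_le (by norm_num) h0).2 (by norm_num; exact h16)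
  have h5 : (k + 4) * 2 ^ q ≤ L := by
    have := (Nat.le_div_iff_mul_le (by omega : 0 < k + 4)).1 h1
    rw [mul_comm]
    exact this
  refine ⟨q, h4, ?_, h5, ?_⟩
  · refine le_trans ?_ hlog
    rw [hq]
    exact Nat.log_mono_right (Nat.div_le_self _ _)
  · have h6 : L < (k + 4) * 2 ^ (q + 1) := by
      have h7 : L / (k + 4) + 1 ≤ 2 ^ (q + 1) := h2
      calc L < (k + 4) * (L / (k + 4) + 1) := Nat.lt_mul_div_succ L (by omega)
        _ ≤ (k + 4) * 2 ^ (q + 1) := Nat.mul_le_mul_left _ h7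
    obtain ⟨p, rfl⟩ : ∃ p, q = p + 4 := ⟨q - 4, by omega⟩
    have h8 : 32 * sk (p + 4) k = k * ((k + 4) * 2 ^ (p + 4 + 1)) := by
      rw [sk, show p + 4 - 4 = p by omega, pow_succ, pow_add]
      ring
    rw [h8]
    exact Nat.mul_le_mul_left _ h6

/-- The number of nodes. -/
theorem bk_le {q k : ℕ} (hq : 4 ≤ q) (hqk : q ≤ k) : bk q k ≤ 2 ^ (96002 * ((k + 4) * 2 ^ q)) := by
  obtain ⟨E, hE⟩ : ∃ E, E = (k + 4) * 2 ^ q := ⟨_, rfl⟩
  have h16 : 2 ^ 4 ≤ 2 ^ q := Nat.pow_le_pow_right (by norm_num) hq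
  have hE1 : (k + 4) * 16 ≤ E := by
    rw [hE]
    exact Nat.mul_le_mul_left _ h16
  have h5 : 8 * 2 ^ q * 2 ^ (k - 4) * (8000 * 2 ^ q + 1) ≤ 2 ^ E := by
    have h6 : 8000 * 2 ^ q + 1 ≤ 2 ^ (q + 13) := by
      rw [pow_add]
      have : 1 ≤ 2 ^ q := Nat.one_le_two_pow
      norm_num
      omega
    calc 8 * 2 ^ q * 2 ^ (k - 4) * (8000 * 2 ^ q + 1)
        ≤ 8 * 2 ^ q * 2 ^ (k - 4) * 2 ^ (q + 13) := Nat.mul_le_mul_left _ h6
      _ = 2 ^ (3 + q + (k - 4) + (q + 13)) := by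
        simp only [pow_add]
        norm_num
      _ ≤ 2 ^ E := Nat.pow_le_pow_right (by norm_num) (by omega)
  have h4 : 2 ^ (2 * (8000 * 2 ^ q) * (6 * k + 24)) = 2 ^ (96000 * E) := by
    congr 1
    rw [hE]
    ring
  rw [bk, h4, ← hE]
  have h7 : 1 ≤ E := by omega
  calc 8 * 2 ^ q * 2 ^ (k - 4) * (8000 * 2 ^ q + 1) * 2 ^ (96000 * E) + 2
      ≤ 2 ^ E * 2 ^ (96000 * E) + 2 := Nat.add_le_add_right (Nat.mul_le_mul_right _ h5) 2
    _ = 2 ^ (96001 * E) + 2 := by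
      rw [← pow_add]
      congr 2
      ring
    _ ≤ 2 ^ (96001 * E) + 2 ^ (96001 * E) := by
      have : 2 ^ 1 ≤ 2 ^ (96001 * E) := Nat.pow_le_pow_right (by norm_num) (by omega)
      omega
    _ = 2 ^ (96001 * E + 1) := by rw [pow_succ]; ring
    _ ≤ 2 ^ (96002 * E) := Nat.pow_le_pow_right (by norm_num) (by omega)

end Pool.Agent.NLP
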