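import Pool.Agent.NLP.BlockT
import Pool.Agent.NLP.Few
import Pool.Agent.NLP.NumK

set_option autoImplicit false

/-!
# The block with a free depth
-/

namespace Pool.Agent.NLP

open Finset Pool.Agent.XL Pool.Agent.NTR Pool.Agent.NTN Pool.Agent.TeleNeg
open scoped BigOperators

/-- The functions which are an OR of `2 * 2 ^ s` functions of the class of size `S ≤ 2 ^ s`. -/
def smallOrS (s : ℕ) (β : Type) : Set ((β → Bool) → Bool) :=
  {H | ∃ S, S ≤ 2 ^ s ∧ H ∈ orSet (lClass S) β (2 * 2 ^ s)}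

private theorem hD_k {q k : ℕ} (hq : 4 ≤ q) (hk : 128 ≤ k) : k * 2 ^ (q - 1) + 17 ≤ k * 2 ^ q := by
  have hpow : 2 ^ q = 2 * 2 ^ (q - 1) := by
    rw [← pow_succ', show q - 1 + 1 = q by omega]
  have h7 : 1 ≤ 2 ^ (q - 1) := Nat.one_le_two_pow
  rw [hpow]
  nlinarith

private theorem card_k (q k : ℕ) :
    Fintype.card (Bv (Option (Fin (8 * 2 ^ q * 2 ^ (k - 4)) × Fin (8000 * 2 ^ q)))
      (6 * k + 24)) = ck q k := by
  rw [Fintype.card_prod, Fintype.card_option, Fintype.card_prod, Fintype.card_fin,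
    Fintype.card_fin, Fintype.card_fun, Fintype.card_fun, ZMod.card, Fintype.card_fin,
    Fintype.card_fin, ← pow_mul, ck, vk, mul_comm (6 * k + 24) 17]

/-- **The block.** -/
theorem exists_blockK {q k : ℕ} (hq : 4 ≤ q) (hk : 128 ≤ k) (hqk : q ≤ k) :
    ∃ (β : Type) (_ : Fintype β) (N : Net β (bk q k)),
      Fintype.card β = ck q k ∧ (∃ Y Z, N.dval Y = true ∧ N.dval Z = false) ∧
      ∀ (L : List ((β → Bool) → Bool)) (a : ℕ), L.length = 3 * ck q k * 4 ^ sk q k →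
        (∀ H ∈ L, H ∈ smallOrS (sk q k) β) →
          ¬ ∀ u, N.dval u = true ↔ a ≤ L.countP fun H => H u := by
  classical
  obtain ⟨nb, hnb⟩ := exists_graph (θ := 2 ^ q) Nat.one_le_two_pow
  have hw : 0 < 8000 * 2 ^ q := by positivity
  have hcard := card_k q k
  obtain ⟨N, hN1, hN2⟩ := block_gen (h := 6 * k + 24) (s := 2 ^ sk q k) (Q := 2 * 2 ^ sk q k) hnb
    (by omega : 4 ≤ k) Nat.one_le_two_pow rfl hw (hD_k hq hk) (D_le_vk q k (by omega))
  refine ⟨_, inferInstance, N, hcard, hN1, fun L a hL hLS hg => ?_⟩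
  rw [hcard] at hN2
  have hc1 := one_le_ck q k
  have hk1 : 1 ≤ 3 * ck q k * 4 ^ sk q k := by
    have : 1 ≤ 4 ^ sk q k := Nat.one_le_pow _ _ (by norm_num)
    nlinarith
  obtain ⟨i, j, e1, e2, e3, e4⟩ := exists_levels hk1 hc1
  have h8 := hN2 L a i j (by rw [hL]; exact e1) e2 hLS hg
  have h9 := num_lowerK hq hk hqk e3 e4
  unfold vk at h9
  exact absurd (lt_of_le_of_lt h8 h9) (lt_irrefl _)

/-- **The block, one-sided form.** -/
theorem exists_fewK {q k : ℕ} (hq : 4 ≤ q) (hk : 128 ≤ k) (hqk : q ≤ k) :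
    ∃ (β : Type) (_ : Fintype β) (N : Net β (bk q k)) (R : Finset (β → Bool)),
      Fintype.card β = ck q k ∧ R.Nonempty ∧ (∀ u ∈ R, N.dval u = true) ∧
      ∀ S ≤ 2 ^ sk q k, ∀ G : (β → Bool) → Bool, (lClass S).mem β G →
        (∀ u, G u = true → N.dval u = true) →
        2 ^ (8 * sk q k) * (R.filter fun u => G u = true).card ≤ R.card := by
  classical
  obtain ⟨nb, hnb⟩ := exists_graph (θ := 2 ^ q) Nat.one_le_two_pow
  have hw : 0 < 8000 * 2 ^ q := by positivity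
  have hcard := card_k q k
  obtain ⟨N, R, hR1, hR2, hR3⟩ := block_few (h := 6 * k + 24) (s := 2 ^ sk q k) hnb
    (by omega : 4 ≤ k) Nat.one_le_two_pow rfl hw (hD_k hq hk) (D_le_vk q k (by omega))
  refine ⟨_, inferInstance, N, R, hcard, ?_, hR2, fun S hS G hG hle => ?_⟩
  · rw [← Finset.card_pos, hR1]
    refine Nat.pow_pos ?_
    have : 2 ^ 1 ≤ 2 ^ (6 * k + 24) := Nat.pow_le_pow_right (by norm_num) (by omega)
    omega
  have h1 := hR3 S hS G hG hle
  rw [hcard] at h1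
  have hc1 := one_le_ck q k
  have hk1 : 1 ≤ 3 * ck q k * 4 ^ sk q k := by
    have : 1 ≤ 4 ^ sk q k := Nat.one_le_pow _ _ (by norm_num)
    nlinarith
  obtain ⟨i, j, e1, e2, e3, e4⟩ := exists_levels hk1 hc1
  have h9 := num_lowerK hq hk hqk e3 e4
  have h10 : 4 ^ sk q k ≤ 2 ^ i := by
    have h11 : 3 * 4 ^ sk q k ≤ 3 * ck q k * 4 ^ sk q k := by
      calc 3 * 4 ^ sk q k = 3 * 1 * 4 ^ sk q k := by ring
        _ ≤ 3 * ck q k * 4 ^ sk q k := Nat.mul_le_mul_right _ (Nat.mul_le_mul_left _ hc1)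
    omega
  have h12 : 2 ^ (8 * sk q k) ≤ 5 ^ (2 * i + j + 2) := by
    calc 2 ^ (8 * sk q k) = (4 ^ sk q k) ^ 4 := by
          rw [show (4 : ℕ) = 2 ^ 2 by norm_num, ← pow_mul, ← pow_mul]
          congr 1
          ring
      _ ≤ (2 ^ i) ^ 4 := Nat.pow_le_pow_left h10 4
      _ = 4 ^ (2 * i) := by
          rw [show (4 : ℕ) = 2 ^ 2 by norm_num, ← pow_mul, ← pow_mul]
          congr 1
          ring
      _ ≤ 5 ^ (2 * i) := Nat.pow_le_pow_left (by norm_num) _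
      _ ≤ 5 ^ (2 * i + j + 2) := Nat.pow_le_pow_right (by norm_num) (by omega)
  rw [hR1]
  unfold vk at h9
  set X := 2 ^ sk q k * 2 ^ sk q k * (ck q k + 1) *
    ((8 * 2 ^ q * 2 ^ (k - 4) * (8000 * 2 ^ q)).choose (k * 2 ^ (q - 1)) *
      2 ^ ((6 * k + 24) * (8 * 2 ^ q * 2 ^ (k - 4) * (8000 * 2 ^ q) - k * 2 ^ (q - 1)))) with hX
  calc 2 ^ (8 * sk q k) * (R.filter fun u => G u = true).card ≤ 2 ^ (8 * sk q k) * X :=
        Nat.mul_le_mul_left _ h1
    _ ≤ 5 ^ (2 * i + j + 2) * (2 * 2 ^ sk q k * X) := by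
        refine Nat.mul_le_mul h12 ?_
        refine Nat.le_mul_of_pos_left _ ?_
        positivity
    _ ≤ _ := h9.le

end Pool.Agent.NLP
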