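import Pool.Agent.XL.RankM

set_option autoImplicit false

/-!
# Project NLP (nondeterministic branching programs without NOT gates against networks with NOT
gates): definitions

The block function is the lifted pebbling formula of a layered graph: the unknowns are the nodes
`(i, t)` (layer `i < ℓ`, `t < w`) of a graph in which every node of layer `i + 1` has 16
predecessors in layer `i`.
-/

namespace Pool.Agent.NLP

open Finset Pool.Agent.XL

/-- Every set of at most `m` nodes has at least twice as many predecessors. -/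
def Expands {w : ℕ} (nb : Fin w → Fin 16 → Fin w) (m : ℕ) : Prop :=
  ∀ T : Finset (Fin w), T.card ≤ m → 2 * T.card ≤ (T.biUnion fun t => univ.image (nb t)).card

/-- One step of the reversible pebble game with base layer `a`: at most one node changes, and a
node above the base layer changes only if all its predecessors carry pebbles. -/
def Stp {w : ℕ} (nb : Fin w → Fin 16 → Fin w) (a : ℕ) (C C' : Finset (ℕ × Fin w)) : Prop :=
  C = C' ∨ ∃ u : ℕ × Fin w, (∀ v, v ≠ u → (v ∈ C ↔ v ∈ C')) ∧
    (a < u.1 → ∀ c, (u.1 - 1, nb u.2 c) ∈ C)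

/-- A system of constraints on the unknowns `V`, each constraint reads 17 unknowns. -/
structure Sy (V M : Type) where
  vars : M → Fin 17 → V
  bad : M → (Fin 17 → ZMod 2) → Prop

/-- A functional of degree `D` for the system. -/
def Dual {V M : Type} [Fintype V] [DecidableEq V] (Y : Sy V M) (D : ℕ)
    (μ : (V → ZMod 2) → ℚ) : Prop := by
  classical
  exact ∑ z, μ z = 1 ∧ ∀ (i : M) (A : Finset V), A.card < D →
    ∑ z with Y.bad i (fun c => z (Y.vars i c)), μ z * ∏ j ∈ A, chi ℚ (z j) = 0

/-- The pebbling formula: constraint `some (i, t)` is violated if all predecessors of `(i, t)` are 1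
and `(i, t)` is 0 (for `i = 0`: if `(i, t)` is 0), constraint `none` is violated if `v₀` is 1. -/
def pebSy {w ℓ : ℕ} (nb : Fin w → Fin 16 → Fin w) (v₀ : Fin ℓ × Fin w) :
    Sy (Fin ℓ × Fin w) (Option (Fin ℓ × Fin w)) where
  vars := fun i c => match i with
    | none => v₀
    | some u => if h : c.1 < 16 then
        (⟨u.1.1 - 1, lt_of_le_of_lt (Nat.sub_le _ _) u.1.2⟩, nb u.2 ⟨c.1, h⟩) else u
  bad := fun i a => match i with
    | none => a 16 = 1
    | some u => (u.1.1 ≠ 0 → ∀ c : Fin 17, c.1 < 16 → a c = 1) ∧ a 16 = 0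

/-- The scalar product. -/
def dt {h : ℕ} (a b : Fin h → ZMod 2) : ZMod 2 := ∑ t, a t * b t

/-- The variables of a block: a constraint and 17 vectors. -/
abbrev Bv (M : Type) (h : ℕ) : Type := M × (Fin 17 → Fin h → ZMod 2)

open Classical in
/-- The positive input `W`. -/
noncomputable def posIn {V M : Type} {h : ℕ} (Y : Sy V M) (W : V → Fin h → ZMod 2) :
    Bv M h → Bool := fun p => decide ((fun c => W (Y.vars p.1 c)) = p.2)

open Classical in
/-- The negative input `x`. -/
noncomputable def negI {V M : Type} {h : ℕ} (Y : Sy V M) (x : V → Fin h → ZMod 2) :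
    Bv M h → Bool := fun p => decide (¬ Y.bad p.1 fun c => dt (p.2 c) (x (Y.vars p.1 c)))

/-- The matrix. -/
noncomputable def mtx {V : Type} [Fintype V] {h : ℕ} (μ : (V → ZMod 2) → ℚ)
    (x W : V → Fin h → ZMod 2) : ℚ :=
  chi ℚ (∑ j, dt (W j) (x j)) * μ fun j => dt (W j) (x j)

/-- The positive inputs: no vector is zero. -/
abbrev Pos (V : Type) (h : ℕ) : Type := {W : V → Fin h → ZMod 2 // ∀ j, W j ≠ 0}

/-- The measure of a function of the block variables. -/
noncomputable def rkB {V M : Type} [Fintype V] [DecidableEq V] {h : ℕ} (Y : Sy V M)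
    (μ : (V → ZMod 2) → ℚ) (G : (Bv M h → Bool) → Bool) : ℤ :=
  rk (fun (x : V → Fin h → ZMod 2) (W : Pos V h) => mtx μ x W.1)
    (fun W => G (posIn Y W.1)) (fun x => G (negI Y x))

end Pool.Agent.NLP
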