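import Pool.Agent.NLP.SeesAvg
import Pool.Agent.NLP.BlockK
import Pool.Agent.XL.RankAvg
import Pool.Agent.XL.GlueAnd

set_option autoImplicit false

/-!
# Zeros must be seen even to be right on 51% of the inputs: the evaluation problem and systems of
# linear equations
-/

namespace Pool.Agent.NLP

open Finset Pool.Agent.TeleNeg Pool.Agent.NTR Pool.Agent.NTR.Gen Pool.Agent.NWE
  Pool.Agent.GB24.Loc Pool.Agent.XL Pool.Agent.NTN
open scoped BigOperators

open Classical in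
/-- The distributions on a block. -/
theorem exists_distK {q κ : ℕ} (hq : 4 ≤ q) (hκ : 128 ≤ κ) (hqκ : q ≤ κ) :
    ∃ (β : Type) (_ : Fintype β) (N : Net β (bk q κ)), Fintype.card β = ck q κ ∧
      ∃ D₀ D₁ : (β → Bool) → ℝ, (∀ u, 0 ≤ D₀ u) ∧ ∑ u, D₀ u = 1 ∧
      (∀ u, D₀ u ≠ 0 → N.dval u = false) ∧ (∀ u, 0 ≤ D₁ u) ∧ ∑ u, D₁ u = 1 ∧
      (∀ u, D₁ u ≠ 0 → N.dval u = true) ∧
      ∀ H ∈ smallOrS (sk q κ) β,
        ∑ u with H u = true, D₁ u ≤ ∑ u with H u = true, D₀ u + (1 / 2) ^ sk q κ := by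
  obtain ⟨β, hβ, N, hcard, hne, hM⟩ := exists_blockK hq hκ hqκ
  have hδ0 : (0 : ℝ) < (1 / 2) ^ sk q κ := by positivity
  have hsq : sk q κ ≠ 0 := by
    have := le_sk q κ
    omega
  have hδ1 : ((1 / 2 : ℝ)) ^ sk q κ < 1 := pow_lt_one₀ (by norm_num) (by norm_num) hsq
  obtain ⟨D₀, D₁, h⟩ := hard_dist_set N.dval hδ0 hδ1 (3 * ck q κ * 4 ^ sk q κ) (by
      rw [hcard]
      have h7 : ((1 / 2 : ℝ) ^ sk q κ) ^ 2 = 1 / 4 ^ sk q κ := by
        rw [← pow_mul, mul_comm, pow_mul, show (1 / 2 : ℝ) ^ 2 = 1 / 4 by norm_num, one_div_pow]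
      rw [h7]
      push_cast
      have h8 : (3 * (ck q κ : ℝ) * 4 ^ sk q κ) * (1 / 4 ^ sk q κ) = 3 * (ck q κ : ℝ) := by
        rw [mul_one_div, mul_div_assoc, div_self (by positivity), mul_one]
      rw [h8]) (smallOrS (sk q κ) β) hne hM
  exact ⟨β, hβ, N, hcard, D₀, D₁, h⟩

/-- The conjunction of `k` copies of a block in the evaluation problem. -/
theorem ev_conj {β : Type} [Fintype β] {B m n k : ℕ} (N : Net β B) (hB : k * B + 4 ≤ m)
    (U : Finset (EvVar m n)) (hU : k * Fintype.card β ≤ inputs U) :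
    ∃ φ : EvVar m n → (Fin k × β) ⊕ Bool, (∀ v, v ∉ U → ∃ c, φ v = .inr c) ∧
      ∀ y : Fin k × β → Bool, ev (fun v => Sum.elim y id (φ v)) = true ↔
        ∀ i, N.dval (fun b => y (i, b)) = true := by
  classical
  have hcopy : ∀ i : Fin k, ∃ M : Net (Fin k × β) B, ∀ x, M.dval x = N.dval fun b => x (i, b) := by
    intro i
    exact (dnetClass B).subst β (Fin k × β) N.dval (fun b => Sum.inl (i, b)) ⟨N, fun _ => rfl⟩
  choose M hM using hcopy
  obtain ⟨N', -, hN'⟩ := NTN.exists_andNet M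
  have hemb : Nonempty ((Fin k × β) ↪ {i : Fin n // (Sum.inr i : EvVar m n) ∈ U}) := by
    refine Function.Embedding.nonempty_of_card_le ?_
    rw [Fintype.card_subtype, Fintype.card_prod, Fintype.card_fin]
    exact hU
  obtain ⟨e⟩ := hemb
  obtain ⟨φ, hφ1, hφ2, hφ3⟩ := ev_sub N' (m := m) (by omega) (fun b => (e b).1)
    (fun b b' h => e.injective (Subtype.ext h))
  refine ⟨φ, fun v hv => hφ2 v fun b hb => hv (hb ▸ (e b).2), fun y => ?_⟩
  rw [hφ3, hN']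
  simp only [hM]

/-- The evaluation problem: from a block to devices which are right on 51%. -/
theorem ev_hardAvg {q κ m n k S : ℕ} (hq : 4 ≤ q) (hκ : 128 ≤ κ) (hqκ : q ≤ κ) (hk : 1 ≤ k)
    (hB : k * bk q κ + 4 ≤ m) (hS : S ≤ 2 ^ sk q κ)
    (U : Finset (EvVar m n)) (hU : k * ck q κ ≤ inputs U) :
    SeesAvg ((lClass S).mem _) ev U S ((1 / 2) ^ sk q κ / 2) (1 / (2 * k)) := by
  classical
  obtain ⟨β, _, N, hcard, D₀, D₁, d1, d2, d3, d4, d5, d6, d7⟩ := exists_distK hq hκ hqκ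
  obtain ⟨φ, hφ, hf⟩ := ev_conj N hB U (by rw [hcard]; exact hU)
  refine sees_of_hardAvg (lClass S) ?_
  exact AVZ.avg_sees hk (lClass S) N.dval (fun z => ev z = true) φ hφ hf D₀ D₁ d1 d2 d3 d4 d5 d6
    ((1 / 2) ^ sk q κ) (fun H hH => d7 H ⟨S, hS, orSet_le (by omega) hH⟩) _ fun D h => h

/-- **Main theorem, L versus NL, average case**, for `C = 10 ^ 18`. -/
theorem ev_avg_div : ∃ C : ℕ, 1 ≤ C ∧ ∀ (n k S : ℕ) (U : Finset (EvVar n n)), 1 ≤ k →
    (Nat.log 2 n + 2) ^ C ≤ inputs U / k → 1 ≤ S → S ^ C ≤ (n / k) ^ Nat.log 2 (inputs U / k) →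
    SeesAvg ((lClass S).mem _) ev U S (1 / S) (1 / k) := by
  classical
  obtain ⟨C, hC⟩ : ∃ C : ℕ, C = 10 ^ 18 := ⟨_, rfl⟩
  refine ⟨C, by omega, fun n k S U hk hU hS1 hS => ?_⟩
  obtain ⟨n', hn'⟩ : ∃ n', n' = n / k := ⟨_, rfl⟩
  obtain ⟨v, hv⟩ : ∃ v, v = inputs U / k := ⟨_, rfl⟩
  rw [← hn', ← hv] at hS
  rw [← hv] at hU
  obtain ⟨L, hL⟩ : ∃ L, L = Nat.log 2 n' := ⟨_, rfl⟩
  obtain ⟨l, hl⟩ : ∃ l, l = Nat.log 2 v := ⟨_, rfl⟩
  rw [← hl] at hS
  have hUn : inputs U ≤ n := by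
    unfold inputs
    simpa using Finset.card_le_univ (univ.filter fun i : Fin n => (Sum.inr i : EvVar n n) ∈ U)
  have hvn : v ≤ n' := by
    rw [hv, hn']
    exact Nat.div_le_div_right hUn
  have hnn : n' ≤ n := by
    rw [hn']
    exact Nat.div_le_self _ _
  have hL2 : L ≤ Nat.log 2 n := hL ▸ Nat.log_mono_right hnn
  have hU' : (L + 2) ^ C ≤ v := (Nat.pow_le_pow_left (by omega) C).trans hU
  have hv0 : v ≠ 0 := by
    intro h
    rw [h] at hU'
    have : 0 < (L + 2) ^ C := by positivity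
    omega
  have h3 : l ≤ L := by
    rw [hl, hL]
    exact Nat.log_mono_right hvn
  have h2 : C * Nat.log 2 (L + 2) ≤ l := by
    rw [hl]
    refine Nat.le_log_of_pow_le (by norm_num) ?_
    calc 2 ^ (C * Nat.log 2 (L + 2)) = (2 ^ Nat.log 2 (L + 2)) ^ C := by rw [← pow_mul, mul_comm]
      _ ≤ (L + 2) ^ C := Nat.pow_le_pow_left (Nat.pow_log_le_self 2 (by omega)) C
      _ ≤ v := hU'
  have h1 : C ≤ l := by
    have h4 : 1 ≤ Nat.log 2 (L + 2) := Nat.le_log_of_pow_le (by norm_num) (by omega)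
    calc C = C * 1 := (mul_one C).symm
      _ ≤ C * Nat.log 2 (L + 2) := Nat.mul_le_mul_left C h4
      _ ≤ l := h2
  obtain ⟨q, κ, hq8, hqκ, hX, hκl, hs, -⟩ := exists_qk hC.ge h1 h2 h3
  have h16 : 16 * sk q κ = κ * (κ + 4) * 2 ^ q := FewK.sk_eq (q := q) (κ := κ) (by omega)
  have hs' := hs _ h16
  have hκ : 128 ≤ κ := by
    have e1 : 1600000 * (C * (L + 1)) ≤ κ * (C * (L + 1)) := by
      calc 1600000 * (C * (L + 1)) ≤ 1600000 * (l * (L + 1)) :=
            Nat.mul_le_mul_left _ (Nat.mul_le_mul_right _ h1)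
        _ = 100000 * 16 * ((L + 1) * l) := by ring
        _ ≤ 100000 * 16 * (C * sk q κ) := Nat.mul_le_mul_left _ hs'
        _ = 100000 * C * (16 * sk q κ) := by ring
        _ = κ * C * (100000 * ((κ + 4) * 2 ^ q)) := by rw [h16]; ring
        _ ≤ κ * C * L := Nat.mul_le_mul_left _ hX
        _ ≤ κ * (C * (L + 1)) := by
            rw [mul_assoc]
            exact Nat.mul_le_mul_left _ (Nat.mul_le_mul_left _ (Nat.le_succ L))
    have e2 : 0 < C * (L + 1) := Nat.mul_pos (by omega) (Nat.succ_pos L)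
    have e3 := Nat.le_of_mul_le_mul_right e1 e2
    omega
  have hck := ck_le q κ (by omega) hqκ
  have hvl : 2 ^ l ≤ v := hl ▸ Nat.pow_log_le_self 2 hv0
  have hbk : bk q κ + 4 ≤ n' := bk_le4 hq8 hqκ (hL ▸ hX)
  have hkn : k * n' ≤ n := by
    rw [hn']
    exact Nat.mul_div_le n k
  have hkv : k * v ≤ inputs U := by
    rw [hv]
    exact Nat.mul_div_le _ k
  have hSs : S ≤ 2 ^ sk q κ := by
    have h9 : n' < 2 ^ (L + 1) := hL ▸ Nat.lt_pow_succ_log_self (by norm_num) n'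
    have h10 : S ^ C ≤ (2 ^ sk q κ) ^ C := by
      calc S ^ C ≤ n' ^ l := hS
        _ ≤ (2 ^ (L + 1)) ^ l := Nat.pow_le_pow_left h9.le l
        _ = 2 ^ ((L + 1) * l) := by rw [← pow_mul]
        _ ≤ 2 ^ (C * sk q κ) := Nat.pow_le_pow_right (by norm_num) hs'
        _ = (2 ^ sk q κ) ^ C := by rw [← pow_mul, mul_comm]
    exact (Nat.pow_le_pow_iff_left (by omega)).1 h10
  refine (ev_hardAvg (by omega) hκ hqκ hk ?_ hSs U ?_).mono (fun G h => h) le_rfl ?_ ?_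
  · calc k * bk q κ + 4 ≤ k * bk q κ + k * 4 := by omega
      _ = k * (bk q κ + 4) := by ring
      _ ≤ k * n' := Nat.mul_le_mul_left k hbk
      _ ≤ n := hkn
  · calc k * ck q κ ≤ k * 2 ^ (105 * κ + 420) := Nat.mul_le_mul_left k hck
      _ ≤ k * 2 ^ l := Nat.mul_le_mul_left k (Nat.pow_le_pow_right (by norm_num) hκl)
      _ ≤ k * v := Nat.mul_le_mul_left k hvl
      _ ≤ inputs U := hkv
  · have hS0 : (0 : ℝ) < S := by exact_mod_cast hS1
    have e1 : (S : ℝ) ≤ 2 ^ sk q κ := by exact_mod_cast hSs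
    have e2 : ((1 / 2 : ℝ)) ^ sk q κ ≤ 1 / S := by
      rw [one_div_pow]
      exact one_div_le_one_div_of_le hS0 e1
    have e3 : (0 : ℝ) < (1 / 2) ^ sk q κ := by positivity
    linarith
  · have hk0 : (0 : ℝ) < k := by exact_mod_cast hk
    exact one_div_le_one_div_of_le hk0 (by linarith)

/-- **Main theorem, L versus NL, average case**, without quotients. -/
theorem ev_avg : ∃ C : ℕ, 1 ≤ C ∧ ∀ (n k m v S : ℕ) (U : Finset (EvVar n n)), 1 ≤ k →
    k * m ≤ n → k * v ≤ inputs U → (Nat.log 2 n + 2) ^ C ≤ v → 1 ≤ S → S ^ C ≤ m ^ Nat.log 2 v →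
    SeesAvg ((lClass S).mem _) ev U S (1 / S) (1 / k) := by
  obtain ⟨C, hC1, hC⟩ := ev_avg_div
  refine ⟨C, hC1, fun n k m v S U hk hm hv hU hS1 hS => ?_⟩
  have h1 : m ≤ n / k := (Nat.le_div_iff_mul_le hk).2 (by rw [mul_comm]; exact hm)
  have h2 : v ≤ inputs U / k := (Nat.le_div_iff_mul_le hk).2 (by rw [mul_comm]; exact hv)
  refine hC n k S U hk (hU.trans h2) hS1 (hS.trans ?_)
  have h3 : 1 ≤ n / k := by
    have hUn : inputs U ≤ n := by
      unfold inputs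
      simpa using Finset.card_le_univ (univ.filter fun i : Fin n => (Sum.inr i : EvVar n n) ∈ U)
    have h4 : inputs U / k ≤ n / k := Nat.div_le_div_right hUn
    have h5 : 0 < (Nat.log 2 n + 2) ^ C := by positivity
    omega
  exact (Nat.pow_le_pow_left h1 _).trans (Nat.pow_le_pow_right h3 (Nat.log_mono_right h2))

/-- **Linear equations, average case**: `k` blocks for devices of size `2 ^ s`. -/
theorem unsat_avg {n k s : ℕ} (hk : 1 ≤ k) (hs : 1 ≤ s) (U : Finset (Eq3 n))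
    (hU : 2 ^ 222 * (k * s) ≤ leftRank U) :
    SeesAvg ((devClass s).mem _) unsat U (2 ^ s) ((1 / 2) ^ s / 2) (1 / (2 * k)) := by
  classical
  obtain ⟨c, hc⟩ : ∃ c : ℕ, c = 2 ^ 219 * s := ⟨_, rfl⟩
  have hroom0 : 256 * cdz s ≤ c := by
    rw [hc]
    exact room s
  obtain ⟨K, hK⟩ : ∃ K, K = k * c := ⟨_, rfl⟩
  have hKR : 5 * K ≤ leftRank U := by
    refine le_trans ?_ hU
    rw [hK, hc]
    calc 5 * (k * (2 ^ 219 * s)) = 5 * 2 ^ 219 * (k * s) := by ring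
      _ ≤ 2 ^ 222 * (k * s) := Nat.mul_le_mul_right _ (by norm_num)
  obtain ⟨m, e, b₀, hm1, hm2, hE, hb₀, -⟩ := exists_system (100 * s) (by omega)
  obtain ⟨q, hq1, hq2⟩ := exists_of_leftRank (K := 5 * K) U hKR
  obtain ⟨g, a, -, ha, hp⟩ := exists_private q hq2
  have hn : K ≤ n := by
    have hinj : Function.Injective a := by
      intro i j h
      by_contra hne
      exact hp i j hne (h ▸ ha i)
    simpa using Fintype.card_le_of_injective a hinj
  have hroom : k * (256 * cdz s) ≤ K := by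
    rw [hK]
    exact Nat.mul_le_mul_left _ hroom0
  have hm : m * 24 ≤ cdz s := by
    unfold cdz
    have e1 : (1000000 : ℕ) ≤ 2 ^ 192 := by norm_num
    calc m * 24 ≤ 2000 * (100 * s) * 24 := Nat.mul_le_mul_right _ hm2
      _ ≤ 4000 * (100 * s) * 1000000 := by nlinarith
      _ ≤ 4000 * (100 * s) * 2 ^ 192 := Nat.mul_le_mul_left _ e1
  have hcdz1 : 1 ≤ cdz s := cdz_pos hs
  obtain ⟨φ, f1, -, f3⟩ := glue_and_p (h := 24) (r := k) hk e b₀ U (fun i => q (g i))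
    (fun i => hq1 _) a ha hp
    (by
      rw [card_bvar_eq]
      refine le_trans (Nat.mul_le_mul_left _ ?_) hroom
      omega)
    (by
      rw [card_bvar_eq]
      refine le_trans (Nat.mul_le_mul_left _ ?_) (hroom.trans hn)
      omega)
  set cd := Fintype.card (Bvar (4000 * (100 * s)) 24) with hcd
  have hcdz : cd = cdz s := card_bvar_eq s
  have hcd1 : 1 ≤ cd := by
    rw [hcdz]
    exact hcdz1
  have h5 : (0 : ℝ) < (1 / 2) ^ s := by positivity
  have h6 : ((1 / 2 : ℝ)) ^ s < 1 := pow_lt_one₀ (by norm_num) (by norm_num) (by omega)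
  have hk1 : 1 ≤ 3 * cd * 4 ^ s := by
    have : 1 ≤ 4 ^ s := Nat.one_le_pow _ _ (by norm_num)
    nlinarith
  obtain ⟨i, j, e1, e2, e3, e4⟩ := exists_levels hk1 hcd1
  obtain ⟨D₀, D₁, d1, d2, d3, d4, d5, d6, d7⟩ := hard_dist_set (incon (h := 24) e b₀) h5 h6
    (3 * cd * 4 ^ s) (by
      have h7 : ((1 / 2 : ℝ) ^ s) ^ 2 = 1 / 4 ^ s := by
        rw [← pow_mul, mul_comm, pow_mul, show (1 / 2 : ℝ) ^ 2 = 1 / 4 by norm_num, one_div_pow]
      rw [h7]
      push_cast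
      have h8 : (3 * (cd : ℝ) * 4 ^ s) * (1 / 4 ^ s) = 3 * (cd : ℝ) := by
        rw [mul_one_div, mul_div_assoc, div_self (by positivity), mul_one]
      rw [h8])
    {H | rkF ℚ (100 * s) e b₀ (univ.filter fun W : Fin m → Fin 24 → ZMod 2 => ∀ j, W j ≠ 0) H ≤
      (2 ^ (3 * s) * (cd + 1) * rowK (4000 * (100 * s)) m 24 (100 * s) : ℕ)}
    ⟨PW e 0, negIn e b₀ 0, incon_PW hb₀ 0, incon_negIn e b₀ 0⟩ (by
      intro L θ hL hLS hcon
      have h7 := rkF_amplify (F := ℚ) (d := 100 * s) (e := e) b₀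
        (univ.filter fun W : Fin m → Fin 24 → ZMod 2 => ∀ j, W j ≠ 0) L θ hcon
        (N₀ := (2 ^ (3 * s) * (cd + 1) * rowK (4000 * (100 * s)) m 24 (100 * s) : ℕ))
        (by positivity) hLS i j (by rw [hL]; exact e1) e2
      have h8 := incon_rk_large hE b₀ hb₀ hm1 hm2
        (Q := 5 ^ (2 * i + j + 2) * (2 ^ (3 * s) * (cd + 1))) (by
          refine h7.trans (le_of_eq ?_)
          push_cast
          ring)
      have h11 := num_thr hs (hcdz.trans rfl) e3 e4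
      exact absurd (lt_of_le_of_lt h8 h11) (lt_irrefl _))
  refine sees_of_hardAvg (devClass s) ?_
  exact AVZ.avg_sees hk (devClass s) (incon (h := 24) e b₀) (fun z => unsat z = true) φ f1 f3
    D₀ D₁ d1 d2 d3 d4 d5 d6 ((1 / 2) ^ s)
    (fun H hH => d7 H (orSet_dev_rk ℚ b₀ _ hE (by omega) le_rfl hH)) _ fun D h => h

/-- The functions computed by a switching network with at most `S` nodes or by a comparator circuit
with at most `S` wires. -/
def Size (S : ℕ) {ι : Type} (G : (ι → Bool) → Bool) : Prop :=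
  ∃ S' ≤ S, (∃ N : Net ι S', ∀ x, N.val x = G x) ∨ ∃ P : CompCirc ι S', ∀ x, P.val x = G x

theorem Size.lClass {S : ℕ} {ι : Type} {G : (ι → Bool) → Bool} (h : Size S G) :
    (lClass S).mem ι G := by
  obtain ⟨S', hS', h⟩ := h
  exact lClass_le hS' h

theorem Sees.le {ι : Type} {K : ((ι ⊕ ι → Bool) → Bool) → Prop} {f : (ι → Bool) → Bool}
    {U : Finset ι} {k Q Q' : ℕ} (h : Sees K f U k Q) (hQ : Q' ≤ Q) : Sees K f U k Q' := by
  obtain ⟨ρ, H, h1, h2, h3⟩ := h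
  refine ⟨ρ, H, h1, h2, fun Y D hD hf A hA hacc => ?_⟩
  refine (Nat.mul_le_mul_right _ hQ).trans (h3 Y D hD (fun z hz => ⟨(hf z hz).1.trans ?_,
    (hf z hz).2⟩) A hA hacc)
  exact_mod_cast hQ

/-- **The four clauses.** -/
theorem four : ∃ C : ℕ, 1 ≤ C ∧
    (∀ (n k : ℕ) (U : Finset (Eq3 n)), C * k ≤ leftRank U →
      Sees (Size (2 ^ k)) unsat U k (2 ^ k)) ∧
    (∀ (n k S : ℕ) (U : Finset (Eq3 n)), 1 ≤ k → 1 ≤ S →
      C * (k * (Nat.log 2 S + 1)) ≤ leftRank U → SeesAvg (Size S) unsat U S (1 / S) (1 / k)) ∧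
    ∀ (n k m v S : ℕ) (U : Finset (EvVar n n)), 1 ≤ k → 1 ≤ S → k * m ≤ n → k * v ≤ inputs U →
      (Nat.log 2 n + 2) ^ C ≤ v → S ^ C ≤ m ^ Nat.log 2 v →
      Sees (Size S) ev U k S ∧ SeesAvg (Size S) ev U S (1 / S) (1 / k) := by
  obtain ⟨C₁, h1, hC₁⟩ := ev_sees_all
  obtain ⟨C₂, h2, hC₂⟩ := ev_avg
  refine ⟨max (max C₁ C₂) (2 ^ 233), le_max_of_le_left (le_max_of_le_left h1), fun n k U hU => ?_,
    fun n k S U hk hS hU => ?_, fun n k m v S U hk hS hm hv hU hSm => ?_⟩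
  · refine (unsat_sees n k U ((Nat.mul_le_mul_right k (le_max_right _ _)).trans hU)).mono
      fun G hG => ?_
    obtain ⟨S', hS', hG | hG⟩ := hG
    · exact Or.inl ⟨S', hS', hG⟩
    · exact Or.inr (Or.inl ⟨S', hS', hG⟩)
  · have hlt : S < 2 ^ (Nat.log 2 S + 1) := Nat.lt_pow_succ_log_self (by norm_num) S
    have hU' : 2 ^ 222 * (k * (Nat.log 2 S + 1)) ≤ leftRank U :=
      (Nat.mul_le_mul_right _ ((Nat.pow_le_pow_right (by norm_num) (by norm_num) :
        2 ^ 222 ≤ 2 ^ 233).trans (le_max_right _ _))).trans hU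
    have hS0 : (0 : ℝ) < S := by exact_mod_cast hS
    have hk0 : (0 : ℝ) < k := by exact_mod_cast hk
    refine (unsat_avg hk (by omega) U hU').mono (fun G hG => ?_) hlt.le ?_ ?_
    · obtain ⟨S', hS', hG | hG⟩ := hG
      · exact Or.inl ⟨S', hS'.trans hlt.le, hG⟩
      · exact Or.inr (Or.inl ⟨S', hS'.trans hlt.le, hG⟩)
    · have e1 : (S : ℝ) ≤ 2 ^ (Nat.log 2 S + 1) := by exact_mod_cast hlt.le
      have e2 : ((1 / 2 : ℝ)) ^ (Nat.log 2 S + 1) ≤ 1 / S := by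
        rw [one_div_pow]
        exact one_div_le_one_div_of_le hS0 e1
      have e3 : (0 : ℝ) < (1 / 2) ^ (Nat.log 2 S + 1) := by positivity
      linarith
    · exact one_div_le_one_div_of_le hk0 (by linarith)
  · have hpow : ∀ a, a ≤ max (max C₁ C₂) (2 ^ 233) → (Nat.log 2 n + 2) ^ a ≤ v ∧
        S ^ a ≤ m ^ Nat.log 2 v := fun a ha =>
      ⟨(Nat.pow_le_pow_right (by omega) ha).trans hU, (Nat.pow_le_pow_right hS ha).trans hSm⟩
    obtain ⟨a1, a2⟩ := hpow C₁ (le_max_of_le_left (le_max_left _ _))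
    obtain ⟨b1, b2⟩ := hpow C₂ (le_max_of_le_left (le_max_right _ _))
    refine ⟨((hC₁ n k m v S U hk hm hv a1 a2).mono fun G hG => hG.lClass).le ?_,
      (hC₂ n k m v S U hk hm hv b1 hS b2).mono (fun G hG => hG.lClass) le_rfl le_rfl le_rfl⟩
    exact Nat.le_self_pow (by omega) S

end Pool.Agent.NLP
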