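import Pool.Agent.TeleNeg.DirDefs

set_option autoImplicit false

/-!
# Evaluation of monotone nondeterministic branching programs: definitions
-/

namespace Pool.Agent.NLP

open Pool.Agent.TeleNeg

/-- The variables: the possible contacts `(a, b, l)` of a network with `m` nodes (`l` is the label,
one of `n` input variables or `none`), and the `n` input variables. -/
abbrev EvVar (m n : ℕ) : Type := (Fin m × Fin m × Option (Fin n)) ⊕ Fin n

open Classical in
/-- Evaluation: the directed network whose contacts are the contacts `c` with `y (inl c) = true`,
with source `0` and target `m - 1`, accepts the input `i ↦ y (inr i)`. -/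
noncomputable def ev {m n : ℕ} (y : EvVar m n → Bool) : Bool :=
  decide (∃ s t : Fin m, s.1 = 0 ∧ t.1 + 1 = m ∧
    (⟨{c | y (.inl c) = true}, s, t⟩ : Net (Fin n) m).DAccepts fun i => y (.inr i))

end Pool.Agent.NLP
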