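import Pool.Agent.NLP.BlockT

set_option autoImplicit false

/-!
# The choice of the parameter `q` for programs with `n ^ 2` nodes
-/

namespace Pool.Agent.NLP

theorem num_cond {n : ℕ} (hn : 3072 * 100000 ≤ Nat.log 2 n) :
    ∃ q, 8 ≤ q ∧ bq q + 3 ≤ n ∧ 2 * cq q ≤ 2 ^ 421 * Nat.log 2 n ^ 105 ∧
      Nat.log 2 n + 1 ≤ 2 ^ sq q ∧
      ∀ S, S ^ (64 * 600000) ≤ n ^ Nat.log 2 (Nat.log 2 n) → S ≤ 2 ^ sq q := by
  obtain ⟨L, hL⟩ : ∃ L, L = Nat.log 2 n := ⟨_, rfl⟩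
  rw [← hL] at hn ⊢
  have hn0 : n ≠ 0 := by
    rintro rfl
    simp at hL
    omega
  have hLn : 2 ^ L ≤ n := by
    rw [hL]
    exact Nat.pow_log_le_self 2 hn0
  have hnL : n < 2 ^ (L + 1) := by
    rw [hL]
    exact Nat.lt_pow_succ_log_self (by norm_num) n
  obtain ⟨L', hL'⟩ : ∃ L', L' = L / 100000 := ⟨_, rfl⟩
  have h1 : 3072 ≤ L' := by omega
  have h2 : L' * 100000 ≤ L := by
    rw [hL']
    exact Nat.div_mul_le_self L 100000
  have h3 : L + 1 ≤ 100000 * (L' + 1) := by omega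
  have hlog : Nat.log 2 (2 ^ L') = L' := Nat.log_pow (by norm_num) L'
  obtain ⟨q, hq, h4, h5⟩ := exists_q (n := 2 ^ L') (by rw [hlog]; exact h1)
  rw [hlog] at h4 h5
  obtain ⟨l', hl'⟩ : ∃ l', l' = Nat.log 2 L' := ⟨_, rfl⟩
  rw [← hl'] at h5
  have h6 : 11 ≤ l' := by
    rw [hl']
    exact Nat.le_log_of_pow_le (by norm_num) (by norm_num; omega)
  have h7 : L' < 2 ^ (l' + 1) := by
    rw [hl']
    exact Nat.lt_pow_succ_log_self (by norm_num) L'
  have h8 : L + 1 ≤ 2 ^ (l' + 19) := by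
    have e : 2 ^ (l' + 19) = 2 ^ 18 * 2 ^ (l' + 1) := by
      rw [← pow_add]
      congr 1
      omega
    rw [e]
    calc L + 1 ≤ 100000 * (L' + 1) := h3
      _ ≤ 2 ^ 18 * 2 ^ (l' + 1) := Nat.mul_le_mul (by norm_num) h7
  have h9 : Nat.log 2 L ≤ l' + 18 := by
    have : Nat.log 2 L < l' + 19 := Nat.log_lt_of_lt_pow (by omega) (by omega)
    omega
  refine ⟨q, hq, ?_, ?_, ?_, fun S hS => ?_⟩
  · have e1 : 2 ≤ 2 ^ L' := by
      calc 2 = 2 ^ 1 := rfl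
        _ ≤ 2 ^ L' := Nat.pow_le_pow_right (by norm_num) (by omega)
    have e2 := num_size (n := 2 ^ L') (r := 2) e1 hq (by rw [hlog]; exact h4) e1
    have e3 : (2 ^ L') ^ 100000 ≤ n := by
      rw [← pow_mul]
      exact (Nat.pow_le_pow_right (by norm_num) h2).trans hLn
    have e4 : 2 * bq q + 2 ≤ n := e2.trans e3
    have e5 : 1 ≤ bq q := by
      unfold bq
      omega
    omega
  · have e1 := cq_le q hq
    have e2 : 2 ^ q ≤ L := by
      have : 1 * 2 ^ q ≤ (q + 4) * 2 ^ q := Nat.mul_le_mul_right _ (by omega)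
      omega
    have e3 : 2 ^ (105 * q + 420) = 2 ^ 420 * (2 ^ q) ^ 105 := by
      rw [← pow_mul, ← pow_add]
      congr 1
      ring
    have e4 : (2 ^ q) ^ 105 ≤ L ^ 105 := Nat.pow_le_pow_left e2 105
    rw [e3] at e1
    have e5 : (2 : ℕ) ^ 421 = 2 * 2 ^ 420 := pow_succ' 2 420
    rw [e5, mul_assoc]
    exact Nat.mul_le_mul_left _ (e1.trans (Nat.mul_le_mul_left _ e4))
  · apply h5
    calc (L + 1) ^ 64 ≤ (2 ^ (l' + 19)) ^ 64 := Nat.pow_le_pow_left h8 64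
      _ = 2 ^ ((l' + 19) * 64) := (pow_mul 2 _ _).symm
      _ ≤ 2 ^ (L' * l') := Nat.pow_le_pow_right (by norm_num) (by nlinarith)
      _ = (2 ^ L') ^ l' := pow_mul 2 _ _
  · by_contra hcon
    have e1 : ¬ S ^ 64 ≤ (2 ^ L') ^ l' := fun h => hcon (h5 S h)
    rw [not_le, ← pow_mul] at e1
    have e2 : (2 ^ (L' * l')) ^ 600000 < (S ^ 64) ^ 600000 :=
      Nat.pow_lt_pow_left e1 (by norm_num)
    rw [← pow_mul, ← pow_mul] at e2
    have e3 : n ^ Nat.log 2 L ≤ 2 ^ (L' * l' * 600000) := by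
      calc n ^ Nat.log 2 L ≤ (2 ^ (L + 1)) ^ Nat.log 2 L := Nat.pow_le_pow_left hnL.le _
        _ = 2 ^ ((L + 1) * Nat.log 2 L) := (pow_mul 2 _ _).symm
        _ ≤ 2 ^ (L' * l' * 600000) := by
          refine Nat.pow_le_pow_right (by norm_num) ?_
          calc (L + 1) * Nat.log 2 L ≤ (200000 * L') * (3 * l') :=
                Nat.mul_le_mul (by omega) (by omega)
            _ = L' * l' * 600000 := by ring
    exact absurd (hS.trans e3) (not_le.2 e2)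

end Pool.Agent.NLP
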