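import Pool.Agent.NLP.MainU
import Pool.Agent.NLP.NumE

set_option autoImplicit false

/-!
# Evaluation of nondeterministic branching programs: NOT gates which see a set of input variables
-/

namespace Pool.Agent.NLP

open Finset Pool.Agent.XL Pool.Agent.NTR Pool.Agent.NTN Pool.Agent.TeleNeg
open scoped BigOperators

/-- The input variables of `U` among all variables. -/
def inU (m : ℕ) {n : ℕ} (U : Finset (Fin n)) : Finset (EvVar m n) :=
  U.map ⟨Sum.inr, Sum.inr_injective⟩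

theorem sum_le_one {X : Type} [Fintype X] {μ : X → ℝ} (h0 : ∀ x, 0 ≤ μ x) (h1 : ∑ x, μ x = 1)
    (P : X → Prop) [DecidablePred P] : ∑ x with P x, μ x ≤ 1 := by
  rw [← h1]
  exact sum_le_sum_of_subset_of_nonneg (filter_subset _ _) fun x _ _ => h0 x

theorem le_two_mul_div {u c : ℕ} (hc : 0 < c) (h : c ≤ u) : u ≤ 2 * c * (u / c) := by
  have hr : 1 ≤ u / c := (Nat.one_le_div_iff hc).2 h
  have h5 : u < c * (u / c + 1) := Nat.lt_mul_div_succ _ hc
  rw [mul_add, mul_one] at h5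
  have h6 : c ≤ c * (u / c) := Nat.le_mul_of_pos_right _ hr
  rw [mul_assoc]
  omega

theorem few_gates {t n s : ℕ} (h : 2 ^ t < n) (hs : Nat.log 2 n + 1 ≤ 2 ^ s) :
    t + 1 ≤ 2 * 2 ^ s := by
  have hnL : n < 2 ^ (Nat.log 2 n + 1) := Nat.lt_pow_succ_log_self (by norm_num) n
  have h9 := (Nat.pow_lt_pow_iff_right (by norm_num)).1 (h.trans hnL)
  omega

open Classical in
/-- **Evaluation of nondeterministic branching programs**, with constants. -/
theorem ev_on_of {C E n : ℕ} (hE : E = 3072 * 100000 + 1) (hC1 : 2 ^ E ≤ C)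
    (hC2 : 64 * 600000 ≤ C) (U : Finset (Fin n)) (hn : 2 ≤ n) (hU : U.Nonempty) :
    ∃ (ρ : EvVar (n ^ 2) n → Bool) (μ : (EvVar (n ^ 2) n → Bool) → ℝ), (∀ y, 0 ≤ μ y) ∧
      ∑ y, μ y = 1 ∧ (∀ y, μ y ≠ 0 → ∀ v, v ∉ inU (n ^ 2) U → y v = ρ v) ∧
      ∀ S : ℕ, 1 ≤ S → S ^ C ≤ n ^ Nat.log 2 (Nat.log 2 n) →
        (∀ (t : ℕ) (A : (EvVar (n ^ 2) n → Bool) → Bool),
          NotGatesOn (lClass S) (inU (n ^ 2) U) t A →
          ∑ y with A y = ev y, μ y
            ≤ 1 / 2 + 1 / S + 2 ^ t * (C * (Nat.log 2 n : ℝ) ^ C) / U.card) ∧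
        ∀ (ts : List ℕ) (b : ℕ) (A : (EvVar (n ^ 2) n → Bool) → Bool), ts.sum ≤ S →
          Tries (lClass S) (inU (n ^ 2) U) ts 1 b A →
          ∑ y with A y = ev y, μ y
            ≤ 1 / 2 + 1 / S + b * (C * (Nat.log 2 n : ℝ) ^ C) / U.card := by
  have hk0 : 0 < U.card := card_pos.2 hU
  have hk0' : (0 : ℝ) < U.card := by exact_mod_cast hk0
  have hUn : U.card ≤ n := by
    have := card_le_univ U
    rwa [Fintype.card_fin] at this
  have hL1 : 1 ≤ Nat.log 2 n := Nat.log_pos (by norm_num) hn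
  have hnL : n < 2 ^ (Nat.log 2 n + 1) := Nat.lt_pow_succ_log_self (by norm_num) n
  obtain ⟨B, hB⟩ : ∃ B : ℕ, B = C * Nat.log 2 n ^ C := ⟨_, rfl⟩
  have hBR : (C * (Nat.log 2 n : ℝ) ^ C) = (B : ℝ) := by
    rw [hB]
    push_cast
    ring
  rw [hBR]
  have hLC : 1 ≤ Nat.log 2 n ^ C := Nat.one_le_pow _ _ hL1
  have hCB : C ≤ B := by
    rw [hB]
    exact Nat.le_mul_of_pos_right _ hLC
  have hB1 : 1 ≤ C := le_trans (by norm_num) hC2
  rcases Nat.lt_or_ge B U.card with hlt | hge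
  · -- the main case
    have hL : 3072 * 100000 ≤ Nat.log 2 n := by
      by_contra hcon
      have h1 : 2 ^ (Nat.log 2 n + 1) ≤ 2 ^ E :=
        Nat.pow_le_pow_right (by norm_num) (by omega)
      omega
    obtain ⟨q, hq, h1, h2, h3, h4⟩ := num_cond hL
    have hC105 : 105 ≤ C := le_trans (by norm_num) hC2
    have hE421 : 421 ≤ E := by rw [hE]; norm_num
    have hcB : 2 * cq q ≤ B := by
      rw [hB]
      refine h2.trans (Nat.mul_le_mul ?_ (Nat.pow_le_pow_right hL1 hC105))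
      exact (Nat.pow_le_pow_right (by norm_num) hE421).trans hC1
    clear h2 hE421 hC105 hC1 hE
    have hc0 : 0 < cq q := Nat.mul_pos (Nat.succ_pos _) (Nat.pow_pos (by norm_num))
    have hcU : cq q ≤ U.card := by omega
    have hm : n * (bq q + 2) + 2 ≤ n ^ 2 := by
      rw [pow_two]
      calc n * (bq q + 2) + 2 ≤ n * (bq q + 2) + n := by omega
        _ = n * (bq q + 3) := by ring
        _ ≤ n * n := Nat.mul_le_mul_left _ h1
    obtain ⟨ρ, μ, m1, m2, m3, m4⟩ := ev_block hq U hcU hm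
    have key : ∀ (S : ℕ) (ts : List ℕ) (b : ℕ) (A : (EvVar (n ^ 2) n → Bool) → Bool), 1 ≤ S →
        S ≤ 2 ^ sq q → ts.sum + 1 ≤ 2 * 2 ^ sq q → Tries (lClass S) (inU (n ^ 2) U) ts 1 b A →
        ∑ y with A y = ev y, μ y ≤ 1 / 2 + 1 / S + b * B / U.card := by
      intro S ts b A hS1 hS hts hA
      refine (m4 S ts b A hS hts hA).trans ?_
      have hS0 : (0 : ℝ) < S := by exact_mod_cast hS1
      have e1 : ((1 : ℝ) / 2) ^ sq q / 2 ≤ 1 / S := by
        have e2 : ((1 : ℝ) / 2) ^ sq q = 1 / 2 ^ sq q := by rw [one_div_pow]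
        have e3 : (S : ℝ) ≤ 2 ^ sq q := by exact_mod_cast hS
        have e4 : (1 : ℝ) / 2 ^ sq q ≤ 1 / S := one_div_le_one_div_of_le hS0 e3
        have e5 : (0 : ℝ) ≤ 1 / 2 ^ sq q := by positivity
        rw [e2]
        linarith
      have hr : 1 ≤ U.card / cq q := (Nat.one_le_div_iff hc0).2 hcU
      have hr' : (0 : ℝ) < (U.card / cq q : ℕ) := by exact_mod_cast hr
      have e6 : U.card ≤ B * (U.card / cq q) :=
        (le_two_mul_div hc0 hcU).trans (Nat.mul_le_mul_right _ hcB)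
      have e7 : (U.card : ℝ) ≤ B * (U.card / cq q : ℕ) := by exact_mod_cast e6
      have e8 : (b : ℝ) / (U.card / cq q : ℕ) ≤ b * B / U.card := by
        rw [div_le_div_iff₀ hr' hk0']
        have e9 : (0 : ℝ) ≤ b := Nat.cast_nonneg _
        calc (b : ℝ) * U.card ≤ b * (B * (U.card / cq q : ℕ)) := mul_le_mul_of_nonneg_left e7 e9
          _ = b * B * (U.card / cq q : ℕ) := by ring
      linarith
    refine ⟨ρ, μ, m1, m2, m3, fun S hS1 hS => ?_⟩
    have hS0 : (0 : ℝ) < S := by exact_mod_cast hS1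
    have hSq : S ≤ 2 ^ sq q := by
      apply h4
      exact (Nat.pow_le_pow_right hS1 hC2).trans hS
    refine ⟨fun t A hA => ?_, fun ts b A hts hA => key S ts b A hS1 hSq (by
      have : 1 ≤ 2 ^ sq q := Nat.one_le_two_pow
      omega) hA⟩
    rcases Nat.lt_or_ge (2 ^ t) n with ht | ht
    · obtain ⟨A', hA', hAA⟩ := hA.fix ρ
      obtain ⟨ts, b, h5, h6, h7⟩ := hA'.tries (inU (n ^ 2) U)
      have h0 : ∑ y with A y = ev y, μ y = ∑ y with A' y = ev y, μ y := by
        rw [sum_filter, sum_filter]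
        refine sum_congr rfl fun y _ => ?_
        by_cases hy : μ y = 0
        · simp [hy]
        · rw [hAA y (m3 y hy)]
      rw [h0]
      refine (key S ts b A' hS1 hSq (by
        rw [h5]
        exact few_gates ht h3) h7).trans ?_
      have h8 : (b : ℝ) ≤ 2 ^ t := by exact_mod_cast h6
      have h9 : (0 : ℝ) ≤ B := Nat.cast_nonneg _
      have h10 : (b : ℝ) * B / U.card ≤ 2 ^ t * B / U.card :=
        div_le_div_of_nonneg_right (mul_le_mul_of_nonneg_right h8 h9) hk0'.le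
      linarith
    · refine (sum_le_one m1 m2 (fun y => A y = ev y)).trans ?_
      have h5 : (1 : ℝ) ≤ 2 ^ t * B / U.card := by
        rw [one_le_div hk0']
        have h6 : U.card ≤ 2 ^ t * B := by
          calc U.card ≤ 2 ^ t * 1 := by
                rw [mul_one]
                exact hUn.trans ht
            _ ≤ 2 ^ t * B := Nat.mul_le_mul_left _ (hB1.trans hCB)
        exact_mod_cast h6
      have h6 : (0 : ℝ) ≤ 1 / S := div_nonneg zero_le_one (Nat.cast_nonneg _)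
      linarith
  · -- the trivial case
    have h1 : (1 : ℝ) ≤ B / U.card := by
      rw [one_le_div hk0']
      exact_mod_cast hge
    have hμ0 : ∀ y : EvVar (n ^ 2) n → Bool, (0 : ℝ) ≤ if y = (fun _ => false) then 1 else 0 := by
      intro y
      split_ifs <;> norm_num
    have hμ1 : ∑ y : EvVar (n ^ 2) n → Bool, (if y = (fun _ => false) then (1 : ℝ) else 0) = 1 := by
      rw [sum_ite_eq' univ]
      simp
    refine ⟨fun _ => false, fun y => if y = (fun _ => false) then 1 else 0, hμ0, hμ1, ?_, ?_⟩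
    · intro y hy v _
      have e1 : y = fun _ => false := by
        by_contra h
        exact hy (if_neg h)
      rw [e1]
    · intro S hS1 _
      have h6 : (0 : ℝ) ≤ 1 / S := div_nonneg zero_le_one (Nat.cast_nonneg _)
      refine ⟨fun t A _ => ?_, fun ts b A _ hA => ?_⟩
      · refine (sum_le_one hμ0 hμ1 (fun y => A y = ev y)).trans ?_
        have h2 : (1 : ℝ) ≤ 2 ^ t := one_le_pow₀ (by norm_num)
        have h3 : (1 : ℝ) ≤ 2 ^ t * B / U.card := by
          rw [mul_div_assoc]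
          exact one_le_mul_of_one_le_of_one_le h2 h1
        linarith
      · refine (sum_le_one hμ0 hμ1 (fun y => A y = ev y)).trans ?_
        obtain ⟨Q, P, h, -, -, -, hch, -⟩ := hA
        have hb : 0 < b := changesOn_pos' hch
        have h2 : (1 : ℝ) ≤ b := by exact_mod_cast hb
        have h3 : (1 : ℝ) ≤ b * B / U.card := by
          rw [mul_div_assoc]
          exact one_le_mul_of_one_le_of_one_le h2 h1
        linarith

open Classical in
/-- **Evaluation of nondeterministic branching programs.** -/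
theorem ev_on : ∃ C : ℕ, ∀ (n : ℕ) (U : Finset (Fin n)), 2 ≤ n → U.Nonempty →
    ∃ (ρ : EvVar (n ^ 2) n → Bool) (μ : (EvVar (n ^ 2) n → Bool) → ℝ), (∀ y, 0 ≤ μ y) ∧
      ∑ y, μ y = 1 ∧ (∀ y, μ y ≠ 0 → ∀ v, v ∉ inU (n ^ 2) U → y v = ρ v) ∧
      ∀ S : ℕ, 1 ≤ S → S ^ C ≤ n ^ Nat.log 2 (Nat.log 2 n) →
        (∀ (t : ℕ) (A : (EvVar (n ^ 2) n → Bool) → Bool),
          NotGatesOn (lClass S) (inU (n ^ 2) U) t A →
          ∑ y with A y = ev y, μ y
            ≤ 1 / 2 + 1 / S + 2 ^ t * (C * (Nat.log 2 n : ℝ) ^ C) / U.card) ∧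
        ∀ (ts : List ℕ) (b : ℕ) (A : (EvVar (n ^ 2) n → Bool) → Bool), ts.sum ≤ S →
          Tries (lClass S) (inU (n ^ 2) U) ts 1 b A →
          ∑ y with A y = ev y, μ y
            ≤ 1 / 2 + 1 / S + b * (C * (Nat.log 2 n : ℝ) ^ C) / U.card := by
  obtain ⟨E, hE⟩ : ∃ E, E = 3072 * 100000 + 1 := ⟨_, rfl⟩
  exact ⟨2 ^ E + 64 * 600000, fun n U hn hU => ev_on_of hE (Nat.le_add_right _ _)
    (Nat.le_add_left _ _) U hn hU⟩

end Pool.Agent.NLP
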