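import Pool.Agent.NLP.BlockK
import Pool.Agent.NLP.EvOn

set_option autoImplicit false

/-!
# Evaluation of nondeterministic branching programs: every size up to `n ^ (c log n)`
-/

namespace Pool.Agent.NLP

open Finset Pool.Agent.XL Pool.Agent.NTR Pool.Agent.NTN Pool.Agent.TeleNeg
open scoped BigOperators

/-- The choice of the parameters for programs with `n ^ 2` nodes. -/
theorem num_condK {n k : ℕ} (hk : 128 ≤ k) (hL : 10 ^ 7 * k ≤ Nat.log 2 n)
    (hkL : Nat.log 2 (Nat.log 2 n) ≤ k) :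
    ∃ q, 4 ≤ q ∧ q ≤ k ∧ bk q k + 3 ≤ n ∧ 2 * ck q k ≤ 2 ^ (105 * k + 421) ∧
      Nat.log 2 n + 1 ≤ 2 ^ sk q k ∧
      ∀ S, S ^ (32 * 100000) ≤ n ^ k → S ≤ 2 ^ sk q k := by
  obtain ⟨L, hL0⟩ : ∃ L, L = Nat.log 2 n := ⟨_, rfl⟩
  rw [← hL0] at hL hkL ⊢
  have hn0 : n ≠ 0 := by
    rintro rfl
    simp at hL0
    omega
  have hLn : 2 ^ L ≤ n := by
    rw [hL0]
    exact Nat.pow_log_le_self 2 hn0
  have hnL : n < 2 ^ (L + 1) := by
    rw [hL0]
    exact Nat.lt_pow_succ_log_self (by norm_num) n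
  obtain ⟨L', hL'⟩ : ∃ L', L' = L / 100000 := ⟨_, rfl⟩
  have h2 : L' * 100000 ≤ L := by
    rw [hL']
    exact Nat.div_mul_le_self L 100000
  have h3 : L + 1 ≤ 100000 * (L' + 1) := by omega
  have h1 : 16 * (k + 4) ≤ L' := by omega
  have hlog : Nat.log 2 L' ≤ k := by
    refine le_trans (Nat.log_mono_right ?_) hkL
    omega
  obtain ⟨q, hq, hqk, h4, h5⟩ := exists_qK h1 hlog
  refine ⟨q, hq, hqk, ?_, ?_, ?_, fun S hS => ?_⟩
  · have e1 := bk_le hq hqk
    have e2 : 2 ^ (96002 * ((k + 4) * 2 ^ q)) ≤ 2 ^ (96002 * L') :=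
      Nat.pow_le_pow_right (by norm_num) (Nat.mul_le_mul_left _ h4)
    have e3 : 2 ^ (96002 * L') + 2 ^ (96002 * L') ≤ 2 ^ L := by
      have e4 : 2 ^ (96002 * L') + 2 ^ (96002 * L') = 2 ^ (96002 * L' + 1) := by
        rw [pow_succ]
        ring
      rw [e4]
      exact Nat.pow_le_pow_right (by norm_num) (by omega)
    have e4 : 3 ≤ 2 ^ (96002 * L') := by
      have : 2 ^ 2 ≤ 2 ^ (96002 * L') := Nat.pow_le_pow_right (by norm_num) (by omega)
      omega
    omega
  · have e1 := ck_le q k (by omega) hqk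
    have e2 : 2 ^ (105 * k + 421) = 2 * 2 ^ (105 * k + 420) := pow_succ' 2 _
    rw [e2]
    exact Nat.mul_le_mul_left _ e1
  · have e1 : L < 2 ^ (Nat.log 2 L + 1) := Nat.lt_pow_succ_log_self (by norm_num) L
    have e2 : k + 1 ≤ sk q k := by
      unfold sk
      have h1 : 1 ≤ 2 ^ (q - 4) := Nat.one_le_two_pow
      calc k + 1 ≤ k * (k + 4) * 1 := by nlinarith
        _ ≤ k * (k + 4) * 2 ^ (q - 4) := Nat.mul_le_mul_left _ h1
    calc L + 1 ≤ 2 ^ (Nat.log 2 L + 1) := e1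
      _ ≤ 2 ^ sk q k := Nat.pow_le_pow_right (by norm_num) (by omega)
  · by_contra hcon
    rw [not_le] at hcon
    have e2 : (2 ^ sk q k) ^ (32 * 100000) < S ^ (32 * 100000) :=
      Nat.pow_lt_pow_left hcon (by norm_num)
    rw [← pow_mul] at e2
    have e3 : n ^ k ≤ 2 ^ (sk q k * (32 * 100000)) := by
      calc n ^ k ≤ (2 ^ (L + 1)) ^ k := Nat.pow_le_pow_left hnL.le _
        _ = 2 ^ ((L + 1) * k) := (pow_mul 2 _ _).symm
        _ ≤ 2 ^ (sk q k * (32 * 100000)) := by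
          refine Nat.pow_le_pow_right (by norm_num) ?_
          calc (L + 1) * k ≤ (100000 * (L' + 1)) * k := Nat.mul_le_mul_right _ h3
            _ = 100000 * (k * (L' + 1)) := by ring
            _ ≤ 100000 * (32 * sk q k) := Nat.mul_le_mul_left _ h5
            _ = sk q k * (32 * 100000) := by ring
    exact absurd (hS.trans e3) (not_le.2 e2)

open Classical in
/-- The transfer, with the parameters `q` and `k`. -/
theorem ev_blockK {q k n m : ℕ} (hq : 4 ≤ q) (hk : 128 ≤ k) (hqk : q ≤ k) (U : Finset (Fin n))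
    (hU : ck q k ≤ U.card) (hm : n * (bk q k + 2) + 2 ≤ m) :
    ∃ (ρ : EvVar m n → Bool) (μ : (EvVar m n → Bool) → ℝ), (∀ y, 0 ≤ μ y) ∧ ∑ y, μ y = 1 ∧
      (∀ y, μ y ≠ 0 → ∀ v, v ∉ inU m U → y v = ρ v) ∧
      ∀ (S : ℕ) (ts : List ℕ) (b : ℕ) (A : (EvVar m n → Bool) → Bool), S ≤ 2 ^ sk q k →
        ts.sum + 1 ≤ 2 * 2 ^ sk q k → Tries (lClass S) (inU m U) ts 1 b A →
        ∑ y with A y = ev y, μ y
          ≤ 1 / 2 + (1 / 2) ^ sk q k / 2 + b / ((U.card / ck q k : ℕ) : ℝ) := by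
  have hc0 : 0 < ck q k := one_le_ck q k
  obtain ⟨β, hβ, N, hcard, hne, hM⟩ := exists_blockK hq hk hqk
  obtain ⟨r, hr⟩ : ∃ r, r = U.card / ck q k := ⟨_, rfl⟩
  have hr1 : 1 ≤ r := by
    rw [hr]
    exact (Nat.one_le_div_iff hc0).2 hU
  have hrU : r * ck q k ≤ U.card := by
    rw [hr]
    exact Nat.div_mul_le_self _ _
  have hUn : U.card ≤ n := by
    have := card_le_univ U
    rwa [Fintype.card_fin] at this
  have hrn : r ≤ n := (Nat.le_mul_of_pos_right r hc0).trans (hrU.trans hUn)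
  rw [← hr]
  -- the places of the block variables
  obtain ⟨e⟩ : Nonempty (Fin r × β ↪ {v // v ∈ U}) := by
    refine Function.Embedding.nonempty_of_card_le ?_
    rw [Fintype.card_prod, Fintype.card_fin, hcard, Fintype.card_coe]
    exact hrU
  obtain ⟨M, hMe⟩ := exists_orNet N fun p => (e p).1
  have hpos : 2 ≤ m := by omega
  obtain ⟨s, hs⟩ : ∃ s : Fin m, s.1 = 0 := ⟨⟨0, by omega⟩, rfl⟩
  obtain ⟨t, ht⟩ : ∃ t : Fin m, t.1 + 1 = m := ⟨⟨m - 1, by omega⟩, by simp; omega⟩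
  obtain ⟨C, hC⟩ := exists_place M (m := m) (by
    have h1 : r * bk q k ≤ n * bk q k := Nat.mul_le_mul_right _ hrn
    have h2 : n * (bk q k + 2) = n * bk q k + 2 * n := by ring
    omega) s t hs ht
  obtain ⟨φ, hφ⟩ : ∃ φ : EvVar m n → (Fin r × β) ⊕ Bool, φ = Sum.elim
      (fun c => Sum.inr (decide (c ∈ C)))
      (fun v => if h : ∃ p, (e p).1 = v then Sum.inl (Classical.choose h) else Sum.inr false) :=
    ⟨_, rfl⟩
  have hφe : ∀ p, φ (Sum.inr (e p).1) = Sum.inl p := by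
    intro p
    rw [hφ]
    have h : ∃ p', (e p').1 = (e p).1 := ⟨p, rfl⟩
    show (if h : ∃ p', (e p').1 = (e p).1 then (Sum.inl (Classical.choose h) : (Fin r × β) ⊕ Bool)
      else Sum.inr false) = Sum.inl p
    rw [dif_pos h]
    congr 1
    exact e.injective (Subtype.ext (Classical.choose_spec h))
  have hφU : ∀ v, v ∉ inU m U → ∃ c, φ v = Sum.inr c := by
    intro v hv
    rcases v with c | v
    · exact ⟨decide (c ∈ C), by rw [hφ]; rfl⟩
    · refine ⟨false, ?_⟩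
      rw [hφ]
      show (if h : ∃ p, (e p).1 = v then (Sum.inl (Classical.choose h) : (Fin r × β) ⊕ Bool)
        else Sum.inr false) = Sum.inr false
      rw [dif_neg]
      rintro ⟨p, hp⟩
      apply hv
      rw [inU, mem_map]
      exact ⟨v, by rw [← hp]; exact (e p).2, rfl⟩
  have hf : ∀ y : Fin r × β → Bool, (ev fun v => Sum.elim y id (φ v)) = true ↔
      ∃ i, N.dval (fun b => y (i, b)) = true := by
    intro y
    have h1 : {c : Fin m × Fin m × Option (Fin n) | Sum.elim y id (φ (Sum.inl c)) = true} = C := by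
      ext c
      rw [hφ]
      show decide (c ∈ C) = true ↔ c ∈ C
      exact decide_eq_true_iff
    have h2 : (∃ i, N.dval (fun b => y (i, b)) = true) ↔
        ∃ i, N.dval (fun b => Sum.elim y id (φ (Sum.inr (e (i, b)).1))) = true := by
      simp only [hφe]
      rfl
    rw [h2]
    refine Iff.trans ?_ ((hC fun v => Sum.elim y id (φ (Sum.inr v))).trans (hMe _))
    unfold ev
    rw [decide_eq_true_eq]
    constructor
    · rintro ⟨s', t', hs', ht', h3⟩
      have e1 : s' = s := Fin.ext (by rw [hs', hs])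
      have e2 : t' = t := Fin.ext (by omega)
      rw [e1, e2, h1] at h3
      exact h3
    · intro h3
      refine ⟨s, t, hs, ht, ?_⟩
      rw [h1]
      exact h3
  have hδ0 : (0 : ℝ) < (1 / 2) ^ sk q k := by positivity
  have hsq : sk q k ≠ 0 := by
    have := le_sk q k
    omega
  have hδ1 : ((1 / 2 : ℝ)) ^ sk q k < 1 := pow_lt_one₀ (by norm_num) (by norm_num) hsq
  obtain ⟨μ, m1, m2, m3, m4⟩ := average_queries_or
    (U := inU m U) hr1 N.dval
    ((Gen.dnetClass (bk q k)).mono β N.dval ⟨N, fun _ => rfl⟩)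
    (fun y : EvVar m n → Bool => ev y = true)
    φ hφU hf hδ0 hδ1 (3 * ck q k * 4 ^ sk q k) (by
      rw [hcard]
      have h7 : ((1 / 2 : ℝ) ^ sk q k) ^ 2 = 1 / 4 ^ sk q k := by
        rw [← pow_mul, mul_comm, pow_mul, show (1 / 2 : ℝ) ^ 2 = 1 / 4 by norm_num, one_div_pow]
      rw [h7]
      push_cast
      have h8 : (3 * (ck q k : ℝ) * 4 ^ sk q k) * (1 / 4 ^ sk q k) = 3 * (ck q k : ℝ) := by
        field_simp
      rw [h8]) (smallOrS (sk q k) β) hne hM
  choose! ρ₀ hρ₀ using hφU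
  refine ⟨ρ₀, μ, m1, m2, fun y hy v hv => m3 y hy v _ (hρ₀ v hv), fun S ts b A hS hts hA => ?_⟩
  have h9 := m4 (lClass S) ts 1 b A (fun H hH => ⟨S, hS, orSet_le hts hH⟩) hA
  refine (le_of_eq (sum_filter_iff' μ _ _ _ _ fun y => ?_)).trans (h9.trans (le_of_eq ?_))
  · rw [Bool.eq_iff_iff]
  · rw [Nat.cast_one]
    congr 1
    have h10 : ((1 : ℝ) + 1) * b / (2 * (r : ℝ)) = b / r := by
      rw [show (1 : ℝ) + 1 = 2 by norm_num, mul_div_mul_left _ _ (by norm_num)]
    exact h10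

open Classical in
/-- **Evaluation of nondeterministic branching programs**, with constants. -/
theorem ev_on_of_k {C n k : ℕ} (hC : 10 ^ 10 ≤ C) (U : Finset (Fin n)) (hn : 2 ≤ n) (hk0 : 1 ≤ k)
    (hkL : Nat.log 2 (Nat.log 2 n) ≤ k) (hU : U.Nonempty) :
    ∃ (ρ : EvVar (n ^ 2) n → Bool) (μ : (EvVar (n ^ 2) n → Bool) → ℝ), (∀ y, 0 ≤ μ y) ∧
      ∑ y, μ y = 1 ∧ (∀ y, μ y ≠ 0 → ∀ v, v ∉ inU (n ^ 2) U → y v = ρ v) ∧
      ∀ S : ℕ, 1 ≤ S → S ^ C ≤ n ^ k →
        (∀ (t : ℕ) (A : (EvVar (n ^ 2) n → Bool) → Bool),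
          NotGatesOn (lClass S) (inU (n ^ 2) U) t A →
          ∑ y with A y = ev y, μ y ≤ 1 / 2 + 1 / S + 2 ^ t * 2 ^ (C * k) / U.card) ∧
        ∀ (ts : List ℕ) (b : ℕ) (A : (EvVar (n ^ 2) n → Bool) → Bool), ts.sum ≤ S →
          Tries (lClass S) (inU (n ^ 2) U) ts 1 b A →
          ∑ y with A y = ev y, μ y ≤ 1 / 2 + 1 / S + b * 2 ^ (C * k) / U.card := by
  have hU0 : 0 < U.card := card_pos.2 hU
  have hU0' : (0 : ℝ) < U.card := by exact_mod_cast hU0
  have hUn : U.card ≤ n := by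
    have := card_le_univ U
    rwa [Fintype.card_fin] at this
  have hnL : n < 2 ^ (Nat.log 2 n + 1) := Nat.lt_pow_succ_log_self (by norm_num) n
  obtain ⟨B, hB⟩ : ∃ B : ℕ, B = 2 ^ (C * k) := ⟨_, rfl⟩
  have hBR : (2 : ℝ) ^ (C * k) = (B : ℝ) := by
    rw [hB]
    push_cast
    ring
  rw [hBR]
  have hB1 : 1 ≤ B := by
    rw [hB]
    exact Nat.one_le_two_pow
  have hCk : 10 ^ 10 * k ≤ C * k := Nat.mul_le_mul_right _ hC
  rcases Nat.lt_or_ge B U.card with hlt | hge
  · -- the main case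
    have hL : C * k ≤ Nat.log 2 n := by
      have h1 : 2 ^ (C * k) < 2 ^ (Nat.log 2 n + 1) := by
        rw [← hB]
        omega
      have h2 := (Nat.pow_lt_pow_iff_right (by norm_num)).1 h1
      omega
    obtain ⟨k', hk'⟩ : ∃ k', k' = max k 128 := ⟨_, rfl⟩
    have hk1 : 128 ≤ k' := by rw [hk']; exact le_max_right _ _
    have hk2 : k ≤ k' := by rw [hk']; exact le_max_left _ _
    have hk3 : k' ≤ 128 * k := by
      rw [hk']
      exact max_le (by omega) (by omega)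
    obtain ⟨q, hq, hqk, h1, h2, h3, h4⟩ := num_condK hk1 (n := n) (by
      norm_num at hCk ⊢
      omega) (hkL.trans hk2)
    have hcB : 2 * ck q k' ≤ B := by
      rw [hB]
      refine h2.trans (Nat.pow_le_pow_right (by norm_num) ?_)
      norm_num at hCk
      omega
    have hc0 : 0 < ck q k' := one_le_ck q k'
    have hcU : ck q k' ≤ U.card := by omega
    have hm : n * (bk q k' + 2) + 2 ≤ n ^ 2 := by
      rw [pow_two]
      calc n * (bk q k' + 2) + 2 ≤ n * (bk q k' + 2) + n := by omega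
        _ = n * (bk q k' + 3) := by ring
        _ ≤ n * n := Nat.mul_le_mul_left _ h1
    obtain ⟨ρ, μ, m1, m2, m3, m4⟩ := ev_blockK hq hk1 hqk U hcU hm
    have key : ∀ (S : ℕ) (ts : List ℕ) (b : ℕ) (A : (EvVar (n ^ 2) n → Bool) → Bool), 1 ≤ S →
        S ≤ 2 ^ sk q k' → ts.sum + 1 ≤ 2 * 2 ^ sk q k' →
        Tries (lClass S) (inU (n ^ 2) U) ts 1 b A →
        ∑ y with A y = ev y, μ y ≤ 1 / 2 + 1 / S + b * B / U.card := by
      intro S ts b A hS1 hS hts hA
      refine (m4 S ts b A hS hts hA).trans ?_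
      have hS0 : (0 : ℝ) < S := by exact_mod_cast hS1
      have e1 : ((1 : ℝ) / 2) ^ sk q k' / 2 ≤ 1 / S := by
        have e2 : ((1 : ℝ) / 2) ^ sk q k' = 1 / 2 ^ sk q k' := by rw [one_div_pow]
        have e3 : (S : ℝ) ≤ 2 ^ sk q k' := by exact_mod_cast hS
        have e4 : (1 : ℝ) / 2 ^ sk q k' ≤ 1 / S := one_div_le_one_div_of_le hS0 e3
        have e5 : (0 : ℝ) ≤ 1 / 2 ^ sk q k' := by positivity
        rw [e2]
        linarith
      have hr : 1 ≤ U.card / ck q k' := (Nat.one_le_div_iff hc0).2 hcU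
      have hr' : (0 : ℝ) < (U.card / ck q k' : ℕ) := by exact_mod_cast hr
      have e6 : U.card ≤ B * (U.card / ck q k') :=
        (le_two_mul_div hc0 hcU).trans (Nat.mul_le_mul_right _ hcB)
      have e7 : (U.card : ℝ) ≤ B * (U.card / ck q k' : ℕ) := by exact_mod_cast e6
      have e8 : (b : ℝ) / (U.card / ck q k' : ℕ) ≤ b * B / U.card := by
        rw [div_le_div_iff₀ hr' hU0']
        have e9 : (0 : ℝ) ≤ b := Nat.cast_nonneg _
        calc (b : ℝ) * U.card ≤ b * (B * (U.card / ck q k' : ℕ)) := mul_le_mul_of_nonneg_left e7 e9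
          _ = b * B * (U.card / ck q k' : ℕ) := by ring
      linarith
    refine ⟨ρ, μ, m1, m2, m3, fun S hS1 hS => ?_⟩
    have hS0 : (0 : ℝ) < S := by exact_mod_cast hS1
    have hSq : S ≤ 2 ^ sk q k' := by
      apply h4
      refine (Nat.pow_le_pow_right hS1 ?_).trans (hS.trans (Nat.pow_le_pow_right (by omega) hk2))
      exact le_trans (by norm_num) hC
    refine ⟨fun t A hA => ?_, fun ts b A hts hA => key S ts b A hS1 hSq (by
      have : 1 ≤ 2 ^ sk q k' := Nat.one_le_two_pow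
      omega) hA⟩
    rcases Nat.lt_or_ge (2 ^ t) n with ht | ht
    · obtain ⟨A', hA', hAA⟩ := hA.fix ρ
      obtain ⟨ts, b, h5, h6, h7⟩ := hA'.tries (inU (n ^ 2) U)
      have h0 : ∑ y with A y = ev y, μ y = ∑ y with A' y = ev y, μ y := by
        rw [sum_filter, sum_filter]
        refine sum_congr rfl fun y _ => ?_
        by_cases hy : μ y = 0
        · simp [hy]
        · rw [hAA y (m3 y hy)]
      rw [h0]
      refine (key S ts b A' hS1 hSq (by
        rw [h5]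
        exact few_gates ht h3) h7).trans ?_
      have h8 : (b : ℝ) ≤ 2 ^ t := by exact_mod_cast h6
      have h9 : (0 : ℝ) ≤ B := Nat.cast_nonneg _
      have h10 : (b : ℝ) * B / U.card ≤ 2 ^ t * B / U.card :=
        div_le_div_of_nonneg_right (mul_le_mul_of_nonneg_right h8 h9) hU0'.le
      linarith
    · refine (sum_le_one m1 m2 (fun y => A y = ev y)).trans ?_
      have h5 : (1 : ℝ) ≤ 2 ^ t * B / U.card := by
        rw [one_le_div hU0']
        have h6 : U.card ≤ 2 ^ t * B := by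
          calc U.card ≤ 2 ^ t * 1 := by
                rw [mul_one]
                exact hUn.trans ht
            _ ≤ 2 ^ t * B := Nat.mul_le_mul_left _ hB1
        exact_mod_cast h6
      have h6 : (0 : ℝ) ≤ 1 / S := div_nonneg zero_le_one (Nat.cast_nonneg _)
      linarith
  · -- the trivial case
    have h1 : (1 : ℝ) ≤ B / U.card := by
      rw [one_le_div hU0']
      exact_mod_cast hge
    have hμ0 : ∀ y : EvVar (n ^ 2) n → Bool, (0 : ℝ) ≤ if y = (fun _ => false) then 1 else 0 := by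
      intro y
      split_ifs <;> norm_num
    have hμ1 : ∑ y : EvVar (n ^ 2) n → Bool, (if y = (fun _ => false) then (1 : ℝ) else 0) = 1 := by
      rw [sum_ite_eq' univ]
      simp
    refine ⟨fun _ => false, fun y => if y = (fun _ => false) then 1 else 0, hμ0, hμ1, ?_, ?_⟩
    · intro y hy v _
      have e1 : y = fun _ => false := by
        by_contra h
        exact hy (if_neg h)
      rw [e1]
    · intro S hS1 _
      have h6 : (0 : ℝ) ≤ 1 / S := div_nonneg zero_le_one (Nat.cast_nonneg _)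
      refine ⟨fun t A _ => ?_, fun ts b A _ hA => ?_⟩
      · refine (sum_le_one hμ0 hμ1 (fun y => A y = ev y)).trans ?_
        have h2 : (1 : ℝ) ≤ 2 ^ t := one_le_pow₀ (by norm_num)
        have h3 : (1 : ℝ) ≤ 2 ^ t * B / U.card := by
          rw [mul_div_assoc]
          exact one_le_mul_of_one_le_of_one_le h2 h1
        linarith
      · refine (sum_le_one hμ0 hμ1 (fun y => A y = ev y)).trans ?_
        obtain ⟨Q, P, h, -, -, -, hch, -⟩ := hA
        have hb : 0 < b := changesOn_pos' hch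
        have h2 : (1 : ℝ) ≤ b := by exact_mod_cast hb
        have h3 : (1 : ℝ) ≤ b * B / U.card := by
          rw [mul_div_assoc]
          exact one_le_mul_of_one_le_of_one_le h2 h1
        linarith

open Classical in
/-- **Evaluation of nondeterministic branching programs, every size up to `n ^ (c log n)`.** -/
theorem ev_on_k : ∃ C : ℕ, ∀ (n k : ℕ) (U : Finset (Fin n)), 2 ≤ n → 1 ≤ k →
    Nat.log 2 (Nat.log 2 n) ≤ k → U.Nonempty →
    ∃ (ρ : EvVar (n ^ 2) n → Bool) (μ : (EvVar (n ^ 2) n → Bool) → ℝ), (∀ y, 0 ≤ μ y) ∧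
      ∑ y, μ y = 1 ∧ (∀ y, μ y ≠ 0 → ∀ v, v ∉ inU (n ^ 2) U → y v = ρ v) ∧
      ∀ S : ℕ, 1 ≤ S → S ^ C ≤ n ^ k →
        (∀ (t : ℕ) (A : (EvVar (n ^ 2) n → Bool) → Bool),
          NotGatesOn (lClass S) (inU (n ^ 2) U) t A →
          ∑ y with A y = ev y, μ y ≤ 1 / 2 + 1 / S + 2 ^ t * 2 ^ (C * k) / U.card) ∧
        ∀ (ts : List ℕ) (b : ℕ) (A : (EvVar (n ^ 2) n → Bool) → Bool), ts.sum ≤ S →
          Tries (lClass S) (inU (n ^ 2) U) ts 1 b A →
          ∑ y with A y = ev y, μ y ≤ 1 / 2 + 1 / S + b * 2 ^ (C * k) / U.card :=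
  ⟨10 ^ 10, fun _ _ U hn hk hkL hU => ev_on_of_k le_rfl U hn hk hkL hU⟩

end Pool.Agent.NLP
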