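import Pool.Agent.NLP.EvDefs
import Pool.Agent.NLP.ExNet

set_option autoImplicit false

/-!
# Evaluation is computed by a monotone directed network of polynomial size
-/

namespace Pool.Agent.NLP

open Pool.Agent.TeleNeg Relation

/-- the contacts: a contact of the program is passed in two steps -/
def evC (m n : ℕ) : Set ((Fin m ⊕ (Fin m × Fin m × Option (Fin n))) ×
    (Fin m ⊕ (Fin m × Fin m × Option (Fin n))) × Option (EvVar m n)) :=
  {c | (∃ a b l, c = (Sum.inl a, Sum.inr (a, b, l), some (Sum.inl (a, b, l)))) ∨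
    ∃ a b l, c = (Sum.inr (a, b, l), Sum.inl b, Option.map Sum.inr l)}

/-- **Evaluation is in monotone NL.** -/
theorem ev_dnet (m n : ℕ) (hm : 1 ≤ m) :
    ∃ M : Net (EvVar m n) (m + m * m * (n + 1)), ∀ y, M.dval y = ev y := by
  classical
  have hcard : Fintype.card (Fin m ⊕ (Fin m × Fin m × Option (Fin n))) ≤
      m + m * m * (n + 1) := by
    rw [Fintype.card_sum, Fintype.card_prod, Fintype.card_prod, Fintype.card_option,
      Fintype.card_fin, Fintype.card_fin, mul_assoc]
  obtain ⟨s, hs⟩ : ∃ s : Fin m, s.1 = 0 := ⟨⟨0, by omega⟩, rfl⟩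
  obtain ⟨t, ht⟩ : ∃ t : Fin m, t.1 + 1 = m := ⟨⟨m - 1, by omega⟩, by simp; omega⟩
  obtain ⟨M, -, hM⟩ := exists_net (evC m n) (Sum.inl s) (Sum.inl t) hcard
  refine ⟨M, fun y => ?_⟩
  obtain ⟨N, hN⟩ : ∃ N : Net (Fin n) m, N = ⟨{c | y (.inl c) = true}, s, t⟩ := ⟨_, rfl⟩
  obtain ⟨x, hx⟩ : ∃ x : Fin n → Bool, x = fun i => y (.inr i) := ⟨_, rfl⟩
  have hstep : ∀ a b, N.Step x a b ↔ ∃ l : Option (Fin n), y (.inl (a, b, l)) = true ∧
      ∀ i ∈ l, y (.inr i) = true := by
    intro a b
    rw [hN, hx]
    rfl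
  have hev : ev y = true ↔ ReflTransGen (N.Step x) s t := by
    unfold ev
    rw [decide_eq_true_eq, hN, hx]
    constructor
    · rintro ⟨s', t', hs', ht', h3⟩
      have e1 : s' = s := Fin.ext (by rw [hs', hs])
      have e2 : t' = t := Fin.ext (by omega)
      rw [e1, e2] at h3
      exact h3
    · intro h3
      exact ⟨s, t, hs, ht, h3⟩
  rw [Bool.eq_iff_iff, hM, hev]
  constructor
  · intro h
    have key : ∀ v, ReflTransGen (StepIn (evC m n) y) (Sum.inl s) v →
        (∃ a, v = Sum.inl a ∧ ReflTransGen (N.Step x) s a) ∨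
          ∃ a b l, v = Sum.inr (a, b, l) ∧ ReflTransGen (N.Step x) s a ∧
            y (.inl (a, b, l)) = true := by
      intro v hv
      induction hv with
      | refl => exact Or.inl ⟨s, rfl, ReflTransGen.refl⟩
      | tail _ hbc ih =>
        obtain ⟨l', hl, hy⟩ := hbc
        rcases hl with ⟨a, b, l, h5⟩ | ⟨a, b, l, h5⟩
        · simp only [Prod.mk.injEq] at h5
          obtain ⟨rfl, rfl, rfl⟩ := h5
          rcases ih with ⟨a', h6, h7⟩ | ⟨a', b', l', h6, -⟩
          · have := Sum.inl_injective h6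
            subst this
            exact Or.inr ⟨_, _, _, rfl, h7, hy _ rfl⟩
          · exact absurd h6 (by simp)
        · simp only [Prod.mk.injEq] at h5
          obtain ⟨rfl, rfl, rfl⟩ := h5
          rcases ih with ⟨a', h6, -⟩ | ⟨a', b', l', h6, h7, h8⟩
          · exact absurd h6 (by simp)
          · have h9 := Sum.inr_injective h6
            simp only [Prod.mk.injEq] at h9
            obtain ⟨rfl, rfl, rfl⟩ := h9
            refine Or.inl ⟨_, rfl, h7.tail ((hstep _ _).2 ⟨_, h8, fun i hi => ?_⟩)⟩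
            apply hy
            rw [Option.mem_def] at hi ⊢
            rw [hi]
            rfl
    rcases key _ h with ⟨a, h6, h7⟩ | ⟨a, b, l, h6, -⟩
    · have := Sum.inl_injective h6
      subst this
      exact h7
    · exact absurd h6 (by simp)
  · intro h
    have key : ∀ v, ReflTransGen (N.Step x) s v →
        ReflTransGen (StepIn (evC m n) y) (Sum.inl s) (Sum.inl v) := by
      intro v hv
      induction hv with
      | refl => exact ReflTransGen.refl
      | tail _ hbc ih =>
        rename_i b c _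
        obtain ⟨l, h5, h6⟩ := (hstep b c).1 hbc
        have e1 : StepIn (evC m n) y (Sum.inl b) (Sum.inr (b, c, l)) := by
          refine ⟨_, Or.inl ⟨b, c, l, rfl⟩, fun e he => ?_⟩
          have : Sum.inl (b, c, l) = e := Option.some.inj he
          rw [← this]
          exact h5
        have e2 : StepIn (evC m n) y (Sum.inr (b, c, l)) (Sum.inl c) := by
          refine ⟨_, Or.inr ⟨b, c, l, rfl⟩, fun e he => ?_⟩
          rw [Option.mem_def, Option.map_eq_some_iff] at he
          obtain ⟨i, hi, rfl⟩ := he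
          exact h6 i hi
        exact (ih.tail e1).tail e2
    exact key t h

end Pool.Agent.NLP
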