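import Pool.Agent.NLP.Place

set_option autoImplicit false

/-!
# Every directed network is a substitution instance of the evaluation problem
-/

namespace Pool.Agent.NLP

open Pool.Agent.TeleNeg Relation

/-- The evaluation problem, restricted to a network with labels in a subset of the variables. -/
theorem ev_sub {κ : Type} {S m n : ℕ} (M : Net κ S) (hm : S + 2 ≤ m) (lab : κ → Fin n)
    (hlab : Function.Injective lab) :
    ∃ φ : EvVar m n → κ ⊕ Bool, (∀ b, φ (.inr (lab b)) = .inl b) ∧
      (∀ v, (∀ b, v ≠ .inr (lab b)) → ∃ c, φ v = .inr c) ∧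
      ∀ x : κ → Bool, ev (fun v => Sum.elim x id (φ v)) = M.dval x := by
  classical
  have hm0 : 0 < m := by omega
  set s : Fin m := ⟨0, hm0⟩ with hs
  set t : Fin m := ⟨m - 1, by omega⟩ with ht
  obtain ⟨A, hA⟩ := exists_place M hm s t rfl (by simp only [ht]; omega)
  have hinr : ∀ i : Fin n, (∃ b, i = lab b) ∨ ∀ b, i ≠ lab b := by
    intro i
    by_cases h : ∃ b, i = lab b
    · exact Or.inl h
    · push Not at h
      exact Or.inr h
  let φ : EvVar m n → κ ⊕ Bool := fun v => match v with
    | .inl c => .inr (decide (∃ l : Option κ, (c.1, c.2.1, l) ∈ A ∧ c.2.2 = l.map lab))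
    | .inr i => if h : ∃ b, i = lab b then .inl h.choose else .inr false
  have hφl : ∀ c, φ (.inl c) =
      .inr (decide (∃ l : Option κ, (c.1, c.2.1, l) ∈ A ∧ c.2.2 = l.map lab)) := fun c => rfl
  have hφr : ∀ b, φ (.inr (lab b)) = .inl b := by
    intro b
    have hex : ∃ b', lab b = lab b' := ⟨b, rfl⟩
    have h1 : φ (.inr (lab b)) = .inl hex.choose := dif_pos hex
    rw [h1, hlab hex.choose_spec.symm]
  refine ⟨φ, hφr, ?_, ?_⟩
  · rintro (c | i) hv
    · exact ⟨_, hφl c⟩
    · refine ⟨false, ?_⟩
      have hex : ¬ ∃ b, i = lab b := by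
        rintro ⟨b, rfl⟩
        exact hv b rfl
      exact dif_neg hex
  · intro x
    have key : ∀ s' t' : Fin m,
        (⟨{c | (Sum.elim x id (φ (.inl c)) : Bool) = true}, s', t'⟩ : Net (Fin n) m).DAccepts
          (fun i => Sum.elim x id (φ (.inr i))) ↔ (⟨A, s', t'⟩ : Net κ m).DAccepts x := by
      intro s' t'
      have hstep : (⟨{c | (Sum.elim x id (φ (.inl c)) : Bool) = true}, s', t'⟩ :
          Net (Fin n) m).Step (fun i => Sum.elim x id (φ (.inr i))) =
          (⟨A, s', t'⟩ : Net κ m).Step x := by
        funext a b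
        refine propext ⟨?_, ?_⟩
        · rintro ⟨l, h1, h2⟩
          have h3 : ∃ l' : Option κ, (a, b, l') ∈ A ∧ l = l'.map lab := by
            have h4 : (Sum.elim x id (φ (.inl (a, b, l))) : Bool) = true := h1
            rw [hφl] at h4
            exact of_decide_eq_true h4
          obtain ⟨l', h4, rfl⟩ := h3
          refine ⟨l', h4, fun e he => ?_⟩
          have h5 := h2 (lab e) (by
            rw [Option.mem_def] at he ⊢
            rw [he]
            rfl)
          change (Sum.elim x id (φ (.inr (lab e))) : Bool) = true at h5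
          rw [hφr] at h5
          exact h5
        · rintro ⟨l', h4, h2⟩
          refine ⟨l'.map lab, ?_, fun e he => ?_⟩
          · show (Sum.elim x id (φ (.inl (a, b, l'.map lab))) : Bool) = true
            rw [hφl]
            exact decide_eq_true ⟨l', h4, rfl⟩
          · rw [Option.mem_def, Option.map_eq_some_iff] at he
            obtain ⟨e', he', rfl⟩ := he
            show (Sum.elim x id (φ (.inr (lab e'))) : Bool) = true
            rw [hφr]
            exact h2 e' he'
      unfold Net.DAccepts
      rw [hstep]
    unfold ev Net.dval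
    refine decide_eq_decide.mpr ⟨?_, ?_⟩
    · rintro ⟨s', t', h1, h2, h3⟩
      have es : s' = s := Fin.ext h1
      have et : t' = t := Fin.ext (by simp only [ht]; omega)
      subst es
      subst et
      have h4 := (hA x).1 ((key _ _).1 h3)
      simp only [Net.dval, decide_eq_true_eq] at h4
      exact h4
    · intro h
      refine ⟨s, t, rfl, by simp only [ht]; omega, (key s t).2 ((hA x).2 ?_)⟩
      simp only [Net.dval, decide_eq_true_eq]
      exact h

end Pool.Agent.NLP
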