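import Pool.Agent.NLP.HidEv
import Pool.Agent.XL.RankU

set_option autoImplicit false

/-!
# Any number of guesses, few of which are accepting
-/

namespace Pool.Agent.NLP

open Finset Pool.Agent.TeleNeg Pool.Agent.NTR.Gen Pool.Agent.NWE Pool.Agent.GB24.Loc Pool.Agent.XL

/-- The devices of the class `K` for `f` must see more than `k` zeros in `U`, even with any number
of guesses, at most `Q` of them accepting: there are `ρ` and a nonempty set `H` of inputs `z` with
`f z = 1` which agree with `ρ` outside `U`, such that for all devices `D y` of the class `K` on the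
literals (`y` in any set `Y`) such that each input `z` which agrees with `ρ` outside `U` is accepted by
at most `Q` of them, and by none if `f z = 0`: at most the `Q`-th part of `H` is accepted by some `D y`
with all negated variables in `U` switched off except those of a set `Z` of zeros, `|Z| ≤ k`. -/
def Sees {ι : Type} (K : ((ι ⊕ ι → Bool) → Bool) → Prop) (f : (ι → Bool) → Bool)
    (U : Finset ι) (k Q : ℕ) : Prop :=
  ∃ (ρ : ι → Bool) (H : Finset (ι → Bool)), H.Nonempty ∧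
    (∀ z ∈ H, f z = true ∧ ∀ e, e ∉ U → z e = ρ e) ∧
    ∀ (Y : Type) (D : Y → (ι ⊕ ι → Bool) → Bool), (∀ y, K (D y)) →
      (∀ z, (∀ e, e ∉ U → z e = ρ e) → {y | D y (lits z) = true}.encard ≤ Q ∧
        ∀ y, D y (lits z) = true → f z = true) →
      ∀ A ⊆ H, (∀ z ∈ A, ∃ (y : Y) (Z : Finset ι), Z ⊆ U ∧
        (∀ e ∈ Z, z e = false) ∧ Z.card ≤ k ∧ D y (litsOn U Z z) = true) →
      Q * A.card ≤ H.card

section

variable {ι : Type}

/-- Hiding the zeros in a larger set. -/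
lemma litsOn_mono {U' U Z : Finset ι} (hU : U' ⊆ U) {z : ι → Bool} (hZ : ∀ e ∈ Z, z e = false) :
    ∀ [DecidableEq ι], litsOn U Z z ≤ litsOn U' (Z ∩ U') z := by
  intro _
  rintro (v | v)
  · exact le_rfl
  · simp only [litsOn, Sum.elim_inr, Finset.mem_inter]
    by_cases h1 : v ∈ U'
    · have h2 := hU h1
      by_cases h3 : v ∈ Z <;> simp [h1, h2, h3]
    · by_cases h2 : v ∈ U
      · by_cases h3 : v ∈ Z
        · simp [h1, h2, h3, hZ v h3]
        · simp [h1, h2, h3]
      · simp [h1, h2]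

theorem Sees.superset {K : ((ι ⊕ ι → Bool) → Bool) → Prop} {f : (ι → Bool) → Bool}
    {U' U : Finset ι} {k S : ℕ} (h : Sees K f U' k S) (hU : U' ⊆ U)
    (hK : ∀ G, K G → Monotone G) : Sees K f U k S := by
  classical
  obtain ⟨ρ, H, h1, h2, h3⟩ := h
  refine ⟨ρ, H, h1, fun z hz => ⟨(h2 z hz).1, fun e he => (h2 z hz).2 e fun h => he (hU h)⟩,
    fun Y D hD hf A hA hacc => h3 Y D hD (fun z hz => hf z fun e he => hz e fun h => he (hU h)) A hA
      fun z hz => ?_⟩
  obtain ⟨y, Z, hZ, h0, hk, hy⟩ := hacc z hz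
  refine ⟨y, Z ∩ U', inter_subset_right, fun e he => h0 e (mem_of_mem_inter_left he),
    (card_le_card inter_subset_left).trans hk, ?_⟩
  have h4 := hK _ (hD y) (litsOn_mono hU (z := z) h0)
  rw [hy] at h4
  exact top_le_iff.1 h4

theorem Sees.mono {K K' : ((ι ⊕ ι → Bool) → Bool) → Prop} {f : (ι → Bool) → Bool}
    {U : Finset ι} {k S : ℕ} (h : Sees K f U k S) (hK : ∀ G, K' G → K G) : Sees K' f U k S := by
  obtain ⟨ρ, H, h1, h2, h3⟩ := h
  exact ⟨ρ, H, h1, h2, fun Y D hD => h3 Y D fun y => hK _ (hD y)⟩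

/-- Few devices accept inputs with few zeros seen. -/
lemma exists_cover {K : ((ι ⊕ ι → Bool) → Bool) → Prop} (hK : ∀ G, K G → Monotone G)
    (U : Finset ι) (ρ : ι → Bool) (H : Finset (ι → Bool)) (h2 : ∀ z ∈ H, ∀ e, e ∉ U → z e = ρ e)
    (k S : ℕ) {Y : Type} (D : Y → (ι ⊕ ι → Bool) → Bool) (hD : ∀ y, K (D y))
    (hf : ∀ z, (∀ e, e ∉ U → z e = ρ e) → {y | D y (lits z) = true}.encard ≤ S) :
    ∃ Y' : Finset Y, Y'.card ≤ (U.powerset.filter fun Z => Z.card ≤ k).card * S ∧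
      ∀ z ∈ H, ∀ (y : Y) (Z : Finset ι), Z ⊆ U → (∀ e ∈ Z, z e = false) → Z.card ≤ k →
        D y (litsOn U Z z) = true → y ∈ Y' := by
  classical
  -- the largest input with zeros on `Z`
  set top : Finset ι → ι → Bool := fun Z v => if v ∈ U then decide (v ∉ Z) else ρ v with htop
  have hfin : ∀ Z, ∃ T : Finset Y, T.card ≤ S ∧ ∀ y, D y (lits (top Z)) = true → y ∈ T := by
    intro Z
    have h4 := hf (top Z) fun e he => by simp only [htop, if_neg he]
    obtain ⟨h5, m, h6, h7⟩ := Set.encard_le_coe_iff.1 h4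
    refine ⟨h5.toFinset, ?_, fun y hy => h5.mem_toFinset.2 hy⟩
    have h8 : ((h5.toFinset.card : ℕ) : ℕ∞) = (m : ℕ∞) := by
      rw [← h6, h5.encard_eq_coe_toFinset_card]
    rw [Nat.cast_inj.1 h8]
    exact h7
  choose T hT1 hT2 using hfin
  refine ⟨(U.powerset.filter fun Z => Z.card ≤ k).biUnion T, ?_, ?_⟩
  · exact card_biUnion_le_card_mul _ _ S fun Z _ => hT1 Z
  · intro z hz y Z hZ h0 hZk hy
    refine mem_biUnion.2 ⟨Z, mem_filter.2 ⟨mem_powerset.2 hZ, hZk⟩, hT2 Z y ?_⟩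
    have h5 : litsOn U Z z ≤ lits (top Z) := by
      rintro (v | v)
      · simp only [litsOn, lits, Sum.elim_inl, htop]
        by_cases hv : v ∈ U
        · rw [if_pos hv]
          by_cases hvZ : v ∈ Z
          · rw [h0 v hvZ]; exact Bool.false_le _
          · simp [hvZ]
        · rw [if_neg hv, h2 z hz v hv]
      · simp only [litsOn, lits, Sum.elim_inr, htop]
        by_cases hv : v ∈ U
        · by_cases hvZ : v ∈ Z <;> simp [hv, hvZ]
        · rw [if_neg hv, h2 z hz v hv]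
          simp [hv]
    have h6 := hK _ (hD y) h5
    rw [hy] at h6
    exact top_le_iff.1 h6

/-- Few guess bits give few accepting guesses. -/
theorem MustSee.sees {K : ((ι ⊕ ι → Bool) → Bool) → Prop} {f : (ι → Bool) → Bool}
    {U : Finset ι} {k k' S S' t : ℕ} (h : MustSee K f U k' S') (hK : ∀ G, K G → Monotone G)
    (hc : (U.powerset.filter fun Z => Z.card ≤ k).card * S ≤ 2 ^ t) (htk : t + k ≤ k')
    (hS : S ≤ S') : Sees K f U k S := by
  classical
  obtain ⟨ρ, H, h1, h2, h3⟩ := h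
  refine ⟨ρ, H, h1, h2, fun Y D hD hf A hA hacc => ?_⟩
  rcases A.eq_empty_or_nonempty with rfl | ⟨z₀, hz₀⟩
  · simp
  obtain ⟨Y', hcard, hmem⟩ := exists_cover hK U ρ H (fun z hz => (h2 z hz).2) k S D hD
    fun z hz => (hf z hz).1
  obtain ⟨y₀, Z₀, a1, a2, a3, a4⟩ := hacc z₀ hz₀
  have hne : Nonempty {y // y ∈ Y'} := ⟨⟨y₀, hmem z₀ (hA hz₀) y₀ Z₀ a1 a2 a3 a4⟩⟩
  obtain ⟨e⟩ : Nonempty ({y // y ∈ Y'} ↪ (Fin t → Bool)) := by
    refine Function.Embedding.nonempty_of_card_le ?_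
    simpa using hcard.trans hc
  set g : (Fin t → Bool) → {y // y ∈ Y'} := Function.invFun e with hg
  have hgs : ∀ y, ∃ b, g b = y := fun y => ⟨e y, Function.leftInverse_invFun e.injective y⟩
  have h7 := h3 t (fun b => D (g b).1) (fun b => hD _) (fun b z hz hy => (hf z hz).2 _ hy) A hA
    fun z hz => by
      obtain ⟨y, Z, hZ, h0, hZk, hy⟩ := hacc z hz
      obtain ⟨b, hb⟩ := hgs ⟨y, hmem z (hA hz) y Z hZ h0 hZk hy⟩
      exact ⟨b, Z, hZ, h0, by omega, by rw [hb]; exact hy⟩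
  exact (Nat.mul_le_mul_right _ hS).trans h7

/-- The number of subsets with at most `k` elements. -/
lemma card_small_le (U : Finset ι) (k : ℕ) :
    (U.powerset.filter fun Z => Z.card ≤ k).card ≤ (U.card + 1) ^ k := by
  classical
  have h1 : (U.powerset.filter fun Z => Z.card ≤ k) =
      (range (k + 1)).biUnion fun i => powersetCard i U := by
    ext Z
    simp only [mem_filter, mem_powerset, mem_biUnion, mem_range, mem_powersetCard]
    constructor
    · rintro ⟨h, h'⟩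
      exact ⟨Z.card, by omega, h, rfl⟩
    · rintro ⟨i, hi, h, rfl⟩
      exact ⟨h, by omega⟩
  rw [h1]
  refine card_biUnion_le.trans ?_
  rw [add_pow]
  refine sum_le_sum fun i hi => ?_
  rw [card_powersetCard, one_pow, mul_one, Nat.cast_id]
  have h2 : 1 ≤ k.choose i := Nat.choose_pos (by simpa [Nat.lt_succ_iff] using hi)
  calc U.card.choose i ≤ U.card ^ i := Nat.choose_le_pow _ _
    _ ≤ U.card ^ i * k.choose i := Nat.le_mul_of_pos_right _ h2

/-- The number of subsets with at most `k` elements of a set with at most `2 ^ m k` elements. -/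
lemma card_small_le' (U : Finset ι) {k m : ℕ} (hU : U.card ≤ 2 ^ m * k) :
    (U.powerset.filter fun Z => Z.card ≤ k).card ≤ 2 ^ ((m + 2) * k) := by
  classical
  set θ : ℝ := (1 / 2) ^ m with hθ
  have hθ0 : 0 < θ := by positivity
  have hθ1 : θ ≤ 1 := pow_le_one₀ (by norm_num) (by norm_num)
  have hsum : ∑ Z ∈ U.powerset, θ ^ Z.card = (θ + 1) ^ U.card := by
    rw [← Finset.sum_pow_mul_eq_add_pow θ 1]
    refine Finset.sum_congr rfl fun Z _ => ?_
    simp
  have hlow : ((U.powerset.filter fun Z => Z.card ≤ k).card : ℝ) * θ ^ k ≤ (θ + 1) ^ U.card := by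
    rw [← hsum]
    calc ((U.powerset.filter fun Z => Z.card ≤ k).card : ℝ) * θ ^ k
        = ∑ Z ∈ U.powerset.filter (fun Z => Z.card ≤ k), θ ^ k := by
          rw [Finset.sum_const, nsmul_eq_mul]
      _ ≤ ∑ Z ∈ U.powerset.filter (fun Z => Z.card ≤ k), θ ^ Z.card := by
          refine Finset.sum_le_sum fun Z hZ => ?_
          exact pow_le_pow_of_le_one hθ0.le hθ1 (Finset.mem_filter.mp hZ).2
      _ ≤ ∑ Z ∈ U.powerset, θ ^ Z.card :=
          Finset.sum_le_sum_of_subset_of_nonneg (Finset.filter_subset _ _)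
            fun Z _ _ => by positivity
  have h2m : θ * 2 ^ m = 1 := by rw [hθ, ← mul_pow]; norm_num
  have hexp : (θ + 1) ^ U.card ≤ (4 : ℝ) ^ k := by
    have h1 : θ + 1 ≤ Real.exp θ := Real.add_one_le_exp θ
    have h4 : (U.card : ℝ) * θ ≤ (k : ℝ) * 1 := by
      have hb' : (U.card : ℝ) ≤ 2 ^ m * k := by exact_mod_cast hU
      calc (U.card : ℝ) * θ ≤ 2 ^ m * k * θ := mul_le_mul_of_nonneg_right hb' hθ0.le
        _ = k * (θ * 2 ^ m) := by ring
        _ = k * 1 := by rw [h2m]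
    calc (θ + 1) ^ U.card ≤ Real.exp θ ^ U.card := pow_le_pow_left₀ (by positivity) h1 _
      _ = Real.exp ((U.card : ℝ) * θ) := by rw [← Real.exp_nat_mul]
      _ ≤ Real.exp ((k : ℝ) * 1) := Real.exp_le_exp.mpr h4
      _ = Real.exp 1 ^ k := by rw [← Real.exp_nat_mul]
      _ ≤ 4 ^ k := pow_le_pow_left₀ (Real.exp_pos _).le (by linarith [Real.exp_one_lt_d9]) _
  have hθk : θ ^ k * 2 ^ (m * k) = 1 := by
    rw [pow_mul, ← mul_pow, h2m, one_pow]
  have hfin : ((U.powerset.filter fun Z => Z.card ≤ k).card : ℝ) ≤ 2 ^ ((m + 2) * k) := by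
    calc ((U.powerset.filter fun Z => Z.card ≤ k).card : ℝ)
        = ((U.powerset.filter fun Z => Z.card ≤ k).card : ℝ) * θ ^ k * 2 ^ (m * k) := by
          rw [mul_assoc, hθk, mul_one]
      _ ≤ 4 ^ k * 2 ^ (m * k) :=
          mul_le_mul_of_nonneg_right (hlow.trans hexp) (by positivity)
      _ = 2 ^ ((m + 2) * k) := by
          rw [show (4 : ℝ) = 2 ^ 2 by norm_num, ← pow_mul, ← pow_add]
          congr 1
          ring
  exact_mod_cast hfin

end

/-- Small devices compute monotone functions of the literals. -/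
lemma Small2.monotone {k : ℕ} {κ : Type} {G : (κ → Bool) → Bool} (h : Small2 k G) : Monotone G :=
  (smallClass2 k).mono _ G h

lemma Small2.up {k k' : ℕ} (hk : k ≤ k') {κ : Type} {G : (κ → Bool) → Bool} (h : Small2 k G) :
    Small2 k' G := by
  have h1 : 2 ^ k ≤ 2 ^ k' := Nat.pow_le_pow_right (by norm_num) hk
  have h2 : 2 ^ Nat.sqrt k ≤ 2 ^ Nat.sqrt k' :=
    Nat.pow_le_pow_right (by norm_num) (Nat.sqrt_le_sqrt hk)
  rcases h with ⟨S, hS, h⟩ | ⟨S, hS, h⟩ | ⟨S, hS, h⟩ | ⟨F, _, h0, S, hS, h⟩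
  · exact Or.inl ⟨S, hS.trans h1, h⟩
  · exact Or.inr (Or.inl ⟨S, hS.trans h1, h⟩)
  · exact Or.inr (Or.inr (Or.inl ⟨S, hS.trans h2, h⟩))
  · exact Or.inr (Or.inr (Or.inr ⟨F, _, h0, S, hS.trans h1, h⟩))

/-- **Linear equations, few accepting guesses.** -/
theorem unsat_sees (n k : ℕ) (U : Finset (Eq3 n)) (hU : 2 ^ 233 * k ≤ leftRank U) :
    Sees (Small2 k) unsat U k (2 ^ k) := by
  classical
  obtain ⟨q, hq, hli⟩ := exists_of_leftRank (K := 5 * 2 ^ 222 * (256 * k)) U
    (le_trans (by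
      rw [← mul_assoc]
      exact Nat.mul_le_mul_right _ (by norm_num)) hU)
  set U' : Finset (Eq3 n) := univ.image q with hU'
  have hcard : U'.card ≤ 2 ^ 233 * k := by
    refine card_image_le.trans ?_
    rw [card_univ, Fintype.card_fin, ← mul_assoc]
    exact Nat.mul_le_mul_right _ (by norm_num)
  have h1 : MustSee (Small2 (256 * k)) unsat U' (256 * k) (2 ^ (256 * k)) :=
    main_hard2 n (256 * k) U' q (fun i => mem_image_of_mem _ (mem_univ i)) hli
  have h2 : Sees (Small2 (256 * k)) unsat U' k (2 ^ k) := by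
    refine h1.sees (fun G hG => Small2.monotone hG) (t := 236 * k) ?_ (by omega)
      (Nat.pow_le_pow_right (by norm_num) (by omega))
    calc (U'.powerset.filter fun Z => Z.card ≤ k).card * 2 ^ k ≤ 2 ^ ((233 + 2) * k) * 2 ^ k :=
          Nat.mul_le_mul_right _ (card_small_le' U' hcard)
      _ = 2 ^ (236 * k) := by
          rw [← pow_add]
          congr 1
          ring
  refine (h2.superset ?_ fun G hG => Small2.monotone hG).mono fun G hG => ?_
  · intro e he
    obtain ⟨i, -, rfl⟩ := mem_image.1 he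
    exact hq i
  · exact Small2.up (by omega) hG

/-- The evaluation problem: from a block to devices which see few zeros of a set `U`. -/
theorem ev_sees_of {β : Type} [Fintype β] {B s m n k S : ℕ} (N : Net β B) (hB : B + 2 ≤ m)
    (R : Finset (β → Bool)) (hR0 : R.Nonempty) (hR1 : ∀ u ∈ R, N.dval u = true)
    (hR2 : ∀ G : (β → Bool) → Bool, (lClass (2 ^ s)).mem β G →
      (∀ u, G u = true → N.dval u = true) →
      2 ^ (8 * s) * (R.filter fun u => G u = true).card ≤ R.card)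
    (hk : (Fintype.card β + 1) ^ (2 * k) ≤ 2 ^ (6 * s)) (hS : S ≤ 2 ^ s)
    (U : Finset (EvVar m n)) (hU : Fintype.card β ≤
      (univ.filter fun i : Fin n => (Sum.inr i : EvVar m n) ∈ U).card) :
    Sees ((lClass S).mem _) ev U k S := by
  classical
  have hemb : Nonempty (β ↪ {i : Fin n // (Sum.inr i : EvVar m n) ∈ U}) := by
    refine Function.Embedding.nonempty_of_card_le ?_
    rw [Fintype.card_subtype]
    exact hU
  obtain ⟨e⟩ := hemb
  set U' : Finset (EvVar m n) := univ.image fun b : β => (Sum.inr (e b).1 : EvVar m n) with hU'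
  have hUU : U' ⊆ U := by
    intro v hv
    obtain ⟨b, -, rfl⟩ := mem_image.1 hv
    exact (e b).2
  have hcU : U'.card ≤ Fintype.card β := card_image_le
  have hmonoK : ∀ G, (lClass S).mem (EvVar m n ⊕ EvVar m n) G → Monotone G :=
    fun G hG => (lClass S).mono _ G hG
  refine Sees.superset ?_ hUU hmonoK
  obtain ⟨φ, hφ1, hφ2, hφ3⟩ := ev_sub N (m := m) hB (fun b => (e b).1)
    (fun b b' h => e.injective (Subtype.ext h))
  have hmono : ∀ u v : β → Bool, u ≤ v → N.dval u = true → N.dval v = true := by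
    intro u v huv hu
    have h1 := (dnetClass B).mono β N.dval ⟨N, fun _ => rfl⟩ huv
    rw [hu] at h1
    exact top_le_iff.1 h1
  have hHard := hardSet_direct (lClass (2 ^ s)) (ι := EvVar m n) (κ := β)
    (Q := 2 ^ (8 * s)) (n := Fintype.card β + 1) (fun u => N.dval u = true) hmono R hR0 hR1
    (fun G hG hle => hR2 G hG hle) (fun y => ev y = true) U' φ
    (fun b => ⟨_, hφ1 b⟩) (fun v hv => hφ2 v fun b hb => hv
      (hb ▸ mem_image_of_mem (fun b : β => (Sum.inr (e b).1 : EvVar m n)) (mem_univ b)))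
    (fun x => by rw [hφ3]) le_rfl
    (fun D => ∃ F, (lClass (2 ^ s)).mem _ F ∧ ∀ p, D p = F (known p)) (fun D h => h)
  obtain ⟨ρ, M, h1, h2, h3⟩ := hHard
  refine ⟨ρ, M, h1, h2, fun Y D hD hf A hA hacc => ?_⟩
  obtain ⟨Y', hcard, hmem⟩ := exists_cover hmonoK U' ρ M (fun z hz => (h2 z hz).2) k S D hD
    fun z hz => (hf z hz).1
  have h4 := h3 {y // y ∈ Y'} k (fun y p => D y.1 (known p))
    (fun y => ⟨D y.1, lClass_le hS (hD y.1), fun _ => rfl⟩) (fun y z hz hacc' => by
      refine (hf z hz).2 y.1 ?_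
      rw [known_some] at hacc'
      exact hacc')
  have h5 : A.card ≤
      {x | x ∈ M ∧ AccSees U' k (fun (y : {y // y ∈ Y'}) p => D y.1 (known p)) x}.ncard := by
    rw [← Set.ncard_coe_finset]
    refine Set.ncard_le_ncard ?_ (M.finite_toSet.subset fun x hx => hx.1)
    intro z hz
    obtain ⟨y, Z, hZU, hZ0, hZc, hy⟩ := hacc z hz
    refine ⟨hA hz, ⟨y, hmem z (hA hz) y Z hZU hZ0 hZc hy⟩, Z, hZU, hZc, hZ0, ?_⟩
    change D y (known (NWE.hide U' Z z)) = true
    rw [known_hide U' Z z hZ0, XL.MainAbs.litsOn_eq]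
    exact hy
  have h6 : Fintype.card {y // y ∈ Y'} ≤ (Fintype.card β + 1) ^ k * 2 ^ s := by
    rw [Fintype.card_coe]
    refine hcard.trans (Nat.mul_le_mul ((card_small_le U' k).trans ?_) hS)
    exact Nat.pow_le_pow_left (Nat.add_le_add_right hcU 1) k
  have h8 : 2 ^ (8 * s) * A.card ≤ 2 ^ (7 * s) * M.card := by
    calc 2 ^ (8 * s) * A.card
        ≤ 2 ^ (8 * s) *
          {x | x ∈ M ∧ AccSees U' k (fun (y : {y // y ∈ Y'}) p => D y.1 (known p)) x}.ncard :=
          Nat.mul_le_mul_left _ h5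
      _ ≤ Fintype.card {y // y ∈ Y'} * (Fintype.card β + 1) ^ k * M.card := h4
      _ ≤ (Fintype.card β + 1) ^ k * 2 ^ s * (Fintype.card β + 1) ^ k * M.card :=
          Nat.mul_le_mul_right _ (Nat.mul_le_mul_right _ h6)
      _ = 2 ^ s * (Fintype.card β + 1) ^ (2 * k) * M.card := by ring
      _ ≤ 2 ^ s * 2 ^ (6 * s) * M.card :=
          Nat.mul_le_mul_right _ (Nat.mul_le_mul_left _ hk)
      _ = 2 ^ (7 * s) * M.card := by
          rw [← pow_add]
          congr 2
          omega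
  have h9 : 2 ^ (7 * s) * (2 ^ s * A.card) ≤ 2 ^ (7 * s) * M.card := by
    calc 2 ^ (7 * s) * (2 ^ s * A.card) = 2 ^ (8 * s) * A.card := by
          rw [← mul_assoc, ← pow_add]
          congr 2
          omega
      _ ≤ _ := h8
  have h10 := Nat.le_of_mul_le_mul_left h9 (by positivity)
  exact (Nat.mul_le_mul_right _ hS).trans h10

/-- **Main theorem, L versus NL, few accepting guesses**, for `C = 3 10 ^ 18`. -/
theorem ev_sees : ∃ C : ℕ, 1 ≤ C ∧ ∀ (n k S : ℕ) (U : Finset (EvVar n n)),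
    (Nat.log 2 n + 2) ^ C ≤ inputs U → S ^ C ≤ n ^ Nat.log 2 (inputs U) →
    C * k ≤ Nat.log 2 n → Sees ((lClass S).mem _) ev U k S := by
  classical
  obtain ⟨C, hC⟩ : ∃ C : ℕ, C = 10 ^ 18 := ⟨_, rfl⟩
  refine ⟨3 * C, by omega, fun n k S U hU hS hk => ?_⟩
  obtain ⟨L, hL⟩ : ∃ L, L = Nat.log 2 n := ⟨_, rfl⟩
  obtain ⟨l, hl⟩ : ∃ l, l = Nat.log 2 (inputs U) := ⟨_, rfl⟩
  rw [← hL] at hU hk
  rw [← hl] at hS
  replace hU : (L + 2) ^ C ≤ inputs U := (Nat.pow_le_pow_right (by omega) (by omega)).trans hU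
  have hn1 : 1 ≤ n := by
    rcases Nat.eq_zero_or_pos n with rfl | h
    · exfalso
      have h1 : inputs U ≤ 0 := by
        unfold inputs
        simp
      have : 0 < (L + 2) ^ C := by positivity
      omega
    · exact h
  replace hS : S ^ C ≤ n ^ l := by
    rcases Nat.eq_zero_or_pos S with rfl | hS0
    · rw [zero_pow (by omega)]
      exact Nat.zero_le _
    · exact (Nat.pow_le_pow_right hS0 (by omega)).trans hS
  have hUn : inputs U ≤ n := by
    unfold inputs
    simpa using Finset.card_le_univ (univ.filter fun i : Fin n => (Sum.inr i : EvVar n n) ∈ U)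
  have hu0 : inputs U ≠ 0 := by
    intro h
    rw [h] at hU
    have : 0 < (L + 2) ^ C := by positivity
    omega
  have h3 : l ≤ L := by
    rw [hl, hL]
    exact Nat.log_mono_right hUn
  have h2 : C * Nat.log 2 (L + 2) ≤ l := by
    rw [hl]
    refine Nat.le_log_of_pow_le (by norm_num) ?_
    calc 2 ^ (C * Nat.log 2 (L + 2)) = (2 ^ Nat.log 2 (L + 2)) ^ C := by rw [← pow_mul, mul_comm]
      _ ≤ (L + 2) ^ C := Nat.pow_le_pow_left (Nat.pow_log_le_self 2 (by omega)) C
      _ ≤ inputs U := hU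
  have h1 : C ≤ l := by
    have h4 : 1 ≤ Nat.log 2 (L + 2) := Nat.le_log_of_pow_le (by norm_num) (by omega)
    calc C = C * 1 := (mul_one C).symm
      _ ≤ C * Nat.log 2 (L + 2) := Nat.mul_le_mul_left C h4
      _ ≤ l := h2
  obtain ⟨q, κ, hq8, hqκ, hX, hκl, hs, hk'⟩ := exists_qk hC.ge h1 h2 h3
  obtain ⟨β, _, N, R, hβ, hR0, hR1, hR2⟩ := FewK.exists_few hq8 hqκ
  have h16 := FewK.sk_eq (q := q) (κ := κ) (by omega)
  have hck := FewK.ck_le (q := q) (κ := κ) (by omega) hqκ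
  have hul : 2 ^ l ≤ inputs U := hl ▸ Nat.pow_log_le_self 2 hu0
  refine ev_sees_of N (FewK.bk_le hq8 hqκ (hL ▸ hX)) R hR0 hR1 hR2 ?_ ?_ U ?_
  · rw [hβ]
    have h4 : FewK.ck q κ + 1 ≤ 2 ^ (106 * (κ + 4)) := by
      have h5 : 2 ^ (105 * κ + 420) + 1 ≤ 2 ^ (105 * κ + 421) := by
        rw [pow_succ 2 (105 * κ + 420)]
        have : 1 ≤ 2 ^ (105 * κ + 420) := Nat.one_le_two_pow
        omega
      calc FewK.ck q κ + 1 ≤ 2 ^ (105 * κ + 420) + 1 := Nat.add_le_add_right hck 1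
        _ ≤ 2 ^ (105 * κ + 421) := h5
        _ ≤ 2 ^ (106 * (κ + 4)) := Nat.pow_le_pow_right (by norm_num) (by omega)
    calc (FewK.ck q κ + 1) ^ (2 * k) ≤ (2 ^ (106 * (κ + 4))) ^ (2 * k) :=
          Nat.pow_le_pow_left h4 _
      _ = 2 ^ (106 * (κ + 4) * (2 * k)) := by rw [← pow_mul]
      _ ≤ 2 ^ (6 * FewK.sk q κ) := by
        refine Nat.pow_le_pow_right (by norm_num) ?_
        have h5 := hk' (3 * k) (by rw [← mul_assoc, mul_comm C 3]; exact hk)
        rw [← h16] at h5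
        have h6 : 106 * (κ + 4) * (3 * k) ≤ 7 * FewK.sk q κ := by omega
        have h7 : 106 * (κ + 4) * (3 * k) = 3 * (106 * (κ + 4) * k) := by ring
        have h8 : 106 * (κ + 4) * (2 * k) = 2 * (106 * (κ + 4) * k) := by ring
        rw [h7] at h6
        rw [h8]
        omega
  · have h9 : n < 2 ^ (L + 1) := hL ▸ Nat.lt_pow_succ_log_self (by norm_num) n
    have h10 : S ^ C ≤ (2 ^ FewK.sk q κ) ^ C := by
      calc S ^ C ≤ n ^ l := hS
        _ ≤ (2 ^ (L + 1)) ^ l := Nat.pow_le_pow_left h9.le l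
        _ = 2 ^ ((L + 1) * l) := by rw [← pow_mul]
        _ ≤ 2 ^ (C * FewK.sk q κ) := Nat.pow_le_pow_right (by norm_num) (hs _ h16)
        _ = (2 ^ FewK.sk q κ) ^ C := by rw [← pow_mul, mul_comm]
    exact (Nat.pow_le_pow_iff_left (by omega)).1 h10
  · rw [hβ]
    calc FewK.ck q κ ≤ 2 ^ (105 * κ + 420) := hck
      _ ≤ 2 ^ l := Nat.pow_le_pow_right (by norm_num) hκl
      _ ≤ inputs U := hul

end Pool.Agent.NLP
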