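import Pool.Agent.NLP.Few

set_option autoImplicit false

/-!
# The block with free depth: small monotone devices below a directed network accept few positive
inputs
-/

namespace Pool.Agent.NLP.FewK

open Finset Pool.Agent.XL Pool.Agent.NTR Pool.Agent.NTN Pool.Agent.TeleNeg
open scoped BigOperators

/-- the number of unknowns -/
def vk (q κ : ℕ) : ℕ := 8 * 2 ^ q * 2 ^ (κ - 4) * (8000 * 2 ^ q)

/-- the number of variables of a block -/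
def ck (q κ : ℕ) : ℕ := (vk q κ + 1) * 2 ^ (17 * (6 * κ + 24))

/-- the exponent of the size -/
def sk (q κ : ℕ) : ℕ := κ * (κ + 4) * 2 ^ (q - 4)

/-- the number of nodes -/
def bk (q κ : ℕ) : ℕ := 8 * 2 ^ q * 2 ^ (κ - 4) * (8000 * 2 ^ q + 1) *
  2 ^ (2 * (8000 * 2 ^ q) * (6 * κ + 24)) + 2

theorem vk_eq {q κ : ℕ} (hκ : 4 ≤ κ) : vk q κ = 4000 * 2 ^ (2 * q + κ) := by
  obtain ⟨p, rfl⟩ : ∃ p, κ = p + 4 := ⟨κ - 4, by omega⟩
  rw [vk, show p + 4 - 4 = p by omega, show 2 * q + (p + 4) = q + q + p + 4 by ring]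
  rw [pow_add, pow_add, pow_add]
  norm_num
  ring

theorem vk_lt {q κ : ℕ} (hκ : 4 ≤ κ) (hqκ : q ≤ κ) : vk q κ + 1 ≤ 2 ^ (3 * κ + 12) := by
  rw [vk_eq hκ]
  have h0 : 2 ^ (2 * q + κ) ≤ 2 ^ (3 * κ) := Nat.pow_le_pow_right (by norm_num) (by omega)
  have h1 : 1 ≤ 2 ^ (3 * κ) := Nat.one_le_two_pow
  rw [pow_add 2 (3 * κ) 12, show (2 : ℕ) ^ 12 = 4096 by norm_num]
  omega

theorem ck_le {q κ : ℕ} (hκ : 4 ≤ κ) (hqκ : q ≤ κ) : ck q κ ≤ 2 ^ (105 * κ + 420) := by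
  rw [ck, show 105 * κ + 420 = (3 * κ + 12) + 17 * (6 * κ + 24) by ring, pow_add]
  exact Nat.mul_le_mul_right _ (vk_lt hκ hqκ)

theorem sk_eq {q κ : ℕ} (hq : 4 ≤ q) : 16 * sk q κ = κ * (κ + 4) * 2 ^ q := by
  obtain ⟨p, rfl⟩ : ∃ p, q = p + 4 := ⟨q - 4, by omega⟩
  rw [sk, show p + 4 - 4 = p by omega, pow_add]
  ring

/-- `2 ^ (h v) ≤ 2 (2 ^ h - 1) ^ v` if `2 v ≤ 2 ^ h` -/
theorem full_pow (h v : ℕ) (hv : 2 * v ≤ 2 ^ h) :
    2 ^ (h * v) ≤ 2 * (2 ^ h - 1) ^ v := by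
  have h0 : (1 : ℕ) ≤ 2 ^ h := Nat.one_le_two_pow
  have hR : (2 : ℝ) ^ (h * v) ≤ 2 * ((2 : ℝ) ^ h - 1) ^ v := by
    have hp : (0 : ℝ) < 2 ^ h := by positivity
    have h1 : (-2 : ℝ) ≤ -(1 / 2 ^ h) := by
      have : 1 / (2 : ℝ) ^ h ≤ 1 := by
        rw [div_le_one hp]
        exact_mod_cast h0
      linarith
    have h2 := one_add_mul_le_pow h1 v
    have h3 : (v : ℝ) * (1 / 2 ^ h) ≤ 1 / 2 := by
      rw [mul_one_div, div_le_iff₀ hp]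
      have : (2 : ℝ) * v ≤ 2 ^ h := by exact_mod_cast hv
      linarith
    have h4 : (1 / 2 : ℝ) ≤ (1 + -(1 / 2 ^ h)) ^ v := by linarith
    have h5 : ((2 : ℝ) ^ h - 1) ^ v = 2 ^ (h * v) * (1 + -(1 / 2 ^ h)) ^ v := by
      rw [pow_mul, ← mul_pow]
      congr 1
      field_simp
      ring
    rw [h5]
    have h6 : (0 : ℝ) < 2 ^ (h * v) := by positivity
    nlinarith
  have h7 : ((2 ^ (h * v) : ℕ) : ℝ) ≤ ((2 * (2 ^ h - 1) ^ v : ℕ) : ℝ) := by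
    push_cast [Nat.cast_sub h0]
    exact hR
  exact_mod_cast h7

theorem num_fewK {q κ : ℕ} (hq : 8 ≤ q) (hqκ : q ≤ κ) :
    2 ^ (8 * sk q κ) * (2 ^ sk q κ * 2 ^ sk q κ * (ck q κ + 1) *
      ((vk q κ).choose (κ * 2 ^ (q - 1)) *
        2 ^ ((6 * κ + 24) * (vk q κ - κ * 2 ^ (q - 1))))) ≤
      (2 ^ (6 * κ + 24) - 1) ^ vk q κ := by
  have hκ4 : 4 ≤ κ := by omega
  set L : ℕ := 105 * κ + 420 with hL
  set D : ℕ := κ * 2 ^ (q - 1) with hD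
  have hc : ck q κ ≤ 2 ^ L := ck_le hκ4 hqκ
  have hv := vk_lt (q := q) hκ4 hqκ
  have hDv : D ≤ vk q κ := by
    rw [vk_eq hκ4]
    have h1 : κ ≤ 2 ^ κ := Nat.lt_two_pow_self.le
    have h2 : 2 ^ (q - 1) ≤ 2 ^ (2 * q) := Nat.pow_le_pow_right (by norm_num) (by omega)
    rw [pow_add]
    calc κ * 2 ^ (q - 1) ≤ 2 ^ κ * 2 ^ (2 * q) := Nat.mul_le_mul h1 h2
      _ = 1 * (2 ^ (2 * q) * 2 ^ κ) := by ring
      _ ≤ 4000 * (2 ^ (2 * q) * 2 ^ κ) := Nat.mul_le_mul_right _ (by norm_num)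
  have hsD : (3 * κ + 12) * D = 24 * sk q κ := by
    obtain ⟨p, rfl⟩ : ∃ p, q = p + 4 := ⟨q - 4, by omega⟩
    rw [hD, sk, show p + 4 - 4 = p by omega, show p + 4 - 1 = p + 3 by omega, pow_add]
    ring
  have hs : L + 2 ≤ 14 * sk q κ := by
    have h1 : 2 ^ 4 ≤ 2 ^ (q - 4) := Nat.pow_le_pow_right (by norm_num) (by omega)
    have h2 : κ * (κ + 4) * 16 ≤ sk q κ := Nat.mul_le_mul_left _ (by simpa using h1)
    have h3 : 8 * (κ + 4) ≤ κ * (κ + 4) := Nat.mul_le_mul_right _ (by omega)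
    omega
  have hc1 : ck q κ + 1 ≤ 2 ^ (L + 1) := by
    rw [pow_succ]
    have : 1 ≤ 2 ^ L := Nat.one_le_two_pow
    omega
  have hch : (vk q κ).choose D ≤ 2 ^ (24 * sk q κ) := by
    rw [← hsD, pow_mul]
    exact (Nat.choose_le_pow _ _).trans (Nat.pow_le_pow_left (by omega) _)
  have hexp : (6 * κ + 24) * (vk q κ - D) + 48 * sk q κ = (6 * κ + 24) * vk q κ := by
    have h1 : (6 * κ + 24) * D = 48 * sk q κ := by
      have h2 : (6 * κ + 24) * D = 2 * ((3 * κ + 12) * D) := by ring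
      rw [h2, hsD]
      ring
    rw [← h1, ← mul_add, Nat.sub_add_cancel hDv]
  have hfull := full_pow (6 * κ + 24) (vk q κ) (by
    calc 2 * vk q κ ≤ 2 * 2 ^ (3 * κ + 12) := Nat.mul_le_mul_left _ (by omega)
      _ = 2 ^ (3 * κ + 13) := (pow_succ' 2 (3 * κ + 12)).symm
      _ ≤ 2 ^ (6 * κ + 24) := Nat.pow_le_pow_right (by norm_num) (by omega))
  have hmain : 2 ^ (8 * sk q κ) * (2 ^ sk q κ * 2 ^ sk q κ * (ck q κ + 1) *
      ((vk q κ).choose D * 2 ^ ((6 * κ + 24) * (vk q κ - D)))) ≤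
      2 ^ (8 * sk q κ) * (2 ^ sk q κ * 2 ^ sk q κ * 2 ^ (L + 1) *
      (2 ^ (24 * sk q κ) * 2 ^ ((6 * κ + 24) * (vk q κ - D)))) := by
    gcongr
  have hpow : 2 ^ (8 * sk q κ) * (2 ^ sk q κ * 2 ^ sk q κ * 2 ^ (L + 1) *
      (2 ^ (24 * sk q κ) * 2 ^ ((6 * κ + 24) * (vk q κ - D)))) =
      2 ^ (34 * sk q κ + (L + 1) + (6 * κ + 24) * (vk q κ - D)) := by
    have e : 34 * sk q κ + (L + 1) + (6 * κ + 24) * (vk q κ - D) =
        8 * sk q κ + (sk q κ + sk q κ + (L + 1) +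
          (24 * sk q κ + (6 * κ + 24) * (vk q κ - D))) := by ring
    rw [e]
    simp only [pow_add, pow_one]
  rw [hpow] at hmain
  refine hmain.trans ?_
  have h8' : 34 * sk q κ + (L + 1) + (6 * κ + 24) * (vk q κ - D) + 1 ≤
      (6 * κ + 24) * vk q κ := by
    have key : ∀ a b s l : ℕ, a + 48 * s = b → l + 2 ≤ 14 * s →
        34 * s + (l + 1) + a + 1 ≤ b := by
      intro a b s l h1 h2
      omega
    exact key _ _ _ _ hexp hs
  have h8 : 2 * 2 ^ (34 * sk q κ + (L + 1) + (6 * κ + 24) * (vk q κ - D)) ≤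
      2 ^ ((6 * κ + 24) * vk q κ) := by
    calc 2 * 2 ^ (34 * sk q κ + (L + 1) + (6 * κ + 24) * (vk q κ - D))
        = 2 ^ (34 * sk q κ + (L + 1) + (6 * κ + 24) * (vk q κ - D) + 1) :=
          (pow_succ' 2 (34 * sk q κ + (L + 1) + (6 * κ + 24) * (vk q κ - D))).symm
      _ ≤ 2 ^ ((6 * κ + 24) * vk q κ) := Nat.pow_le_pow_right (by norm_num) h8'
  exact Nat.le_of_mul_le_mul_left (h8.trans hfull) (by norm_num)

/-- The number of nodes. -/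
theorem bk_le {q κ n : ℕ} (hq : 8 ≤ q) (hqκ : q ≤ κ)
    (h : 100000 * ((κ + 4) * 2 ^ q) ≤ Nat.log 2 n) : bk q κ + 2 ≤ n := by
  have hn0 : n ≠ 0 := by
    rintro rfl
    have : 0 < (κ + 4) * 2 ^ q := by positivity
    simp at h
  have h2 : 2 ^ Nat.log 2 n ≤ n := Nat.pow_log_le_self 2 hn0
  refine le_trans ?_ ((Nat.pow_le_pow_right (by norm_num) h).trans h2)
  obtain ⟨X, hX⟩ : ∃ X, X = (κ + 4) * 2 ^ q := ⟨_, rfl⟩
  have hX1 : κ + 4 ≤ X := by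
    rw [hX]
    exact Nat.le_mul_of_pos_right _ (by positivity)
  have h4 : 2 ^ (2 * (8000 * 2 ^ q) * (6 * κ + 24)) = 2 ^ (96000 * X) := by
    rw [hX]
    congr 1
    ring
  have h5 : 8 * 2 ^ q * 2 ^ (κ - 4) * (8000 * 2 ^ q + 1) ≤ 2 ^ (3 * κ + 12) := by
    obtain ⟨p, hp⟩ : ∃ p, κ = p + 4 := ⟨κ - 4, by omega⟩
    have h6 : 8000 * 2 ^ q + 1 ≤ 2 ^ (q + 13) := by
      rw [pow_add]
      have : 1 ≤ 2 ^ q := Nat.one_le_two_pow
      norm_num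
      omega
    calc 8 * 2 ^ q * 2 ^ (κ - 4) * (8000 * 2 ^ q + 1)
        ≤ 8 * 2 ^ q * 2 ^ (κ - 4) * 2 ^ (q + 13) := Nat.mul_le_mul_left _ h6
      _ = 2 ^ (3 + q + (κ - 4) + (q + 13)) := by
          rw [pow_add 2 (3 + q + (κ - 4)), pow_add 2 (3 + q), pow_add 2 3,
            show (2 : ℕ) ^ 3 = 8 by norm_num]
      _ ≤ 2 ^ (3 * κ + 12) := Nat.pow_le_pow_right (by norm_num) (by omega)
  unfold bk
  rw [h4, ← hX]
  calc 8 * 2 ^ q * 2 ^ (κ - 4) * (8000 * 2 ^ q + 1) * 2 ^ (96000 * X) + 2 + 2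
      ≤ 2 ^ (3 * κ + 12) * 2 ^ (96000 * X) + 4 := by
        have := Nat.mul_le_mul_right (2 ^ (96000 * X)) h5
        omega
    _ = 2 ^ (3 * κ + 12 + 96000 * X) + 4 := by rw [pow_add 2 (3 * κ + 12)]
    _ ≤ 2 ^ (3 * κ + 12 + 96000 * X) + 2 ^ (3 * κ + 12 + 96000 * X) := by
        have h9 : 2 ^ 2 ≤ 2 ^ (3 * κ + 12 + 96000 * X) :=
          Nat.pow_le_pow_right (by norm_num) (by omega)
        omega
    _ = 2 ^ (3 * κ + 13 + 96000 * X) := by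
        rw [show 3 * κ + 13 + 96000 * X = (3 * κ + 12 + 96000 * X) + 1 by ring, pow_succ]
        ring
    _ ≤ 2 ^ (100000 * X) := Nat.pow_le_pow_right (by norm_num) (by omega)

/-- **The block with free depth, one-sided form.** -/
theorem exists_few {q κ : ℕ} (hq : 8 ≤ q) (hqκ : q ≤ κ) :
    ∃ (β : Type) (_ : Fintype β) (N : Net β (bk q κ)) (R : Finset (β → Bool)),
      Fintype.card β = ck q κ ∧ R.Nonempty ∧ (∀ u ∈ R, N.dval u = true) ∧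
      ∀ G : (β → Bool) → Bool, (lClass (2 ^ sk q κ)).mem β G →
        (∀ u, G u = true → N.dval u = true) →
        2 ^ (8 * sk q κ) * (R.filter fun u => G u = true).card ≤ R.card := by
  classical
  obtain ⟨nb, hnb⟩ := exists_graph (θ := 2 ^ q) Nat.one_le_two_pow
  have hpow : 2 ^ q = 2 * 2 ^ (q - 1) := by
    rw [← pow_succ', show q - 1 + 1 = q by omega]
  have h7 : 2 ^ 7 ≤ 2 ^ (q - 1) := Nat.pow_le_pow_right (by norm_num) (by omega)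
  have hD : κ * 2 ^ (q - 1) + 17 ≤ κ * 2 ^ q := by
    rw [hpow]
    have h1 : 1 * 2 ^ (q - 1) ≤ κ * 2 ^ (q - 1) := Nat.mul_le_mul_right _ (by omega)
    have h2 : κ * (2 * 2 ^ (q - 1)) = κ * 2 ^ (q - 1) + κ * 2 ^ (q - 1) := by ring
    omega
  have hDv : κ * 2 ^ (q - 1) ≤ 8 * 2 ^ q * 2 ^ (κ - 4) * (8000 * 2 ^ q) := by
    have h1 : κ < 2 ^ κ := Nat.lt_two_pow_self
    have h2 : 2 ^ (q - 1) ≤ 2 ^ (2 * q) := Nat.pow_le_pow_right (by norm_num) (by omega)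
    have h3 := vk_eq (q := q) (κ := κ) (by omega)
    unfold vk at h3
    rw [h3, pow_add]
    calc κ * 2 ^ (q - 1) ≤ 2 ^ κ * 2 ^ (2 * q) := Nat.mul_le_mul h1.le h2
      _ = 1 * (2 ^ (2 * q) * 2 ^ κ) := by ring
      _ ≤ 4000 * (2 ^ (2 * q) * 2 ^ κ) := Nat.mul_le_mul_right _ (by norm_num)
  have hw : 0 < 8000 * 2 ^ q := by positivity
  have hcard : Fintype.card (Bv (Option (Fin (8 * 2 ^ q * 2 ^ (κ - 4)) × Fin (8000 * 2 ^ q)))
      (6 * κ + 24)) = ck q κ := by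
    rw [Fintype.card_prod, Fintype.card_option, Fintype.card_prod, Fintype.card_fin,
      Fintype.card_fin, Fintype.card_fun, Fintype.card_fun, ZMod.card, Fintype.card_fin,
      Fintype.card_fin, ← pow_mul, ck, vk, mul_comm (6 * κ + 24) 17]
  obtain ⟨N, R, hR1, hR2, hR3⟩ := block_few (h := 6 * κ + 24) (s := 2 ^ sk q κ) hnb
    (by omega) Nat.one_le_two_pow rfl hw hD hDv
  refine ⟨_, inferInstance, N, R, hcard, ?_, hR2, fun G hG hle => ?_⟩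
  · rw [← Finset.card_pos, hR1]
    refine Nat.pow_pos ?_
    have : 2 ^ 1 ≤ 2 ^ (6 * κ + 24) := Nat.pow_le_pow_right (by norm_num) (by omega)
    omega
  have h1 := hR3 _ le_rfl G hG hle
  rw [hcard] at h1
  have h9 := num_fewK hq hqκ
  unfold vk at h9
  rw [hR1]
  exact (Nat.mul_le_mul_left _ h1).trans h9

end Pool.Agent.NLP.FewK
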