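import Pool.Agent.NLP.Defs
import Pool.Agent.XL.Exp

set_option autoImplicit false

/-!
# Expanding graphs
-/

namespace Pool.Agent.NLP

open Finset Pool.Agent.XL

/-- The unknowns which occur an odd number of times occur. -/
theorem exists_of_supp {M m : ℕ} {e : Fin M → Fin 8 → Fin m} {T : Finset (Fin M)} {j : Fin m}
    (h : j ∈ supp e T) : ∃ i ∈ T, ∃ c, e i c = j := by
  classical
  by_contra hcon
  push Not at hcon
  rw [supp, Finset.mem_filter] at h
  apply h.2
  unfold par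
  refine Finset.sum_eq_zero fun i hi => Finset.sum_eq_zero fun c _ => ?_
  rw [if_neg (hcon i hi c)]

theorem exists_graph {θ : ℕ} (hθ : 1 ≤ θ) :
    ∃ nb : Fin (8000 * θ) → Fin 16 → Fin (8000 * θ), Expands nb (4 * θ) := by
  classical
  obtain ⟨e, he⟩ := exists_expand (4 * θ) (by omega)
  have hm : 2000 * (4 * θ) = 8000 * θ := by ring
  -- the equations of a node
  let q : Fin (8000 * θ) → Fin 2 → Fin (4000 * (4 * θ)) := fun t s =>
    ⟨2 * t.1 + s.1, by have h1 := t.2; have h2 := s.2; omega⟩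
  have hq : ∀ t s t' s', q t s = q t' s' → t = t' ∧ s = s' := by
    intro t s t' s' h
    have h1 : 2 * t.1 + s.1 = 2 * t'.1 + s'.1 := congrArg Fin.val h
    have h2 := s.2
    have h3 := s'.2
    exact ⟨Fin.ext (by omega), Fin.ext (by omega)⟩
  refine ⟨fun t c => Fin.cast hm (e (q t ⟨c.1 / 8, by have := c.2; omega⟩) ⟨c.1 % 8, by omega⟩),
    fun T hT => ?_⟩
  set E : Finset (Fin (4000 * (4 * θ))) := (T ×ˢ (univ : Finset (Fin 2))).map
    ⟨fun p => q p.1 p.2, fun p p' h => Prod.ext (hq _ _ _ _ h).1 (hq _ _ _ _ h).2⟩ with hE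
  have hEc : E.card = 2 * T.card := by
    rw [hE, Finset.card_map, Finset.card_product, Finset.card_univ, Fintype.card_fin, mul_comm]
  have h1 := he E (by rw [hEc]; omega)
  rw [hEc] at h1
  refine h1.trans ?_
  refine Finset.card_le_card_of_injOn (Fin.cast hm) (fun j hj => ?_)
    (fun j _ j' _ h => Fin.cast_injective hm h)
  obtain ⟨i, hi, c, hc⟩ := exists_of_supp hj
  rw [hE, Finset.mem_map] at hi
  obtain ⟨⟨t, s⟩, hts, rfl⟩ := hi
  rw [Finset.mem_product] at hts
  rw [Finset.mem_coe, Finset.mem_biUnion]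
  refine ⟨t, hts.1, Finset.mem_image.2 ⟨⟨8 * s.1 + c.1, ?_⟩, Finset.mem_univ _, ?_⟩⟩
  · have h2 := s.2
    have h3 := c.2
    omega
  · have h3 := c.2
    have e1 : (8 * s.1 + c.1) / 8 = s.1 := by omega
    have e2 : (8 * s.1 + c.1) % 8 = c.1 := by omega
    have e3 : (⟨(8 * s.1 + c.1) / 8, by rw [e1]; exact s.2⟩ : Fin 2) = s := Fin.ext e1
    have e4 : (⟨(8 * s.1 + c.1) % 8, by omega⟩ : Fin 8) = c := Fin.ext e2
    rw [← hc]
    simp only [e3, e4]
    rfl

end Pool.Agent.NLP
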