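import Mathlib

set_option autoImplicit false

/-!
# Numbers for the evaluation problem: the choice of the depth and of the width
-/

namespace Pool.Agent.NLP

/-- The choice of the depth `κ` and the width `2 ^ q` for sets with `2 ^ l` input variables. -/
theorem exists_qk {L l C : ℕ} (hC : 10 ^ 18 ≤ C) (h1 : C ≤ l) (h2 : C * Nat.log 2 (L + 2) ≤ l)
    (h3 : l ≤ L) : ∃ q κ : ℕ, 8 ≤ q ∧ q ≤ κ ∧ 100000 * ((κ + 4) * 2 ^ q) ≤ L ∧
      105 * κ + 420 ≤ l ∧ (∀ s, 16 * s = κ * (κ + 4) * 2 ^ q → (L + 1) * l ≤ C * s) ∧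
      ∀ k, C * k ≤ L → 16 * (106 * (κ + 4) * k) ≤ 7 * (κ * (κ + 4) * 2 ^ q) := by
  obtain ⟨κ, hκ⟩ : ∃ κ, κ = l / 1000000000 := ⟨_, rfl⟩
  have hk1 : 1000000000 * κ ≤ l := hκ ▸ Nat.mul_div_le l _
  have hk2 : l < 1000000000 * κ + 1000000000 := hκ ▸ Nat.lt_mul_div_succ l (by norm_num)
  obtain ⟨L', hL'⟩ : ∃ L', L' = L / 100000 := ⟨_, rfl⟩
  have hL1 : 100000 * L' ≤ L := hL' ▸ Nat.mul_div_le L _
  have hL2 : L < 100000 * L' + 100000 := hL' ▸ Nat.lt_mul_div_succ L (by norm_num)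
  have hC' : 1000000000000000000 ≤ C := by simpa using hC
  have hex : ∃ q, L' < (κ + 4) * 2 ^ (q + 1) := ⟨L', by
    have h4 : L' < 2 ^ L' := Nat.lt_two_pow_self
    have h5 : 2 ^ L' ≤ 2 ^ (L' + 1) := Nat.pow_le_pow_right (by norm_num) (by omega)
    nlinarith⟩
  classical
  obtain ⟨q, hq⟩ : ∃ q, q = Nat.find hex := ⟨_, rfl⟩
  have hq1 : L' < (κ + 4) * 2 ^ (q + 1) := by
    rw [hq]
    exact Nat.find_spec hex
  have hq8 : 8 ≤ q := by
    by_contra h
    have h4 : (κ + 4) * 2 ^ (q + 1) ≤ (κ + 4) * 2 ^ 8 :=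
      Nat.mul_le_mul_left _ (Nat.pow_le_pow_right (by norm_num) (by omega))
    rw [show (2 : ℕ) ^ 8 = 256 by norm_num] at h4
    omega
  have hq2 : (κ + 4) * 2 ^ q ≤ L' := by
    have h4 := Nat.find_min hex (m := q - 1) (by rw [← hq]; omega)
    push Not at h4
    rwa [show q - 1 + 1 = q by omega] at h4
  have hqκ : q ≤ κ := by
    have h4 : 2 ^ q ≤ L + 2 := by
      have h5 : 1 * 2 ^ q ≤ (κ + 4) * 2 ^ q := Nat.mul_le_mul_right _ (by omega)
      omega
    have h5 : q ≤ Nat.log 2 (L + 2) := Nat.le_log_of_pow_le (by norm_num) h4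
    have h6 : C * q ≤ l := (Nat.mul_le_mul_left C h5).trans h2
    have h7 : 1000000000000000000 * q ≤ l := (Nat.mul_le_mul_right q hC').trans h6
    omega
  have hX : (κ + 4) * 2 ^ (q + 1) = 2 * ((κ + 4) * 2 ^ q) := by rw [pow_succ]; ring
  obtain ⟨X, hXd⟩ : ∃ X, X = (κ + 4) * 2 ^ q := ⟨_, rfl⟩
  rw [hX, ← hXd] at hq1
  rw [← hXd] at hq2
  have hXL : L + 1 ≤ 300000 * X := by
    have : 1 ≤ X := by
      rw [hXd]
      exact Nat.mul_pos (by omega) (by positivity)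
    omega
  refine ⟨q, κ, hq8, hqκ, ?_, by omega, fun s hs => ?_, fun k hk => ?_⟩
  · rw [← hXd]
    omega
  · have h4 : 16 * s = κ * X := by rw [hs, hXd]; ring
    have h5 : l ≤ 2000000000 * κ := by omega
    have h6 : (L + 1) * l ≤ 300000 * X * (2000000000 * κ) := Nat.mul_le_mul hXL h5
    have h7 : 300000 * X * (2000000000 * κ) = 9600000000000000 * s := by
      calc 300000 * X * (2000000000 * κ) = 600000000000000 * (κ * X) := by ring
        _ = 600000000000000 * (16 * s) := by rw [h4]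
        _ = 9600000000000000 * s := by ring
    rw [h7] at h6
    exact h6.trans (Nat.mul_le_mul_right s (by omega))
  · have h4 : 1000000000000000000 * k ≤ L := (Nat.mul_le_mul_right k hC').trans hk
    have h5 : 7 * (κ * (κ + 4) * 2 ^ q) = 7 * κ * X := by rw [hXd]; ring
    have h6 : κ + 4 ≤ 2 * κ := by omega
    rw [h5]
    calc 16 * (106 * (κ + 4) * k) ≤ 16 * (106 * (2 * κ) * k) := by gcongr
      _ = 3392 * k * κ := by ring
      _ ≤ 7 * X * κ := Nat.mul_le_mul_right _ (by omega)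
      _ = 7 * κ * X := by ring

end Pool.Agent.NLP
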