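import Pool.Agent.NLP.HidNL
import Pool.Agent.NLP.FewK
import Pool.Agent.NLP.NumW

set_option autoImplicit false

/-!
# The evaluation problem: small devices must see zeros of every large set of input variables
-/

namespace Pool.Agent.NLP

open Finset

/-- The number of the input variables in `U`. -/
def inputs {m n : ℕ} (U : Finset (EvVar m n)) : ℕ :=
  (univ.filter fun i : Fin n => (Sum.inr i : EvVar m n) ∈ U).card

/-- **Main theorem, L versus NL**, for `C = 10 ^ 18`. Let `U` be a set of variables of the evaluation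
problem for `n` nodes and `n` input variables which contains `u ≥ (log n + 2) ^ C` input variables.
Then switching networks with at most `n ^ (log u / C)` nodes must see more than `log n / C` zeros in
`U`. -/
theorem ev_must : ∃ C : ℕ, 1 ≤ C ∧ ∀ (n k S : ℕ) (U : Finset (EvVar n n)),
    (Nat.log 2 n + 2) ^ C ≤ inputs U → S ^ C ≤ n ^ Nat.log 2 (inputs U) →
    C * k ≤ Nat.log 2 n → MustSee ((lClass S).mem _) ev U k S := by
  classical
  obtain ⟨C, hC⟩ : ∃ C : ℕ, C = 10 ^ 18 := ⟨_, rfl⟩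
  refine ⟨C, by omega, fun n k S U hU hS hk => ?_⟩
  obtain ⟨L, hL⟩ : ∃ L, L = Nat.log 2 n := ⟨_, rfl⟩
  obtain ⟨l, hl⟩ : ∃ l, l = Nat.log 2 (inputs U) := ⟨_, rfl⟩
  rw [← hL] at hU hk
  rw [← hl] at hS
  have hUn : inputs U ≤ n := by
    unfold inputs
    simpa using Finset.card_le_univ (univ.filter fun i : Fin n => (Sum.inr i : EvVar n n) ∈ U)
  have hu0 : inputs U ≠ 0 := by
    intro h
    rw [h] at hU
    have : 0 < (L + 2) ^ C := by positivity
    omega
  have h3 : l ≤ L := by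
    rw [hl, hL]
    exact Nat.log_mono_right hUn
  have h2 : C * Nat.log 2 (L + 2) ≤ l := by
    rw [hl]
    refine Nat.le_log_of_pow_le (by norm_num) ?_
    calc 2 ^ (C * Nat.log 2 (L + 2)) = (2 ^ Nat.log 2 (L + 2)) ^ C := by rw [← pow_mul, mul_comm]
      _ ≤ (L + 2) ^ C := Nat.pow_le_pow_left (Nat.pow_log_le_self 2 (by omega)) C
      _ ≤ inputs U := hU
  have h1 : C ≤ l := by
    have h4 : 1 ≤ Nat.log 2 (L + 2) := Nat.le_log_of_pow_le (by norm_num) (by omega)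
    calc C = C * 1 := (mul_one C).symm
      _ ≤ C * Nat.log 2 (L + 2) := Nat.mul_le_mul_left C h4
      _ ≤ l := h2
  obtain ⟨q, κ, hq8, hqκ, hX, hκl, hs, hk'⟩ := exists_qk hC.ge h1 h2 h3
  obtain ⟨β, _, N, R, hβ, hR0, hR1, hR2⟩ := FewK.exists_few hq8 hqκ
  have h16 := FewK.sk_eq (q := q) (κ := κ) (by omega)
  have hn0 : n ≠ 0 := by
    rintro rfl
    have : inputs U ≤ 0 := hUn
    omega
  have hck := FewK.ck_le (q := q) (κ := κ) (by omega) hqκ
  have hc1 : 1 ≤ FewK.ck q κ := Nat.mul_pos (Nat.succ_pos _) (Nat.pow_pos (by norm_num))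
  have hul : 2 ^ l ≤ inputs U := hl ▸ Nat.pow_log_le_self 2 hu0
  refine ev_mustSee N (FewK.bk_le hq8 hqκ (hL ▸ hX)) R hR0 hR1 hR2 ?_ (by omega) ?_ U ?_
  · rw [hβ]
    have h4 : FewK.ck q κ + 1 ≤ 2 ^ (106 * (κ + 4)) := by
      have h5 : 2 ^ (105 * κ + 420) + 1 ≤ 2 ^ (105 * κ + 421) := by
        rw [pow_succ 2 (105 * κ + 420)]
        have : 1 ≤ 2 ^ (105 * κ + 420) := Nat.one_le_two_pow
        omega
      calc FewK.ck q κ + 1 ≤ 2 ^ (105 * κ + 420) + 1 := Nat.add_le_add_right hck 1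
        _ ≤ 2 ^ (105 * κ + 421) := h5
        _ ≤ 2 ^ (106 * (κ + 4)) := Nat.pow_le_pow_right (by norm_num) (by omega)
    calc (FewK.ck q κ + 1) ^ k ≤ (2 ^ (106 * (κ + 4))) ^ k := Nat.pow_le_pow_left h4 k
      _ = 2 ^ (106 * (κ + 4) * k) := by rw [← pow_mul]
      _ ≤ 2 ^ (7 * FewK.sk q κ) := by
        refine Nat.pow_le_pow_right (by norm_num) ?_
        have h5 := hk' k hk
        rw [← h16] at h5
        omega
  · have h9 : n < 2 ^ (L + 1) := hL ▸ Nat.lt_pow_succ_log_self (by norm_num) n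
    have h10 : S ^ C ≤ (2 ^ FewK.sk q κ) ^ C := by
      calc S ^ C ≤ n ^ l := hS
        _ ≤ (2 ^ (L + 1)) ^ l := Nat.pow_le_pow_left h9.le l
        _ = 2 ^ ((L + 1) * l) := by rw [← pow_mul]
        _ ≤ 2 ^ (C * FewK.sk q κ) := Nat.pow_le_pow_right (by norm_num) (hs _ h16)
        _ = (2 ^ FewK.sk q κ) ^ C := by rw [← pow_mul, mul_comm]
    exact (Nat.pow_le_pow_iff_left (by omega)).1 h10
  · rw [hβ]
    calc FewK.ck q κ ≤ 2 ^ (105 * κ + 420) := hck
      _ ≤ 2 ^ l := Nat.pow_le_pow_right (by norm_num) hκl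
      _ ≤ inputs U := hul

theorem MustSee.mono {ι : Type} {K K' : ((ι ⊕ ι → Bool) → Bool) → Prop} {f : (ι → Bool) → Bool}
    {U : Finset ι} {k S : ℕ} (h : MustSee K f U k S) (hK : ∀ G, K' G → K G) :
    MustSee K' f U k S := by
  obtain ⟨ρ, H, h1, h2, h3⟩ := h
  exact ⟨ρ, H, h1, h2, fun t D hD => h3 t D fun y => hK _ (hD y)⟩

end Pool.Agent.NLP
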