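import Pool.Agent.NLP.Defs
import Pool.Agent.NTR.Nets

set_option autoImplicit false

/-!
# The disjunction of copies of a directed network
-/

namespace Pool.Agent.NLP

open Pool.Agent.NTR Pool.Agent.TeleNeg

theorem exists_orNet {ι β : Type} {r S : ℕ} (N : Net β S) (e : Fin r × β → ι) :
    ∃ M : Net ι (r * S + 2), ∀ x, M.dval x = true ↔
      ∃ i, N.dval (fun b => x (e (i, b))) = true := by
  obtain ⟨M, -, hM⟩ := NTR.exists_orNet fun i : Fin r => mapNet (fun b => Sum.inl (e (i, b))) N
  refine ⟨M, fun x => ?_⟩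
  rw [hM]
  refine exists_congr fun i => ?_
  rw [mapNet_dval]
  rfl

end Pool.Agent.NLP
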