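import Pool.Agent.NLP.Graph
import Pool.Agent.NLP.DualP
import Pool.Agent.NLP.LitRank
import Pool.Agent.NLP.Top
import Pool.Agent.NLP.Meas
import Pool.Agent.NLP.DNet
import Pool.Agent.NLP.OrNet
import Pool.Agent.NLP.Num
import Pool.Agent.XL.NotGates

set_option autoImplicit false

/-!
# A function with a small monotone nondeterministic branching program, against networks with few NOT
gates
-/

namespace Pool.Agent.NLP

open Finset Pool.Agent.XL Pool.Agent.NTR Pool.Agent.NTN Pool.Agent.TeleNeg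
open scoped BigOperators

theorem lClass_le {S S' : ℕ} (h : S ≤ S') {ι : Type} {F : (ι → Bool) → Bool}
    (hF : (lClass S).mem ι F) : (lClass S').mem ι F := by
  rcases hF with h1 | h1
  · exact Or.inl (netClass_le h h1)
  · exact Or.inr (compClass_le h h1)

theorem notGates_mono {K K' : Gen.MonoClass}
    (hK : ∀ (ι : Type) (F : (ι → Bool) → Bool), K.mem ι F → K'.mem ι F) {ι : Type} {t : ℕ}
    {A : (ι → Bool) → Bool} (h : NotGates K t A) : NotGates K' t A := by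
  obtain ⟨ls, P, h1, h2, h3, h4⟩ := h
  exact ⟨ls, P, h1, fun l hl G hG => hK _ _ (h2 l hl G hG), hK _ _ h3, h4⟩

/-- The block, abstractly. -/
theorem abs_block {α β ι : Type} [Fintype α] [Fintype ι] (A : β → α → ℚ) (pos : α → ι → Bool)
    (neg : β → ι → Bool) {Kn s c P : ℕ} (hlit : ∀ p, ms A pos neg (fun u => u p) ≤ (Kn : ℤ))
    (hcard : Fintype.card ι = c) (g : (ι → Bool) → Bool) (htop : (P : ℤ) ≤ ms A pos neg g)
    (hc : 1 ≤ c)
    (hnum : ∀ i j : ℕ, 2 * 2 ^ i ≤ 2 * (3 * c * 4 ^ s) + 1 → 2 ^ j ≤ 6 * c →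
      5 ^ (2 * i + j + 2) * (2 * 2 ^ s * (2 ^ s * 2 ^ s * (c + 1) * Kn)) < P) :
    ∃ Q : Set ((ι → Bool) → Bool),
      (∀ S p : ℕ, S ≤ 2 ^ s → p ≤ 2 * 2 ^ s → orSet (lClass S) ι p ⊆ Q) ∧
      ∀ (L : List ((ι → Bool) → Bool)) (θ : ℕ), L.length = 3 * c * 4 ^ s →
        (∀ H ∈ L, H ∈ Q) → ¬ ∀ u, g u = true ↔ θ ≤ L.countP fun H => H u := by
  refine ⟨{H | ms A pos neg H ≤ (2 * 2 ^ s * (2 ^ s * 2 ^ s * (c + 1) * Kn) : ℕ)},
    fun S p hS hp H hH => ?_, fun L θ hL hLQ hcon => ?_⟩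
  · have h1 := ms_orSet A pos neg (C := lClass S) (q := p)
      (T := (2 ^ s * 2 ^ s * (c + 1) * Kn : ℕ)) (Int.natCast_nonneg _) (fun G hG => by
        refine (ms_lClass A pos neg (K := (Kn : ℤ)) (Int.natCast_nonneg _) hlit hG).trans ?_
        rw [hcard]
        have h2 : S * S * (c + 1) * Kn ≤ 2 ^ s * 2 ^ s * (c + 1) * Kn :=
          Nat.mul_le_mul_right _ (Nat.mul_le_mul_right _ (Nat.mul_le_mul hS hS))
        exact_mod_cast h2) hH
    refine h1.trans ?_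
    have h2 : p * (2 ^ s * 2 ^ s * (c + 1) * Kn) ≤
        2 * 2 ^ s * (2 ^ s * 2 ^ s * (c + 1) * Kn) := Nat.mul_le_mul_right _ hp
    exact_mod_cast h2
  · have hk1 : 1 ≤ 3 * c * 4 ^ s := by
      have : 1 ≤ 4 ^ s := Nat.one_le_pow _ _ (by norm_num)
      nlinarith
    obtain ⟨i, j, i1, i2, i3, i4⟩ := exists_levels hk1 hc
    have h1 := ms_amplify A pos neg L θ hcon
      (N₀ := (2 * 2 ^ s * (2 ^ s * 2 ^ s * (c + 1) * Kn) : ℕ)) (Int.natCast_nonneg _) hLQ i j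
      (by rw [hL]; exact i1) (by rw [hcard]; exact i2)
    have h2 : P ≤ 5 ^ (2 * i + j + 2) * (2 * 2 ^ s * (2 ^ s * 2 ^ s * (c + 1) * Kn)) := by
      have h3 := htop.trans h1
      exact_mod_cast h3
    exact absurd (lt_of_le_of_lt h2 (hnum i j i3 i4)) (lt_irrefl _)

/-- The block. -/
theorem exists_blockM {q ℓ w : ℕ} (hq : 8 ≤ q) (hℓ : ℓ = 8 * 2 ^ q * 2 ^ (q - 4))
    (hw : w = 8000 * 2 ^ q) :
    ∃ (β : Type) (_ : Fintype β) (N : Net β (ℓ * (w + 1) * 2 ^ (2 * w * (6 * q + 24)) + 2))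
      (Q : Set ((β → Bool) → Bool)),
      Fintype.card β = cq q ∧ (∃ Y Z, N.dval Y = true ∧ N.dval Z = false) ∧
      (∀ S p : ℕ, S ≤ 2 ^ sq q → p ≤ 2 * 2 ^ sq q → orSet (lClass S) β p ⊆ Q) ∧
      ∀ (L : List ((β → Bool) → Bool)) (θ : ℕ), L.length = 3 * cq q * 4 ^ sq q →
        (∀ H ∈ L, H ∈ Q) → ¬ ∀ u, N.dval u = true ↔ θ ≤ L.countP fun H => H u := by
  classical
  obtain ⟨nb, hnb⟩ : ∃ nb : Fin w → Fin 16 → Fin w, Expands nb (4 * 2 ^ q) := by
    rw [hw]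
    exact exists_graph Nat.one_le_two_pow
  have hq1 : 1 ≤ 2 ^ q := Nat.one_le_two_pow
  have hℓ0 : 0 < ℓ := by rw [hℓ]; positivity
  have hw0 : 0 < w := by rw [hw]; positivity
  obtain ⟨v₀, hv⟩ : ∃ v₀ : Fin ℓ × Fin w, v₀.1.1 = ℓ - 1 :=
    ⟨(⟨ℓ - 1, by omega⟩, ⟨0, hw0⟩), rfl⟩
  have hV : Fintype.card (Fin ℓ × Fin w) = vq q := by
    rw [Fintype.card_prod, Fintype.card_fin, Fintype.card_fin, hℓ, hw]
    rfl
  have e1 : 2 ^ q = 2 * 2 ^ (q - 1) := by
    rw [← pow_succ']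
    congr 1
    omega
  have e2 : 2 ^ 7 ≤ 2 ^ (q - 1) := Nat.pow_le_pow_right (by norm_num) (by omega)
  have hD : q * 2 ^ (q - 1) + 17 ≤ q * 2 ^ q := by
    rw [e1]
    nlinarith
  obtain ⟨μ, hμ⟩ := exists_dual (D := q * 2 ^ (q - 1)) hnb (by omega) hq1 hℓ v₀ hv hD
  have hDV : q * 2 ^ (q - 1) ≤ Fintype.card (Fin ℓ × Fin w) := by
    rw [hV]
    unfold vq
    have h1 : q ≤ 2 ^ q := Nat.lt_two_pow_self.le
    have h2 : 2 ^ (q - 1) ≤ 2 ^ q := Nat.pow_le_pow_right (by norm_num) (by omega)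
    calc q * 2 ^ (q - 1) ≤ 2 ^ q * 2 ^ q := Nat.mul_le_mul h1 h2
      _ = 1 * 2 ^ q * 1 * (1 * 2 ^ q) := by ring
      _ ≤ 8 * 2 ^ q * 2 ^ (q - 4) * (8000 * 2 ^ q) := by
        refine Nat.mul_le_mul (Nat.mul_le_mul (Nat.mul_le_mul_right _ (by norm_num))
          Nat.one_le_two_pow) (Nat.mul_le_mul_right _ (by norm_num))
  obtain ⟨N, hN1, hN2⟩ := exists_dnet (h := 6 * q + 24) nb v₀ hv
  set Y := pebSy nb v₀ with hY
  have hcard : Fintype.card (Bv (Option (Fin ℓ × Fin w)) (6 * q + 24)) = cq q := by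
    rw [Fintype.card_prod, Fintype.card_option, hV, Fintype.card_fun, Fintype.card_fun,
      ZMod.card, Fintype.card_fin, Fintype.card_fin, cq, ← pow_mul, mul_comm (6 * q + 24) 17]
  set A : ((Fin ℓ × Fin w) → Fin (6 * q + 24) → ZMod 2) → Pos (Fin ℓ × Fin w) (6 * q + 24) → ℚ :=
    fun x W => mtx μ x W.1 with hA
  set pos : Pos (Fin ℓ × Fin w) (6 * q + 24) → Bv (Option (Fin ℓ × Fin w)) (6 * q + 24) → Bool :=
    fun W => posIn Y W.1 with hpos
  set neg : ((Fin ℓ × Fin w) → Fin (6 * q + 24) → ZMod 2) →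
    Bv (Option (Fin ℓ × Fin w)) (6 * q + 24) → Bool := fun x => negI Y x with hneg
  obtain ⟨Kn, hKn⟩ : ∃ Kn : ℕ, Kn = (vq q).choose (q * 2 ^ (q - 1)) *
        2 ^ ((6 * q + 24) * (vq q - q * 2 ^ (q - 1))) := ⟨_, rfl⟩
  have hlit : ∀ p, ms A pos neg (fun u => u p) ≤ (Kn : ℤ) := by
    intro p
    have h1 := rk_var (h := 6 * q + 24) hμ hDV p
    rw [hV, ← hKn] at h1
    exact h1
  have htop : (((2 ^ (6 * q + 24) - 1) ^ vq q : ℕ) : ℤ) ≤ ms A pos neg N.dval := by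
    have h1 := rk_top (h := 6 * q + 24) hμ N.dval hN1 hN2
    rw [hV] at h1
    exact h1
  have hc1 : 1 ≤ cq q := by
    unfold cq
    exact Nat.mul_pos (Nat.succ_pos _) (by positivity)
  obtain ⟨Q, q1, q2⟩ := abs_block A pos neg (s := sq q) hlit hcard N.dval htop hc1
    (fun i j i3 i4 => by
      have h3 := num_lower hq i3 i4
      rw [← hKn] at h3
      exact h3)
  exact ⟨Bv (Option (Fin ℓ × Fin w)) (6 * q + 24), inferInstance, N, Q, hcard,
    ⟨posIn Y 0, negI Y 0, hN1 0, hN2 0⟩, q1, q2⟩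

/-- A network which accepts nothing. -/
theorem exists_falseNet {ι : Type} {S : ℕ} (hS : 2 ≤ S) :
    ∃ M : Net ι S, ∀ x, M.dval x = false := by
  refine ⟨⟨∅, ⟨0, by omega⟩, ⟨1, by omega⟩⟩, fun x => ?_⟩
  unfold Net.dval
  rw [decide_eq_false_iff_not]
  intro h
  rcases Relation.ReflTransGen.cases_head h with h1 | ⟨c, ⟨l, hl, -⟩, -⟩
  · have := congrArg Fin.val h1
    simp at this
  · exact hl

theorem pow_log_le {n t : ℕ} (hL : 3072 ≤ Nat.log 2 n) (ht : t < Nat.log 2 n) :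
    t ^ 64 ≤ n ^ Nat.log 2 (Nat.log 2 n) := by
  obtain ⟨L, hLd⟩ : ∃ L, L = Nat.log 2 n := ⟨_, rfl⟩
  rw [← hLd] at hL ht ⊢
  have hn0 : n ≠ 0 := by
    rintro rfl
    simp at hLd
    omega
  have h1 : L < 2 ^ (Nat.log 2 L + 1) := Nat.lt_pow_succ_log_self (by norm_num) L
  have h2 : 2 ^ L ≤ n := by
    rw [hLd]
    exact Nat.pow_log_le_self 2 hn0
  have h3 : 1 ≤ Nat.log 2 L := Nat.log_pos (by norm_num) (by omega)
  calc t ^ 64 ≤ (2 ^ (Nat.log 2 L + 1)) ^ 64 := Nat.pow_le_pow_left (by omega) _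
    _ = 2 ^ (64 * (Nat.log 2 L + 1)) := by rw [← pow_mul, mul_comm]
    _ ≤ 2 ^ (L * Nat.log 2 L) := Nat.pow_le_pow_right (by norm_num) (by nlinarith)
    _ = (2 ^ L) ^ Nat.log 2 L := by rw [pow_mul]
    _ ≤ n ^ Nat.log 2 L := Nat.pow_le_pow_left h2 _

theorem const_facts {n a : ℕ} (hn : 2 ≤ n) (ha : 421 ≤ a) :
    ∃ B : ℕ, ((2 : ℝ) ^ a * (Nat.log 2 n : ℝ) ^ 105 = (B : ℝ)) ∧ (Nat.log 2 n < a → n ≤ B) ∧
      2 ≤ B ∧ 2 * (2 ^ 420 * Nat.log 2 n ^ 105) ≤ B := by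
  have hlog1 : 1 ≤ Nat.log 2 n := Nat.log_pos (by norm_num) hn
  have hnlog : n < 2 ^ (Nat.log 2 n + 1) := Nat.lt_pow_succ_log_self (by norm_num) n
  have h1 : 2 ^ a ≤ 2 ^ a * Nat.log 2 n ^ 105 := Nat.le_mul_of_pos_right _ (Nat.pow_pos hlog1)
  refine ⟨2 ^ a * Nat.log 2 n ^ 105, ?_, fun h => ?_, ?_, ?_⟩
  · rw [Nat.cast_mul, Nat.cast_pow, Nat.cast_pow, Nat.cast_ofNat]
  · refine hnlog.le.trans (le_trans ?_ h1)
    exact Nat.pow_le_pow_right (by norm_num) h
  · refine le_trans ?_ h1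
    calc 2 = 2 ^ 1 := rfl
      _ ≤ 2 ^ a := Nat.pow_le_pow_right (by norm_num) (by omega)
  · rw [← mul_assoc, ← pow_succ']
    exact Nat.mul_le_mul_right _ (Nat.pow_le_pow_right (by norm_num) ha)

theorem fin_arith {n B r b : ℕ} (hn : 0 < n) (hr : 1 ≤ r) (h : n ≤ B * r) :
    (((1 : ℕ) : ℝ) + 1) * b / (2 * r) ≤ b * B / n := by
  have hn' : (0 : ℝ) < n := by exact_mod_cast hn
  have hr' : (0 : ℝ) < r := by exact_mod_cast hr
  have h12 : (n : ℝ) ≤ B * r := by exact_mod_cast h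
  rw [Nat.cast_one, div_le_div_iff₀ (by positivity) hn']
  calc ((1 : ℝ) + 1) * b * n ≤ (1 + 1) * b * (B * r) :=
        mul_le_mul_of_nonneg_left h12 (by positivity)
    _ = b * B * (2 * r) := by ring

open Classical in
/-- **L versus NL.** -/
theorem main_nl {n : ℕ} (hn : 2 ≤ n) : ∃ f : (Fin n → Bool) → Bool,
    (∃ M : Net (Fin n) (n ^ 100000), ∀ x, M.dval x = f x) ∧
    ∃ μ : (Fin n → Bool) → ℝ, (∀ x, 0 ≤ μ x) ∧ ∑ x, μ x = 1 ∧
      ∀ S : ℕ, 1 ≤ S → S ^ 64 ≤ n ^ Nat.log 2 (Nat.log 2 n) →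
        (∀ (t : ℕ) (A : (Fin n → Bool) → Bool), NotGates (lClass S) t A →
          ∑ x with A x = f x, μ x
            ≤ 1 / 2 + 1 / S + 2 ^ t * (2 ^ 3072 * Nat.log 2 n ^ 105) / n) ∧
        ∀ (ts : List ℕ) (b : ℕ) (A : (Fin n → Bool) → Bool), ts.sum ≤ S →
          Tries (lClass S) univ ts 1 b A →
          ∑ x with A x = f x, μ x
            ≤ 1 / 2 + 1 / S + b * (2 ^ 3072 * Nat.log 2 n ^ 105) / n := by
  have hn' : (0 : ℝ) < n := by
    have : 0 < n := by omega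
    exact_mod_cast this
  have hlog1 : 1 ≤ Nat.log 2 n := Nat.log_pos (by norm_num) hn
  have hnlog : n < 2 ^ (Nat.log 2 n + 1) := Nat.lt_pow_succ_log_self (by norm_num) n
  obtain ⟨B, hBR, hB1, hB2, hB3⟩ := const_facts (a := 3072) hn (by norm_num)
  rw [hBR]
  -- the trivial bound
  have triv : ∀ (μ : (Fin n → Bool) → ℝ), (∀ x, 0 ≤ μ x) → ∑ x, μ x = 1 →
      ∀ (P : (Fin n → Bool) → Prop) (_ : DecidablePred P) (S : ℕ) (a : ℝ), (n : ℝ) ≤ a * B →
        ∑ x with P x, μ x ≤ 1 / 2 + 1 / S + a * B / n := by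
    intro μ h0 h1 P _ S a ha
    have h2 : ∑ x with P x, μ x ≤ 1 := by
      rw [← h1]
      exact Finset.sum_le_sum_of_subset_of_nonneg (Finset.filter_subset _ _) fun x _ _ => h0 x
    have h3 : (1 : ℝ) ≤ a * B / n := by
      rw [one_le_div hn']
      exact ha
    have h4 : (0 : ℝ) ≤ 1 / S := by positivity
    linarith
  rcases Nat.lt_or_ge (Nat.log 2 n) 3072 with hlt | hge
  · have hnB : (n : ℝ) ≤ B := by
      have h1 : n ≤ B := hB1 hlt
      exact_mod_cast h1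
    obtain ⟨M, hM⟩ := exists_falseNet (ι := Fin n) (S := n ^ 100000)
      (hn.trans (Nat.le_self_pow (by norm_num) n))
    set μ : (Fin n → Bool) → ℝ := fun x => if x = (fun _ => false) then 1 else 0 with hμ
    have m1 : ∀ x, 0 ≤ μ x := by
      intro x
      rw [hμ]
      dsimp only
      split_ifs <;> norm_num
    have m2 : ∑ x, μ x = 1 := by
      rw [hμ, Finset.sum_ite_eq' Finset.univ]
      simp
    refine ⟨fun _ => false, ⟨M, hM⟩, μ, m1, m2, fun S _ _ => ⟨fun t A _ => ?_,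
      fun ts b A _ hA => ?_⟩⟩
    · refine triv μ m1 m2 _ _ S _ ?_
      have h1 : (1 : ℝ) ≤ 2 ^ t := one_le_pow₀ (by norm_num)
      have h2 : (0 : ℝ) ≤ B := by positivity
      nlinarith
    · obtain ⟨Q, P, h, -, -, -, hch, -⟩ := hA
      have hb : 0 < b := changesOn_pos' hch
      refine triv μ m1 m2 _ _ S _ ?_
      have h1 : (1 : ℝ) ≤ b := by exact_mod_cast hb
      have h2 : (0 : ℝ) ≤ B := by positivity
      nlinarith
  · obtain ⟨q, hq, hq1, hq2⟩ := exists_q hge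
    obtain ⟨β, hβ, N, Q, b1, b2, b3, b4⟩ := exists_blockM hq rfl rfl
    have hcq : cq q ≤ 2 ^ 420 * Nat.log 2 n ^ 105 := by
      have h1 : 2 ^ q ≤ Nat.log 2 n := (Nat.le_mul_of_pos_left _ (by omega)).trans hq1
      calc cq q ≤ 2 ^ (105 * q + 420) := cq_le q hq
        _ = 2 ^ 420 * (2 ^ q) ^ 105 := by
          rw [← pow_mul, ← pow_add]
          congr 1
          ring
        _ ≤ 2 ^ 420 * Nat.log 2 n ^ 105 := Nat.mul_le_mul_left _ (Nat.pow_le_pow_left h1 _)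
    have hcqn : cq q ≤ n := by
      have h1 : 2 ^ 8 ≤ 2 ^ q := Nat.pow_le_pow_right (by norm_num) hq
      have h2 : 105 * q + 420 ≤ Nat.log 2 n := by
        refine le_trans ?_ hq1
        calc 105 * q + 420 = (q + 4) * 105 := by ring
          _ ≤ (q + 4) * 2 ^ q := Nat.mul_le_mul_left _ (by omega)
      exact (cq_le q hq).trans ((Nat.pow_le_pow_right (by norm_num) h2).trans
        (Nat.pow_log_le_self 2 (by omega)))
    have hc0 : 0 < cq q := by
      unfold cq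
      exact Nat.mul_pos (by omega) (by positivity)
    obtain ⟨r, hr⟩ : ∃ r, r = n / cq q := ⟨_, rfl⟩
    have hr1 : 1 ≤ r := by
      rw [hr]
      exact (Nat.one_le_div_iff hc0).2 hcqn
    have hrn : r ≤ n := by
      rw [hr]
      exact Nat.div_le_self _ _
    have hrc : r * cq q ≤ n := by
      rw [hr]
      exact Nat.div_mul_le_self _ _
    have hnr : n ≤ 2 * cq q * r := by
      have h1 : n < cq q * (n / cq q + 1) := Nat.lt_mul_div_succ n hc0
      rw [← hr, mul_add, mul_one] at h1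
      have h2 : cq q ≤ cq q * r := Nat.le_mul_of_pos_right _ hr1
      rw [mul_assoc]
      omega
    -- the places of the blocks
    set eβ : β ≃ Fin (cq q) := Fintype.equivFinOfCardEq b1 with heβ
    set e : Fin r × β → Fin n := fun p => Fin.castLE hrc (finProdFinEquiv (p.1, eβ p.2)) with he
    have hinj : Function.Injective e := by
      rintro ⟨i, b⟩ ⟨i', b'⟩ h
      have h1 := finProdFinEquiv.injective (Fin.castLE_injective hrc h)
      have h2 := Prod.ext_iff.1 h1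
      exact Prod.ext h2.1 (eβ.injective h2.2)
    obtain ⟨M₀, hM₀⟩ := exists_orNet N e
    have hsize := num_size hn hq hq1 hrn
    set M := padNet hsize M₀ with hM
    have hMv : ∀ x, M.dval x = true ↔ ∃ i, N.dval (fun b => x (e (i, b))) = true := by
      intro x
      rw [hM, padNet_dval]
      exact hM₀ x
    set φ : Fin n → (Fin r × β) ⊕ Bool := fun v => if h : ∃ p, e p = v then .inl h.choose
      else .inr false with hφ
    have hφe : ∀ p, φ (e p) = .inl p := by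
      intro p
      have h : ∃ p', e p' = e p := ⟨p, rfl⟩
      rw [hφ]
      dsimp only
      rw [dif_pos h, hinj h.choose_spec]
    have h5 : (0 : ℝ) < (1 / 2) ^ sq q := by positivity
    have hs1 : 1 ≤ sq q := by
      unfold sq
      exact Nat.mul_pos (Nat.mul_pos (by omega) (by omega)) (by positivity)
    have h6 : ((1 / 2 : ℝ)) ^ sq q < 1 := pow_lt_one₀ (by norm_num) (by norm_num) (by omega)
    obtain ⟨μ, m1, m2, m3, m4⟩ := average_queries_or (U := univ) hr1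
      N.dval ((Gen.dnetClass _).mono β N.dval ⟨N, fun _ => rfl⟩)
      (fun x : Fin n → Bool => M.dval x = true) φ
      (fun v hv => absurd (Finset.mem_univ v) hv)
      (fun y => by
        rw [hMv]
        refine exists_congr fun i => ?_
        simp only [hφe, Sum.elim_inl]) h5 h6 (3 * cq q * 4 ^ sq q) (by
        rw [b1]
        have h7 : ((1 / 2 : ℝ) ^ sq q) ^ 2 = 1 / 4 ^ sq q := by
          rw [← pow_mul, mul_comm, pow_mul, show (1 / 2 : ℝ) ^ 2 = 1 / 4 by norm_num, one_div_pow]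
        rw [h7]
        push_cast
        have h8 : (3 * (cq q : ℝ) * 4 ^ sq q) * (1 / 4 ^ sq q) = 3 * (cq q : ℝ) := by
          field_simp
        rw [h8]) Q b2 b4
    have key : ∀ S : ℕ, 1 ≤ S → S ≤ 2 ^ sq q → ∀ (ts : List ℕ) (b : ℕ)
        (A : (Fin n → Bool) → Bool), ts.sum ≤ S → Tries (lClass S) univ ts 1 b A →
        ∑ x with A x = M.dval x, μ x ≤ 1 / 2 + 1 / S + b * B / n := by
      intro S hS1 hS ts b A hts hA
      have h11 := m4 (lClass S) ts 1 b A (b3 S _ hS (by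
        have : 1 ≤ 2 ^ sq q := Nat.one_le_two_pow
        omega)) hA
      refine (le_of_eq (sum_filter_iff' μ _ _ _ _ fun x => ?_)).trans (h11.trans ?_)
      · exact Bool.eq_iff_iff
      have hS' : (0 : ℝ) < S := by exact_mod_cast hS1
      have e1 : ((1 / 2 : ℝ) ^ sq q) / 2 ≤ 1 / S := by
        have h2 : ((1 / 2 : ℝ)) ^ sq q ≤ 1 / S := by
          rw [one_div_pow]
          apply one_div_le_one_div_of_le hS'
          exact_mod_cast hS
        linarith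
      have h4 : n ≤ B * r :=
        hnr.trans (Nat.mul_le_mul_right _ ((Nat.mul_le_mul_left _ hcq).trans hB3))
      have h13 := fin_arith (b := b) (by omega : 0 < n) hr1 h4
      linarith
    have key2 : ∀ S : ℕ, 1 ≤ S → S ≤ 2 ^ sq q → ∀ (t : ℕ) (A : (Fin n → Bool) → Bool), t ≤ S →
        NotGates (lClass S) t A → ∑ x with A x = M.dval x, μ x ≤ 1 / 2 + 1 / S + 2 ^ t * B / n := by
      intro S hS1 hS t A ht hA
      obtain ⟨ts, b, h1, h2, h3⟩ := hA.tries univ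
      refine (key S hS1 hS ts b A (by rw [h1]; exact ht) h3).trans ?_
      have h4 : (b : ℝ) ≤ 2 ^ t := by exact_mod_cast h2
      have h7 : (b : ℝ) * B / n ≤ 2 ^ t * B / n :=
        div_le_div_of_nonneg_right (mul_le_mul_of_nonneg_right h4 (by positivity)) hn'.le
      linarith
    refine ⟨M.dval, ⟨M, fun _ => rfl⟩, μ, m1, m2, fun S hS1 hS => ⟨fun t A hA => ?_,
      fun ts b A hts hA => key S hS1 (hq2 S hS) ts b A hts hA⟩⟩
    rcases Nat.lt_or_ge S t with hSt | hSt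
    · rcases Nat.lt_or_ge t (Nat.log 2 n) with htl | htl
      · have h1 := key2 t (by omega) (hq2 t (pow_log_le hge htl)) t A le_rfl
          (notGates_mono (fun ι F hF => lClass_le hSt.le hF) hA)
        refine h1.trans ?_
        have h2 : (1 : ℝ) / t ≤ 1 / S := by
          apply one_div_le_one_div_of_le
          · exact_mod_cast hS1
          · exact_mod_cast hSt.le
        linarith
      · refine triv μ m1 m2 _ _ S _ ?_
        have h1 : n ≤ 2 ^ t * B := by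
          calc n ≤ 2 ^ (Nat.log 2 n + 1) := hnlog.le
            _ ≤ 2 ^ (t + 1) := Nat.pow_le_pow_right (by norm_num) (by omega)
            _ = 2 ^ t * 2 ^ 1 := pow_succ 2 t
            _ ≤ 2 ^ t * B := Nat.mul_le_mul_left _ hB2
        exact_mod_cast h1
    · exact key2 S hS1 (hq2 S hS) t A hSt hA

end Pool.Agent.NLP
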