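import Pool.Agent.NLP.EvSub
import Pool.Agent.NLP.Main
import Pool.Agent.GB24.HiddenDirect
import Pool.Agent.XL.MainAbs

set_option autoImplicit false

/-!
# Devices which must see zeros of a set of variables; the evaluation problem from a block
-/

namespace Pool.Agent.NLP

open Finset Pool.Agent.TeleNeg Pool.Agent.NTR.Gen Pool.Agent.NWE Pool.Agent.GB24.Loc

/-- The devices of the class `K` for `f` must see more than `k` zeros (and guesses) in `U`: there are
`ρ` and a nonempty set `H` of inputs `z` with `f z = 1` which agree with `ρ` outside `U`, such that for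
all devices `D y` (`y` a string of `t` bits) on the literals which accept, of the inputs which agree
with `ρ` outside `U`, only inputs with `f z = 1`, at most the `S`-th part of `H` is accepted with all
negated variables in `U` switched off except those of a set `Z` of zeros with `t + |Z| ≤ k`. -/
def MustSee {ι : Type} (K : ((ι ⊕ ι → Bool) → Bool) → Prop) (f : (ι → Bool) → Bool)
    (U : Finset ι) (k S : ℕ) : Prop :=
  ∃ (ρ : ι → Bool) (H : Finset (ι → Bool)), H.Nonempty ∧
    (∀ z ∈ H, f z = true ∧ ∀ e, e ∉ U → z e = ρ e) ∧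
    ∀ (t : ℕ) (D : (Fin t → Bool) → (ι ⊕ ι → Bool) → Bool), (∀ y, K (D y)) →
      (∀ y z, (∀ e, e ∉ U → z e = ρ e) → D y (lits z) = true → f z = true) →
      ∀ A ⊆ H, (∀ z ∈ A, ∃ (y : Fin t → Bool) (Z : Finset ι), Z ⊆ U ∧
        (∀ e ∈ Z, z e = false) ∧ t + Z.card ≤ k ∧ D y (litsOn U Z z) = true) →
      S * A.card ≤ H.card

/-- The evaluation problem: from a block to devices which see few zeros of a set `U`. -/
theorem ev_mustSee {β : Type} [Fintype β] {B s m n k S : ℕ} (N : Net β B) (hB : B + 2 ≤ m)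
    (R : Finset (β → Bool)) (hR0 : R.Nonempty) (hR1 : ∀ u ∈ R, N.dval u = true)
    (hR2 : ∀ G : (β → Bool) → Bool, (lClass (2 ^ s)).mem β G →
      (∀ u, G u = true → N.dval u = true) →
      2 ^ (8 * s) * (R.filter fun u => G u = true).card ≤ R.card)
    (hk : (Fintype.card β + 1) ^ k ≤ 2 ^ (7 * s)) (hβ : 1 ≤ Fintype.card β) (hS : S ≤ 2 ^ s)
    (U : Finset (EvVar m n)) (hU : Fintype.card β ≤
      (univ.filter fun i : Fin n => (Sum.inr i : EvVar m n) ∈ U).card) :
    MustSee ((lClass S).mem _) ev U k S := by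
  classical
  have hemb : Nonempty (β ↪ {i : Fin n // (Sum.inr i : EvVar m n) ∈ U}) := by
    refine Function.Embedding.nonempty_of_card_le ?_
    rw [Fintype.card_subtype]
    exact hU
  obtain ⟨e⟩ := hemb
  obtain ⟨φ, hφ1, hφ2, hφ3⟩ := ev_sub N (m := m) hB (fun b => (e b).1)
    (fun b b' h => e.injective (Subtype.ext h))
  have hmono : ∀ u v : β → Bool, u ≤ v → N.dval u = true → N.dval v = true := by
    intro u v huv hu
    have h1 := (dnetClass B).mono β N.dval ⟨N, fun _ => rfl⟩ huv
    rw [hu] at h1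
    exact top_le_iff.1 h1
  have hHard := hardSet_direct (lClass (2 ^ s)) (ι := EvVar m n) (κ := β)
    (Q := 2 ^ (8 * s)) (n := Fintype.card β + 1) (fun u => N.dval u = true) hmono R hR0 hR1
    (fun G hG hle => hR2 G hG hle) (fun y => ev y = true) U φ
    (fun b => ⟨_, hφ1 b⟩) (fun v hv => hφ2 v fun b hb => hv (hb ▸ (e b).2))
    (fun x => by rw [hφ3]) le_rfl
    (fun D => ∃ F, (lClass (2 ^ s)).mem _ F ∧ ∀ p, D p = F (known p)) (fun D h => h)
  obtain ⟨ρ, M, h1, h2, h3⟩ := hHard
  refine ⟨ρ, M, h1, h2, fun t D hD hs A hA hacc => ?_⟩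
  rcases A.eq_empty_or_nonempty with rfl | ⟨y₀, hy₀⟩
  · simp
  obtain ⟨_, _, _, _, ht, _⟩ := hacc y₀ hy₀
  have htk : t ≤ k := by omega
  have h4 := h3 (Fin t → Bool) (k - t) (fun g p => D g (known p))
    (fun g => ⟨D g, lClass_le hS (hD g), fun _ => rfl⟩) (fun g y hy hacc' => by
      refine hs g y hy ?_
      rw [known_some] at hacc'
      exact hacc')
  have h5 : A.card ≤ {x | x ∈ M ∧ AccSees U (k - t) (fun g p => D g (known p)) x}.ncard := by
    rw [← Set.ncard_coe_finset]
    refine Set.ncard_le_ncard ?_ (M.finite_toSet.subset fun x hx => hx.1)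
    intro y hy
    obtain ⟨g, Z, hZU, hZ0, hZc, hg⟩ := hacc y hy
    refine ⟨hA hy, g, Z, hZU, by omega, hZ0, ?_⟩
    change D g (known (NWE.hide U Z y)) = true
    rw [known_hide U Z y hZ0, XL.MainAbs.litsOn_eq]
    exact hg
  have h7 : Fintype.card (Fin t → Bool) = 2 ^ t := by simp
  have h8 : 2 ^ (8 * s) * A.card ≤ 2 ^ (7 * s) * M.card := by
    calc 2 ^ (8 * s) * A.card
        ≤ 2 ^ (8 * s) *
          {x | x ∈ M ∧ AccSees U (k - t) (fun g p => D g (known p)) x}.ncard :=
          Nat.mul_le_mul_left _ h5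
      _ ≤ 2 ^ t * (Fintype.card β + 1) ^ (k - t) * M.card := by rw [← h7]; exact h4
      _ ≤ (Fintype.card β + 1) ^ t * (Fintype.card β + 1) ^ (k - t) * M.card :=
          Nat.mul_le_mul_right _ (Nat.mul_le_mul_right _ (Nat.pow_le_pow_left (by omega) t))
      _ = (Fintype.card β + 1) ^ k * M.card := by rw [← pow_add]; congr 2; omega
      _ ≤ 2 ^ (7 * s) * M.card := Nat.mul_le_mul_right _ hk
  have h9 : 2 ^ (7 * s) * (2 ^ s * A.card) ≤ 2 ^ (7 * s) * M.card := by
    calc 2 ^ (7 * s) * (2 ^ s * A.card) = 2 ^ (8 * s) * A.card := by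
          rw [← mul_assoc, ← pow_add]
          congr 2
          omega
      _ ≤ _ := h8
  have h10 := Nat.le_of_mul_le_mul_left h9 (by positivity)
  exact (Nat.mul_le_mul_right _ hS).trans h10

end Pool.Agent.NLP
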