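import Pool.Agent.NLP.EvDefs

set_option autoImplicit false

/-!
# A directed network as a set of contacts of the evaluation problem
-/

namespace Pool.Agent.NLP

open Pool.Agent.TeleNeg

/-- A network with `S` nodes, `S + 2 ≤ m`, as a set of contacts between `m` nodes. -/
theorem exists_place {κ : Type} {S m : ℕ} (M : Net κ S) (hm : S + 2 ≤ m) (s t : Fin m)
    (hs : s.1 = 0) (ht : t.1 + 1 = m) :
    ∃ A : Set (Fin m × Fin m × Option κ), ∀ x : κ → Bool,
      (⟨A, s, t⟩ : Net κ m).DAccepts x ↔ M.dval x = true := by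
  classical
  obtain ⟨g, hg⟩ : ∃ g : Fin S → Fin m, ∀ i, (g i).1 = i.1 + 1 :=
    ⟨fun i => ⟨i.1 + 1, by omega⟩, fun _ => rfl⟩
  have hinj : ∀ i j, g i = g j → i = j := by
    intro i j h
    have := congrArg Fin.val h
    rw [hg, hg] at this
    exact Fin.ext (by omega)
  have hgs : ∀ i, g i ≠ s := by
    intro i h
    have := congrArg Fin.val h
    rw [hg, hs] at this
    omega
  have hgt : ∀ i, g i ≠ t := by
    intro i h
    have := congrArg Fin.val h
    rw [hg] at this
    omega
  have hst : s ≠ t := by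
    intro h
    rw [h] at hs
    omega
  refine ⟨{c | (∃ a b l, (a, b, l) ∈ M.contacts ∧ c = (g a, g b, l)) ∨
    c = (s, g M.src, none) ∨ c = (g M.tgt, t, none)}, fun x => ?_⟩
  have hdec : M.dval x = true ↔ Relation.ReflTransGen (M.Step x) M.src M.tgt := by
    simp only [Net.dval, decide_eq_true_eq]
    rfl
  rw [hdec]
  set N : Net κ m := ⟨{c | (∃ a b l, (a, b, l) ∈ M.contacts ∧ c = (g a, g b, l)) ∨
    c = (s, g M.src, none) ∨ c = (g M.tgt, t, none)}, s, t⟩ with hN
  have h1 : ∀ a b, M.Step x a b → N.Step x (g a) (g b) := by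
    rintro a b ⟨l, h1, h2⟩
    exact ⟨l, Or.inl ⟨a, b, l, h1, rfl⟩, h2⟩
  have h2 : N.Step x s (g M.src) := ⟨none, Or.inr (Or.inl rfl), fun e he => by simp at he⟩
  have h3 : N.Step x (g M.tgt) t := ⟨none, Or.inr (Or.inr rfl), fun e he => by simp at he⟩
  constructor
  · intro h
    have key : ∀ v, Relation.ReflTransGen (N.Step x) s v →
        v = s ∨ (∃ a, v = g a ∧ Relation.ReflTransGen (M.Step x) M.src a) ∨
          (v = t ∧ Relation.ReflTransGen (M.Step x) M.src M.tgt) := by
      intro v hv
      induction hv with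
      | refl => exact Or.inl rfl
      | tail _ hbc ih =>
        rename_i b c _
        obtain ⟨l, hl, hx⟩ := hbc
        rcases hl with ⟨a', b', l', h4, h5⟩ | h5 | h5
        · simp only [Prod.mk.injEq] at h5
          obtain ⟨rfl, rfl, rfl⟩ := h5
          rcases ih with h6 | ⟨a, h6, h7⟩ | ⟨h6, -⟩
          · exact absurd h6 (hgs _)
          · have := hinj _ _ h6
            subst this
            exact Or.inr (Or.inl ⟨b', rfl, h7.tail ⟨l, h4, hx⟩⟩)
          · exact absurd h6 (hgt _)
        · simp only [Prod.mk.injEq] at h5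
          obtain ⟨rfl, rfl, rfl⟩ := h5
          exact Or.inr (Or.inl ⟨M.src, rfl, Relation.ReflTransGen.refl⟩)
        · simp only [Prod.mk.injEq] at h5
          obtain ⟨rfl, rfl, rfl⟩ := h5
          rcases ih with h6 | ⟨a, h6, h7⟩ | ⟨h6, -⟩
          · exact absurd h6 (hgs _)
          · have := hinj _ _ h6
            subst this
            exact Or.inr (Or.inr ⟨rfl, h7⟩)
          · exact absurd h6 (hgt _)
    rcases key t h with h4 | ⟨a, h4, -⟩ | ⟨-, h4⟩
    · exact absurd h4.symm hst
    · exact absurd h4.symm (hgt a)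
    · exact h4
  · intro h
    have h4 : Relation.ReflTransGen (N.Step x) (g M.src) (g M.tgt) := by
      exact h.lift g h1
    exact (Relation.ReflTransGen.single h2).trans (h4.tail h3)

end Pool.Agent.NLP
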