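import Pool.Agent.NLP.BlockT
import Pool.Agent.NLP.OrNet
import Pool.Agent.NLP.Place
import Pool.Agent.XL.NotGatesR

set_option autoImplicit false

/-!
# Evaluation of nondeterministic branching programs: few changes of the answers to monotone queries
-/

namespace Pool.Agent.NLP

open Finset Pool.Agent.XL Pool.Agent.NTR Pool.Agent.NTN Pool.Agent.TeleNeg
open scoped BigOperators

open Classical in
/-- The transfer, with the parameter `q`. -/
theorem ev_block {q n m : ℕ} (hq : 8 ≤ q) (U : Finset (Fin n)) (hU : cq q ≤ U.card)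
    (hm : n * (bq q + 2) + 2 ≤ m) :
    ∃ (ρ : EvVar m n → Bool) (μ : (EvVar m n → Bool) → ℝ), (∀ y, 0 ≤ μ y) ∧ ∑ y, μ y = 1 ∧
      (∀ y, μ y ≠ 0 → ∀ v, v ∉ U.map ⟨Sum.inr, Sum.inr_injective⟩ → y v = ρ v) ∧
      ∀ (S : ℕ) (ts : List ℕ) (b : ℕ) (A : (EvVar m n → Bool) → Bool), S ≤ 2 ^ sq q →
        ts.sum + 1 ≤ 2 * 2 ^ sq q → Tries (lClass S) (U.map ⟨Sum.inr, Sum.inr_injective⟩) ts 1 b A →
        ∑ y with A y = ev y, μ y
          ≤ 1 / 2 + (1 / 2) ^ sq q / 2 + b / ((U.card / cq q : ℕ) : ℝ) := by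
  have hc0 : 0 < cq q := Nat.mul_pos (Nat.succ_pos _) (Nat.pow_pos (by norm_num))
  obtain ⟨β, hβ, N, hcard, hne, hM⟩ := exists_block hq
  obtain ⟨r, hr⟩ : ∃ r, r = U.card / cq q := ⟨_, rfl⟩
  have hr1 : 1 ≤ r := by
    rw [hr]
    exact (Nat.one_le_div_iff hc0).2 hU
  have hrU : r * cq q ≤ U.card := by
    rw [hr]
    exact Nat.div_mul_le_self _ _
  have hUn : U.card ≤ n := by
    have := card_le_univ U
    rwa [Fintype.card_fin] at this
  have hrn : r ≤ n := (Nat.le_mul_of_pos_right r hc0).trans (hrU.trans hUn)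
  rw [← hr]
  -- the places of the block variables
  obtain ⟨e⟩ : Nonempty (Fin r × β ↪ {v // v ∈ U}) := by
    refine Function.Embedding.nonempty_of_card_le ?_
    rw [Fintype.card_prod, Fintype.card_fin, hcard, Fintype.card_coe]
    exact hrU
  obtain ⟨M, hMe⟩ := exists_orNet N fun p => (e p).1
  have hpos : 2 ≤ m := by omega
  obtain ⟨s, hs⟩ : ∃ s : Fin m, s.1 = 0 := ⟨⟨0, by omega⟩, rfl⟩
  obtain ⟨t, ht⟩ : ∃ t : Fin m, t.1 + 1 = m := ⟨⟨m - 1, by omega⟩, by simp; omega⟩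
  obtain ⟨C, hC⟩ := exists_place M (m := m) (by
    have h1 : r * bq q ≤ n * bq q := Nat.mul_le_mul_right _ hrn
    have h2 : n * (bq q + 2) = n * bq q + 2 * n := by ring
    omega) s t hs ht
  obtain ⟨φ, hφ⟩ : ∃ φ : EvVar m n → (Fin r × β) ⊕ Bool, φ = Sum.elim
      (fun c => Sum.inr (decide (c ∈ C)))
      (fun v => if h : ∃ p, (e p).1 = v then Sum.inl (Classical.choose h) else Sum.inr false) :=
    ⟨_, rfl⟩
  have hφe : ∀ p, φ (Sum.inr (e p).1) = Sum.inl p := by
    intro p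
    rw [hφ]
    have h : ∃ p', (e p').1 = (e p).1 := ⟨p, rfl⟩
    show (if h : ∃ p', (e p').1 = (e p).1 then (Sum.inl (Classical.choose h) : (Fin r × β) ⊕ Bool)
      else Sum.inr false) = Sum.inl p
    rw [dif_pos h]
    congr 1
    exact e.injective (Subtype.ext (Classical.choose_spec h))
  have hφU : ∀ v, v ∉ U.map ⟨Sum.inr, Sum.inr_injective⟩ → ∃ c, φ v = Sum.inr c := by
    intro v hv
    rcases v with c | v
    · exact ⟨decide (c ∈ C), by rw [hφ]; rfl⟩
    · refine ⟨false, ?_⟩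
      rw [hφ]
      show (if h : ∃ p, (e p).1 = v then (Sum.inl (Classical.choose h) : (Fin r × β) ⊕ Bool)
        else Sum.inr false) = Sum.inr false
      rw [dif_neg]
      rintro ⟨p, hp⟩
      apply hv
      rw [mem_map]
      exact ⟨v, by rw [← hp]; exact (e p).2, rfl⟩
  have hf : ∀ y : Fin r × β → Bool, (ev fun v => Sum.elim y id (φ v)) = true ↔
      ∃ i, N.dval (fun b => y (i, b)) = true := by
    intro y
    have h1 : {c : Fin m × Fin m × Option (Fin n) | Sum.elim y id (φ (Sum.inl c)) = true} = C := by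
      ext c
      rw [hφ]
      show decide (c ∈ C) = true ↔ c ∈ C
      exact decide_eq_true_iff
    have h2 : (∃ i, N.dval (fun b => y (i, b)) = true) ↔
        ∃ i, N.dval (fun b => Sum.elim y id (φ (Sum.inr (e (i, b)).1))) = true := by
      simp only [hφe]
      rfl
    rw [h2]
    refine Iff.trans ?_ ((hC fun v => Sum.elim y id (φ (Sum.inr v))).trans (hMe _))
    unfold ev
    rw [decide_eq_true_eq]
    constructor
    · rintro ⟨s', t', hs', ht', h3⟩
      have e1 : s' = s := Fin.ext (by rw [hs', hs])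
      have e2 : t' = t := Fin.ext (by omega)
      rw [e1, e2, h1] at h3
      exact h3
    · intro h3
      refine ⟨s, t, hs, ht, ?_⟩
      rw [h1]
      exact h3
  have hδ0 : (0 : ℝ) < (1 / 2) ^ sq q := by positivity
  have hsq : sq q ≠ 0 := by
    unfold sq
    exact (Nat.mul_pos (Nat.mul_pos (by omega) (by omega)) (Nat.pow_pos (by norm_num))).ne'
  have hδ1 : ((1 / 2 : ℝ)) ^ sq q < 1 := pow_lt_one₀ (by norm_num) (by norm_num) hsq
  obtain ⟨μ, m1, m2, m3, m4⟩ := average_queries_or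
    (U := U.map ⟨Sum.inr, Sum.inr_injective⟩) hr1 N.dval
    ((Gen.dnetClass (bq q)).mono β N.dval ⟨N, fun _ => rfl⟩) (fun y : EvVar m n → Bool => ev y = true)
    φ hφU hf hδ0 hδ1 (3 * cq q * 4 ^ sq q) (by
      rw [hcard]
      have h7 : ((1 / 2 : ℝ) ^ sq q) ^ 2 = 1 / 4 ^ sq q := by
        rw [← pow_mul, mul_comm, pow_mul, show (1 / 2 : ℝ) ^ 2 = 1 / 4 by norm_num, one_div_pow]
      rw [h7]
      push_cast
      have h8 : (3 * (cq q : ℝ) * 4 ^ sq q) * (1 / 4 ^ sq q) = 3 * (cq q : ℝ) := by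
        field_simp
      rw [h8]) (smallOr q β) hne hM
  choose! ρ₀ hρ₀ using hφU
  refine ⟨ρ₀, μ, m1, m2, fun y hy v hv => m3 y hy v _ (hρ₀ v hv), fun S ts b A hS hts hA => ?_⟩
  have h9 := m4 (lClass S) ts 1 b A (fun H hH => ⟨S, hS, orSet_le hts hH⟩) hA
  refine (le_of_eq (sum_filter_iff' μ _ _ _ _ fun y => ?_)).trans (h9.trans (le_of_eq ?_))
  · rw [Bool.eq_iff_iff]
  · rw [Nat.cast_one]
    congr 1
    have h10 : ((1 : ℝ) + 1) * b / (2 * (r : ℝ)) = b / r := by
      rw [show (1 : ℝ) + 1 = 2 by norm_num, mul_div_mul_left _ _ (by norm_num)]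
    exact h10

end Pool.Agent.NLP
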