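import Pool.Agent.NLP.FewAcc
import Pool.Agent.NTN.AndNet
import Pool.Agent.NWE.Prod
import Pool.Agent.GB24.HiddenBin

set_option autoImplicit false

/-!
# The evaluation problem: many zeros of every large set of input variables must be seen
-/

namespace Pool.Agent.NLP

open Finset Pool.Agent.TeleNeg Pool.Agent.NTR.Gen Pool.Agent.NWE Pool.Agent.GB24.Loc Pool.Agent.XL
open scoped BigOperators

/-- **The conjunction of `k` copies of a block.** -/
theorem exists_conj {β : Type} [Fintype β] {B s k : ℕ} (N : Net β B) (R : Finset (β → Bool))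
    (hR0 : R.Nonempty) (hR1 : ∀ u ∈ R, N.dval u = true)
    (hR2 : ∀ G : (β → Bool) → Bool, (lClass (2 ^ s)).mem β G →
      (∀ u, G u = true → N.dval u = true) →
      2 ^ (8 * s) * (R.filter fun u => G u = true).card ≤ R.card) :
    ∃ (N' : Net (Fin k × β) (k * B + 2)) (R' : Finset (Fin k × β → Bool)), R'.Nonempty ∧
      (∀ x ∈ R', N'.dval x = true) ∧
      ∀ G : (Fin k × β → Bool) → Bool, (lClass (2 ^ s)).mem _ G →
        (∀ x, G x = true → N'.dval x = true) →
        (2 ^ (8 * s)) ^ k * (R'.filter fun x => G x = true).card ≤ R'.card := by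
  classical
  have hcopy : ∀ i : Fin k, ∃ M : Net (Fin k × β) B, ∀ x, M.dval x = N.dval fun b => x (i, b) := by
    intro i
    exact (dnetClass B).subst β (Fin k × β) N.dval (fun b => Sum.inl (i, b)) ⟨N, fun _ => rfl⟩
  choose M hM using hcopy
  obtain ⟨N', -, hN'⟩ := NTN.exists_andNet M
  have hN'' : ∀ x, N'.dval x = true ↔ ∀ i, N.dval (fun b => x (i, b)) = true := by
    intro x
    rw [hN']
    simp only [hM]
  set R' : Finset (Fin k × β → Bool) := univ.filter fun x => ∀ i, (fun b => x (i, b)) ∈ R with hR'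
  -- sums over `R'`
  set D : (β → Bool) → ℝ := fun u => if u ∈ R then 1 else 0 with hD
  have hD0 : ∀ u, 0 ≤ D u := fun u => by
    simp only [hD]
    split_ifs <;> norm_num
  have hprod : ∀ x, prodD D x = if x ∈ R' then 1 else 0 := by
    intro x
    simp only [prodD, hD, hR', mem_filter, mem_univ, true_and]
    by_cases h : ∀ i, (fun b => x (i, b)) ∈ R
    · rw [if_pos h]
      exact Finset.prod_eq_one fun i _ => if_pos (h i)
    · rw [if_neg h]
      push Not at h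
      obtain ⟨i, hi⟩ := h
      exact Finset.prod_eq_zero (mem_univ i) (if_neg hi)
  have hsum : ∀ G : (Fin k × β → Bool) → Bool, ∑ x with G x = true, prodD D x =
      ((R'.filter fun x => G x = true).card : ℝ) := by
    intro G
    simp only [hprod]
    rw [Finset.sum_ite_mem, Finset.sum_const, nsmul_eq_mul, mul_one]
    congr 2
    ext x
    simp only [mem_inter, mem_filter, mem_univ, true_and]
    exact and_comm
  have hcardR : (R'.card : ℝ) = (R.card : ℝ) ^ k := by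
    have h1 : ∑ x : Fin k × β → Bool, prodD D x = ∏ _i : Fin k, ∑ u, D u :=
      sum_prod_block fun _ => D
    have h2 : ∑ u, D u = (R.card : ℝ) := by
      simp [hD]
    have h3 : ∑ x : Fin k × β → Bool, prodD D x = (R'.card : ℝ) := by
      simp only [hprod]
      simp
    rw [← h3, h1, h2, Finset.prod_const, Finset.card_univ, Fintype.card_fin]
  refine ⟨N', R', ?_, fun x hx => ?_, fun G hG hle => ?_⟩
  · obtain ⟨u, hu⟩ := hR0
    exact ⟨fun e => u e.2, mem_filter.2 ⟨mem_univ _, fun i => hu⟩⟩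
  · exact (hN'' x).2 fun i => hR1 _ ((mem_filter.1 hx).2 i)
  · have h1 := prod_small (lClass (2 ^ s)) (fun u => N.dval u) D hD0
      ((R.card : ℝ) / 2 ^ (8 * s)) (fun h hh hle => by
        have h2 := hR2 h hh hle
        have h3 : ∑ u with h u = true, D u = ((R.filter fun u => h u = true).card : ℝ) := by
          simp only [hD]
          rw [Finset.sum_ite_mem, Finset.sum_const, nsmul_eq_mul, mul_one]
          congr 2
          ext x
          simp only [mem_inter, mem_filter, mem_univ, true_and]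
          exact and_comm
        rw [h3, le_div_iff₀ (by positivity)]
        have h4 : ((2 ^ (8 * s) * (R.filter fun u => h u = true).card : ℕ) : ℝ) ≤ (R.card : ℝ) := by
          exact_mod_cast h2
        push_cast at h4
        linarith) G hG (fun x hx => (hN'' x).1 (hle x hx))
    rw [hsum, div_pow, ← hcardR, le_div_iff₀ (by positivity)] at h1
    have h5 : (((2 ^ (8 * s)) ^ k * (R'.filter fun x => G x = true).card : ℕ) : ℝ) ≤
        (R'.card : ℝ) := by
      push_cast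
      linarith
    exact_mod_cast h5

/-- The evaluation problem: from a block to devices which see few zeros of a set `U`. -/
theorem ev_sees_prod {β : Type} [Fintype β] {B s m n k S a : ℕ} (N : Net β B)
    (hB : k * B + 4 ≤ m)
    (R : Finset (β → Bool)) (hR0 : R.Nonempty) (hR1 : ∀ u ∈ R, N.dval u = true)
    (hR2 : ∀ G : (β → Bool) → Bool, (lClass (2 ^ s)).mem β G →
      (∀ u, G u = true → N.dval u = true) →
      2 ^ (8 * s) * (R.filter fun u => G u = true).card ≤ R.card)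
    (hβ : Fintype.card β ≤ 2 ^ a) (ha : a + 2 ≤ 3 * s) (hS : S ≤ 2 ^ s)
    (U : Finset (EvVar m n)) (hU : k * Fintype.card β ≤ inputs U) :
    Sees ((lClass S).mem _) ev U k (S ^ k) := by
  classical
  obtain ⟨N', R', hR0', hR1', hR2'⟩ := exists_conj (k := k) N R hR0 hR1 hR2
  have hemb : Nonempty ((Fin k × β) ↪ {i : Fin n // (Sum.inr i : EvVar m n) ∈ U}) := by
    refine Function.Embedding.nonempty_of_card_le ?_
    rw [Fintype.card_subtype, Fintype.card_prod, Fintype.card_fin]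
    exact hU
  obtain ⟨e⟩ := hemb
  set U' : Finset (EvVar m n) :=
    univ.image fun b : Fin k × β => (Sum.inr (e b).1 : EvVar m n) with hU'
  have hUU : U' ⊆ U := by
    intro v hv
    obtain ⟨b, -, rfl⟩ := mem_image.1 hv
    exact (e b).2
  have hcκ : Fintype.card (Fin k × β) ≤ 2 ^ a * k := by
    rw [Fintype.card_prod, Fintype.card_fin, mul_comm]
    exact Nat.mul_le_mul_right k hβ
  have hcU : U'.card ≤ 2 ^ a * k := card_image_le.trans hcκ
  have hmonoK : ∀ G, (lClass S).mem (EvVar m n ⊕ EvVar m n) G → Monotone G :=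
    fun G hG => (lClass S).mono _ G hG
  refine Sees.superset ?_ hUU hmonoK
  obtain ⟨φ, hφ1, hφ2, hφ3⟩ := ev_sub N' (m := m) (by omega) (fun b => (e b).1)
    (fun b b' h => e.injective (Subtype.ext h))
  have hmono : ∀ u v : Fin k × β → Bool, u ≤ v → N'.dval u = true → N'.dval v = true := by
    intro u v huv hu
    have h1 := (dnetClass (k * B + 2)).mono _ N'.dval ⟨N', fun _ => rfl⟩ huv
    rw [hu] at h1
    exact top_le_iff.1 h1
  have hHard := hardSet_bin (lClass (2 ^ s)) (ι := EvVar m n) (κ := Fin k × β)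
    (Q := (2 ^ (8 * s)) ^ k) (fun u => N'.dval u = true) hmono R' hR0' hR1'
    (fun G hG hle => hR2' G hG hle) (fun y => ev y = true) U' φ
    (fun b => ⟨_, hφ1 b⟩) (fun v hv => hφ2 v fun b hb => hv
      (hb ▸ mem_image_of_mem (fun b : Fin k × β => (Sum.inr (e b).1 : EvVar m n)) (mem_univ b)))
    (fun x => by rw [hφ3])
    (fun D => ∃ F, (lClass (2 ^ s)).mem _ F ∧ ∀ p, D p = F (known p)) (fun D h => h)
  obtain ⟨ρ, M, h1, h2, h3⟩ := hHard
  refine ⟨ρ, M, h1, h2, fun Y D hD hf A hA hacc => ?_⟩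
  obtain ⟨Y', hcard, hmem⟩ := exists_cover hmonoK U' ρ M (fun z hz => (h2 z hz).2) k (S ^ k) D hD
    fun z hz => (hf z hz).1
  have h4 := h3 {y // y ∈ Y'} k (fun y p => D y.1 (known p))
    (fun y => ⟨D y.1, lClass_le hS (hD y.1), fun _ => rfl⟩) (fun y z hz hacc' => by
      refine (hf z hz).2 y.1 ?_
      rw [known_some] at hacc'
      exact hacc')
  have h5 : A.card ≤
      {x | x ∈ M ∧ AccSees U' k (fun (y : {y // y ∈ Y'}) p => D y.1 (known p)) x}.ncard := by
    rw [← Set.ncard_coe_finset]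
    refine Set.ncard_le_ncard ?_ (M.finite_toSet.subset fun x hx => hx.1)
    intro z hz
    obtain ⟨y, Z, hZU, hZ0, hZc, hy⟩ := hacc z hz
    refine ⟨hA hz, ⟨y, hmem z (hA hz) y Z hZU hZ0 hZc hy⟩, Z, hZU, hZc, hZ0, ?_⟩
    change D y (known (NWE.hide U' Z z)) = true
    rw [known_hide U' Z z hZ0, XL.MainAbs.litsOn_eq]
    exact hy
  have hSk : S ^ k ≤ 2 ^ (s * k) := by
    rw [pow_mul]
    exact Nat.pow_le_pow_left hS k
  have h6 : Fintype.card {y // y ∈ Y'} ≤ 2 ^ ((a + 2) * k) * 2 ^ (s * k) := by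
    rw [Fintype.card_coe]
    exact hcard.trans (Nat.mul_le_mul (card_small_le' U' hcU) hSk)
  have h7 : (univ.filter fun Z : Finset (Fin k × β) => Z.card ≤ k).card ≤ 2 ^ ((a + 2) * k) := by
    have h8 := card_small_le' (univ : Finset (Fin k × β)) (k := k) (m := a) (by
      rw [card_univ]
      exact hcκ)
    rwa [Finset.powerset_univ] at h8
  have h8 : (2 ^ (8 * s)) ^ k * A.card ≤ 2 ^ (7 * s * k) * M.card := by
    calc (2 ^ (8 * s)) ^ k * A.card
        ≤ (2 ^ (8 * s)) ^ k *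
          {x | x ∈ M ∧ AccSees U' k (fun (y : {y // y ∈ Y'}) p => D y.1 (known p)) x}.ncard :=
          Nat.mul_le_mul_left _ h5
      _ ≤ Fintype.card {y // y ∈ Y'} *
          (univ.filter fun Z : Finset (Fin k × β) => Z.card ≤ k).card * M.card := h4
      _ ≤ 2 ^ ((a + 2) * k) * 2 ^ (s * k) * 2 ^ ((a + 2) * k) * M.card :=
          Nat.mul_le_mul_right _ (Nat.mul_le_mul h6 h7)
      _ = 2 ^ (2 * (a + 2) * k + s * k) * M.card := by
          rw [← pow_add, ← pow_add]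
          congr 2
          ring
      _ ≤ 2 ^ (7 * s * k) * M.card := by
          refine Nat.mul_le_mul_right _ (Nat.pow_le_pow_right (by norm_num) ?_)
          have h9 : 2 * (a + 2) * k ≤ 6 * s * k := Nat.mul_le_mul_right k (by omega)
          calc 2 * (a + 2) * k + s * k ≤ 6 * s * k + s * k := by omega
            _ = 7 * s * k := by ring
  have h9 : 2 ^ (7 * s * k) * (2 ^ (s * k) * A.card) ≤ 2 ^ (7 * s * k) * M.card := by
    calc 2 ^ (7 * s * k) * (2 ^ (s * k) * A.card) = (2 ^ (8 * s)) ^ k * A.card := by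
          rw [← mul_assoc, ← pow_add, ← pow_mul]
          congr 2
          ring
      _ ≤ _ := h8
  have h10 := Nat.le_of_mul_le_mul_left h9 (by positivity)
  exact (Nat.mul_le_mul_right _ hSk).trans h10

/-- The number of nodes. -/
theorem bk_le4 {q κ n : ℕ} (hq : 8 ≤ q) (hqκ : q ≤ κ)
    (h : 100000 * ((κ + 4) * 2 ^ q) ≤ Nat.log 2 n) : FewK.bk q κ + 4 ≤ n := by
  have hn0 : n ≠ 0 := by
    rintro rfl
    have : 0 < (κ + 4) * 2 ^ q := by positivity
    simp at h
  have h2 : 2 ^ Nat.log 2 n ≤ n := Nat.pow_log_le_self 2 hn0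
  refine le_trans ?_ ((Nat.pow_le_pow_right (by norm_num) h).trans h2)
  obtain ⟨X, hX⟩ : ∃ X, X = (κ + 4) * 2 ^ q := ⟨_, rfl⟩
  have hX1 : κ + 4 ≤ X := by
    rw [hX]
    exact Nat.le_mul_of_pos_right _ (by positivity)
  have h4 : 2 ^ (2 * (8000 * 2 ^ q) * (6 * κ + 24)) = 2 ^ (96000 * X) := by
    rw [hX]
    congr 1
    ring
  have h5 : 8 * 2 ^ q * 2 ^ (κ - 4) * (8000 * 2 ^ q + 1) ≤ 2 ^ (3 * κ + 12) := by
    obtain ⟨p, hp⟩ : ∃ p, κ = p + 4 := ⟨κ - 4, by omega⟩
    have h6 : 8000 * 2 ^ q + 1 ≤ 2 ^ (q + 13) := by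
      rw [pow_add]
      have : 1 ≤ 2 ^ q := Nat.one_le_two_pow
      norm_num
      omega
    calc 8 * 2 ^ q * 2 ^ (κ - 4) * (8000 * 2 ^ q + 1)
        ≤ 8 * 2 ^ q * 2 ^ (κ - 4) * 2 ^ (q + 13) := Nat.mul_le_mul_left _ h6
      _ = 2 ^ (3 + q + (κ - 4) + (q + 13)) := by
          rw [pow_add 2 (3 + q + (κ - 4)), pow_add 2 (3 + q), pow_add 2 3,
            show (2 : ℕ) ^ 3 = 8 by norm_num]
      _ ≤ 2 ^ (3 * κ + 12) := Nat.pow_le_pow_right (by norm_num) (by omega)
  unfold FewK.bk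
  rw [h4, ← hX]
  calc 8 * 2 ^ q * 2 ^ (κ - 4) * (8000 * 2 ^ q + 1) * 2 ^ (96000 * X) + 2 + 4
      ≤ 2 ^ (3 * κ + 12) * 2 ^ (96000 * X) + 6 := by
        have := Nat.mul_le_mul_right (2 ^ (96000 * X)) h5
        omega
    _ = 2 ^ (3 * κ + 12 + 96000 * X) + 6 := by rw [pow_add 2 (3 * κ + 12)]
    _ ≤ 2 ^ (3 * κ + 12 + 96000 * X) + 2 ^ (3 * κ + 12 + 96000 * X) := by
        have h9 : 2 ^ 3 ≤ 2 ^ (3 * κ + 12 + 96000 * X) :=
          Nat.pow_le_pow_right (by norm_num) (by omega)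
        omega
    _ = 2 ^ (3 * κ + 13 + 96000 * X) := by
        rw [show 3 * κ + 13 + 96000 * X = (3 * κ + 12 + 96000 * X) + 1 by ring, pow_succ]
        ring
    _ ≤ 2 ^ (100000 * X) := Nat.pow_le_pow_right (by norm_num) (by omega)

/-- **Main theorem, L versus NL, many zeros**, for `C = 10 ^ 18`. -/
theorem ev_sees_many : ∃ C : ℕ, 1 ≤ C ∧ ∀ (n k S : ℕ) (U : Finset (EvVar n n)), 1 ≤ k →
    (Nat.log 2 n + 2) ^ C ≤ inputs U / k → S ^ C ≤ (n / k) ^ Nat.log 2 (inputs U / k) →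
    Sees ((lClass S).mem _) ev U k (S ^ k) := by
  classical
  obtain ⟨C, hC⟩ : ∃ C : ℕ, C = 10 ^ 18 := ⟨_, rfl⟩
  refine ⟨C, by omega, fun n k S U hk hU hS => ?_⟩
  obtain ⟨n', hn'⟩ : ∃ n', n' = n / k := ⟨_, rfl⟩
  obtain ⟨v, hv⟩ : ∃ v, v = inputs U / k := ⟨_, rfl⟩
  rw [← hn', ← hv] at hS
  rw [← hv] at hU
  obtain ⟨L, hL⟩ : ∃ L, L = Nat.log 2 n' := ⟨_, rfl⟩
  obtain ⟨l, hl⟩ : ∃ l, l = Nat.log 2 v := ⟨_, rfl⟩
  rw [← hl] at hS
  have hUn : inputs U ≤ n := by
    unfold inputs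
    simpa using Finset.card_le_univ (univ.filter fun i : Fin n => (Sum.inr i : EvVar n n) ∈ U)
  have hvn : v ≤ n' := by
    rw [hv, hn']
    exact Nat.div_le_div_right hUn
  have hnn : n' ≤ n := by
    rw [hn']
    exact Nat.div_le_self _ _
  have hL2 : L ≤ Nat.log 2 n := hL ▸ Nat.log_mono_right hnn
  have hU' : (L + 2) ^ C ≤ v := (Nat.pow_le_pow_left (by omega) C).trans hU
  have hv0 : v ≠ 0 := by
    intro h
    rw [h] at hU'
    have : 0 < (L + 2) ^ C := by positivity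
    omega
  have h3 : l ≤ L := by
    rw [hl, hL]
    exact Nat.log_mono_right hvn
  have h2 : C * Nat.log 2 (L + 2) ≤ l := by
    rw [hl]
    refine Nat.le_log_of_pow_le (by norm_num) ?_
    calc 2 ^ (C * Nat.log 2 (L + 2)) = (2 ^ Nat.log 2 (L + 2)) ^ C := by rw [← pow_mul, mul_comm]
      _ ≤ (L + 2) ^ C := Nat.pow_le_pow_left (Nat.pow_log_le_self 2 (by omega)) C
      _ ≤ v := hU'
  have h1 : C ≤ l := by
    have h4 : 1 ≤ Nat.log 2 (L + 2) := Nat.le_log_of_pow_le (by norm_num) (by omega)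
    calc C = C * 1 := (mul_one C).symm
      _ ≤ C * Nat.log 2 (L + 2) := Nat.mul_le_mul_left C h4
      _ ≤ l := h2
  obtain ⟨q, κ, hq8, hqκ, hX, hκl, hs, -⟩ := exists_qk hC.ge h1 h2 h3
  obtain ⟨β, _, N, R, hβ, hR0, hR1, hR2⟩ := FewK.exists_few hq8 hqκ
  have h16 := FewK.sk_eq (q := q) (κ := κ) (by omega)
  have hck := FewK.ck_le (q := q) (κ := κ) (by omega) hqκ
  have hvl : 2 ^ l ≤ v := hl ▸ Nat.pow_log_le_self 2 hv0
  have hbk : FewK.bk q κ + 4 ≤ n' := bk_le4 hq8 hqκ (hL ▸ hX)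
  have hkn : k * n' ≤ n := by
    rw [hn']
    exact Nat.mul_div_le n k
  have hkv : k * v ≤ inputs U := by
    rw [hv]
    exact Nat.mul_div_le _ k
  refine ev_sees_prod (a := 105 * κ + 420) N ?_ R hR0 hR1 hR2 (hβ ▸ hck) ?_ ?_ U ?_
  · calc k * FewK.bk q κ + 4 ≤ k * FewK.bk q κ + k * 4 := by omega
      _ = k * (FewK.bk q κ + 4) := by ring
      _ ≤ k * n' := Nat.mul_le_mul_left k hbk
      _ ≤ n := hkn
  · -- `105 κ + 422 ≤ 3 s`
    have h5 : 2 ^ 8 ≤ 2 ^ q := Nat.pow_le_pow_right (by norm_num) hq8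
    have h6 : κ * (κ + 4) * 2 ^ 8 ≤ κ * (κ + 4) * 2 ^ q := Nat.mul_le_mul_left _ h5
    have h7 : 12 * κ ≤ κ * (κ + 4) := by
      rw [mul_comm 12 κ]
      exact Nat.mul_le_mul_left κ (by omega)
    omega
  · have h9 : n' < 2 ^ (L + 1) := hL ▸ Nat.lt_pow_succ_log_self (by norm_num) n'
    have h10 : S ^ C ≤ (2 ^ FewK.sk q κ) ^ C := by
      calc S ^ C ≤ n' ^ l := hS
        _ ≤ (2 ^ (L + 1)) ^ l := Nat.pow_le_pow_left h9.le l
        _ = 2 ^ ((L + 1) * l) := by rw [← pow_mul]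
        _ ≤ 2 ^ (C * FewK.sk q κ) := Nat.pow_le_pow_right (by norm_num) (hs _ h16)
        _ = (2 ^ FewK.sk q κ) ^ C := by rw [← pow_mul, mul_comm]
    exact (Nat.pow_le_pow_iff_left (by omega)).1 h10
  · rw [hβ]
    calc k * FewK.ck q κ ≤ k * 2 ^ (105 * κ + 420) := Nat.mul_le_mul_left k hck
      _ ≤ k * 2 ^ l := Nat.mul_le_mul_left k (Nat.pow_le_pow_right (by norm_num) hκl)
      _ ≤ k * v := Nat.mul_le_mul_left k hvl
      _ ≤ inputs U := hkv

/-- **Main theorem, L versus NL, many zeros**, without quotients. -/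
theorem ev_sees_all : ∃ C : ℕ, 1 ≤ C ∧ ∀ (n k m v S : ℕ) (U : Finset (EvVar n n)), 1 ≤ k →
    k * m ≤ n → k * v ≤ inputs U → (Nat.log 2 n + 2) ^ C ≤ v → S ^ C ≤ m ^ Nat.log 2 v →
    Sees ((lClass S).mem _) ev U k (S ^ k) := by
  obtain ⟨C, hC1, hC⟩ := ev_sees_many
  refine ⟨C, hC1, fun n k m v S U hk hm hv hU hS => ?_⟩
  have h1 : m ≤ n / k := (Nat.le_div_iff_mul_le hk).2 (by rw [mul_comm]; exact hm)
  have h2 : v ≤ inputs U / k := (Nat.le_div_iff_mul_le hk).2 (by rw [mul_comm]; exact hv)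
  refine hC n k S U hk (hU.trans h2) (hS.trans ?_)
  have h3 : 1 ≤ n / k := by
    have hUn : inputs U ≤ n := by
      unfold inputs
      simpa using Finset.card_le_univ (univ.filter fun i : Fin n => (Sum.inr i : EvVar n n) ∈ U)
    have h4 : inputs U / k ≤ n / k := Nat.div_le_div_right hUn
    have h5 : 0 < (Nat.log 2 n + 2) ^ C := by positivity
    omega
  exact (Nat.pow_le_pow_left h1 _).trans (Nat.pow_le_pow_right h3 (Nat.log_mono_right h2))

end Pool.Agent.NLP
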