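import Pool.Agent.NLP.BlockT

set_option autoImplicit false

/-!
# Numbers for the evaluation of programs with `n` nodes
-/

namespace Pool.Agent.NLP

/-- For all large `n` there is a block whose network has fewer than `n` nodes. -/
theorem exists_qU {n C : ℕ} (hC : 400000000 ≤ C) (hn : C ≤ Nat.log 2 n + 1) :
    ∃ q, 8 ≤ q ∧ bq q + 2 ≤ n ∧ cq q ≤ (Nat.log 2 n + 2) ^ C ∧
      (∀ S : ℕ, S ^ C ≤ n ^ Nat.log 2 (Nat.log 2 n) → S ≤ 2 ^ sq q) ∧
      ∀ k : ℕ, C * k ≤ Nat.log 2 n → (cq q + 1) ^ k ≤ 2 ^ (7 * sq q) := by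
  set L := Nat.log 2 n with hL
  set L' := L / 100000 with hL'
  have hLL : 100000 * L' ≤ L := Nat.mul_div_le L 100000
  have hLL2 : L < 100000 * L' + 100000 := Nat.lt_mul_div_succ L (by norm_num)
  have hL3 : 3072 ≤ L' := by omega
  have hex : ∃ q, L' < (q + 1 + 4) * 2 ^ (q + 1) := ⟨L', by
    have h1 : L' < 2 ^ L' := Nat.lt_two_pow_self
    have h2 : 2 ^ L' ≤ 2 ^ (L' + 1) := Nat.pow_le_pow_right (by norm_num) (by omega)
    nlinarith⟩
  classical
  let q := Nat.find hex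
  have hq1 : L' < (q + 1 + 4) * 2 ^ (q + 1) := Nat.find_spec hex
  have hmono : ∀ a b : ℕ, a ≤ b → (a + 4) * 2 ^ a ≤ (b + 4) * 2 ^ b := fun a b hab =>
    Nat.mul_le_mul (by omega) (Nat.pow_le_pow_right (by norm_num) hab)
  have hq8 : 8 ≤ q := by
    by_contra h
    push Not at h
    have h1 := hmono (q + 1) 8 (by omega)
    norm_num at h1
    omega
  have hq2 : (q + 4) * 2 ^ q ≤ L' := by
    have h1 := Nat.find_min hex (m := q - 1) (by
      show q - 1 < q
      omega)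
    push Not at h1
    rwa [show q - 1 + 1 = q by omega] at h1
  have hn0 : n ≠ 0 := by
    rintro rfl
    simp at hL
    omega
  have h2L : 2 ^ L ≤ n := Nat.pow_log_le_self 2 hn0
  -- upper bound for `L`
  have hup : L + 1 ≤ 400000 * (q * 2 ^ q) := by
    have h1 : (q + 1 + 4) * 2 ^ (q + 1) = (2 * q + 10) * 2 ^ q := by rw [pow_succ]; ring
    have h2 : (2 * q + 10) * 2 ^ q + 1 * 2 ^ q ≤ 4 * q * 2 ^ q := by
      rw [← add_mul]
      exact Nat.mul_le_mul_right _ (by omega)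
    have h3 : 1 ≤ 2 ^ q := Nat.one_le_two_pow
    have h4 : 4 * q * 2 ^ q = 4 * (q * 2 ^ q) := by ring
    omega
  have hsq : 16 * sq q = q * (q + 4) * 2 ^ q := by
    obtain ⟨p, hp⟩ : ∃ p, q = p + 4 := ⟨q - 4, by omega⟩
    rw [sq, hp, show p + 4 - 4 = p by omega, pow_add]
    ring
  refine ⟨q, hq8, ?_, ?_, fun S hS => ?_, fun k hk => ?_⟩
  · have h1 := num_size (n := 2 ^ L') (q := q) (r := 1) (by
      calc 2 = 2 ^ 1 := rfl
        _ ≤ 2 ^ L' := Nat.pow_le_pow_right (by norm_num) (by omega)) hq8 (by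
      rw [Nat.log_pow (by norm_num)]
      exact hq2) Nat.one_le_two_pow
    rw [one_mul] at h1
    have h2 : bq q + 2 ≤ (2 ^ L') ^ 100000 := h1
    refine h2.trans ?_
    rw [← pow_mul]
    calc 2 ^ (L' * 100000) ≤ 2 ^ L := Nat.pow_le_pow_right (by norm_num) (by omega)
      _ ≤ n := h2L
  · have h1 : 2 ^ (q + 3) ≤ L := by
      calc 2 ^ (q + 3) = 8 * 2 ^ q := by rw [pow_add]; ring
        _ ≤ (q + 4) * 2 ^ q := Nat.mul_le_mul_right _ (by omega)
        _ ≤ L' := hq2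
        _ ≤ L := by omega
    have h2 : 2 ^ (q + 4) ≤ (L + 2) ^ 2 := by
      calc 2 ^ (q + 4) = 2 * 2 ^ (q + 3) := by rw [pow_succ 2 (q + 3)]; ring
        _ ≤ 2 * L := Nat.mul_le_mul_left _ h1
        _ ≤ (L + 2) ^ 2 := by nlinarith
    calc cq q ≤ 2 ^ (105 * q + 420) := cq_le q hq8
      _ = (2 ^ (q + 4)) ^ 105 := by
          rw [← pow_mul]
          congr 1
          ring
      _ ≤ ((L + 2) ^ 2) ^ 105 := Nat.pow_le_pow_left h2 105
      _ = (L + 2) ^ 210 := by rw [← pow_mul]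
      _ ≤ (L + 2) ^ C := Nat.pow_le_pow_right (by omega) (by omega)
  · set lam := Nat.log 2 L with hlam
    have hL0 : L ≠ 0 := by omega
    have h1 : 2 ^ lam ≤ L := Nat.pow_log_le_self 2 hL0
    have h2 : 2 ^ lam < 2 ^ (19 + 2 * q) := by
      have h3 : q < 2 ^ q := Nat.lt_two_pow_self
      have h4 : 400000 * (q * 2 ^ q) ≤ 400000 * (2 ^ q * 2 ^ q) :=
        Nat.mul_le_mul_left _ (Nat.mul_le_mul_right _ h3.le)
      have h5 : 2 ^ (19 + 2 * q) = 524288 * (2 ^ q * 2 ^ q) := by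
        rw [pow_add, two_mul, pow_add]
        norm_num
      have h6 : 0 < 2 ^ q * 2 ^ q := by positivity
      omega
    have h3 : lam < 19 + 2 * q := (Nat.pow_lt_pow_iff_right (by norm_num)).1 h2
    have h4 : lam ≤ 5 * q := by omega
    have h5 : (L + 1) * lam ≤ 400000000 * sq q := by
      have h6 : 400000000 * sq q = 25000000 * (q * (q + 4) * 2 ^ q) := by
        rw [← hsq]
        ring
      rw [h6]
      calc (L + 1) * lam ≤ 400000 * (q * 2 ^ q) * (5 * q) := Nat.mul_le_mul hup h4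
        _ = 2000000 * (q * q * 2 ^ q) := by ring
        _ ≤ 25000000 * (q * (q + 4) * 2 ^ q) := by
          refine Nat.mul_le_mul (by norm_num) (Nat.mul_le_mul_right _ ?_)
          exact Nat.mul_le_mul_left _ (by omega)
    have h9 : n < 2 ^ (L + 1) := Nat.lt_pow_succ_log_self (by norm_num) n
    have h10 : S ^ C ≤ (2 ^ sq q) ^ C := by
      calc S ^ C ≤ n ^ lam := hS
        _ ≤ (2 ^ (L + 1)) ^ lam := Nat.pow_le_pow_left h9.le lam
        _ = 2 ^ ((L + 1) * lam) := by rw [← pow_mul]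
        _ ≤ 2 ^ (C * sq q) := Nat.pow_le_pow_right (by norm_num) (h5.trans
          (Nat.mul_le_mul_right _ hC))
        _ = (2 ^ sq q) ^ C := by rw [← pow_mul, mul_comm]
    exact (Nat.pow_le_pow_iff_left (by omega)).1 h10
  · have h1 : cq q + 1 ≤ 2 ^ (106 * (q + 4)) := by
      have h2 := cq_le q hq8
      have h3 : 2 ^ (105 * q + 420) + 1 ≤ 2 ^ (105 * q + 421) := by
        rw [pow_succ 2 (105 * q + 420)]
        have : 1 ≤ 2 ^ (105 * q + 420) := Nat.one_le_two_pow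
        omega
      calc cq q + 1 ≤ 2 ^ (105 * q + 420) + 1 := Nat.add_le_add_right h2 1
        _ ≤ 2 ^ (105 * q + 421) := h3
        _ ≤ 2 ^ (106 * (q + 4)) := Nat.pow_le_pow_right (by norm_num) (by omega)
    have h3 : 400000000 * k ≤ C * k := Nat.mul_le_mul_right _ hC
    have h4 : 1000 * k ≤ q * 2 ^ q := by omega
    calc (cq q + 1) ^ k ≤ (2 ^ (106 * (q + 4))) ^ k := Nat.pow_le_pow_left h1 k
      _ = 2 ^ (106 * (q + 4) * k) := by rw [← pow_mul]
      _ ≤ 2 ^ (7 * sq q) := by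
        refine Nat.pow_le_pow_right (by norm_num) ?_
        have h5 : 1000 * k * (q + 4) ≤ q * 2 ^ q * (q + 4) := Nat.mul_le_mul_right _ h4
        have h6 : q * 2 ^ q * (q + 4) = 16 * sq q := by rw [hsq]; ring
        have h7 : 1000 * (106 * (q + 4) * k) = 106 * (1000 * k * (q + 4)) := by ring
        omega

end Pool.Agent.NLP
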