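import Pool.Agent.NLP.Defs

set_option autoImplicit false

/-!
# Reversible pebbling of layered expanding graphs: the lower bound
-/

namespace Pool.Agent.NLP

open Finset

variable {w : ℕ} {nb : Fin w → Fin 16 → Fin w}

/-- the elements of `X` in layer `i` -/
def lay (X : Finset (ℕ × Fin w)) (i : ℕ) : Finset (Fin w) := univ.filter fun t => (i, t) ∈ X

/-- the closure of `X` in the layers `a, a + 1, ...` -/
def clo (nb : Fin w → Fin 16 → Fin w) (X : Finset (ℕ × Fin w)) (a : ℕ) : ℕ → Finset (Fin w)
  | 0 => lay X a
  | j + 1 => lay X (a + (j + 1)) ∪ univ.filter fun t => ∀ c, nb t c ∈ clo nb X a j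

theorem mem_lay {X : Finset (ℕ × Fin w)} {i : ℕ} {t : Fin w} : t ∈ lay X i ↔ (i, t) ∈ X := by
  unfold lay
  rw [mem_filter]
  exact ⟨fun h => h.2, fun h => ⟨mem_univ _, h⟩⟩

theorem mem_clo_succ {X : Finset (ℕ × Fin w)} {a j : ℕ} {t : Fin w} :
    t ∈ clo nb X a (j + 1) ↔ (a + (j + 1), t) ∈ X ∨ ∀ c, nb t c ∈ clo nb X a j := by
  rw [clo, mem_union, mem_lay, mem_filter]
  exact or_congr Iff.rfl ⟨fun h => h.2, fun h => ⟨mem_univ _, h⟩⟩

theorem mem_clo_zero {X : Finset (ℕ × Fin w)} {a : ℕ} {t : Fin w} :
    t ∈ clo nb X a 0 ↔ (a, t) ∈ X := by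
  rw [clo, mem_lay]

theorem mem_clo_of_mem {X : Finset (ℕ × Fin w)} {a j : ℕ} {t : Fin w} (h : (a + j, t) ∈ X) :
    t ∈ clo nb X a j := by
  cases j with
  | zero => rw [mem_clo_zero]; exact h
  | succ j => rw [mem_clo_succ]; exact Or.inl h

/-- Few predecessors. -/
theorem half {m : ℕ} (hnb : Expands nb m) (Y : Finset (Fin w)) (hY : Y.card < 2 * m) :
    2 * (univ.filter fun t => ∀ c, nb t c ∈ Y).card ≤ Y.card := by
  have key : ∀ T : Finset (Fin w), T ⊆ (univ.filter fun t => ∀ c, nb t c ∈ Y) → T.card ≤ m →
      2 * T.card ≤ Y.card := by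
    intro T hT hTm
    refine (hnb T hTm).trans (card_le_card ?_)
    intro y hy
    rw [mem_biUnion] at hy
    obtain ⟨t, ht, hy⟩ := hy
    obtain ⟨c, -, rfl⟩ := mem_image.1 hy
    exact (mem_filter.1 (hT ht)).2 c
  rcases Nat.lt_or_ge m (univ.filter fun t => ∀ c, nb t c ∈ Y).card with h | h
  · obtain ⟨T, hT, hTc⟩ := exists_subset_card_eq h.le
    have := key T hT hTc.le
    omega
  · exact key _ (Subset.refl _) h

/-- the number of elements of `X` in the layers `a, ..., a + J` -/
def xs (X : Finset (ℕ × Fin w)) (a J : ℕ) : ℕ := ∑ j ∈ range (J + 1), (lay X (a + j)).card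

theorem card_layers_le (Y : ℕ → Finset (Fin w)) (b J : ℕ) (X : Finset (ℕ × Fin w))
    (h : ∀ v ∈ X, b ≤ v.1 ∧ v.1 ≤ b + J ∧ v.2 ∈ Y (v.1 - b)) :
    X.card ≤ ∑ j ∈ range (J + 1), (Y j).card := by
  have h1 : X ⊆ (range (J + 1)).biUnion fun j => (Y j).image fun t => (b + j, t) := by
    intro v hv
    obtain ⟨h1, h2, h3⟩ := h v hv
    rw [mem_biUnion]
    refine ⟨v.1 - b, mem_range.2 (by omega), mem_image.2 ⟨v.2, h3, ?_⟩⟩
    rw [Nat.add_sub_cancel' h1]
  refine (card_le_card h1).trans (card_biUnion_le.trans (sum_le_sum fun j _ => card_image_le))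

theorem xs_le (X : Finset (ℕ × Fin w)) (a J : ℕ) : xs X a J ≤ X.card := by
  have h1 : xs X a J = ((range (J + 1)).biUnion fun j =>
      (lay X (a + j)).image fun t => (a + j, t)).card := by
    rw [card_biUnion]
    · refine sum_congr rfl fun j _ => ?_
      rw [card_image_of_injective]
      intro t t' h
      exact (Prod.ext_iff.1 h).2
    · intro j _ j' _ hj
      rw [Function.onFun, disjoint_left]
      intro v hv hv'
      obtain ⟨t, -, rfl⟩ := mem_image.1 hv
      obtain ⟨t', -, h⟩ := mem_image.1 hv'
      have := (Prod.ext_iff.1 h).1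
      simp only at this
      omega
  rw [h1]
  apply card_le_card
  intro v hv
  rw [mem_biUnion] at hv
  obtain ⟨j, -, hv⟩ := hv
  obtain ⟨t, ht, rfl⟩ := mem_image.1 hv
  exact mem_lay.1 ht

/-- The size of the closure. -/
theorem clo_size {m : ℕ} (hnb : Expands nb m) (X : Finset (ℕ × Fin w)) (a : ℕ)
    (hX : X.card < 2 * m) (J : ℕ) :
    ∑ j ∈ range (J + 1), (clo nb X a j).card + (clo nb X a J).card ≤ 2 * xs X a J := by
  induction J with
  | zero =>
    simp only [xs, zero_add, sum_range_one, clo, add_zero]
    omega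
  | succ J ih =>
    have h1 : (clo nb X a J).card ≤ xs X a J := by
      rw [sum_range_succ] at ih
      omega
    have h2 := xs_le X a J
    have h3 := half hnb (clo nb X a J) (by omega)
    have h4 : (clo nb X a (J + 1)).card ≤ (lay X (a + (J + 1))).card +
        (univ.filter fun t => ∀ c, nb t c ∈ clo nb X a J).card := by
      rw [clo]
      exact card_union_le _ _
    have h5 : xs X a (J + 1) = xs X a J + (lay X (a + (J + 1))).card := by
      unfold xs
      rw [sum_range_succ]
    rw [sum_range_succ, h5]
    omega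

theorem clo_mono {X Y : Finset (ℕ × Fin w)} (h : X ⊆ Y) (a j : ℕ) :
    clo nb X a j ⊆ clo nb Y a j := by
  induction j with
  | zero =>
    intro t ht
    rw [mem_clo_zero] at ht ⊢
    exact h ht
  | succ j ih =>
    intro t ht
    rw [mem_clo_succ] at ht ⊢
    exact ht.imp (fun h' => h h') fun h' c => ih (h' c)

theorem clo_shift {X Y : Finset (ℕ × Fin w)} (h : X ⊆ Y) (a D j : ℕ) :
    clo nb X (a + D) j ⊆ clo nb Y a (D + j) := by
  induction j with
  | zero =>
    intro t ht
    rw [mem_clo_zero] at ht
    exact mem_clo_of_mem (h ht)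
  | succ j ih =>
    intro t ht
    rw [mem_clo_succ] at ht
    rw [← add_assoc, mem_clo_succ]
    refine ht.imp (fun h' => ?_) fun h' c => ih (h' c)
    have e : a + (D + j + 1) = a + D + (j + 1) := by ring
    rw [e]
    exact h h'

theorem Stp.symm {a : ℕ} {C C' : Finset (ℕ × Fin w)} (h : Stp nb a C C') : Stp nb a C' C := by
  rcases h with h | ⟨u, h1, h2⟩
  · exact Or.inl h.symm
  · refine Or.inr ⟨u, fun v hv => (h1 v hv).symm, fun hu c => ?_⟩
    refine (h1 _ ?_).1 (h2 hu c)
    intro h3
    have := (Prod.ext_iff.1 h3).1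
    simp only at this
    omega

theorem Stp.upper {a b : ℕ} {C C' : Finset (ℕ × Fin w)} (h : Stp nb a C C') (hab : a ≤ b) :
    Stp nb b (C.filter fun u => b ≤ u.1) (C'.filter fun u => b ≤ u.1) := by
  rcases h with h | ⟨u, h1, h2⟩
  · exact Or.inl (by rw [h])
  · by_cases hu : b ≤ u.1
    · refine Or.inr ⟨u, fun v hv => ?_, fun hu' c => ?_⟩
      · rw [mem_filter, mem_filter, h1 v hv]
      · rw [mem_filter]
        refine ⟨h2 (by omega) c, ?_⟩
        show b ≤ u.1 - 1
        omega
    · refine Or.inl ?_
      ext v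
      rw [mem_filter, mem_filter]
      constructor
      · rintro ⟨h3, h4⟩
        exact ⟨(h1 v (by rintro rfl; exact hu h4)).1 h3, h4⟩
      · rintro ⟨h3, h4⟩
        exact ⟨(h1 v (by rintro rfl; exact hu h4)).2 h3, h4⟩

theorem Stp.lower {a b : ℕ} {C C' : Finset (ℕ × Fin w)} (h : Stp nb a C C') :
    Stp nb a (C.filter fun u => u.1 < b) (C'.filter fun u => u.1 < b) := by
  rcases h with h | ⟨u, h1, h2⟩
  · exact Or.inl (by rw [h])
  · by_cases hu : u.1 < b
    · refine Or.inr ⟨u, fun v hv => ?_, fun hu' c => ?_⟩
      · rw [mem_filter, mem_filter, h1 v hv]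
      · rw [mem_filter]
        refine ⟨h2 hu' c, ?_⟩
        show u.1 - 1 < b
        omega
    · refine Or.inl ?_
      ext v
      rw [mem_filter, mem_filter]
      constructor
      · rintro ⟨h3, h4⟩
        exact ⟨(h1 v (by rintro rfl; exact hu h4)).1 h3, h4⟩
      · rintro ⟨h3, h4⟩
        exact ⟨(h1 v (by rintro rfl; exact hu h4)).2 h3, h4⟩

/-- One step does not enlarge the last layer of the closure. -/
theorem clo_step {θ a : ℕ} (hθ : 1 ≤ θ) (hnb : Expands nb (4 * θ)) {C C' : Finset (ℕ × Fin w)}
    (h : Stp nb a C C') (hC' : C'.card < 4 * θ) :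
    clo nb C' a (8 * θ - 1) ⊆ clo nb C a (8 * θ - 1) := by
  classical
  rcases h with h | ⟨u, h1, h2⟩
  · rw [h]
  · by_cases hu : u ∈ C' ∧ u ∉ C
    · rcases Nat.lt_or_ge a u.1 with hua | hua
      · -- a legal move above the base layer
        have key : ∀ j, clo nb C' a j ⊆ clo nb C a j := by
          intro j
          induction j with
          | zero =>
            intro t ht
            rw [mem_clo_zero] at ht ⊢
            refine (h1 _ ?_).2 ht
            intro h3
            have := (Prod.ext_iff.1 h3).1
            simp only at this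
            omega
          | succ j ih =>
            intro t ht
            rw [mem_clo_succ] at ht
            rcases ht with ht | ht
            · by_cases h3 : (a + (j + 1), t) = u
              · rw [mem_clo_succ]
                refine Or.inr fun c => ?_
                have h4 := h2 hua c
                have h5 : u.1 - 1 = a + j := by
                  rw [← h3]
                  show a + (j + 1) - 1 = a + j
                  omega
                have h6 : u.2 = t := by rw [← h3]
                rw [h5, h6] at h4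
                exact mem_clo_of_mem h4
              · rw [mem_clo_succ]
                exact Or.inl ((h1 _ h3).2 ht)
            · rw [mem_clo_succ]
              exact Or.inr fun c => ih (ht c)
        exact key _
      · -- a new source
        have hsub : C ⊆ C' := by
          intro v hv
          by_cases h3 : v = u
          · rw [h3]; exact hu.1
          · exact (h1 v h3).1 hv
        have hne : ∀ j j', j ≤ j' → clo nb C' a j ⊆ clo nb C a j →
            clo nb C' a j' ⊆ clo nb C a j' := by
          intro j j' hjj h3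
          induction j', hjj using Nat.le_induction with
          | base => exact h3
          | succ i _ ih =>
            intro t ht
            rw [mem_clo_succ] at ht ⊢
            refine ht.imp (fun h4 => ?_) fun h4 c => ih (h4 c)
            refine (h1 _ ?_).2 h4
            intro h5
            have := (Prod.ext_iff.1 h5).1
            simp only at this
            omega
        by_contra hcon
        have h3 : ∀ j ≤ 8 * θ - 1, 1 ≤ (clo nb C' a j).card := by
          intro j hj
          by_contra h4
          have h5 : clo nb C' a j = ∅ := by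
            rw [← card_eq_zero]
            omega
          exact hcon (hne j _ hj (by rw [h5]; exact empty_subset _))
        have h4 := clo_size hnb C' a (by omega) (8 * θ - 1)
        have h5 := xs_le C' a (8 * θ - 1)
        have h6 : ∑ _j ∈ range (8 * θ - 1 + 1), 1 ≤
            ∑ j ∈ range (8 * θ - 1 + 1), (clo nb C' a j).card :=
          sum_le_sum fun j hj => h3 j (by rw [mem_range] at hj; omega)
        rw [sum_const, card_range, smul_eq_mul] at h6
        omega
    · have hsub : C' ⊆ C := by
        intro v hv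
        by_cases h3 : v = u
        · by_contra h4
          exact hu ⟨by rw [← h3]; exact hv, by rw [← h3]; exact h4⟩
        · exact (h1 v h3).2 hv
      exact clo_mono hsub _ _

/-- the depth -/
def dep (θ k : ℕ) : ℕ := 8 * θ * 2 ^ (k - 4)

/-- the statement for segments -/
def Seg (nb : Fin w → Fin 16 → Fin w) (θ k : ℕ) : Prop :=
  ∀ (a T : ℕ) (C : ℕ → Finset (ℕ × Fin w)), (∀ n < T, Stp nb a (C n) (C (n + 1))) →
    (∀ n ≤ T, ∀ u ∈ C n, a ≤ u.1 ∧ u.1 < a + dep θ k) → (C 0).card < θ →
    (∀ n ≤ T, (C n).card < k * θ) →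
    ∀ t, (a + (dep θ k - 1), t) ∈ C T → t ∈ clo nb (C 0) a (dep θ k - 1)

theorem seg_four {θ : ℕ} (hθ : 1 ≤ θ) (hnb : Expands nb (4 * θ)) : Seg nb θ 4 := by
  intro a T C hs _ _ hc t ht
  have hdep : dep θ 4 = 8 * θ := by simp [dep]
  rw [hdep] at ht ⊢
  have key : ∀ n ≤ T, clo nb (C n) a (8 * θ - 1) ⊆ clo nb (C 0) a (8 * θ - 1) := by
    intro n
    induction n with
    | zero => intro _; exact Subset.refl _
    | succ n ih =>
      intro hn
      exact (clo_step hθ hnb (hs n (by omega)) (hc (n + 1) hn)).trans (ih (by omega))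
  exact key T le_rfl (mem_clo_of_mem ht)

theorem seg_succ {θ k : ℕ} (hθ : 1 ≤ θ) (hk : 4 ≤ k) (hnb : Expands nb (4 * θ))
    (hQ : Seg nb θ k) : Seg nb θ (k + 1) := by
  classical
  intro a T C hs hl h0 hc t ht
  have hdep : dep θ (k + 1) = dep θ k + dep θ k := by
    unfold dep
    rw [show k + 1 - 4 = (k - 4) + 1 by omega, pow_succ]
    ring
  have hpos : 1 ≤ dep θ k := by
    unfold dep
    have : 1 ≤ 2 ^ (k - 4) := Nat.one_le_two_pow
    nlinarith
  rw [hdep] at hl ht ⊢
  obtain ⟨D, hD⟩ : ∃ D, D = dep θ k := ⟨_, rfl⟩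
  rw [← hD] at hl ht hpos ⊢
  obtain ⟨A, hA⟩ : ∃ A : ℕ → Finset (ℕ × Fin w), ∀ n, A n = (C n).filter fun u => u.1 < a + D :=
    ⟨_, fun _ => rfl⟩
  obtain ⟨B, hB⟩ : ∃ B : ℕ → Finset (ℕ × Fin w), ∀ n, B n = (C n).filter fun u => a + D ≤ u.1 :=
    ⟨_, fun _ => rfl⟩
  have hcard : ∀ n, (A n).card + (B n).card = (C n).card := by
    intro n
    rw [hA, hB, ← card_filter_add_card_filter_not (s := C n) (fun u => u.1 < a + D)]
    congr 2
    refine filter_congr fun u _ => ?_
    rw [not_lt]
  have hBs : ∀ n < T, Stp nb (a + D) (B n) (B (n + 1)) := by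
    intro n hn
    rw [hB, hB]
    exact (hs n hn).upper (by omega)
  have hAs : ∀ n < T, Stp nb a (A n) (A (n + 1)) := by
    intro n hn
    rw [hA, hA]
    exact (hs n hn).lower
  have hBl : ∀ n ≤ T, ∀ u ∈ B n, a + D ≤ u.1 ∧ u.1 < a + D + D := by
    intro n hn u hu
    rw [hB, mem_filter] at hu
    have := hl n hn u hu.1
    omega
  have hAl : ∀ n ≤ T, ∀ u ∈ A n, a ≤ u.1 ∧ u.1 < a + D := by
    intro n hn u hu
    rw [hA, mem_filter] at hu
    have := hl n hn u hu.1
    omega
  have hB0 : (B 0).card < θ := by
    have := hcard 0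
    omega
  by_cases hall : ∀ n ≤ T, (B n).card < k * θ
  · -- the upper half is played with few pebbles
    have h1 := hQ (a + D) T B hBs (by rw [← hD]; exact hBl) hB0 hall t (by
      rw [hB, mem_filter, ← hD]
      have e : a + (D + D - 1) = a + D + (D - 1) := by omega
      rw [e] at ht
      exact ⟨ht, by show a + D ≤ a + D + (D - 1); omega⟩)
    rw [← hD] at h1
    have e : D + D - 1 = D + (D - 1) := by omega
    rw [e]
    refine clo_shift ?_ a D (D - 1) h1
    rw [hB]
    exact filter_subset _ _
  · exfalso
    push Not at hall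
    obtain ⟨τ, hτ, hτB⟩ := hall
    have hkθ : 4 * θ ≤ k * θ := Nat.mul_le_mul_right _ hk
    have hAτ : (A τ).card < θ := by
      have h1 := hcard τ
      have h2 := hc τ hτ
      rw [Nat.succ_mul] at h2
      omega
    -- the last time with few pebbles in the upper half
    obtain ⟨s, hs1, hs2, hs3⟩ : ∃ s, s < τ ∧ (B s).card < θ ∧
        ∀ n, s < n → n ≤ τ → θ ≤ (B n).card := by
      refine ⟨Nat.findGreatest (fun n => (B n).card < θ) τ, ?_, ?_, ?_⟩
      · refine lt_of_le_of_ne (Nat.findGreatest_le _) fun h => ?_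
        have h1 : (B (Nat.findGreatest (fun n => (B n).card < θ) τ)).card < θ :=
          Nat.findGreatest_spec (P := fun n => (B n).card < θ) (Nat.zero_le τ) hB0
        rw [h] at h1
        omega
      · exact Nat.findGreatest_spec (P := fun n => (B n).card < θ) (Nat.zero_le τ) hB0
      · intro n h1 h2
        have := Nat.findGreatest_is_greatest (P := fun n => (B n).card < θ) h1 h2
        omega
    -- the last layer of the lower half
    have hI : ∀ n, s < n → n ≤ τ → ∀ t', (a + (D - 1), t') ∈ A n →
        t' ∈ clo nb (A τ) a (D - 1) := by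
      intro n h1 h2 t' ht'
      have h3 := hQ a (τ - n) (fun i => A (τ - i)) (by
        intro i hi
        have e : τ - i = τ - (i + 1) + 1 := by omega
        show Stp nb a (A (τ - i)) (A (τ - (i + 1)))
        rw [e]
        exact (hAs _ (by omega)).symm) (by
        intro i hi
        rw [← hD]
        exact hAl _ (by omega)) (by
        show (A (τ - 0)).card < θ
        rw [Nat.sub_zero]
        exact hAτ) (by
        intro i hi
        show (A (τ - i)).card < k * θ
        have h4 := hcard (τ - i)
        have h5 := hc (τ - i) (by omega)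
        have h6 := hs3 (τ - i) (by omega) (by omega)
        rw [Nat.succ_mul] at h5
        omega) t' (by
        show (a + (dep θ k - 1), t') ∈ A (τ - (τ - n))
        rw [← hD, show τ - (τ - n) = n by omega]
        exact ht')
      rw [← hD] at h3
      exact h3
    obtain ⟨I, hIdef⟩ : ∃ I : Finset (Fin w), I = clo nb (A τ) a (D - 1) := ⟨_, rfl⟩
    rw [← hIdef] at hI
    have hIc : I.card < θ := by
      have h1 := clo_size hnb (A τ) a (by omega) (D - 1)
      have h2 := xs_le (A τ) a (D - 1)
      rw [sum_range_succ, ← hIdef] at h1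
      omega
    obtain ⟨b, hb⟩ : ∃ b, b = a + (D - 1) := ⟨_, rfl⟩
    obtain ⟨X, hX⟩ : ∃ X : Finset (ℕ × Fin w), X = (I.image fun t' => (b, t')) ∪ B s := ⟨_, rfl⟩
    have hXc : X.card < 2 * θ := by
      have h1 : X.card ≤ (I.image fun t' => (b, t')).card + (B s).card := by
        rw [hX]
        exact card_union_le _ _
      have h2 : (I.image fun t' => (b, t')).card ≤ I.card := card_image_le
      omega
    have hIX : ∀ t', t' ∈ I → t' ∈ clo nb X b 0 := by
      intro t' ht'
      rw [mem_clo_zero, hX, mem_union]
      exact Or.inl (mem_image_of_mem _ ht')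
    have hmain : ∀ n, s ≤ n → n ≤ τ → ∀ v ∈ B n, v.2 ∈ clo nb X b (v.1 - b) := by
      intro n hsn
      induction n, hsn using Nat.le_induction with
      | base =>
        intro _ v hv
        have h1 := hBl s (by omega) v hv
        apply mem_clo_of_mem
        rw [show b + (v.1 - b) = v.1 by omega, hX, mem_union]
        exact Or.inr hv
      | succ n hn ih =>
        intro hn' v hv
        by_cases hvn : v ∈ B n
        · exact ih (by omega) v hvn
        · have hv1 := hBl (n + 1) (by omega) v hv
          have hvC' : v ∈ C (n + 1) := by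
            rw [hB, mem_filter] at hv
            exact hv.1
          have hvC : v ∉ C n := by
            intro h
            apply hvn
            rw [hB, mem_filter]
            exact ⟨h, hv1.1⟩
          rcases hs n (by omega) with h1 | ⟨u, h1, h2⟩
          · rw [h1] at hvC
            exact absurd hvC' hvC
          · have huv : v = u := by
              by_contra h3
              exact hvC ((h1 v h3).2 hvC')
            rw [← huv] at h1 h2
            have h3 := h2 (by omega)
            have e : v.1 - b = (v.1 - 1 - b) + 1 := by omega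
            rw [e, mem_clo_succ]
            refine Or.inr fun c => ?_
            rcases Nat.lt_or_ge (v.1 - 1) (a + D) with h4 | h4
            · -- predecessors in the lower half
              have e2 : v.1 - 1 = b := by omega
              rw [show v.1 - 1 - b = 0 by omega]
              apply hIX
              apply hI (n + 1) (by omega) hn'
              rw [hA, mem_filter]
              have h5 := h3 c
              rw [e2] at h5
              refine ⟨(h1 _ ?_).1 (by rw [← hb]; exact h5), by show a + (D - 1) < a + D; omega⟩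
              intro h6
              have := (Prod.ext_iff.1 h6).1
              simp only at this
              omega
            · have h5 : (v.1 - 1, nb v.2 c) ∈ B n := by
                rw [hB, mem_filter]
                exact ⟨h3 c, h4⟩
              exact ih (by omega) _ h5
    have h1 : (B τ).card ≤ ∑ j ∈ range (D + 1), (clo nb X b j).card := by
      refine card_layers_le (fun j => clo nb X b j) b D (B τ) fun v hv => ?_
      have h2 := hBl τ hτ v hv
      exact ⟨by omega, by omega, hmain τ (by omega) le_rfl v hv⟩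
    have h2 := clo_size hnb X b (by omega) D
    have h3 := xs_le X b D
    omega

theorem seg_all {θ : ℕ} (hθ : 1 ≤ θ) (hnb : Expands nb (4 * θ)) {k : ℕ} (hk : 4 ≤ k) :
    Seg nb θ k := by
  induction k, hk using Nat.le_induction with
  | base => exact seg_four hθ hnb
  | succ k hk ih => exact seg_succ hθ hk hnb ih

/-- **Reversible pebbling.** With fewer than `k θ` pebbles no node of depth `8 θ 2 ^ (k - 4) - 1`
is reached. -/
theorem peb {w θ k : ℕ} {nb : Fin w → Fin 16 → Fin w} (hnb : Expands nb (4 * θ)) (hk : 4 ≤ k)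
    (T : ℕ) (C : ℕ → Finset (ℕ × Fin w)) (h0 : C 0 = ∅) (hs : ∀ n < T, Stp nb 0 (C n) (C (n + 1)))
    (hc : ∀ n ≤ T, (C n).card < k * θ) (hl : ∀ n ≤ T, ∀ u ∈ C n, u.1 < 8 * θ * 2 ^ (k - 4))
    (t : Fin w) : (8 * θ * 2 ^ (k - 4) - 1, t) ∉ C T := by
  intro ht
  rcases Nat.eq_zero_or_pos θ with rfl | hθ
  · have := hc 0 (Nat.zero_le _)
    simp at this
  · have h1 := seg_all hθ hnb hk 0 T C hs (by
      intro n hn u hu
      rw [zero_add]
      exact ⟨Nat.zero_le _, hl n hn u hu⟩) (by rw [h0, card_empty]; exact hθ) hc t (by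
      rw [zero_add]
      exact ht)
    have h2 := clo_size hnb (C 0) 0 (by rw [h0, card_empty]; omega) (dep θ k - 1)
    have h3 := xs_le (C 0) 0 (dep θ k - 1)
    rw [h0, card_empty] at h3
    have h4 : (clo nb (C 0) 0 (dep θ k - 1)).card = 0 := by
      rw [h0] at h2 ⊢
      omega
    rw [card_eq_zero] at h4
    rw [h4] at h1
    exact absurd h1 (notMem_empty _)

end Pool.Agent.NLP
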