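import Pool.Agent.NLP.Savitch

set_option autoImplicit false

/-!
# Savitch's bound for the evaluation problem with `n` nodes and `n` input variables
-/

namespace Pool.Agent.NLP

open Pool.Agent.TeleNeg Pool.Agent.NTR Pool.Agent.NTN

open Classical in
/-- The evaluation problem is computed by monotone switching networks with `n ^ (200 log n)` nodes. -/
theorem ev_savitch_n {n : ℕ} (hn1 : 1 ≤ n) :
    ∃ M : Net (EvVar n n) (n ^ (200 * Nat.log 2 n)), ∀ y, M.val y = ev y := by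
  rcases Nat.lt_or_ge n 2 with h | hn
  · obtain rfl : n = 1 := by omega
    refine ⟨⟨∅, ⟨0, by positivity⟩, ⟨0, by positivity⟩⟩, fun y => ?_⟩
    have h1 : (⟨∅, ⟨0, by positivity⟩, ⟨0, by positivity⟩⟩ :
        Net (EvVar 1 1) (1 ^ (200 * Nat.log 2 1))).val y = true := by
      simp only [Net.val, decide_eq_true_eq]
      exact Relation.ReflTransGen.refl
    rw [h1]
    symm
    unfold ev
    exact decide_eq_true ⟨0, 0, rfl, rfl, Relation.ReflTransGen.refl⟩
  obtain ⟨N, hN⟩ := ev_dnet n n hn1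
  obtain ⟨L, hL⟩ : ∃ L, L = Nat.log 2 n := ⟨_, rfl⟩
  have hL1 : 1 ≤ L := by
    rw [hL]
    exact Nat.log_pos (by norm_num) hn
  have hnL : n < 2 ^ (L + 1) := by
    rw [hL]
    exact Nat.lt_pow_succ_log_self (by norm_num) n
  have hsize : n + n * n * (n + 1) ≤ n ^ 5 := by
    have h1 : n * n * (n + 1) = n ^ 3 + n ^ 2 := by ring
    have h2 : n ≤ n ^ 3 := Nat.le_self_pow (by norm_num) n
    have h3 : n ^ 2 ≤ n ^ 3 := Nat.pow_le_pow_right (by omega) (by norm_num)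
    have h4 : n ^ 5 = n ^ 3 * (n * n) := by ring
    have h5 : 2 * 2 ≤ n * n := Nat.mul_le_mul hn hn
    have h6 : n ^ 3 * 4 ≤ n ^ 3 * (n * n) := Nat.mul_le_mul_left _ h5
    omega
  have hs : n ^ 5 ≤ 2 ^ (5 * (L + 1)) := by
    calc n ^ 5 ≤ (2 ^ (L + 1)) ^ 5 := Nat.pow_le_pow_left hnL.le 5
      _ = 2 ^ (5 * (L + 1)) := by rw [← pow_mul, mul_comm]
  obtain ⟨M, hM⟩ := exists_savitch (hsize.trans hs) N
  have hfin : 2 * (4 * (n + n * n * (n + 1))) ^ (5 * (L + 1)) ≤ n ^ (200 * Nat.log 2 n) := by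
    rw [← hL]
    have h1 : 4 * (n + n * n * (n + 1)) ≤ n ^ 7 := by
      have h5 : 2 * 2 ≤ n * n := Nat.mul_le_mul hn hn
      calc 4 * (n + n * n * (n + 1)) ≤ (n * n) * n ^ 5 := Nat.mul_le_mul h5 hsize
        _ = n ^ 7 := by ring
    calc 2 * (4 * (n + n * n * (n + 1))) ^ (5 * (L + 1))
        ≤ n * (n ^ 7) ^ (5 * (L + 1)) := Nat.mul_le_mul hn (Nat.pow_le_pow_left h1 _)
      _ = n ^ (7 * (5 * (L + 1)) + 1) := by rw [← pow_mul, pow_succ]; ring
      _ ≤ n ^ (200 * L) := Nat.pow_le_pow_right (by omega) (by omega)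
  exact ⟨padNet hfin M, fun y => by rw [padNet_val, hM, hN]⟩

end Pool.Agent.NLP
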