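import Pool.Agent.NLP.EvK
import Pool.Agent.NLP.EvNet
import Pool.Agent.XL.Savitch

set_option autoImplicit false

/-!
# Savitch's theorem for networks, and the final form of the lower bound

`exists_savitch`: the function of a directed network with `S ≤ 2 ^ s` nodes is computed by a monotone
switching network with `2 (4 S) ^ s` nodes. `ev_savitch`: evaluation of nondeterministic branching
programs is computed by monotone switching networks with `n ^ (C log n)` nodes.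
-/

namespace Pool.Agent.NLP

open Finset Pool.Agent.XL Pool.Agent.NTR Pool.Agent.NTN Pool.Agent.TeleNeg Relation
open scoped BigOperators

/-- the contacts with the end points `a`, `b` -/
private theorem exists_step {ι : Type} {S : ℕ} (N : Net ι S) (a b : Fin S) :
    ∃ M : Net ι 2, ∀ x, M.val x = true ↔ (a = b ∨ N.Step x a b) := by
  refine ⟨{ contacts := {c | c.1 = 0 ∧ c.2.1 = 1 ∧ ((a = b ∧ c.2.2 = none) ∨
    (a, b, c.2.2) ∈ N.contacts)}, src := 0, tgt := 1 }, fun x => ?_⟩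
  rw [val_iff]
  constructor
  · intro h
    rcases ReflTransGen.cases_head h with h1 | ⟨d, ⟨l, hl, hx⟩, -⟩
    · exact absurd (show (0 : Fin 2) = 1 from h1) (by decide)
    · rcases hl with hl | hl
      · rcases hl.2.2 with h2 | h2
        · exact Or.inl h2.1
        · exact Or.inr ⟨l, h2, hx⟩
      · rcases hl.2.2 with h2 | h2
        · exact Or.inl h2.1
        · exact Or.inr ⟨l, h2, hx⟩
  · rintro (h | ⟨l, hl, hx⟩)
    · exact ReflTransGen.single ⟨none, Or.inl ⟨rfl, rfl, Or.inl ⟨h, rfl⟩⟩, by simp⟩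
    · exact ReflTransGen.single ⟨l, Or.inl ⟨rfl, rfl, Or.inr hl⟩, hx⟩

private theorem exists_steps {ι : Type} {S : ℕ} (hS : 1 ≤ S) (N : Net ι S) : ∀ (j : ℕ)
    (a b : Fin S), ∃ M : Net ι (2 * (4 * S) ^ j), ∀ x, M.val x = true ↔ Steps (N.Step x) (2 ^ j) a b
  | 0, a, b => by
    obtain ⟨M, hM⟩ := exists_step N a b
    refine ⟨padNet (by simp) M, fun x => ?_⟩
    rw [padNet_val, hM]
    constructor
    · rintro h
      exact ⟨a, rfl, h⟩
    · rintro ⟨c, hc, h⟩
      have hc : a = c := hc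
      rw [hc]
      exact h
  | j + 1, a, b => by
    choose M hM using exists_steps hS N j
    choose A hA hA' using fun c : Fin S => exists_and2 (M a c) (M c b)
    obtain ⟨R, hR, -⟩ := Pool.Agent.NTR.exists_orNet A
    have hle : S * (2 * (2 * (4 * S) ^ j) + 2) + 2 ≤ 2 * (4 * S) ^ (j + 1) := by
      have h1 : 1 ≤ (4 * S) ^ j := Nat.one_le_pow _ _ (by omega)
      obtain ⟨T, hT⟩ : ∃ T, T = (4 * S) ^ j := ⟨_, rfl⟩
      rw [pow_succ, ← hT]
      rw [← hT] at h1
      have h2 : S ≤ S * T := Nat.le_mul_of_pos_right _ h1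
      have h3 : 1 ≤ S * T := hS.trans h2
      have e1 : S * (2 * (2 * T) + 2) + 2 = 4 * (S * T) + 2 * S + 2 := by ring
      have e2 : 2 * (T * (4 * S)) = 8 * (S * T) := by ring
      rw [e1, e2]
      omega
    refine ⟨padNet hle R, fun x => ?_⟩
    rw [padNet_val, hR, show 2 ^ (j + 1) = 2 ^ j + 2 ^ j by rw [pow_succ]; ring, steps_add]
    refine exists_congr fun c => ?_
    rw [hA, Bool.and_eq_true, hM, hM]

/-- **Savitch's theorem for networks.** -/
theorem exists_savitch {ι : Type} {S s : ℕ} (hS : S ≤ 2 ^ s) (N : Net ι S) :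
    ∃ M : Net ι (2 * (4 * S) ^ s), ∀ x, M.val x = N.dval x := by
  have hS1 : 1 ≤ S := by
    have := N.src.2
    omega
  obtain ⟨M, hM⟩ := exists_steps hS1 N s N.src N.tgt
  refine ⟨M, fun x => ?_⟩
  rw [Bool.eq_iff_iff, hM, dval_iff]
  exact ⟨rtg_of_steps _ _, fun h => steps_le _ hS (steps_of_rtg h)⟩

/-- **Evaluation of nondeterministic branching programs by monotone switching networks** (Savitch):
programs with at most `n ^ 2` nodes. -/
theorem ev_savitch_le {m n : ℕ} (hn : 2 ≤ n) (hm : 1 ≤ m) (hmn : m ≤ n ^ 2) :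
    ∃ M : Net (EvVar m n) (n ^ (200 * Nat.log 2 n)), ∀ y, M.val y = ev y := by
  obtain ⟨N, hN⟩ := ev_dnet m n hm
  obtain ⟨L, hL⟩ : ∃ L, L = Nat.log 2 n := ⟨_, rfl⟩
  have hL1 : 1 ≤ L := by
    rw [hL]
    exact Nat.log_pos (by norm_num) hn
  have hnL : n < 2 ^ (L + 1) := by
    rw [hL]
    exact Nat.lt_pow_succ_log_self (by norm_num) n
  have hsize : m + m * m * (n + 1) ≤ n ^ 7 := by
    have h0 : m + m * m * (n + 1) ≤ n ^ 2 + n ^ 2 * n ^ 2 * (n + 1) := by gcongr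
    have h1 : n ^ 2 * n ^ 2 * (n + 1) = n ^ 5 + n ^ 4 := by ring
    have h2 : n ^ 2 ≤ n ^ 5 := Nat.pow_le_pow_right (by omega) (by norm_num)
    have h3 : n ^ 4 ≤ n ^ 5 := Nat.pow_le_pow_right (by omega) (by norm_num)
    have h4 : n ^ 7 = n ^ 5 * (n * n) := by ring
    have h5 : 2 * 2 ≤ n * n := Nat.mul_le_mul hn hn
    have h6 : n ^ 5 * 4 ≤ n ^ 5 * (n * n) := Nat.mul_le_mul_left _ h5
    omega
  have hs : n ^ 7 ≤ 2 ^ (7 * (L + 1)) := by
    calc n ^ 7 ≤ (2 ^ (L + 1)) ^ 7 := Nat.pow_le_pow_left hnL.le 7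
      _ = 2 ^ (7 * (L + 1)) := by rw [← pow_mul, mul_comm]
  obtain ⟨M, hM⟩ := exists_savitch (hsize.trans hs) N
  have hfin : 2 * (4 * (m + m * m * (n + 1))) ^ (7 * (L + 1)) ≤ n ^ (200 * Nat.log 2 n) := by
    rw [← hL]
    have h1 : 4 * (m + m * m * (n + 1)) ≤ n ^ 9 := by
      have h5 : 2 * 2 ≤ n * n := Nat.mul_le_mul hn hn
      calc 4 * (m + m * m * (n + 1)) ≤ (n * n) * n ^ 7 := Nat.mul_le_mul h5 hsize
        _ = n ^ 9 := by ring
    calc 2 * (4 * (m + m * m * (n + 1))) ^ (7 * (L + 1))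
        ≤ n * (n ^ 9) ^ (7 * (L + 1)) := Nat.mul_le_mul hn (Nat.pow_le_pow_left h1 _)
      _ = n ^ (9 * (7 * (L + 1)) + 1) := by rw [← pow_mul, pow_succ]; ring
      _ ≤ n ^ (200 * L) := Nat.pow_le_pow_right (by omega) (by omega)
  exact ⟨padNet hfin M, fun y => by rw [padNet_val, hM, hN]⟩

/-- The same with a constant, all sizes up to `n ^ 2`. -/
theorem ev_savitch_all : ∃ C : ℕ, ∀ m n : ℕ, 2 ≤ n → 1 ≤ m → m ≤ n ^ 2 →
    ∃ M : Net (EvVar m n) (n ^ (C * Nat.log 2 n)), ∀ y, M.val y = ev y :=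
  ⟨200, fun _ _ hn hm hmn => ev_savitch_le hn hm hmn⟩

/-- The same for `n ^ 2` nodes. -/
theorem ev_savitch {n : ℕ} (hn : 2 ≤ n) :
    ∃ M : Net (EvVar (n ^ 2) n) (n ^ (200 * Nat.log 2 n)), ∀ y, M.val y = ev y :=
  ev_savitch_le hn (Nat.one_le_pow _ _ (by omega)) le_rfl

open Classical in
/-- **Evaluation of nondeterministic branching programs, every size**, final form. -/
theorem ev_onK : ∃ C : ℕ, ∀ (n k : ℕ) (U : Finset (Fin n)), 2 ≤ n →
    Nat.log 2 (Nat.log 2 n) ≤ k → U.Nonempty →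
    ∃ (ρ : EvVar (n ^ 2) n → Bool) (μ : (EvVar (n ^ 2) n → Bool) → ℝ), (∀ y, 0 ≤ μ y) ∧
      ∑ y, μ y = 1 ∧ (∀ y, μ y ≠ 0 → ∀ v, v ∉ inU (n ^ 2) U → y v = ρ v) ∧
      ∀ S : ℕ, 1 ≤ S → S ^ C ≤ n ^ k →
        (∀ (t : ℕ) (A : (EvVar (n ^ 2) n → Bool) → Bool),
          NotGatesOn (lClass S) (inU (n ^ 2) U) t A →
          ∑ y with A y = ev y, μ y ≤ 1 / 2 + 1 / S + 2 ^ t * 2 ^ (C * k) / U.card) ∧
        ∀ (ts : List ℕ) (b : ℕ) (A : (EvVar (n ^ 2) n → Bool) → Bool), ts.sum ≤ S →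
          Tries (lClass S) (inU (n ^ 2) U) ts 1 b A →
          ∑ y with A y = ev y, μ y ≤ 1 / 2 + 1 / S + b * 2 ^ (C * k) / U.card := by
  refine ⟨10 ^ 10, fun n k U hn hkL hU => ?_⟩
  obtain ⟨C, hC⟩ : ∃ C : ℕ, C = 10 ^ 10 := ⟨_, rfl⟩
  rw [← hC]
  rcases Nat.eq_zero_or_pos k with rfl | hk
  · have hμ0 : ∀ y : EvVar (n ^ 2) n → Bool, (0 : ℝ) ≤ if y = (fun _ => false) then 1 else 0 := by
      intro y
      split_ifs <;> norm_num
    have hμ1 : ∑ y : EvVar (n ^ 2) n → Bool, (if y = (fun _ => false) then (1 : ℝ) else 0) = 1 := by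
      rw [sum_ite_eq' univ]
      simp
    refine ⟨fun _ => false, fun y => if y = (fun _ => false) then 1 else 0, hμ0, hμ1, ?_, ?_⟩
    · intro y hy v _
      have e1 : y = fun _ => false := by
        by_contra h
        exact hy (if_neg h)
      rw [e1]
    · intro S hS1 hS
      have hSone : S = 1 := by
        by_contra hne
        have h2 : 2 ≤ S := by omega
        have h3 : 2 ^ C ≤ S ^ C := Nat.pow_le_pow_left h2 C
        have h4 : 2 ^ 1 ≤ 2 ^ C := Nat.pow_le_pow_right (by norm_num) (by rw [hC]; norm_num)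
        rw [pow_zero] at hS
        omega
      rw [hSone]
      refine ⟨fun t A _ => (sum_le_one hμ0 hμ1 (fun y => A y = ev y)).trans ?_,
        fun ts b A _ _ => (sum_le_one hμ0 hμ1 (fun y => A y = ev y)).trans ?_⟩
      · have h5 : (0 : ℝ) ≤ 2 ^ t * 2 ^ (C * 0) / U.card := by positivity
        norm_num
        norm_num at h5
        linarith
      · have h5 : (0 : ℝ) ≤ b * 2 ^ (C * 0) / U.card := by positivity
        norm_num
        norm_num at h5
        linarith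
  · exact ev_on_of_k hC.ge U hn hk hkL hU

end Pool.Agent.NLP
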