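import Pool.Agent.NLP.Many
import Pool.Agent.AVZ.Main

set_option autoImplicit false

/-!
# Zeros must be seen even to be right on 51% of the inputs
-/

namespace Pool.Agent.NLP

open Finset Pool.Agent.TeleNeg Pool.Agent.NTR.Gen Pool.Agent.NWE Pool.Agent.GB24.Loc Pool.Agent.XL
open scoped BigOperators

/-- The devices `D y` are right on `z` seeing at most `w` zeros in `U`: `f z = 1` and some `D y`
accepts `z` with all negated variables in `U` switched off except those of a set `Z` of zeros,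
`|Z| ≤ w`, or `f z = 0` and no `D y` accepts `z`. -/
def Right {ι Y : Type} (f : (ι → Bool) → Bool) (U : Finset ι) (w : ℕ)
    (D : Y → (ι ⊕ ι → Bool) → Bool) (z : ι → Bool) : Prop :=
  (f z = true ∧ ∃ (y : Y) (Z : Finset ι), Z ⊆ U ∧ (∀ e ∈ Z, z e = false) ∧ Z.card ≤ w ∧
    D y (litsOn U Z z) = true) ∨
  (f z = false ∧ ∀ y, D y (lits z) = false)

open Classical in
/-- For some probability distribution `μ` on inputs which agree with some `ρ` outside `U`: devices
`D y` of the class `K` on the literals (`y` in any set), at most `Q` of them accepting an input which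
agrees with `ρ` outside `U`, are right seeing at most `w` zeros in `U` with probability at most
`1 / 2 + δ + w c`. -/
def SeesAvg {ι : Type} [Fintype ι] [DecidableEq ι] (K : ((ι ⊕ ι → Bool) → Bool) → Prop)
    (f : (ι → Bool) → Bool) (U : Finset ι) (Q : ℕ) (δ c : ℝ) : Prop :=
  ∃ (ρ : ι → Bool) (μ : (ι → Bool) → ℝ), (∀ z, 0 ≤ μ z) ∧ ∑ z, μ z = 1 ∧
    (∀ z, μ z ≠ 0 → ∀ e, e ∉ U → z e = ρ e) ∧
    ∀ (Y : Type) (w : ℕ) (D : Y → (ι ⊕ ι → Bool) → Bool), (∀ y, K (D y)) →
      (∀ z, (∀ e, e ∉ U → z e = ρ e) → {y | D y (lits z) = true}.encard ≤ Q) →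
      ∑ z with Right f U w D z, μ z ≤ 1 / 2 + δ + w * c

theorem SeesAvg.mono {ι : Type} [Fintype ι] [DecidableEq ι] {K K' : ((ι ⊕ ι → Bool) → Bool) → Prop}
    {f : (ι → Bool) → Bool} {U : Finset ι} {Q Q' : ℕ} {δ δ' c c' : ℝ} (h : SeesAvg K f U Q δ c)
    (hK : ∀ G, K' G → K G) (hQ : Q' ≤ Q) (hδ : δ ≤ δ') (hc : c ≤ c') : SeesAvg K' f U Q' δ' c' := by
  classical
  obtain ⟨ρ, μ, h1, h2, h3, h4⟩ := h
  refine ⟨ρ, μ, h1, h2, h3, fun Y w D hD hQ' => ?_⟩
  refine (h4 Y w D (fun y => hK _ (hD y)) fun z hz => (hQ' z hz).trans ?_).trans ?_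
  · exact_mod_cast hQ
  · have h5 : (w : ℝ) * c ≤ w * c' := mul_le_mul_of_nonneg_left hc (Nat.cast_nonneg w)
    linarith

/-- Devices on the literals. -/
theorem sees_of_hardAvg {ι : Type} [Fintype ι] [DecidableEq ι] (K : MonoClass)
    {f : (ι → Bool) → Bool} {U : Finset ι} {Q : ℕ} {δ c : ℝ}
    (h : AVZ.HardAvg (fun z => f z = true) U
      (fun D => ∃ F, K.mem (ι ⊕ ι) F ∧ ∀ p, D p = F (known p)) Q δ c) :
    SeesAvg (K.mem (ι ⊕ ι)) f U Q δ c := by
  classical
  obtain ⟨ρ, μ, h1, h2, h3, h4⟩ := h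
  refine ⟨ρ, μ, h1, h2, h3, fun Y w D hD hQ => ?_⟩
  -- the relevant devices
  have hfin : Set.Finite {y : Y | ∃ z, (∀ e, e ∉ U → z e = ρ e) ∧ D y (lits z) = true} := by
    have h5 : {y : Y | ∃ z, (∀ e, e ∉ U → z e = ρ e) ∧ D y (lits z) = true} ⊆
        ⋃ z ∈ {z : ι → Bool | ∀ e, e ∉ U → z e = ρ e}, {y | D y (lits z) = true} := by
      rintro y ⟨z, hz, hy⟩
      simp only [Set.mem_iUnion]
      exact ⟨z, hz, hy⟩
    refine Set.Finite.subset (Set.Finite.biUnion (Set.toFinite _) fun z hz => ?_) h5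
    exact (Set.encard_le_coe_iff.1 (hQ z hz)).1
  set Y' : Finset Y := hfin.toFinset with hY'
  have hmem : ∀ y z, (∀ e, e ∉ U → z e = ρ e) → D y (lits z) = true → y ∈ Y' := fun y z hz hy =>
    hfin.mem_toFinset.2 ⟨z, hz, hy⟩
  have h6 := h4 {y // y ∈ Y'} w (fun y p => D y.1 (known p))
    (fun y => ⟨D y.1, hD y.1, fun _ => rfl⟩) (fun z hz => by
      have h7 := hQ z hz
      have h8 : {y : {y // y ∈ Y'} | D y.1 (known fun v => some (z v)) = true}.encard ≤ (Q : ℕ∞) := by
        refine le_trans ?_ h7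
        rw [known_some]
        exact Set.encard_le_encard_of_injOn (f := fun y : {y // y ∈ Y'} => y.1)
          (fun y hy => hy) fun y _ y' _ h => Subtype.ext h
      rw [Set.encard_le_coe_iff_finite_ncard_le] at h8
      exact h8.2)
  refine le_trans ?_ h6
  rw [Finset.sum_filter, Finset.sum_filter]
  refine Finset.sum_le_sum fun z _ => ?_
  by_cases hμ : μ z = 0
  · rw [hμ]
    simp
  have hz := h3 z hμ
  by_cases hr : Right f U w D z
  · rw [if_pos hr, if_pos]
    rcases hr with ⟨hf, y, Z, hZ, h0, hZw, hy⟩ | ⟨hf, hy⟩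
    · refine Or.inl ⟨hf, ⟨y, ?_⟩, Z, hZ, hZw, h0, ?_⟩
      · refine hmem y z hz ?_
        have h9 : litsOn U Z z ≤ lits z := by
          rintro (v | v)
          · exact le_rfl
          · simp only [litsOn, lits, Sum.elim_inr]
            by_cases hv : v ∈ U
            · by_cases hvZ : v ∈ Z
              · simp [hv, hvZ, h0 v hvZ]
              · simp [hv, hvZ]
            · simp [hv]
        have h10 := K.mono _ _ (hD y) h9
        rw [hy] at h10
        exact top_le_iff.1 h10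
      · change D y (known (NWE.hide U Z z)) = true
        rw [known_hide U Z z h0, XL.MainAbs.litsOn_eq]
        exact hy
    · refine Or.inr ⟨by simp [hf], fun y => ?_⟩
      change D y.1 (known fun v => some (z v)) = false
      rw [known_some]
      exact hy y.1
  · rw [if_neg hr]
    split_ifs
    · exact h1 z
    · exact le_rfl

end Pool.Agent.NLP
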